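import Pool.Agent.Lib.MP_305fdd_al.F8.StmHN

/-!
# MP_305fdd_al, F8, block HN: block G with the values of `Ψ`
-/

set_option autoImplicit false
set_option linter.unusedSimpArgs false
set_option linter.unreachableTactic false
set_option linter.unusedTactic false

namespace Pool.Agent.F8.G

open scoped QuadraticAlgebra

private theorem G2_aux : ∃ Ψ : Npre →* N2, ∀ x : Npre, Th (Ψ x) = pj x.val := by
  obtain ⟨f, fU, fJ, fB⟩ := pres (table relN)
  have fA : f (ma O) = pA nu nv na kk := by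
    have := fU 1
    unfold ee at this
    rw [QuadraticAlgebra.re_one, QuadraticAlgebra.im_one, zpow_one, zpow_zero, mul_one] at this
    exact this
  have fW : f (mU (om ℤ)) = pU nu nv na kk := by
    rw [fU]
    unfold ee
    rw [om_re, om_im, zpow_one, zpow_zero, one_mul]
  have hT : ∀ g, g ∈ TT f := SL_sub (TT f)
    (mkP_TT _ f _ _ _ _ _ fA gen_A) (mkP_TT _ f _ _ _ _ _ fW gen_U)
    (mkP_TT _ f _ _ _ _ _ fJ gen_J) (mkP_TT _ f _ _ _ _ _ fB gen_B)
  have hV : ∀ g, pj g = V (f g (0, 1)) := by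
    intro g
    rw [← (hT g).1 (0, 1)]
    show pj g = pj g * (pj 1 * Th 1)
    rw [map_one, map_one, mul_one, mul_one]
  have h0 : ∀ x : Npre, (f x.val (0, 1)).1 = 0 := by
    intro x
    apply rr_St
    have h1 := congrArg r2p (hV x.val)
    have h2 : r2p (V (f x.val (0, 1))) = r2 (rr (f x.val (0, 1)).1) * r2p (Th (f x.val (0, 1)).2) := by
      unfold V
      rw [map_mul]; rfl
    rw [h2] at h1
    have h3 : r2 (rr (f x.val (0, 1)).1) = r2 x.val * (r2p (Th (f x.val (0, 1)).2))⁻¹ := by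
      rw [eq_mul_inv_iff_mul_eq]; exact h1.symm
    rw [h3]
    exact St.mul_mem (D5_le x.2) (St.inv_mem (Th_St _))
  have hp : ∀ x : Npre, f x.val (0, 1) = (0, (f x.val (0, 1)).2) := fun x => Prod.ext (h0 x) rfl
  refine ⟨⟨⟨fun x => (f x.val (0, 1)).2, by
    show (f (1 : SL2 O) (0, 1)).2 = 1
    rw [map_one]; rfl⟩, ?_⟩, ?_⟩
  · intro x y
    show (f (x.val * y.val) (0, 1)).2 = (f x.val (0, 1)).2 * (f y.val (0, 1)).2
    rw [map_mul, Equiv.Perm.mul_apply]
    have h1 : f y.val (0, 1) = rt (f y.val (0, 1)).2 (0, 1) := by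
      conv_lhs => rw [hp y]
      unfold rt
      rw [one_mul]
    conv_lhs => rw [h1, (hT x.val).2]
    rfl
  · intro x
    have h1 := hV x.val
    rw [hp x] at h1
    rw [h1]
    show Th (f x.val (0, 1)).2 = pj 1 * Th (f x.val (0, 1)).2
    rw [map_one, one_mul]

end Pool.Agent.F8.G

namespace Pool.Agent.F8.HN

theorem p_G2 : S_G2 := G.G2_aux

end Pool.Agent.F8.HN
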