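import Pool.Agent.Lib.MP_305fdd_al.F8.StmB

/-!
# MP_305fdd_al, figure-eight knot group: piece `wc`, conjugation and the obstruction `W`
-/

set_option autoImplicit false

namespace Pool.Agent.F8

/-- the translation part of a conjugate -/
theorem wc_v {R : Type} [CommRing R] (q x : Q2 R) : (q * x * q⁻¹).v =
    q.t.val • q.m.val.mulVec x.v - (Q2.X (q * x * q⁻¹)).mulVec q.v := by
  have ht : (q * x * q⁻¹).t = x.t := by
    simp only [Q2.mul_t, Q2.inv_t]; rw [mul_comm q.t, mul_assoc, mul_inv_cancel, mul_one]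
  have hm : (q * x * q⁻¹).m = q.m * x.m * (q.m)⁻¹ := rfl
  unfold Q2.X
  rw [ht, hm, Matrix.sub_mulVec, Matrix.one_mulVec, Matrix.smul_mulVec]
  simp only [Q2.mul_v, Q2.inv_v, Q2.mul_t, Q2.mul_m, Matrix.mulVec_neg, Matrix.mulVec_smul,
    Matrix.mulVec_mulVec, Matrix.SpecialLinearGroup.coe_mul]
  rw [smul_neg, smul_smul, ← Units.val_mul]
  have : q.t * x.t * (q.t)⁻¹ = x.t := by
    rw [mul_comm q.t, mul_assoc, mul_inv_cancel, mul_one]
  rw [this]
  abel

/-- the matrix `X` of a conjugate -/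
theorem wc_X {R : Type} [CommRing R] (q x : Q2 R) : Q2.X (q * x * q⁻¹) =
    q.m.val * Q2.X x * ((q.m)⁻¹).val := by
  have ht : (q * x * q⁻¹).t = x.t := by
    simp only [Q2.mul_t, Q2.inv_t]; rw [mul_comm q.t, mul_assoc, mul_inv_cancel, mul_one]
  have hm : (q * x * q⁻¹).m = q.m * x.m * (q.m)⁻¹ := rfl
  have h1 : q.m.val * ((q.m)⁻¹).val = 1 := by
    rw [← Matrix.SpecialLinearGroup.coe_mul, mul_inv_cancel, Matrix.SpecialLinearGroup.coe_one]
  unfold Q2.X
  rw [ht, hm, mul_sub, sub_mul, mul_one, h1, Matrix.SpecialLinearGroup.coe_mul,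
    Matrix.SpecialLinearGroup.coe_mul, Matrix.mul_smul, Matrix.smul_mul]

/-- [F8 wc] -/
theorem pf_wc : S_wc := by
  intro R _ q x y
  unfold Q2.W
  rw [wc_v, wc_v]
  generalize hX' : Q2.X (q * x * q⁻¹) = X'
  generalize hY' : Q2.X (q * y * q⁻¹) = Y'
  rw [wc_X] at hX' hY'
  have h1 : q.m.val * ((q.m)⁻¹).val = 1 := by
    rw [← Matrix.SpecialLinearGroup.coe_mul, mul_inv_cancel, Matrix.SpecialLinearGroup.coe_one]
  have h2 : ((q.m)⁻¹).val * q.m.val = 1 := by
    rw [← Matrix.SpecialLinearGroup.coe_mul, inv_mul_cancel, Matrix.SpecialLinearGroup.coe_one]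
  have hd : X'.det = (Q2.X x).det := by
    rw [← hX', Matrix.det_mul, Matrix.det_mul, mul_right_comm, ← Matrix.det_mul, h1,
      Matrix.det_one, one_mul]
  have ha1 : (q.m.val).adjugate = ((q.m)⁻¹).val := by
    rw [Matrix.SpecialLinearGroup.coe_inv]
  have ha2 : (((q.m)⁻¹).val).adjugate = q.m.val := by
    rw [← Matrix.SpecialLinearGroup.coe_inv, inv_inv]
  have hadj : X'.adjugate = q.m.val * (Q2.X x).adjugate * ((q.m)⁻¹).val := by
    rw [← hX', Matrix.adjugate_mul_distrib, Matrix.adjugate_mul_distrib, ha1, ha2, mul_assoc]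
  have hXX : X'.adjugate * X' = (Q2.X x).det • (1 : Matrix (Fin 2) (Fin 2) R) := by
    rw [Matrix.adjugate_mul, hd]
  rw [hd, Matrix.mulVec_sub (X'.adjugate), Matrix.mulVec_mulVec q.v, hXX, Matrix.mulVec_sub Y',
    Matrix.smul_mulVec, Matrix.one_mulVec, Matrix.mulVec_smul Y', smul_sub]
  have h3 : Y'.mulVec (X'.adjugate.mulVec (q.t.val • q.m.val.mulVec x.v)) =
      q.t.val • q.m.val.mulVec ((Q2.X y).mulVec ((Q2.X x).adjugate.mulVec x.v)) := by
    rw [Matrix.mulVec_smul, Matrix.mulVec_smul, Matrix.mulVec_mulVec, Matrix.mulVec_mulVec,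
      Matrix.mulVec_mulVec, Matrix.mulVec_mulVec, hadj, ← hY']
    congr 2
    calc q.m.val * Q2.X y * ((q.m)⁻¹).val * (q.m.val * (Q2.X x).adjugate * ((q.m)⁻¹).val) * q.m.val
        = q.m.val * Q2.X y * (((q.m)⁻¹).val * q.m.val) * (Q2.X x).adjugate *
          (((q.m)⁻¹).val * q.m.val) := by simp only [mul_assoc]
      _ = _ := by rw [h2, mul_one, mul_one, mul_assoc]
  rw [h3, Matrix.mulVec_sub, Matrix.mulVec_smul, smul_sub, smul_comm (Q2.X x).det q.t.val]
  abel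

end Pool.Agent.F8
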