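import Pool.Agent.Lib.MP_305fdd_al.F8.StmB

set_option autoImplicit false

namespace Pool.Agent.F8

open Pool.Agent.MP_305fdd_al Pool.Agent.Lib.MP_305fdd_al Pool.Agent.F2X
open scoped QuadraticAlgebra

/-- functoriality of `W` -/
theorem pf_wm : S_wm := by
  intro R S _ _ f x y i
  unfold Q2.W Q2.X
  simp only [mulVec2, Matrix.det_fin_two, Matrix.adjugate_fin_two]
  fin_cases i <;> simp [Matrix.sub_apply, Matrix.smul_apply, Matrix.one_apply]

end Pool.Agent.F8
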