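import Pool.Agent.Lib.MP_305fdd_al.F8.StmH

set_option autoImplicit false

namespace Pool.Agent.F8.H

open Pool.Agent.MP_305fdd_al Pool.Agent.Lib.MP_305fdd_al Pool.Agent.F2X Pool.Agent.F8 Matrix
open scoped QuadraticAlgebra

section bn

variable {K : Type} [Field K]

/-- the matrices `1, P, Q, P Q` -/
private def bn_B (P Q : SL2 K) : Fin 4 → Matrix (Fin 2) (Fin 2) K :=
  ![1, P.val, Q.val, P.val * Q.val]

private theorem bn_li (P Q : SL2 K) (h : tr (P * Q * P⁻¹ * Q⁻¹) ≠ 2) :
    LinearIndependent K (bn_B P Q) := by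
  have hP := P.det_coe
  have hQ := Q.det_coe
  rw [Matrix.det_fin_two] at hP hQ
  rw [tr_eq] at h
  simp only [Matrix.SpecialLinearGroup.coe_mul, Matrix.SpecialLinearGroup.coe_inv,
    Matrix.adjugate_fin_two, Matrix.mul_apply, Fin.sum_univ_two, Matrix.of_apply,
    Matrix.cons_val', Matrix.cons_val_zero, Matrix.cons_val_one, Matrix.cons_val_fin_one] at h
  rw [Fintype.linearIndependent_iff]
  intro c hc
  rw [Fin.sum_univ_four] at hc
  have e : ∀ i j, (c 0 • bn_B P Q 0 + c 1 • bn_B P Q 1 + c 2 • bn_B P Q 2 + c 3 • bn_B P Q 3) i j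
    = 0 := by
    intro i j; rw [hc]; rfl
  have e00 := e 0 0
  have e01 := e 0 1
  have e10 := e 1 0
  have e11 := e 1 1
  simp only [bn_B, Matrix.add_apply, Matrix.smul_apply, Matrix.cons_val_zero,
    Matrix.cons_val_one, Matrix.cons_val, Matrix.one_apply, Matrix.mul_apply, Fin.sum_univ_two,
    smul_eq_mul] at e00 e01 e10 e11
  generalize P.val 0 0 = a at *
  generalize P.val 0 1 = b at *
  generalize P.val 1 0 = c' at *
  generalize P.val 1 1 = d at *
  generalize Q.val 0 0 = e' at *
  generalize Q.val 0 1 = f at *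
  generalize Q.val 1 0 = g at *
  generalize Q.val 1 1 = k at *
  simp at e00 e01 e10 e11
  have hδ : (b * g - c' * f) * (b * g - c' * f) + (c' * (e' - k) - g * (a - d)) *
      (f * (a - d) - b * (e' - k)) ≠ 0 := by
    intro h0
    apply h
    linear_combination h0 + 2 * (e' * k - f * g) * hP + 2 * hQ
  have h3 : c 3 = 0 := by
    apply (mul_eq_zero.1 (?_ : _ * c 3 = 0)).resolve_left hδ
    linear_combination (c' * (e' - k) - g * (a - d)) * e01 - (b * (e' - k) - f * (a - d)) * e10 +
      (b * g - f * c') * (e00 - e11)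
  rw [h3] at e00 e01 e10 e11
  have h1 : c 1 = 0 := by
    by_cases k1 : b * g - c' * f = 0
    · by_cases k2 : c' * (e' - k) - g * (a - d) = 0
      · exfalso
        apply hδ
        rw [k1, k2]; ring
      · apply (mul_eq_zero.1 (?_ : _ * c 1 = 0)).resolve_left k2
        linear_combination (e' - k) * e10 - g * (e00 - e11)
    · apply (mul_eq_zero.1 (?_ : _ * c 1 = 0)).resolve_left k1
      linear_combination g * e01 - f * e10
  rw [h1] at e00 e01 e10 e11
  have h2 : c 2 = 0 := by
    by_cases k1 : f = 0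
    · by_cases k2 : g = 0
      · have k3 : e' - k ≠ 0 := by
          intro k3
          apply hδ
          rw [k1, k2, k3]; ring
        apply (mul_eq_zero.1 (?_ : _ * c 2 = 0)).resolve_left k3
        linear_combination (e00 - e11)
      · apply (mul_eq_zero.1 (?_ : _ * c 2 = 0)).resolve_left k2
        linear_combination e10
    · apply (mul_eq_zero.1 (?_ : _ * c 2 = 0)).resolve_left k1
      linear_combination e01
  rw [h2] at e00
  have h0 : c 0 = 0 := by linear_combination e00
  intro i
  fin_cases i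
  · exact h0
  · exact h1
  · exact h2
  · exact h3

/-- the basis `1, P, Q, P Q` -/
private noncomputable def bn_b (P Q : SL2 K) (h : tr (P * Q * P⁻¹ * Q⁻¹) ≠ 2) :
    Module.Basis (Fin 4) K (Matrix (Fin 2) (Fin 2) K) :=
  basisOfLinearIndependentOfCardEqFinrank (bn_li P Q h) (by simp [Module.finrank_matrix])

private theorem bn_b_apply (P Q : SL2 K) (h : tr (P * Q * P⁻¹ * Q⁻¹) ≠ 2) (i : Fin 4) :
    bn_b P Q h i = bn_B P Q i := by
  unfold bn_b
  rw [coe_basisOfLinearIndependentOfCardEqFinrank]

/-- the trace form is non-degenerate -/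
private theorem bn_nd (P Q : SL2 K) (h : tr (P * Q * P⁻¹ * Q⁻¹) ≠ 2)
    (D : Matrix (Fin 2) (Fin 2) K) (hD : ∀ i, (D * bn_B P Q i).trace = 0) : D = 0 := by
  have h1 : ∀ M : Matrix (Fin 2) (Fin 2) K, (D * M).trace = 0 := by
    intro M
    have : (Matrix.traceLinearMap (Fin 2) K K).comp (LinearMap.mulLeft K D) = 0 := by
      apply (bn_b P Q h).ext
      intro i
      rw [bn_b_apply]
      exact hD i
    exact LinearMap.congr_fun this M
  ext i j
  have := h1 (Matrix.single j i 1)
  rw [Matrix.trace_mul_single] at this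
  simpa using this

end bn

/-- [F8x bn] -/
theorem p_bn : S_bn := by
  intro G K _ _ r s htr hirr
  obtain ⟨g, h, hgh⟩ := hirr
  have hs : tr (s g * s h * (s g)⁻¹ * (s h)⁻¹) ≠ 2 := by
    rwa [map_mul, map_mul, map_mul, map_inv, map_inv] at hgh
  have hr : tr (r g * r h * (r g)⁻¹ * (r h)⁻¹) ≠ 2 := by
    rwa [← htr, map_mul, map_mul, map_mul, map_inv, map_inv] at hgh
  let L : Fin 4 → G := ![1, g, h, g * h]
  have hrL : ∀ i, bn_B (r g) (r h) i = (r (L i)).val := by
    intro i
    fin_cases i
    · simp [bn_B, L]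
    · simp [bn_B, L]
    · simp [bn_B, L]
    · simp [bn_B, L]
  have hsL : ∀ i, bn_B (s g) (s h) i = (s (L i)).val := by
    intro i
    fin_cases i
    · simp [bn_B, L]
    · simp [bn_B, L]
    · simp [bn_B, L]
    · simp [bn_B, L]
  let T : Matrix (Fin 2) (Fin 2) K →ₗ[K] Matrix (Fin 2) (Fin 2) K :=
    (bn_b (r g) (r h) hr).constr K (fun i => (s (L i)).val)
  have hT : ∀ i, T (r (L i)).val = (s (L i)).val := by
    intro i
    rw [← hrL, ← bn_b_apply (r g) (r h) hr]
    exact (bn_b (r g) (r h) hr).constr_basis K _ i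
  have hdec : ∀ M : Matrix (Fin 2) (Fin 2) K, ∃ c : Fin 4 → K, M = ∑ i, c i • (r (L i)).val := by
    intro M
    refine ⟨fun i => (bn_b (r g) (r h) hr).repr M i, ?_⟩
    conv_lhs => rw [← (bn_b (r g) (r h) hr).sum_repr M]
    refine Finset.sum_congr rfl fun i _ => ?_
    rw [bn_b_apply, hrL]
  have hTl : ∀ l, T (r l).val = (s l).val := by
    intro l
    obtain ⟨c, hc⟩ := hdec (r l).val
    rw [hc, map_sum]
    simp only [map_smul, hT]
    rw [eq_comm, ← sub_eq_zero]
    apply bn_nd (s g) (s h) hs
    intro j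
    rw [hsL, sub_mul, Matrix.trace_sub, Finset.sum_mul, Matrix.trace_sum]
    have h1 : ((s l).val * (s (L j)).val).trace = ((r l).val * (r (L j)).val).trace := by
      have := htr (l * L j)
      rw [map_mul, map_mul] at this
      exact this.symm
    have h2 : ∀ i, ((s (L i)).val * (s (L j)).val).trace =
        ((r (L i)).val * (r (L j)).val).trace := by
      intro i
      have := htr (L i * L j)
      rw [map_mul, map_mul] at this
      exact this.symm
    rw [h1, hc, Finset.sum_mul, Matrix.trace_sum, ← Finset.sum_sub_distrib]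
    apply Finset.sum_eq_zero
    intro i _
    rw [Matrix.smul_mul, Matrix.smul_mul, Matrix.trace_smul, Matrix.trace_smul, h2, sub_self]
  have hT1 : T 1 = 1 := by
    have := hTl 1
    rwa [map_one, map_one] at this
  have hTm : ∀ M N, T (M * N) = T M * T N := by
    intro M N
    obtain ⟨c, rfl⟩ := hdec M
    obtain ⟨d, rfl⟩ := hdec N
    rw [Finset.sum_mul_sum, map_sum, map_sum, map_sum, Finset.sum_mul_sum]
    refine Finset.sum_congr rfl fun i _ => ?_
    rw [map_sum]
    refine Finset.sum_congr rfl fun j _ => ?_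
    have h1 : (r (L i)).val * (r (L j)).val = (r (L i * L j)).val := by rw [map_mul]; rfl
    rw [smul_mul_smul_comm, h1, map_smul, hTl, map_smul, map_smul, hT, hT, smul_mul_smul_comm,
      map_mul]
    rfl
  -- a vector `w` with `T (E₁₁) w ≠ 0`
  have hT0 : T (Matrix.single 0 0 1) ≠ 0 := by
    intro h0
    have h1 : (1 : Matrix (Fin 2) (Fin 2) K) = Matrix.single 0 0 1 +
        Matrix.single 1 0 1 * Matrix.single 0 0 1 * Matrix.single 0 1 1 := by
      ext i j
      fin_cases i <;> fin_cases j <;> simp [Matrix.single, Matrix.mul_apply, Fin.sum_univ_two]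
    have h2 := congrArg T h1
    rw [map_add, hTm, hTm, h0, hT1, mul_zero, zero_mul, add_zero] at h2
    exact one_ne_zero h2
  obtain ⟨w, hw⟩ : ∃ w, (T (Matrix.single 0 0 1)).mulVec w ≠ 0 := by
    by_contra hcon
    push Not at hcon
    apply hT0
    ext i j
    have := congrFun (hcon (Pi.single j 1)) i
    rwa [Matrix.mulVec_single_one] at this
  let X : Matrix (Fin 2) (Fin 2) K := Matrix.of fun i j => (T (Matrix.single j 0 1)).mulVec w i
  have hXe : ∀ v, X.mulVec v = ∑ j, v j • (T (Matrix.single j 0 1)).mulVec w := by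
    intro v
    ext i
    rw [Matrix.mulVec, dotProduct, Finset.sum_apply]
    refine Finset.sum_congr rfl fun j _ => ?_
    show (T (Matrix.single j 0 1)).mulVec w i * v j = v j * (T (Matrix.single j 0 1)).mulVec w i
    ring
  have hX : ∀ A, X * A = T A * X := by
    intro A
    ext i j
    have h1 : A * Matrix.single j 0 1 = ∑ k, A k j • Matrix.single k 0 (1 : K) := by
      ext a b
      fin_cases b <;> fin_cases a <;> fin_cases j <;>
        simp [Matrix.single, Matrix.mul_apply, Fin.sum_univ_two]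
    have h2 : (T A * X) i j = (T (A * Matrix.single j 0 1)).mulVec w i := by
      rw [hTm, ← Matrix.mulVec_mulVec]
      rfl
    rw [h2, h1, map_sum, Matrix.mul_apply, Matrix.sum_mulVec, Finset.sum_apply]
    refine Finset.sum_congr rfl fun k _ => ?_
    rw [map_smul, Matrix.smul_mulVec]
    show (T (Matrix.single k 0 1)).mulVec w i * A k j = A k j * (T (Matrix.single k 0 1)).mulVec w i
    ring
  have hXu : IsUnit X := by
    rw [← Matrix.mulVec_injective_iff_isUnit]
    rw [← Matrix.coe_mulVecLin, ← LinearMap.ker_eq_bot, LinearMap.ker_eq_bot']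
    intro v hv
    by_contra hv0
    apply hw
    rw [Matrix.mulVecLin_apply] at hv
    obtain ⟨k, hk⟩ : ∃ k, v k ≠ 0 := by
      by_contra hcon
      push Not at hcon
      exact hv0 (funext hcon)
    -- `A = (v k)⁻¹ E_{0 k}` maps `v` to the first basis vector
    have h1 : X.mulVec ((Matrix.single 0 k (v k)⁻¹).mulVec v) = 0 := by
      rw [Matrix.mulVec_mulVec, hX, ← Matrix.mulVec_mulVec, hv, Matrix.mulVec_zero]
    have h2 : (Matrix.single 0 k (v k)⁻¹).mulVec v = Pi.single (0 : Fin 2) (1 : K) := by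
      ext i
      fin_cases i
      · simp [Matrix.mulVec, dotProduct, Matrix.single, Fin.sum_univ_two]
        fin_cases k
        · simpa using inv_mul_cancel₀ hk
        · simpa using inv_mul_cancel₀ hk
      · simp [Matrix.mulVec, dotProduct, Matrix.single, Fin.sum_univ_two]
    rw [h2, Matrix.mulVec_single_one] at h1
    exact h1
  refine ⟨hXu.unit, fun l => ?_⟩
  rw [IsUnit.unit_spec, hX, hTl]

end Pool.Agent.F8.H
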