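import Pool.Agent.Lib.MP_305fdd_al.F8.StmC

/-!
# [F8 lh] limits of homomorphisms to the affine groups

The entries of `Θ k g` are compatible families; `Θ' g` is made of their limits, and the identities
hold by uniqueness of limits.
-/

namespace Pool.Agent.F8

private theorem lh_inj {R : Type} [CommRing R] {Rk : ℕ → Type} [∀ k, CommRing (Rk k)]
    {π : ∀ k, R →+* Rk k} {p : ∀ k, Rk (k + 1) →+* Rk k} (h : IsLim R Rk π p) {y z : R}
    (hyz : ∀ k, π k y = π k z) : y = z := by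
  obtain ⟨w, -, hw⟩ := h.2 (fun k => π k z) (fun k => by
    have := congrArg (fun f : R →+* Rk k => f z) (h.1 k)
    simpa using this)
  rw [hw y hyz, hw z (fun k => rfl)]

private theorem lh_Qinj {R : Type} [CommRing R] {Rk : ℕ → Type} [∀ k, CommRing (Rk k)]
    {π : ∀ k, R →+* Rk k} {p : ∀ k, Rk (k + 1) →+* Rk k} (h : IsLim R Rk π p) {y z : Q2 R}
    (hyz : ∀ k, Q2.map (π k) y = Q2.map (π k) z) : y = z := by
  apply Q2.ext
  · apply Units.ext
    apply lh_inj h
    intro k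
    exact congrArg (fun q : Q2 (Rk k) => (q.t : Rk k)) (hyz k)
  · apply Subtype.ext
    ext i j
    apply lh_inj h
    intro k
    exact congrArg (fun q : Q2 (Rk k) => q.m.val i j) (hyz k)
  · funext i
    apply lh_inj h
    intro k
    exact congrArg (fun q : Q2 (Rk k) => q.v i) (hyz k)

private theorem lh_Qex {R : Type} [CommRing R] {Rk : ℕ → Type} [∀ k, CommRing (Rk k)]
    {π : ∀ k, R →+* Rk k} {p : ∀ k, Rk (k + 1) →+* Rk k} (h : IsLim R Rk π p)
    (x : ∀ k, Q2 (Rk k)) (hx : ∀ k, Q2.map (p k) (x (k + 1)) = x k) :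
    ∃ y : Q2 R, ∀ k, Q2.map (π k) y = x k := by
  obtain ⟨T, hT, -⟩ := h.2 (fun k => ((x k).t : Rk k))
    (fun k => congrArg (fun q : Q2 (Rk k) => (q.t : Rk k)) (hx k))
  obtain ⟨Ti, hTi, -⟩ := h.2 (fun k => (((x k).t⁻¹ : (Rk k)ˣ) : Rk k))
    (fun k => congrArg (fun q : Q2 (Rk k) => ((q.t⁻¹ : (Rk k)ˣ) : Rk k)) (hx k))
  have hM : ∀ i j, ∃ m : R, ∀ k, π k m = (x k).m.val i j := fun i j => by
    obtain ⟨m, hm, -⟩ := h.2 (fun k => (x k).m.val i j)
      (fun k => congrArg (fun q : Q2 (Rk k) => q.m.val i j) (hx k))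
    exact ⟨m, hm⟩
  have hV : ∀ i, ∃ m : R, ∀ k, π k m = (x k).v i := fun i => by
    obtain ⟨m, hm, -⟩ := h.2 (fun k => (x k).v i)
      (fun k => congrArg (fun q : Q2 (Rk k) => q.v i) (hx k))
    exact ⟨m, hm⟩
  choose M hM using hM
  choose V hV using hV
  have h1 : T * Ti = 1 := lh_inj h fun k => by
    rw [map_mul, hT, hTi, map_one, Units.mul_inv]
  have h2 : Ti * T = 1 := by rw [mul_comm, h1]
  have hd : (Matrix.of M).det = 1 := lh_inj h fun k => by
    have hk := (x k).m.property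
    rw [Matrix.det_fin_two] at hk
    rw [Matrix.det_fin_two]
    simp only [Matrix.of_apply, map_sub, map_mul, hM, map_one]
    exact hk
  refine ⟨⟨⟨T, Ti, h1, h2⟩, ⟨Matrix.of M, hd⟩, V⟩, fun k => ?_⟩
  apply Q2.ext
  · apply Units.ext
    exact hT k
  · apply Subtype.ext
    ext i j
    exact hM i j k
  · funext i
    exact hV i k

/-- [F8 lh] limits of homomorphisms to the affine groups. -/
theorem pf_lh : S_lh := by
  intro R _ Rk _ π p h G _ Θ hΘ
  have hex : ∀ g : G, ∃ y : Q2 R, ∀ k, Q2.map (π k) y = Θ k g := fun g =>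
    lh_Qex h (fun k => Θ k g) (fun k => by
      have := congrArg (fun f : G →* Q2 (Rk k) => f g) (hΘ k)
      exact this)
  choose F hF using hex
  refine ⟨⟨⟨F, ?_⟩, ?_⟩, ?_⟩
  · apply lh_Qinj h
    intro k
    rw [hF, map_one, map_one]
  · intro g g'
    apply lh_Qinj h
    intro k
    show Q2.map (π k) (F (g * g')) = Q2.map (π k) (F g * F g')
    rw [hF, map_mul, map_mul, hF, hF]
  · intro k
    ext1 g
    exact hF g k

end Pool.Agent.F8
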