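import Pool.Agent.Lib.MP_305fdd_al.F8.StmC

/-!
# MP_305fdd_al, F8, piece lz: the `p`-adic integers are a limit
-/

set_option autoImplicit false

namespace Pool.Agent.F8

/-- the classes `x k` are compatible for all pairs `m ≤ n` -/
theorem lz_compat (p : ℕ) [Fact p.Prime] (x : ∀ k, ZMod (p ^ k))
    (hx : ∀ k, tz p k (x (k + 1)) = x k) (m : ℕ) :
    ∀ n, ∀ h : m ≤ n, ZMod.castHom (pow_dvd_pow p h) (ZMod (p ^ m)) (x n) = x m := by
  intro n h
  induction n, h using Nat.le_induction with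
  | base => simp
  | succ n h ih =>
    have h1 : (ZMod.castHom (pow_dvd_pow p h) (ZMod (p ^ m))).comp (tz p n) =
        ZMod.castHom (pow_dvd_pow p (h.trans (Nat.le_succ n))) (ZMod (p ^ m)) :=
      Subsingleton.elim _ _
    have h2 := RingHom.congr_fun h1 (x (n + 1))
    rw [RingHom.comp_apply, hx n, ih] at h2
    exact h2.symm

theorem pf_lz : S_lz := by
  intro p _
  refine ⟨fun k => PadicInt.zmod_cast_comp_toZModPow k (k + 1) (Nat.le_succ k), ?_⟩
  intro x hx
  have hne : ∀ k, NeZero (p ^ k) := fun k => ⟨pow_ne_zero k (Fact.out : p.Prime).ne_zero⟩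
  -- integer representatives
  have ha : ∀ k, PadicInt.toZModPow k (((x k).val : ℕ) : ℤ_[p]) = x k := by
    intro k
    have := hne k
    rw [map_natCast, ZMod.natCast_zmod_val]
  have hmem : ∀ (k : ℕ) (a b : ℤ_[p]),
      a ≡ b [SMOD (IsLocalRing.maximalIdeal ℤ_[p] ^ k • ⊤ : Submodule ℤ_[p] ℤ_[p])] ↔
        PadicInt.toZModPow k a = PadicInt.toZModPow k b := by
    intro k a b
    rw [SModEq.sub_mem, PadicInt.maximalIdeal_eq_span_p, Ideal.span_singleton_pow, smul_eq_mul,
      Ideal.mul_top, ← PadicInt.ker_toZModPow, RingHom.mem_ker, map_sub, sub_eq_zero]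
  obtain ⟨L, hL⟩ := IsPrecomplete.prec'
    (self := (inferInstance : IsPrecomplete (IsLocalRing.maximalIdeal ℤ_[p]) ℤ_[p]))
    (fun k => (((x k).val : ℕ) : ℤ_[p]))
    (by
      intro m n hmn
      rw [hmem, ha m]
      have h1 := RingHom.congr_fun (PadicInt.zmod_cast_comp_toZModPow (p := p) m n hmn)
        (((x n).val : ℕ) : ℤ_[p])
      rw [RingHom.comp_apply, ha n, lz_compat p x hx m n hmn] at h1
      exact h1)
  refine ⟨L, ?_, ?_⟩
  · intro k
    have h1 := (hmem k _ _).1 (hL k)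
    rw [← h1, ha k]
  · intro y hy
    rw [← PadicInt.ext_of_toZModPow]
    intro k
    have h1 := (hmem k _ _).1 (hL k)
    rw [← h1, ha k]
    exact hy k

end Pool.Agent.F8
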