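import Pool.Agent.Lib.MP_305fdd_al.F8.StmC

/-!
# MP_305fdd_al, figure-eight knot group: matching of affine representations
-/

set_option autoImplicit false

namespace Pool.Agent.F8

open Pool.Agent.MP_305fdd_al Pool.Agent.Lib.MP_305fdd_al Pool.Agent.F2X

private lemma mt_NC {G H R : Type} [Group G] [Group H] [CommRing R] (Θ : G →* Q2 R)
    (Θ' : H →* Q2 R) (h : ∀ g, ∃ l, Θ' l = Θ g) (hN : NC Θ) : NC Θ' := by
  obtain ⟨g, g', hW⟩ := hN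
  obtain ⟨l, hl⟩ := h g
  obtain ⟨l', hl'⟩ := h g'
  exact ⟨l, l', by rw [hl, hl']; exact hW⟩

private lemma mt_Irr {G H R : Type} [Group G] [Group H] [CommRing R] (ρ : G →* SL2 R)
    (ρ' : H →* SL2 R) (h : ∀ g, ∃ l, ρ' l = ρ g) (hI : Irr ρ) : Irr ρ' := by
  obtain ⟨g, g', hW⟩ := hI
  obtain ⟨l, hl⟩ := h g
  obtain ⟨l', hl'⟩ := h g'
  refine ⟨l, l', ?_⟩
  rw [map_mul, map_mul, map_mul, map_inv, map_inv, hl, hl', ← map_inv, ← map_inv, ← map_mul,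
    ← map_mul, ← map_mul]
  exact hW

theorem pf_mt : S_mt := by
  intro G Λ _ _ Φ R _ _ Θ
  have h1 : Q2.tH.comp (Φ.toFun _ Θ) = Φ.toFun _ (Q2.tH.comp Θ) := (Φ.nat Q2.tH Θ).symm
  have h2 : Q2.mH.comp (Φ.toFun _ Θ) = Φ.toFun _ (Q2.mH.comp Θ) := (Φ.nat Q2.mH Θ).symm
  have hr : (Φ.toFun _ Θ).range = Θ.range := Φ.range_eq Θ
  have h3 : ∀ g, ∃ l, Φ.toFun _ Θ l = Θ g := by
    intro g
    have : Θ g ∈ (Φ.toFun _ Θ).range := by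
      rw [hr]; exact ⟨g, rfl⟩
    exact this
  have h4 : ∀ l, ∃ g, Θ g = Φ.toFun _ Θ l := by
    intro l
    have : Φ.toFun _ Θ l ∈ Θ.range := by
      rw [← hr]; exact ⟨l, rfl⟩
    exact this
  refine ⟨h1, h2, ⟨mt_NC _ _ h4, mt_NC _ _ h3⟩, ⟨mt_Irr _ _ ?_, mt_Irr _ _ ?_⟩⟩
  · intro l
    obtain ⟨g, hg⟩ := h4 l
    exact ⟨g, congrArg Q2.mH hg⟩
  · intro g
    obtain ⟨l, hl⟩ := h3 g
    exact ⟨l, congrArg Q2.mH hl⟩

end Pool.Agent.F8
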