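import Pool.Agent.Lib.MP_305fdd_al.F8.StmA

/-!
# MP_305fdd_al, figure-eight knot group: [F8 nz] nonvanishing of images
-/

set_option autoImplicit false

namespace Pool.Agent.F8

open Pool.Agent.MP_305fdd_al Pool.Agent.Lib.MP_305fdd_al Pool.Agent.F2X
open scoped QuadraticAlgebra

/-- homomorphisms from `ℤ_p` to a field of characteristic zero are injective -/
theorem nz_base (p : ℕ) [Fact p.Prime] (K : Type) [Field K] [CharZero K] (g : ℤ_[p] →+* K)
    (x : ℤ_[p]) (hx : x ≠ 0) : g x ≠ 0 := by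
  rw [PadicInt.unitCoeff_spec hx, map_mul, map_pow, map_natCast]
  exact mul_ne_zero ((PadicInt.unitCoeff hx).isUnit.map g).ne_zero
    (pow_ne_zero _ (Nat.cast_ne_zero.2 (Fact.out (p := p.Prime)).ne_zero))

/-- the step from `R` to `Qd q R` -/
theorem nz_step {R K : Type} [CommRing R] [Field K] (q : ℤ) (f : Qd q R →+* K) (x : Qd q R)
    (h : f (algebraMap R (Qd q R) x.norm) ≠ 0) : f x ≠ 0 := by
  intro h0
  apply h
  rw [QuadraticAlgebra.algebraMap_norm_eq_mul_star, map_mul, h0, zero_mul]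

theorem pf_nz : S_nz := by
  intro p _ K _ _
  have h1 : ∀ (q : ℤ) (f : Qd q ℤ_[p] →+* K) (x : Qd q ℤ_[p]), x.norm ≠ 0 → f x ≠ 0 := by
    intro q f x hx
    exact nz_step q f x (nz_base p K (f.comp (algebraMap ℤ_[p] (Qd q ℤ_[p]))) _ hx)
  refine ⟨h1, fun f x hx => ?_⟩
  exact nz_step 4 f x (h1 (-1) (f.comp (algebraMap (Es ℤ_[p]) (Qd 4 (Es ℤ_[p])))) _ hx)

end Pool.Agent.F8
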