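import Pool.Agent.Lib.MP_305fdd_al.F8.StmC

/-!
# MP_305fdd_al, figure-eight knot group: characters with values in a finite group
-/

set_option autoImplicit false

namespace Pool.Agent.F8

open Pool.Agent.MP_305fdd_al Pool.Agent.Lib.MP_305fdd_al Pool.Agent.F2X

/-- the homomorphism `ℤ/m → A`, `1 ↦ a` -/
theorem exu_lift (m : ℕ) {A : Type} [Group A] (a : A) (ha : a ^ m = 1) :
    ∃ f : Multiplicative (ZMod m) →* A, ∀ k : ℤ, f (Multiplicative.ofAdd (k : ZMod m)) = a ^ k := by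
  let g : ℤ →+ Additive A := AddMonoidHom.mk' (fun k => Additive.ofMul (a ^ k)) (by
    intro x y
    rw [zpow_add]; rfl)
  have hg : g (m : ℤ) = 0 := by
    show Additive.ofMul (a ^ (m : ℤ)) = 0
    rw [zpow_natCast, ha]; rfl
  let h : ZMod m →+ Additive A := ZMod.lift m ⟨g, hg⟩
  refine ⟨⟨⟨fun x => Additive.toMul (h (Multiplicative.toAdd x)), ?_⟩, ?_⟩, ?_⟩
  · show Additive.toMul (h (Multiplicative.toAdd 1)) = 1
    rw [toAdd_one, map_zero]; rfl
  · intro x y
    show Additive.toMul (h (Multiplicative.toAdd (x * y))) = _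
    rw [toAdd_mul, map_add]; rfl
  · intro k
    show Additive.toMul (h ((k : ZMod m))) = a ^ k
    have : h (k : ZMod m) = g k := ZMod.lift_coe m ⟨g, hg⟩ k
    rw [this]; rfl

theorem pf_exu : S_exu := by
  intro Λ _ Φ n m _ e hE A _ _ a ha
  obtain ⟨f, hf⟩ := exu_lift m a ha
  have h1 : (pw a).comp n8 = f.comp ((redZ m).comp n8) := by
    ext1 g
    show pw a (n8 g) = f (redZ m (n8 g))
    generalize n8 g = k
    obtain ⟨k, rfl⟩ := Multiplicative.ofAdd.surjective k
    rw [pw_ofAdd, redZ_ofAdd, hf]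
  rw [h1, Φ.nat, hE]
  ext1 g
  show f (redZ m (zpowGroupHom e (n g))) = pw (a ^ e) (n g)
  generalize n g = k
  obtain ⟨k, rfl⟩ := Multiplicative.ofAdd.surjective k
  rw [pw_ofAdd, zpowGroupHom_apply, ← ofAdd_zsmul, redZ_ofAdd, hf, smul_eq_mul, zpow_mul]

end Pool.Agent.F8
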