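import Pool.Agent.Lib.MP_305fdd_al.F8.StmC

/-!
# MP_305fdd_al, figure-eight knot group, piece [F8 mp]: matching of pairs
-/

set_option autoImplicit false

namespace Pool.Agent.F8

open Pool.Agent.MP_305fdd_al Pool.Agent.Lib.MP_305fdd_al Pool.Agent.F2X

theorem pf_mp : S_mp := by
  intro G Λ _ _ Φ Q Q' _ _ _ _ θ θ'
  have h1 : (MonoidHom.fst Q Q').comp (Φ.toFun (Q × Q') (θ.prod θ')) = Φ.toFun Q θ := by
    rw [← Φ.nat, MonoidHom.fst_comp_prod]
  have h2 : (MonoidHom.snd Q Q').comp (Φ.toFun (Q × Q') (θ.prod θ')) = Φ.toFun Q' θ' := by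
    rw [← Φ.nat, MonoidHom.snd_comp_prod]
  have hr := Φ.range_eq (θ.prod θ')
  constructor
  · intro g
    have hg : θ.prod θ' g ∈ (Φ.toFun (Q × Q') (θ.prod θ')).range := by
      rw [hr]; exact ⟨g, rfl⟩
    obtain ⟨l, hl⟩ := hg
    refine ⟨l, ?_, ?_⟩
    · rw [← h1]; exact congrArg Prod.fst hl
    · rw [← h2]; exact congrArg Prod.snd hl
  · intro l
    have hl : Φ.toFun (Q × Q') (θ.prod θ') l ∈ (θ.prod θ').range := by
      rw [← hr]; exact ⟨l, rfl⟩
    obtain ⟨g, hg⟩ := hl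
    refine ⟨g, ?_, ?_⟩
    · rw [← h1]; exact (congrArg Prod.fst hg).symm
    · rw [← h2]; exact (congrArg Prod.snd hg).symm

end Pool.Agent.F8
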