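import Pool.Agent.Lib.MP_305fdd_al.F8.StmH

/-!
# F8 block H, piece `two`: conjugation into `Npre`
-/

set_option autoImplicit false

namespace Pool.Agent.F8.H

open Pool.Agent.MP_305fdd_al Pool.Agent.Lib.MP_305fdd_al Pool.Agent.F2X Pool.Agent.F8
open scoped QuadraticAlgebra

theorem two_gen (P : Subgroup G8) (ha : aa ∈ P) (hb : bb ∈ P) : P = ⊤ := by
  have hu : uu ∈ P := by rw [uu_eq]; exact P.mul_mem hb (P.inv_mem ha)
  have hv : vv ∈ P := by rw [vv_eq]; exact P.mul_mem (P.inv_mem ha) hb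
  have hF : P.comap (SemidirectProduct.inl : F →* G8) = ⊤ := by
    rw [eq_top_iff, ← FreeGroup.closure_range_of, Subgroup.closure_le]
    rintro _ ⟨i, rfl⟩
    fin_cases i
    · exact hu
    · exact hv
  rw [eq_top_iff]
  rintro ⟨w, n⟩ -
  have hx : (⟨w, n⟩ : G8) = SemidirectProduct.inl w * SemidirectProduct.inr n := by
    ext <;> simp
  have hn : (SemidirectProduct.inr n : G8) = aa ^ (Multiplicative.toAdd n) := by
    unfold aa
    rw [← map_zpow, ← ofAdd_zsmul]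
    congr 1
    simp
  rw [hx, hn]
  refine P.mul_mem ?_ (P.zpow_mem ha _)
  have : w ∈ P.comap (SemidirectProduct.inl : F →* G8) := by rw [hF]; trivial
  exact this

theorem two_range : (rho8 (om (ZMod 2)) (om_sq (ZMod 2))).range ≤ D5 := by
  have h : D5.comap (rho8 (om (ZMod 2)) (om_sq (ZMod 2))) = ⊤ := by
    apply two_gen
    · show rho8 (om (ZMod 2)) (om_sq (ZMod 2)) aa ∈ D5
      rw [rho8_aa]
      exact Subgroup.subset_closure (by simp)
    · show rho8 (om (ZMod 2)) (om_sq (ZMod 2)) bb ∈ D5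
      rw [rho8_bb]
      exact Subgroup.subset_closure (by simp)
  rintro _ ⟨x, rfl⟩
  have : x ∈ D5.comap (rho8 (om (ZMod 2)) (om_sq (ZMod 2))) := by rw [h]; trivial
  exact this

theorem two_four (d : Es (ZMod 2)) : (d * d) * (d * d) = d := by
  obtain ⟨x, y⟩ := d
  ext
  · simp only [QuadraticAlgebra.re_mul, QuadraticAlgebra.im_mul]
    revert x y
    decide
  · simp only [QuadraticAlgebra.re_mul, QuadraticAlgebra.im_mul]
    revert x y
    decide

theorem two_ma (R : Type) [CommRing R] : (ma R).val = !![1, 1; 0, 1] := rfl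

theorem two_mb {R : Type} [CommRing R] (w : R) : (mb w).val = !![1, 0; -w, 1] := rfl

theorem two_tr : tr (ma (Es (ZMod 2)) * mb (om (ZMod 2)) * (ma (Es (ZMod 2)))⁻¹ *
    (mb (om (ZMod 2)))⁻¹) ≠ 2 := by
  unfold tr
  rw [Matrix.SpecialLinearGroup.coe_mul, Matrix.SpecialLinearGroup.coe_mul,
    Matrix.SpecialLinearGroup.coe_mul, Matrix.SpecialLinearGroup.coe_inv,
    Matrix.SpecialLinearGroup.coe_inv, two_ma, two_mb, Matrix.adjugate_fin_two_of,
    Matrix.adjugate_fin_two_of, Matrix.mul_fin_two, Matrix.mul_fin_two, Matrix.mul_fin_two,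
    Matrix.trace_fin_two_of]
  intro h
  have h1 := congrArg QuadraticAlgebra.im h
  have h2 := congrArg QuadraticAlgebra.re h
  revert h1 h2
  simp [th]
  decide

instance two_fact : Fact (∀ r : ZMod 2, r ^ 2 ≠ (-1 : ZMod 2) + (((-1 : ℤ)) : ZMod 2) * r) :=
  ⟨by decide⟩

theorem p_two (h1 : S_bn) (h2 : S_li) : S_two := by
  intro Λ _ Φ ρ ht
  set s : Λ →* SL2 (Es (ZMod 2)) :=
    Φ.toFun (SL2 (Es (ZMod 2))) (rho8 (om (ZMod 2)) (om_sq (ZMod 2))) with hs
  have hrange : s.range = (rho8 (om (ZMod 2)) (om_sq (ZMod 2))).range := Φ.range_eq _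
  have htr : ∀ l, tr ((r2.comp ρ) l) = tr (s l) := by
    intro l
    show tr (SLm _ (ρ l)) = _
    rw [tr_map]
    exact ht l
  have hirr : Irr s := by
    have ha : ma (Es (ZMod 2)) ∈ s.range := by
      rw [hrange]; exact ⟨aa, rho8_aa _ _⟩
    have hb : mb (om (ZMod 2)) ∈ s.range := by
      rw [hrange]; exact ⟨bb, rho8_bb _ _⟩
    obtain ⟨g, hg⟩ := ha
    obtain ⟨h, hh⟩ := hb
    refine ⟨g, h, ?_⟩
    rw [map_mul, map_mul, map_mul, map_inv, map_inv, hg, hh]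
    exact two_tr
  obtain ⟨X, hX⟩ := h1 Λ (Es (ZMod 2)) (r2.comp ρ) s htr hirr
  have hdet : X.val.det ≠ 0 := by
    intro h0
    have := X.isUnit
    rw [Matrix.isUnit_iff_isUnit_det, h0] at this
    exact not_isUnit_zero this
  set d := X.val.det with hd
  have hd4 := two_four d
  have he : d * d ≠ 0 := mul_ne_zero hdet hdet
  have hdet1 : ((d * d)⁻¹ • X.val).det = 1 := by
    rw [Matrix.det_smul, Fintype.card_fin, ← hd]
    calc (d * d)⁻¹ ^ 2 * d = (d * d)⁻¹ ^ 2 * ((d * d) * (d * d)) := by rw [hd4]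
      _ = 1 := by field_simp
  obtain ⟨Z, hZ⟩ : ∃ Z : SL2 (Es (ZMod 2)), Z.val = (d * d)⁻¹ • X.val := ⟨⟨_, hdet1⟩, rfl⟩
  obtain ⟨Y, hY⟩ := h2 Z
  refine ⟨Y, fun l => ?_⟩
  show r2 (Y * ρ l * Y⁻¹) ∈ D5
  have hc : r2 (Y * ρ l * Y⁻¹) = s l := by
    rw [map_mul, map_mul, map_inv, mul_inv_eq_iff_eq_mul, hY]
    apply Subtype.ext
    rw [Matrix.SpecialLinearGroup.coe_mul, Matrix.SpecialLinearGroup.coe_mul, hZ]
    show ((d * d)⁻¹ • X.val) * ((r2.comp ρ) l).val = (s l).val * ((d * d)⁻¹ • X.val)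
    rw [Matrix.smul_mul, hX, Matrix.mul_smul]
  rw [hc]
  apply two_range
  rw [← hrange]
  exact ⟨l, rfl⟩

end Pool.Agent.F8.H
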