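import Pool.Agent.Lib.MP_305fdd_al.F8.StmHN
import Pool.Agent.Lib.MP_305fdd_al.F8.P.two

/-!
# MP_305fdd_al, cyclic covers of the figure-eight knot complement: [F8h HN]
-/

set_option autoImplicit false

namespace Pool.Agent.F8.HN

open Pool.Agent.MP_305fdd_al Pool.Agent.Lib.MP_305fdd_al Pool.Agent.F2X Pool.Agent.F8
open scoped QuadraticAlgebra

private theorem HN_cg {R : Type} [CommRing R] (n : ℕ) {w w' : R} (h : w = w')
    (hw : w * w + w + 1 = 0) (hw' : w' * w' + w' + 1 = 0) : rN n w hw = rN n w' hw' := by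
  subst h; rfl

private theorem HN_cg8 {R : Type} [CommRing R] {w w' : R} (h : w = w')
    (hw : w * w + w + 1 = 0) (hw' : w' * w' + w' + 1 = 0) : rho8 w hw = rho8 w' hw' := by
  subst h; rfl

private theorem HN_om (R : Type) [CommRing R] :
    Qd.map (-1) (Int.castRingHom R) (om ℤ) = om R := Qd.map_th _ _

private theorem HN_r2 (n : ℕ) :
    r2.comp (rN n (om ℤ) (om_sq ℤ)) = rN n (om (ZMod 2)) (om_sq (ZMod 2)) := by
  unfold r2
  rw [map_rN]
  exact HN_cg n (HN_om _) _ _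

private theorem HN_r3 (n : ℕ) :
    r3.comp (rN n (om ℤ) (om_sq ℤ)) = rN n (1 : ZMod 3) (by decide) := by
  unfold r3
  rw [map_rN]
  refine HN_cg n ?_ _ _
  rw [Qd.ev_apply]
  simp [th]

/-- `ω ↦ 1`, from `𝔽₃[ω]` -/
private def HN_e : Es (ZMod 3) →+* ZMod 3 := Qd.ev (-1) (RingHom.id (ZMod 3)) 1 (by decide)

private theorem HN_e3 (n : ℕ) :
    (SLm HN_e).comp (rN n (om (ZMod 3)) (om_sq (ZMod 3))) = rN n (1 : ZMod 3) (by decide) := by
  rw [map_rN]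
  refine HN_cg n ?_ _ _
  unfold HN_e
  rw [Qd.ev_apply]
  simp [th]

private theorem HN_ev (x : O) : HN_e (Qd.map (-1) (Int.castRingHom (ZMod 3)) x) =
    Qd.ev (-1) (Int.castRingHom (ZMod 3)) 1 (by decide) x := by
  unfold HN_e
  rw [Qd.ev_apply, Qd.ev_apply]
  rfl

private theorem HN_std (n : ℕ) : Std (phi ^ n) (rN n (om ℤ) (om_sq ℤ)) where
  F w := by
    show rho8 (om ℤ) (om_sq ℤ) (toG8 n (iN n w)) = _
    rw [toG8_iN]
  D g := by
    have h : r2 (rN n (om ℤ) (om_sq ℤ) g) =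
        rho8 (om (ZMod 2)) (om_sq (ZMod 2)) (toG8 n g) := by
      have := DFunLike.congr_fun (HN_r2 n) g
      exact this
    have h2 : rho8 (om (ZMod 2)) (om_sq (ZMod 2)) (toG8 n g) ∈ D5 := H.two_range ⟨_, rfl⟩
    exact h.symm ▸ h2

/-- [F8h HN] BLOCK HN for the cyclic covers. -/
theorem p_HN (hHA : S_HA) (hcjN : S_cjN) : S_HN := by
  intro n hn Λ _ Φ nL hfg hrf hs hsur hcmp hz ρ ht2 ht3
  refine hHA (phi ^ n) (hcjN n hn) (rN n (om ℤ) (om_sq ℤ)) (HN_std n) Λ Φ nL hfg hrf hs hsur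
    hcmp hz ρ ?_ ?_
  · intro l
    have h : Φ.toFun (SL2 (Es (ZMod 2))) (r2.comp (rN n (om ℤ) (om_sq ℤ))) =
        Φ.toFun (SL2 (Es (ZMod 2))) (rN n (om (ZMod 2)) (om_sq (ZMod 2))) := by rw [HN_r2]
    have h1 : tr (r2 (ρ l)) = Qd.map (-1) (Int.castRingHom (ZMod 2)) (tr (ρ l)) := tr_map _ _
    rw [h1, ht2 l]
    exact congrArg (fun f => tr (f l)) h.symm
  · intro l
    have h : Φ.toFun (SL2 (ZMod 3)) (r3.comp (rN n (om ℤ) (om_sq ℤ))) =
        (SLm HN_e).comp (Φ.toFun (SL2 (Es (ZMod 3))) (rN n (om (ZMod 3)) (om_sq (ZMod 3)))) := by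
      rw [HN_r3, ← HN_e3, Φ.nat]
    have h1 : tr (r3 (ρ l)) = HN_e (Qd.map (-1) (Int.castRingHom (ZMod 3)) (tr (ρ l))) := by
      rw [HN_ev]
      exact tr_map _ _
    rw [h1, ht3 l, ← tr_map]
    exact congrArg (fun f => tr (f l)) h.symm

end Pool.Agent.F8.HN
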