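import Pool.Agent.Lib.MP_305fdd_al.F8.StmHN
import Pool.Agent.Lib.MP_305fdd_al.F2X.Stm

/-!
# Figure-eight knot group, block HN, piece cjN: the powers of `phi`
-/

set_option autoImplicit false

namespace Pool.Agent.F8.HN

open Pool.Agent.MP_305fdd_al Pool.Agent.Lib.MP_305fdd_al Pool.Agent.F2X Pool.Agent.F8
open scoped QuadraticAlgebra

private def cjN_f : ℕ → ℤ
  | 0 => 0
  | 1 => 1
  | (k + 2) => 3 * cjN_f (k + 1) - cjN_f k

private theorem cjN_pos (k : ℕ) : 1 ≤ cjN_f (k + 1) ∧ cjN_f k ≤ cjN_f (k + 1) := by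
  induction k with
  | zero => constructor <;> simp [cjN_f]
  | succ k ih =>
    have h : cjN_f (k + 1 + 1) = 3 * cjN_f (k + 1) - cjN_f k := rfl
    rw [h]
    constructor <;> linarith [ih.1, ih.2]

private theorem cjN_B : (AM phi).val = !![3, 1; -1, 0] := by
  rw [AM_val, amat_eq]
  have h1 : (phi : MulAut F).toMonoidHom ga = ga * gb⁻¹ * ga * ga := phi_ga
  have h2 : (phi : MulAut F).toMonoidHom gb = ga := phi_gb
  rw [h1, h2]
  ext i j
  fin_cases i <;> fin_cases j <;> simp

private theorem cjN_pow (k : ℕ) : (AM (phi ^ (k + 1))).val =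
    !![3 * cjN_f (k + 1) - cjN_f k, cjN_f (k + 1); -cjN_f (k + 1), -cjN_f k] := by
  induction k with
  | zero =>
    rw [zero_add, pow_one, cjN_B]
    simp [cjN_f]
  | succ k ih =>
    have h : cjN_f (k + 1 + 1) = 3 * cjN_f (k + 1) - cjN_f k := rfl
    rw [pow_succ, map_mul, Units.val_mul, ih, h, cjN_B]
    ext i j
    fin_cases i <;> fin_cases j <;> simp [Matrix.mul_apply, Fin.sum_univ_two] <;> ring

theorem p_cjN (h1 : H.S_cj) (h2 : S_tr) : S_cjN := by
  intro n hn A hA
  obtain ⟨k, rfl⟩ : ∃ k, n = k + 1 := ⟨n - 1, by omega⟩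
  obtain ⟨hp, -⟩ := cjN_pos k
  set g : ℤ := cjN_f k with hg
  set m : ℕ := (cjN_f (k + 1)).toNat with hm
  have hmz : (m : ℤ) = cjN_f (k + 1) := by
    rw [hm]
    exact Int.toNat_of_nonneg (by linarith)
  have hB : (AM (phi ^ (k + 1))).val = !![3 * (m : ℤ) - g, (m : ℤ); -(m : ℤ), -g] := by
    rw [hmz, hg]
    exact cjN_pow k
  have hm0 : 0 < m := by omega
  obtain ⟨htr, hdet⟩ := h2 _ _ hA
  rw [hB] at htr hdet
  rw [Matrix.trace_fin_two_of] at htr
  rw [Matrix.det_fin_two_of] at hdet
  rw [Matrix.trace_fin_two] at htr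
  rw [Matrix.det_fin_two] at hdet
  -- modulo `m` the matrix is a scalar
  obtain ⟨X, hX⟩ := hA m hm0
  have hsc : (red m (AM (phi ^ (k + 1)))).val = (-(g : ZMod m)) • 1 := by
    show (AM (phi ^ (k + 1))).val.map (Int.castRingHom (ZMod m)) = _
    rw [hB]
    ext i j
    fin_cases i <;> fin_cases j <;> simp
  have hAsc : (red m A).val = (-(g : ZMod m)) • 1 := by
    have h3 : X.val * (red m (AM (phi ^ (k + 1)))).val = (red m A).val * X.val :=
      congrArg Units.val hX
    rw [hsc, mul_smul_comm, mul_one] at h3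
    have h4 : (red m A).val = (red m A).val * X.val * X⁻¹.val := by
      rw [mul_assoc, Units.mul_inv, mul_one]
    rw [h4, ← h3, smul_mul_assoc, Units.mul_inv]
  have hent : ∀ i j, (m : ℤ) ∣ A.val i j + g * (1 : Matrix (Fin 2) (Fin 2) ℤ) i j := by
    intro i j
    have h3 := congrFun (congrFun hAsc i) j
    have h4 : (red m A).val i j = ((A.val i j : ℤ) : ZMod m) := rfl
    rw [h4, Matrix.smul_apply] at h3
    rw [← ZMod.intCast_zmod_eq_zero_iff_dvd]
    push_cast
    rw [h3]
    by_cases hij : i = j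
    · subst hij
      simp
    · simp [Matrix.one_apply, hij]
  choose C hC using hent
  have hmz0 : (m : ℤ) ≠ 0 := by exact_mod_cast hm0.ne'
  have c00 : A.val 0 0 = m * C 0 0 - g := by
    have := hC 0 0
    simp only [Matrix.one_apply_eq, mul_one] at this
    linarith
  have c11 : A.val 1 1 = m * C 1 1 - g := by
    have := hC 1 1
    simp only [Matrix.one_apply_eq, mul_one] at this
    linarith
  have c01 : A.val 0 1 = m * C 0 1 := by
    have := hC 0 1
    rw [Matrix.one_apply_ne (by decide), mul_zero, add_zero] at this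
    exact this
  have c10 : A.val 1 0 = m * C 1 0 := by
    have := hC 1 0
    rw [Matrix.one_apply_ne (by decide), mul_zero, add_zero] at this
    exact this
  have htr3 : C 0 0 + C 1 1 = 3 := by
    rw [c00, c11] at htr
    apply mul_left_cancel₀ hmz0
    linarith
  have hdet1 : C 0 0 * C 1 1 - C 0 1 * C 1 0 = 1 := by
    rw [c00, c11, c01, c10] at hdet
    apply mul_left_cancel₀ (mul_ne_zero hmz0 hmz0)
    linear_combination (-1 : ℤ) * hdet + (m : ℤ) * g * htr3
  let M : Matrix (Fin 2) (Fin 2) ℤ := !![C 0 0, C 0 1; C 1 0, C 1 1]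
  have hMdet : M.det = 1 := by
    rw [Matrix.det_fin_two_of]
    exact hdet1
  have hMu : IsUnit M.det := by rw [hMdet]; exact isUnit_one
  obtain ⟨Y, hY⟩ := h1 (Matrix.nonsingInvUnit M hMu) (by
    show M.trace = 3
    rw [Matrix.trace_fin_two_of]
    exact htr3) hMdet
  refine ⟨Y, ?_⟩
  apply Units.ext
  have hY' : Y.val * M = (AM phi).val * Y.val := congrArg Units.val hY
  have eA : A.val = (m : ℤ) • M - g • 1 := by
    ext i j
    rw [Matrix.sub_apply, Matrix.smul_apply, Matrix.smul_apply, Matrix.one_apply]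
    fin_cases i <;> fin_cases j
    · show A.val 0 0 = _
      rw [c00]
      simp [M]
    · show A.val 0 1 = _
      rw [c01]
      simp [M]
    · show A.val 1 0 = _
      rw [c10]
      simp [M]
    · show A.val 1 1 = _
      rw [c11]
      simp [M]
  have eB : (AM (phi ^ (k + 1))).val = (m : ℤ) • (AM phi).val - g • 1 := by
    rw [hB, cjN_B]
    ext i j
    rw [Matrix.sub_apply, Matrix.smul_apply, Matrix.smul_apply, Matrix.one_apply]
    fin_cases i <;> fin_cases j <;> simp
    ring
  show Y.val * A.val = (AM (phi ^ (k + 1))).val * Y.val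
  rw [eA, eB, mul_sub, sub_mul, mul_smul_comm, hY', smul_mul_assoc, mul_smul_comm, smul_mul_assoc,
    mul_one, one_mul]

end Pool.Agent.F8.HN
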