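import Pool.Agent.Lib.MP_305fdd_al.F8.StmHN

/-!
# MP_305fdd_al, F8: corresponding homomorphisms have the same values on the elements with a given exponent
-/

set_option autoImplicit false

namespace Pool.Agent.F8.HN

open Pool.Agent.MP_305fdd_al Pool.Agent.Lib.MP_305fdd_al Pool.Agent.F2X Pool.Agent.F8

/-- equality of the reductions modulo `m` -/
private theorem cmpA_red (m : ℕ) (a b : Multiplicative ℤ) (h : redZ m a = redZ m b) :
    ∃ z : Multiplicative ℤ, a = b * z ^ m := by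
  have h1 : ((Multiplicative.toAdd a : ℤ) : ZMod m) = ((Multiplicative.toAdd b : ℤ) : ZMod m) := h
  rw [ZMod.intCast_eq_intCast_iff_dvd_sub] at h1
  obtain ⟨k, hk⟩ := h1
  refine ⟨Multiplicative.ofAdd (-k), ?_⟩
  apply Multiplicative.toAdd.injective
  rw [toAdd_mul, toAdd_pow, toAdd_ofAdd]
  have h2 : Multiplicative.toAdd a = Multiplicative.toAdd b - (m : ℤ) * k := by omega
  rw [h2]
  simp only [nsmul_eq_mul]
  ring

/-- from the graph of one side to the other -/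
private theorem cmpA_aux (A B : Type) [Group A] [Group B] (Q : Type) [Group Q] [Finite Q]
    (nA : A →* Multiplicative ℤ) (nB : B →* Multiplicative ℤ) (hB : Function.Surjective nB)
    (θ : A →* Q) (θ' : B →* Q)
    (hr : ∀ a, ∃ b, θ' b = θ a ∧ redZ (Nat.card Q) (nB b) = redZ (Nat.card Q) (nA a))
    (q : Q) (n : Multiplicative ℤ) (h : ∃ a, nA a = n ∧ θ a = q) : ∃ b, nB b = n ∧ θ' b = q := by
  obtain ⟨a, ha, hq⟩ := h
  obtain ⟨b, hb1, hb2⟩ := hr a
  obtain ⟨z, hz⟩ := cmpA_red _ _ _ hb2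
  obtain ⟨b', hb'⟩ := hB z
  refine ⟨b * (b' ^ (Nat.card Q))⁻¹, ?_, ?_⟩
  · rw [map_mul, map_inv, map_pow, hb', hz, mul_inv_cancel_right, ha]
  · rw [map_mul, map_inv, map_pow, pow_card_eq_one', inv_one, mul_one, hb1, hq]

theorem p_cmpA : S_cmpA := by
  intro α Λ _ Φ nL hL hC Q _ _ θ q n
  have hm : NeZero (Nat.card Q) := ⟨Nat.card_pos.ne'⟩
  have hn8 : Function.Surjective (nA α) := nA_surjective α
  let θ₁ : GA α →* Q × Multiplicative (ZMod (Nat.card Q)) :=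
    θ.prod ((redZ (Nat.card Q)).comp (nA α))
  let θ₂ : Λ →* Q × Multiplicative (ZMod (Nat.card Q)) :=
    (Φ.toFun Q θ).prod ((redZ (Nat.card Q)).comp nL)
  have hfin : Finite (Multiplicative (ZMod (Nat.card Q))) :=
    inferInstanceAs (Finite (ZMod (Nat.card Q)))
  have h1 : (MonoidHom.fst _ _).comp (Φ.toFun _ θ₁) = Φ.toFun Q θ := by
    rw [← Φ.nat]
    rfl
  have h2 : (MonoidHom.snd _ _).comp (Φ.toFun _ θ₁) = (redZ (Nat.card Q)).comp nL := by
    rw [← Φ.nat, ← hC]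
    rfl
  have h3 : Φ.toFun _ θ₁ = θ₂ := by
    ext x
    · exact DFunLike.congr_fun h1 x
    · exact DFunLike.congr_fun h2 x
  have h4 : θ₂.range = θ₁.range := by
    rw [← h3]
    exact Φ.range_eq θ₁
  constructor
  · refine cmpA_aux (GA α) Λ Q (nA α) nL hL θ (Φ.toFun Q θ) ?_ q n
    intro a
    have h5 : θ₁ a ∈ θ₂.range := by rw [h4]; exact ⟨a, rfl⟩
    obtain ⟨b, hb⟩ := h5
    exact ⟨b, congrArg Prod.fst hb, congrArg Prod.snd hb⟩
  · refine cmpA_aux Λ (GA α) Q nL (nA α) hn8 (Φ.toFun Q θ) θ ?_ q n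
    intro a
    have h5 : θ₂ a ∈ θ₁.range := by rw [← h4]; exact ⟨a, rfl⟩
    obtain ⟨b, hb⟩ := h5
    exact ⟨b, congrArg Prod.fst hb, congrArg Prod.snd hb⟩

end Pool.Agent.F8.HN
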