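import Pool.Agent.Lib.MP_305fdd_al.F8.StmHN
import Pool.Agent.Lib.MP_305fdd_al.F2X.Stm
import Pool.Agent.Lib.MP_305fdd_al.Genus

/-!
# MP_305fdd_al: cyclic covers of the figure-eight knot complement: piece `endA`
-/

set_option autoImplicit false

namespace Pool.Agent.F8.HN

open Pool.Agent.MP_305fdd_al Pool.Agent.Lib.MP_305fdd_al Pool.Agent.F2X Pool.Agent.F8
open scoped QuadraticAlgebra

/-- powers of `tA α` act as powers of `α` -/
private theorem endA_zpow_conj (α : MulAut F) (n : ℤ) (w : F) :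
    tA α ^ n * iA α w * (tA α ^ n)⁻¹ = iA α ((α ^ n) w) := by
  have hi : ∀ w : F, (tA α)⁻¹ * iA α w * tA α = iA α (α⁻¹ w) := by
    intro w
    have h := tA_conj α (α⁻¹ w)
    rw [MulAut.apply_inv_self] at h
    rw [← h]; group
  induction n using Int.induction_on generalizing w with
  | zero => simp
  | succ i ih =>
    rw [zpow_add_one, zpow_add_one, MulAut.mul_apply, ← ih, ← tA_conj]; group
  | pred i ih =>
    rw [zpow_sub_one, zpow_sub_one, MulAut.mul_apply, ← ih, ← hi]; group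

section

variable {Λ : Type} [Group Λ] (nL : Λ →* Multiplicative ℤ) (l₀ : Λ)
  (h0 : nL l₀ = Multiplicative.ofAdd 1)

include h0 in
private theorem endA_zpow (n : ℤ) : nL (l₀ ^ n) = Multiplicative.ofAdd n := by
  rw [map_zpow, h0, ← ofAdd_zsmul, smul_eq_mul, mul_one]

/-- the component in the kernel -/
private def endA_c (l : Λ) : nL.ker :=
  ⟨l * (l₀ ^ (Multiplicative.toAdd (nL l)))⁻¹, by
    rw [MonoidHom.mem_ker, map_mul, map_inv, endA_zpow nL l₀ h0, ofAdd_toAdd, mul_inv_cancel]⟩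

private theorem endA_conj {N : Type} [Group N] (g : nL.ker →* N) (τ : MulAut N)
    (hg : ∀ x : nL.ker, g (MulAut.conjNormal l₀ x) = τ (g x)) (n : ℤ) (x : nL.ker) :
    g (MulAut.conjNormal (l₀ ^ n) x) = (τ ^ n) (g x) := by
  have hi : ∀ x : nL.ker, g (MulAut.conjNormal l₀⁻¹ x) = τ⁻¹ (g x) := by
    intro x
    have h := hg (MulAut.conjNormal l₀⁻¹ x)
    rw [← MulAut.mul_apply, ← map_mul, mul_inv_cancel, map_one, MulAut.one_apply] at h
    rw [h, MulAut.inv_apply_self]
  induction n using Int.induction_on generalizing x with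
  | zero => simp
  | succ i ih =>
    rw [zpow_add_one, zpow_add_one, MulAut.mul_apply, map_mul, MulAut.mul_apply, ih, hg]
  | pred i ih =>
    rw [zpow_sub_one, zpow_sub_one, MulAut.mul_apply, map_mul, MulAut.mul_apply, ih, hi]

include h0 in
/-- the homomorphism to `GA α` -/
private theorem endA_hom (α : MulAut F) (g : nL.ker →* F)
    (hg : ∀ x : nL.ker, g (MulAut.conjNormal l₀ x) = α (g x)) :
    ∃ π : Λ →* GA α, (∀ x : nL.ker, π x = iA α (g x)) ∧ π l₀ = tA α := by
  let f : Λ → GA α := fun l =>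
    iA α (g (endA_c nL l₀ h0 l)) * tA α ^ (Multiplicative.toAdd (nL l))
  have hmul : ∀ l l' : Λ, f (l * l') = f l * f l' := by
    intro l l'
    have h1 : endA_c nL l₀ h0 (l * l') = endA_c nL l₀ h0 l *
        MulAut.conjNormal (l₀ ^ (Multiplicative.toAdd (nL l))) (endA_c nL l₀ h0 l') := by
      apply Subtype.ext
      rw [Subgroup.coe_mul, MulAut.conjNormal_apply]
      show l * l' * (l₀ ^ (Multiplicative.toAdd (nL (l * l'))))⁻¹ =
        l * (l₀ ^ (Multiplicative.toAdd (nL l)))⁻¹ * (l₀ ^ (Multiplicative.toAdd (nL l)) *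
          (l' * (l₀ ^ (Multiplicative.toAdd (nL l')))⁻¹) *
          (l₀ ^ (Multiplicative.toAdd (nL l)))⁻¹)
      rw [map_mul, toAdd_mul, add_comm, zpow_add]
      group
    show iA α (g (endA_c nL l₀ h0 (l * l'))) *
        tA α ^ (Multiplicative.toAdd (nL (l * l'))) =
      iA α (g (endA_c nL l₀ h0 l)) * tA α ^ (Multiplicative.toAdd (nL l)) *
      (iA α (g (endA_c nL l₀ h0 l')) * tA α ^ (Multiplicative.toAdd (nL l')))
    rw [h1, map_mul, endA_conj nL l₀ g α hg, map_mul, ← endA_zpow_conj, map_mul, toAdd_mul,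
      zpow_add]
    group
  refine ⟨MonoidHom.mk' f hmul, ?_, ?_⟩
  · intro x
    show iA α (g (endA_c nL l₀ h0 x)) * tA α ^ (Multiplicative.toAdd (nL x)) = _
    have hx : nL (x : Λ) = 1 := x.2
    have h1 : endA_c nL l₀ h0 (x : Λ) = x := by
      apply Subtype.ext
      show (x : Λ) * (l₀ ^ (Multiplicative.toAdd (nL x)))⁻¹ = x
      rw [hx]; simp
    rw [h1, hx]; simp
  · show iA α (g (endA_c nL l₀ h0 l₀)) * tA α ^ (Multiplicative.toAdd (nL l₀)) = _
    have h1 : endA_c nL l₀ h0 l₀ = 1 := by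
      apply Subtype.ext
      show l₀ * (l₀ ^ (Multiplicative.toAdd (nL l₀)))⁻¹ = 1
      rw [h0]; simp
    rw [h1, h0]; simp

end

/-- `GA α` is finitely generated -/
private theorem endA_fg (α : MulAut F) : Group.FG (GA α) := by
  rw [Group.fg_iff]
  refine ⟨{iA α ga, iA α gb, tA α}, ?_, Set.toFinite _⟩
  rw [eq_top_iff]
  rintro x -
  obtain ⟨w, n, rfl⟩ := GA_cases α x
  have hw : iA α w ∈ Subgroup.closure {iA α ga, iA α gb, tA α} := by
    have hle : (⊤ : Subgroup F) ≤ (Subgroup.closure {iA α ga, iA α gb, tA α}).comap (iA α) := by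
      rw [← FreeGroup.closure_range_of, Subgroup.closure_le]
      rintro _ ⟨i, rfl⟩
      fin_cases i
      · exact Subgroup.subset_closure (by left; rfl)
      · exact Subgroup.subset_closure (by right; left; rfl)
    exact hle (Subgroup.mem_top w)
  exact mul_mem hw (zpow_mem (Subgroup.subset_closure (by right; right; rfl)) _)

theorem p_endA (hmat : S_matA) (hsur : Pool.Agent.F2X.S_sur)
    (hout : Pool.Agent.F2X.S_out) : S_endA := by
  intro α hα Λ _ Φ nL hfg hrf hsame hnL hcmp l₀ h0 g ψ hg hgψ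
  obtain ⟨X, hX⟩ := hα (AM ψ) (hmat α Λ Φ nL hnL hcmp l₀ h0 g ψ hg hgψ)
  obtain ⟨β, rfl⟩ := hsur X
  -- replace `g` by `β ∘ g`
  let ψ' : MulAut F := β * ψ * β⁻¹
  have hψ' : AM ψ' = AM α := by
    show AM (β * ψ * β⁻¹) = _
    rw [map_mul, map_mul, hX, map_inv, mul_inv_cancel_right]
  let g' : nL.ker →* F := β.toMonoidHom.comp g
  have hg' : Function.Surjective g' := β.surjective.comp hg
  have hgψ' : ∀ x : nL.ker, g' (MulAut.conjNormal l₀ x) = ψ' (g' x) := by
    intro x
    show β (g (MulAut.conjNormal l₀ x)) = β (ψ (β⁻¹ (β (g x))))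
    rw [hgψ, MulAut.inv_apply_self]
  obtain ⟨w, hw⟩ := hout (ψ'⁻¹ * α) (by rw [map_mul, map_inv, hψ', inv_mul_cancel])
  obtain ⟨x, rfl⟩ := hg' w
  have hphi : α = ψ' * MulAut.conj (g' x) := by rw [← hw, mul_inv_cancel_left]
  have h0' : nL (l₀ * x) = Multiplicative.ofAdd 1 := by
    rw [map_mul, h0, show nL (x : Λ) = 1 from x.2, mul_one]
  have hgphi : ∀ y : nL.ker, g' (MulAut.conjNormal (l₀ * (x : Λ)) y) = α (g' y) := by
    intro y
    rw [map_mul, MulAut.mul_apply, hgψ']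
    have h2 : α (g' y) = ψ' (MulAut.conj (g' x) (g' y)) := by
      conv_lhs => rw [hphi]
      rfl
    rw [h2]
    congr 1
    have h1 : MulAut.conjNormal (x : Λ) y = x * y * x⁻¹ := by
      apply Subtype.ext
      rw [MulAut.conjNormal_apply]; rfl
    rw [h1, map_mul, map_mul, map_inv, MulAut.conj_apply]
  obtain ⟨π, hπ1, hπ2⟩ := endA_hom nL (l₀ * x) h0' α g' hgphi
  have hsurj : Function.Surjective π := by
    intro z
    obtain ⟨w, n, rfl⟩ := GA_cases α z
    obtain ⟨y, hy⟩ := hg' w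
    refine ⟨y * (l₀ * x) ^ n, ?_⟩
    rw [map_mul, map_zpow, hπ1, hπ2, hy]
  have := hfg
  have := hrf
  have := endA_fg α
  exact ⟨MulEquiv.ofBijective π ⟨injective_of_surj hsame π hsurj, hsurj⟩⟩

end Pool.Agent.F8.HN
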