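import Pool.Agent.Lib.MP_305fdd_al.F8.StmHN

/-!
# MP_305fdd_al, cyclic covers of the figure-eight knot complement, [F8h fstA]: part 2
-/

set_option autoImplicit false

namespace Pool.Agent.F8.HN

open Pool.Agent.MP_305fdd_al Pool.Agent.Lib.MP_305fdd_al Pool.Agent.F2X Pool.Agent.F8
open scoped QuadraticAlgebra

private theorem fstA_cent {R : Type} [CommRing R] (c : SL2 R) (hc : c = 1 ∨ c = -1) (g : SL2 R) :
    Commute c g := by
  rcases hc with rfl | rfl
  · exact Commute.one_left g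
  · exact (Commute.neg_left (Commute.one_left g))

private theorem fstA_map {R S : Type} [CommRing R] [CommRing S] (f : R →+* S) (c : SL2 R)
    (hc : c = 1 ∨ c = -1) : SLm f c = 1 ∨ SLm f c = -1 := by
  rcases hc with rfl | rfl
  · left; rw [map_one]
  · right
    apply Subtype.ext
    rw [Matrix.SpecialLinearGroup.map_apply_coe, Matrix.SpecialLinearGroup.coe_neg,
      Matrix.SpecialLinearGroup.coe_neg, map_neg, Matrix.SpecialLinearGroup.coe_one,
      Matrix.SpecialLinearGroup.coe_one, map_one]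

private theorem fstA_comm : r2 G.mv * r2 G.mu = r2 G.mu * r2 G.mv := by
  apply G.SL_ext <;> decide

private theorem fstA_nc : ¬ mk2 (ZMod 2) * r2 G.mu = r2 G.mu * mk2 (ZMod 2) := by
  intro h
  have h1 := congrArg (fun g : SL2 (Es (ZMod 2)) => g.val 0 1) h
  revert h1
  decide

/-- the image of `F` modulo `2` commutes with the image of `u` -/
private theorem fstA_F (w : F) :
    r2 (G.rO (SemidirectProduct.inl w)) * r2 G.mu = r2 G.mu * r2 (G.rO (SemidirectProduct.inl w)) := by
  have hu : r2 (G.rO (SemidirectProduct.inl ga)) = r2 G.mu := congrArg r2 G.rO_uu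
  have hv : r2 (G.rO (SemidirectProduct.inl gb)) = r2 G.mv := congrArg r2 G.rO_vv
  have hof : ∀ i : Fin 2, Commute (r2 (G.rO (SemidirectProduct.inl (FreeGroup.of i)))) (r2 G.mu) := by
    intro i
    fin_cases i
    · show Commute (r2 (G.rO (SemidirectProduct.inl ga))) _
      rw [hu]
    · show Commute (r2 (G.rO (SemidirectProduct.inl gb))) _
      rw [hv]
      exact fstA_comm
  have key : Commute (r2 (G.rO (SemidirectProduct.inl w))) (r2 G.mu) := by
    induction w using FreeGroup.induction_on with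
    | C1 => rw [map_one, map_one, map_one]; exact Commute.one_left _
    | of i => exact hof i
    | inv_of i _ =>
      rw [map_inv, map_inv, map_inv]
      exact (hof i).inv_left
    | mul v w hv hw =>
      rw [map_mul, map_mul, map_mul]
      exact hv.mul_left hw
  exact key

theorem p_fstA (h2A : S_twoA) (h3A : S_threeA) (hcA : S_cmpA) : S_fstA := by
  intro α ρ₀ hstd Λ _ Φ nL hsur hcmp hz ρ ht2 ht3 Ψ hΨ
  obtain ⟨Y, hY⟩ := h2A α ρ₀ hstd Λ Φ ρ ht2
  obtain ⟨x₁, x₂, hne⟩ := h3A α ρ₀ hstd Λ Φ nL hsur hcmp ρ ht3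
  set s : Λ →* SL2 (Es (ZMod 2)) := Φ.toFun (SL2 (Es (ZMod 2))) (r2.comp ρ₀) with hs
  have hsD : ∀ l, s l ∈ D5 := by
    intro l
    have : s l ∈ (r2.comp ρ₀).range := by
      rw [← Φ.range_eq (r2.comp ρ₀)]
      exact ⟨l, rfl⟩
    obtain ⟨g, hg⟩ := this
    rw [← hg]
    exact hstd.D g
  have hN : ∀ l, Y * ρ l * Y⁻¹ ∈ Npre := by
    intro l
    show r2 (Y * ρ l * Y⁻¹) ∈ D5
    rw [hY]
    exact hsD l
  -- the conjugated representation
  let ρ' : Λ →* Npre := ((MulAut.conj Y).toMonoidHom.comp ρ).codRestrict Npre hN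
  have hρ' : ∀ l, (ρ' l).val = Y * ρ l * Y⁻¹ := fun l => rfl
  let R : Λ →* SL2 (ZMod 3) := r3.comp (Npre.subtype.comp ρ')
  have hR : ∀ l, R l = r3 (ρ' l).val := fun l => rfl
  let f : Λ →* N2 := Ψ.comp ρ'
  let ι : F →* N2 := i8.comp SemidirectProduct.inl
  have hι : Function.Injective ι := by
    intro x y hxy
    exact SemidirectProduct.inl_injective (SemidirectProduct.inl_injective hxy)
  have hex : ∀ x : nL.ker, ∃ w : F, f x = ι w := by
    intro x
    have e2 : nu2 (f x) = 1 := (hz (nu2.comp f)) x.2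
    have he : ep2 (f x) = 1 ∨ ep2 (f x) = Multiplicative.ofAdd 1 := by
      have : ∀ i : ZMod 2, i = 0 ∨ i = 1 := by decide
      exact this (ep2 (f x))
    rcases he with e1 | e1
    · exact mem_F _ e1 e2
    · exfalso
      obtain ⟨w, hw⟩ := mem_F (f x * kk⁻¹) (by
        rw [map_mul, map_inv, e1]; rfl) (by
        rw [map_mul, map_inv, e2, nu2_kk, inv_one, mul_one])
      have hw' : f x = i8 (SemidirectProduct.inl w) * kk := by rw [← hw, inv_mul_cancel_right]
      have h1 : G.r2p (G.Th (f x)) = s x := by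
        show G.r2p (G.Th (Ψ (ρ' x))) = _
        rw [hΨ, G.r2p_pj, hρ', hY]
      rw [hw', map_mul, map_mul, G.Th_i8, G.Th_kk, G.r2p_pj, G.r2p_pj, G.r2_mk2] at h1
      obtain ⟨g, hg1, hg2⟩ := (hcA α Λ Φ nL hsur hcmp (SL2 (Es (ZMod 2))) (r2.comp ρ₀) (s x) 1).2
        ⟨x, x.2, rfl⟩
      obtain ⟨w', rfl⟩ := GA_ker α g hg1
      have h3 : r2 (G.rO (SemidirectProduct.inl w')) = s x := by
        rw [← hg2]
        show _ = r2 (ρ₀ (iA α w'))
        rw [hstd.F]
      have h4 : mk2 (ZMod 2) = r2 (G.rO (SemidirectProduct.inl (w⁻¹ * w'))) := by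
        rw [map_mul, map_mul, map_mul, h3, ← h1, map_inv, map_inv, map_inv, inv_mul_cancel_left]
      apply fstA_nc
      rw [h4]
      exact fstA_F _
  choose h0 hh0 using hex
  let h : nL.ker →* F := MonoidHom.mk' h0 (by
    intro x y
    apply hι
    rw [map_mul, ← hh0, ← hh0, ← hh0, ← map_mul]
    rfl)
  have hh : ∀ x : nL.ker, ι (h x) = f x := fun x => (hh0 x).symm
  refine ⟨h, ?_, ?_⟩
  · intro l x hx
    have hfx : f x = 1 := by rw [← hh, hx, map_one]
    apply hι
    rw [hh, map_one]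
    have e : ((MulAut.conjNormal l x : nL.ker) : Λ) = l * x * l⁻¹ := MulAut.conjNormal_apply l x
    rw [e, map_mul, map_mul, hfx, mul_one, ← map_mul, mul_inv_cancel, map_one]
  · intro hcyc
    obtain ⟨⟨_, z, rfl⟩, hg⟩ := hcyc.exists_generator
    have key : ∀ x : nL.ker, ∃ (k : ℤ) (c : SL2 (ZMod 3)), (c = 1 ∨ c = -1) ∧
        R x = c * R z ^ k := by
      intro x
      obtain ⟨k, hk⟩ := Subgroup.mem_zpowers_iff.1 (hg ⟨h x, x, rfl⟩)
      have hk' : h z ^ k = h x := congrArg Subtype.val hk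
      refine ⟨k, R ((x : Λ) * (z : Λ) ^ (-k)), ?_, ?_⟩
      · have e1 : h (x * z ^ (-k)) = 1 := by
          rw [map_mul, map_zpow, ← hk', zpow_neg, mul_inv_cancel]
        have e2 : f ((x : Λ) * (z : Λ) ^ (-k)) = 1 := by
          have := hh (x * z ^ (-k))
          rw [e1, map_one] at this
          exact this.symm
        have e3 : G.pj (ρ' ((x : Λ) * (z : Λ) ^ (-k))).val = 1 := by
          rw [← hΨ]
          show G.Th (f ((x : Λ) * (z : Λ) ^ (-k))) = 1
          rw [e2, map_one]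
        exact fstA_map _ _ (G.pj_eq_one e3)
      · rw [map_mul, map_zpow, mul_assoc, ← zpow_add, neg_add_cancel, zpow_zero, mul_one]
    have hcom : ∀ x y : nL.ker, Commute (R x) (R y) := by
      intro x y
      obtain ⟨k, c, hc, ex⟩ := key x
      obtain ⟨k', c', hc', ey⟩ := key y
      rw [ex, ey]
      apply Commute.mul_left
      · exact fstA_cent c hc _
      · apply Commute.mul_right
        · exact (fstA_cent c' hc' _).symm
        · exact (Commute.refl _).zpow_zpow _ _
    apply hne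
    have hRr : ∀ x : nL.ker, r3 (ρ x) = (r3 Y)⁻¹ * R x * r3 Y := by
      intro x
      rw [hR, hρ', map_mul, map_mul, map_inv]
      group
    rw [hRr x₁, hRr x₂]
    have := (hcom x₁ x₂).eq
    calc (r3 Y)⁻¹ * R x₁ * r3 Y * ((r3 Y)⁻¹ * R x₂ * r3 Y) = (r3 Y)⁻¹ * (R x₁ * R x₂) * r3 Y := by
          group
      _ = (r3 Y)⁻¹ * R x₂ * r3 Y * ((r3 Y)⁻¹ * R x₁ * r3 Y) := by rw [this]; group

end Pool.Agent.F8.HN
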