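import Pool.Agent.Lib.MP_305fdd_al.F8.StmHN

/-!
# MP_305fdd_al, cyclic covers of the figure-eight knot complement, [F8h matA]: the matrix of the
monodromy modulo `m`
-/

set_option autoImplicit false

namespace Pool.Agent.F8.HN

open Pool.Agent.MP_305fdd_al Pool.Agent.Lib.MP_305fdd_al Pool.Agent.F2X Pool.Agent.F8

/-- the reduction of a vector modulo `m` -/
private def matA_v (m : ℕ) (x : Fin 2 → ℤ) : Fin 2 → ZMod m := fun i => (x i : ZMod m)

private theorem matA_v_add (m : ℕ) (x y : Fin 2 → ℤ) : matA_v m (x + y) = matA_v m x + matA_v m y := by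
  ext i
  simp [matA_v]

/-- the reduction of `vec` modulo `m` -/
private def matA_s (m : ℕ) : F →* Multiplicative (Fin 2 → ZMod m) where
  toFun w := Multiplicative.ofAdd (matA_v m (vec w))
  map_one' := by
    rw [vec_one]
    show Multiplicative.ofAdd (matA_v m 0) = Multiplicative.ofAdd 0
    congr 1
    ext i
    simp [matA_v]
  map_mul' x y := by
    rw [vec_mul, matA_v_add, ofAdd_add]

private theorem matA_s_apply (m : ℕ) (w : F) :
    matA_s m w = Multiplicative.ofAdd (matA_v m (vec w)) := rfl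

private theorem matA_s_surj (m : ℕ) [NeZero m] : Function.Surjective (matA_s m) := by
  intro x
  obtain ⟨w, hw⟩ := vec_surj (fun i => ((Multiplicative.toAdd x i).val : ℤ))
  refine ⟨w, ?_⟩
  rw [matA_s_apply, hw]
  apply Multiplicative.toAdd.injective
  ext i
  simp [matA_v]

/-- multiplication by an invertible matrix -/
private def matA_mul {m : ℕ} (M : GL (Fin 2) (ZMod m)) : MulAut (Multiplicative (Fin 2 → ZMod m)) where
  toFun x := Multiplicative.ofAdd (M.val.mulVec (Multiplicative.toAdd x))
  invFun x := Multiplicative.ofAdd ((M⁻¹).val.mulVec (Multiplicative.toAdd x))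
  left_inv x := by
    simp only [toAdd_ofAdd, Matrix.mulVec_mulVec, ← Units.val_mul, inv_mul_cancel, Units.val_one,
      Matrix.one_mulVec, ofAdd_toAdd]
  right_inv x := by
    simp only [toAdd_ofAdd, Matrix.mulVec_mulVec, ← Units.val_mul, mul_inv_cancel, Units.val_one,
      Matrix.one_mulVec, ofAdd_toAdd]
  map_mul' x y := by
    simp only [toAdd_mul, Matrix.mulVec_add, ofAdd_add]

private theorem matA_mul_apply {m : ℕ} (M : GL (Fin 2) (ZMod m))
    (x : Multiplicative (Fin 2 → ZMod m)) :
    matA_mul M x = Multiplicative.ofAdd (M.val.mulVec (Multiplicative.toAdd x)) := rfl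

private theorem matA_red_val (m : ℕ) (A : GL (Fin 2) ℤ) (x : Fin 2 → ℤ) :
    matA_v m (A.val.mulVec x) = (red m A).val.mulVec (matA_v m x) := by
  ext i
  simp [matA_v, red, Matrix.mulVec, dotProduct]

/-- a homomorphism to `(ℤ/m)²` is given by a matrix -/
private theorem matA_hom (m : ℕ) (g' : F →* Multiplicative (Fin 2 → ZMod m)) :
    ∃ Y : Matrix (Fin 2) (Fin 2) (ZMod m), ∀ w, Multiplicative.toAdd (g' w) =
      Y.mulVec (matA_v m (vec w)) := by
  refine ⟨Matrix.of fun i j => Multiplicative.toAdd (g' (FreeGroup.of j)) i, ?_⟩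
  set Y : Matrix (Fin 2) (Fin 2) (ZMod m) :=
    Matrix.of fun i j => Multiplicative.toAdd (g' (FreeGroup.of j)) i with hY
  let k : F →* Multiplicative (Fin 2 → ZMod m) :=
    { toFun := fun w => Multiplicative.ofAdd (Y.mulVec (matA_v m (vec w)))
      map_one' := by
        rw [vec_one]
        have : matA_v m 0 = 0 := by ext i; simp [matA_v]
        rw [this, Matrix.mulVec_zero]
        rfl
      map_mul' := fun x y => by
        rw [vec_mul, matA_v_add, Matrix.mulVec_add, ofAdd_add] }
  have hk : g' = k := by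
    ext j
    show Multiplicative.toAdd (g' (FreeGroup.of j)) _ = (Y.mulVec (matA_v m (vec (FreeGroup.of j)))) _
    rw [vec_of]
    have : matA_v m (Pi.single j 1) = Pi.single j 1 := by
      ext i
      simp [matA_v, Pi.single_apply]
    rw [this, Matrix.mulVec_single_one]
    rfl
  intro w
  rw [hk]
  rfl

theorem p_matA (htw : S_twA) : S_matA := by
  intro α Λ _ Φ nL hsur hcmp l₀ hl₀ g ψ hg hψ m hm
  have : NeZero m := ⟨hm.ne'⟩
  obtain ⟨g', y, h1, -, h3⟩ := htw α Λ Φ nL hsur hcmp l₀ hl₀ (Multiplicative (Fin 2 → ZMod m))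
    ((matA_s m).comp g) (matA_mul (red m (AM ψ))) (by
      intro x
      rw [MonoidHom.comp_apply, hψ, MonoidHom.comp_apply, matA_s_apply, AM_vec, matA_red_val,
        matA_mul_apply, matA_s_apply]
      rfl)
  have h3' : ∀ w, g' (α w) = matA_mul (red m (AM ψ)) (g' w) := by
    intro w
    rw [h3, mul_right_comm, mul_inv_cancel, one_mul]
  have hsurj : Function.Surjective g' := by
    rw [← MonoidHom.range_eq_top, h1, MonoidHom.range_eq_top]
    exact (matA_s_surj m).comp hg
  obtain ⟨Y, hY⟩ := matA_hom m g'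
  have hYs : Function.Surjective Y.mulVec := by
    intro x
    obtain ⟨w, hw⟩ := hsurj (Multiplicative.ofAdd x)
    refine ⟨matA_v m (vec w), ?_⟩
    rw [← hY, hw]
    rfl
  rw [Matrix.mulVec_surjective_iff_isUnit] at hYs
  obtain ⟨X, hX⟩ := hYs
  refine ⟨X, ?_⟩
  apply Units.ext
  rw [Units.val_mul, Units.val_mul, hX]
  apply Matrix.ext_of_mulVec_single
  intro j
  have hj : (Pi.single j 1 : Fin 2 → ZMod m) = matA_v m (vec (FreeGroup.of j)) := by
    rw [vec_of]
    ext i
    simp [matA_v, Pi.single_apply]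
  rw [hj, ← Matrix.mulVec_mulVec, ← Matrix.mulVec_mulVec, ← matA_red_val, ← AM_vec, ← hY, ← hY,
    h3', matA_mul_apply, toAdd_ofAdd]

end Pool.Agent.F8.HN
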