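import Pool.Agent.Lib.MP_305fdd_al.F8.StmHN

/-!
# MP_305fdd_al, cyclic covers of the figure-eight knot complement, [F8h secA]: part 1
-/

set_option autoImplicit false

namespace Pool.Agent.F8.HN

open Pool.Agent.MP_305fdd_al Pool.Agent.Lib.MP_305fdd_al Pool.Agent.F2X Pool.Agent.F8

/-- an automorphism preserving the kernel of a surjection induces an automorphism of the image -/
private theorem secA_aut {K M : Type} [Group K] [Group M] (f : K →* M)
    (hf : Function.Surjective f) (c : MulAut K) (hc : ∀ x, f x = 1 ↔ f (c x) = 1) :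
    ∃ t : MulAut M, ∀ x, t (f x) = f (c x) := by
  let t0 : M →* M := f.liftOfSurjective hf ⟨f.comp c.toMonoidHom, fun x hx => by
    rw [MonoidHom.mem_ker] at hx ⊢
    exact (hc x).1 hx⟩
  let t1 : M →* M := f.liftOfSurjective hf ⟨f.comp (c⁻¹).toMonoidHom, fun x hx => by
    rw [MonoidHom.mem_ker] at hx ⊢
    show f (c⁻¹ x) = 1
    rw [hc, MulAut.apply_inv_self]
    exact hx⟩
  have h0 : ∀ x, t0 (f x) = f (c x) := fun x => MonoidHom.liftOfRightInverse_comp_apply _ _ _ _ x
  have h1 : ∀ x, t1 (f x) = f (c⁻¹ x) := fun x => MonoidHom.liftOfRightInverse_comp_apply _ _ _ _ x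
  refine ⟨MonoidHom.toMulEquiv t0 t1 ?_ ?_, h0⟩
  · ext m
    obtain ⟨x, rfl⟩ := hf m
    show t1 (t0 (f x)) = f x
    rw [h0, h1, MulAut.inv_apply_self]
  · ext m
    obtain ⟨x, rfl⟩ := hf m
    show t0 (t1 (f x)) = f x
    rw [h1, h0, MulAut.apply_inv_self]

/-- a commutative group of exponent two which is a quotient of `F` has at most four elements -/
private theorem secA_four {A : Type} [CommGroup A] [Finite A] (g' : F →* A)
    (hg : Function.Surjective g') (h2 : ∀ a : A, a * a = 1) : Nat.card A ≤ 4 := by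
  classical
  have := Fintype.ofFinite A
  set x := g' ga with hx
  set y := g' gb with hy
  have hinv : ∀ a : A, a⁻¹ = a := fun a => inv_eq_of_mul_eq_one_left (h2 a)
  have hmem : ∀ w : F, g' w ∈ ({1, x, y, x * y} : Finset A) := by
    have hcl : ∀ a ∈ ({1, x, y, x * y} : Finset A), a * x ∈ ({1, x, y, x * y} : Finset A) ∧
        a * y ∈ ({1, x, y, x * y} : Finset A) := by
      intro a ha
      simp only [Finset.mem_insert, Finset.mem_singleton] at ha ⊢
      have hxx := h2 x
      have hyy := h2 y
      have hyx : y * x = x * y := mul_comm _ _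
      have h3 : x * y * x = y := by rw [mul_right_comm, hxx, one_mul]
      have h4 : x * y * y = x := by rw [mul_assoc, hyy, mul_one]
      rcases ha with rfl | rfl | rfl | rfl
      · simp
      · rw [hxx]; simp
      · rw [hyx, hyy]; simp
      · rw [h3, h4]; simp
    have hmul : ∀ a ∈ ({1, x, y, x * y} : Finset A), ∀ b ∈ ({1, x, y, x * y} : Finset A),
        a * b ∈ ({1, x, y, x * y} : Finset A) := by
      intro a ha b hb
      simp only [Finset.mem_insert, Finset.mem_singleton] at hb
      rcases hb with rfl | rfl | rfl | rfl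
      · rwa [mul_one]
      · exact (hcl a ha).1
      · exact (hcl a ha).2
      · rw [← mul_assoc]
        exact (hcl _ (hcl a ha).1).2
    have hof : ∀ i : Fin 2, g' (FreeGroup.of i) ∈ ({1, x, y, x * y} : Finset A) := by
      intro i
      fin_cases i
      · show x ∈ _
        simp
      · show y ∈ _
        simp
    intro w
    induction w using FreeGroup.induction_on with
    | C1 => simp
    | of i => exact hof i
    | inv_of i _ =>
      rw [map_inv, hinv]
      exact hof i
    | mul v w hv hw =>
      rw [map_mul]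
      exact hmul _ hv _ hw
  rw [Nat.card_eq_fintype_card, ← Finset.card_univ]
  have hsub : (Finset.univ : Finset A) ⊆ {1, x, y, x * y} := by
    intro a _
    obtain ⟨w, rfl⟩ := hg a
    exact hmem w
  exact (Finset.card_le_card hsub).trans Finset.card_le_four

theorem p_secA (htw : S_twA) (hgn : H.S_gn) (hrk : H.S_rk) (hend : S_endA) : S_secA := by
  intro α hα Λ _ Φ nL hfg hrf hs hsur hcmp h hnorm hcyc
  obtain ⟨l₀, hl₀⟩ := hsur (Multiplicative.ofAdd 1)
  obtain ⟨S, hSfin, hS⟩ := hgn Λ nL l₀ hl₀ hfg
  have hrs : Function.Surjective h.rangeRestrict := h.rangeRestrict_surjective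
  have hr1 : ∀ x, h.rangeRestrict x = 1 ↔ h x = 1 := by
    intro x
    rw [← MonoidHom.mem_ker, MonoidHom.ker_rangeRestrict, MonoidHom.mem_ker]
  obtain ⟨t, ht⟩ := secA_aut h.rangeRestrict hrs (MulAut.conjNormal l₀) (by
    intro x
    rw [hr1, hr1]
    constructor
    · exact hnorm l₀ x
    · intro hx
      have := hnorm l₀⁻¹ _ hx
      rwa [← MulAut.mul_apply, ← map_mul, inv_mul_cancel, map_one, MulAut.one_apply] at this)
  obtain ⟨r, hr, ⟨e⟩⟩ := hrk h.range t (h.rangeRestrict '' S) (hSfin.image _) (by
    intro W hW1 hW2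
    have hW : W.comap h.rangeRestrict = ⊤ := by
      apply hS
      · intro x hx
        exact hW1 ⟨x, hx, rfl⟩
      · intro x
        rw [Subgroup.mem_comap, Subgroup.mem_comap, ← ht]
        exact hW2 _
    rw [eq_top_iff]
    intro m _
    obtain ⟨x, rfl⟩ := hrs m
    have : x ∈ W.comap h.rangeRestrict := by rw [hW]; trivial
    exact this) (by
    intro A _ _ τ g hg h2 hτ
    obtain ⟨g', y, h1, -, -⟩ := htw α Λ Φ nL hsur hcmp l₀ hl₀ A (g.comp h.rangeRestrict) τ (by
      intro x
      rw [MonoidHom.comp_apply, ← ht, hτ, MonoidHom.comp_apply])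
    refine secA_four g' ?_ h2
    rw [← MonoidHom.range_eq_top, h1, MonoidHom.range_eq_top]
    exact hg.comp hrs)
  have hr2 : r = 2 := by
    have : r = 0 ∨ r = 1 ∨ r = 2 := by omega
    rcases this with rfl | rfl | rfl
    · exfalso
      apply hcyc
      have h1 : Subsingleton h.range := e.toEquiv.subsingleton
      exact isCyclic_of_subsingleton
    · exfalso
      apply hcyc
      exact isCyclic_of_surjective e.symm e.symm.surjective
    · rfl
  subst hr2
  refine hend α hα Λ Φ nL hfg hrf hs hsur hcmp l₀ hl₀ (e.toMonoidHom.comp h.rangeRestrict)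
    ((e.symm.trans t).trans e) (e.surjective.comp hrs) ?_
  intro x
  show e (h.rangeRestrict (MulAut.conjNormal l₀ x)) = e (t (e.symm (e (h.rangeRestrict x))))
  rw [MulEquiv.symm_apply_apply, ht]

end Pool.Agent.F8.HN
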