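import Pool.Agent.Lib.MP_305fdd_al.F8.StmHN

/-!
# MP_305fdd_al, block HN: [F8h threeA] the image of the kernel modulo `√-3` is not commutative
-/

set_option autoImplicit false

namespace Pool.Agent.F8.HN

open Pool.Agent.MP_305fdd_al Pool.Agent.Lib.MP_305fdd_al Pool.Agent.F2X Pool.Agent.F8
open scoped QuadraticAlgebra

/-- `mu` modulo `√-3` -/
private def threeA_u : SL2 (ZMod 3) := ⟨!![1, 2; 2, 2], by decide⟩
/-- `mv` modulo `√-3` -/
private def threeA_v : SL2 (ZMod 3) := ⟨!![2, 2; 2, 1], by decide⟩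

private theorem threeA_ru : r3 G.mu = threeA_u := by
  apply Subtype.ext
  ext i j
  fin_cases i <;> fin_cases j <;>
    (simp [r3, G.mu, threeA_u, SLm, Qd.ev_apply]; try decide)

private theorem threeA_rv : r3 G.mv = threeA_v := by
  apply Subtype.ext
  ext i j
  fin_cases i <;> fin_cases j <;>
    (simp [r3, G.mv, threeA_v, SLm, Qd.ev_apply]; try decide)

theorem p_threeA (hbn : H.S_bn) (hcmp : S_cmpA) : S_threeA := by
  intro α ρ₀ hρ₀ Λ _ Φ nL hsur hcm ρ htr
  obtain ⟨l₁, hn₁, h₁⟩ := (hcmp α Λ Φ nL hsur hcm (SL2 (ZMod 3)) (r3.comp ρ₀) threeA_u 1).1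
    ⟨iA α ga, nA_iA α ga, by
      rw [MonoidHom.comp_apply, hρ₀.F ga, ← threeA_ru]
      exact congrArg r3 G.rO_uu⟩
  obtain ⟨l₂, hn₂, h₂⟩ := (hcmp α Λ Φ nL hsur hcm (SL2 (ZMod 3)) (r3.comp ρ₀) threeA_v 1).1
    ⟨iA α gb, nA_iA α gb, by
      rw [MonoidHom.comp_apply, hρ₀.F gb, ← threeA_rv]
      exact congrArg r3 G.rO_vv⟩
  have hirr : Irr (Φ.toFun (SL2 (ZMod 3)) (r3.comp ρ₀)) := by
    refine ⟨l₁, l₂, ?_⟩
    rw [map_mul, map_mul, map_mul, map_inv, map_inv, h₁, h₂, tr_eq]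
    simp only [threeA_u, threeA_v, Matrix.SpecialLinearGroup.coe_mul,
      Matrix.SpecialLinearGroup.coe_inv, Matrix.adjugate_fin_two_of]
    decide
  obtain ⟨X, hX⟩ := hbn Λ (ZMod 3) (r3.comp ρ) _ htr hirr
  refine ⟨⟨l₁, hn₁⟩, ⟨l₂, hn₂⟩, ?_⟩
  intro hc
  have hc' : (r3 (ρ l₁)).val * (r3 (ρ l₂)).val = (r3 (ρ l₂)).val * (r3 (ρ l₁)).val := by
    have := congrArg Subtype.val hc
    exact this
  have e₁ := hX l₁
  have e₂ := hX l₂
  rw [h₁] at e₁
  rw [h₂] at e₂
  rw [MonoidHom.comp_apply] at e₁ e₂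
  have hXX : X.val * X⁻¹.val = 1 := by rw [← Units.val_mul, mul_inv_cancel]; rfl
  have key : threeA_u.val * threeA_v.val * X.val = threeA_v.val * threeA_u.val * X.val := by
    calc threeA_u.val * threeA_v.val * X.val
        = threeA_u.val * (X.val * (r3 (ρ l₂)).val) := by rw [mul_assoc, e₂]
      _ = (threeA_u.val * X.val) * (r3 (ρ l₂)).val := by rw [mul_assoc]
      _ = X.val * ((r3 (ρ l₁)).val * (r3 (ρ l₂)).val) := by rw [← e₁, mul_assoc]
      _ = X.val * ((r3 (ρ l₂)).val * (r3 (ρ l₁)).val) := by rw [hc']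
      _ = (threeA_v.val * X.val) * (r3 (ρ l₁)).val := by rw [← e₂, mul_assoc]
      _ = threeA_v.val * (X.val * (r3 (ρ l₁)).val) := by rw [mul_assoc]
      _ = threeA_v.val * threeA_u.val * X.val := by rw [e₁, mul_assoc]
  have key2 : threeA_u.val * threeA_v.val = threeA_v.val * threeA_u.val := by
    have := congrArg (fun M => M * X⁻¹.val) key
    simp only [mul_assoc] at this
    rw [hXX, mul_one, mul_one] at this
    exact this
  have hne : threeA_u.val * threeA_v.val ≠ threeA_v.val * threeA_u.val := by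
    unfold threeA_u threeA_v
    decide
  exact hne key2

end Pool.Agent.F8.HN
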