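import Pool.Agent.Lib.MP_305fdd_al.F8.StmHN

/-!
# MP_305fdd_al, cyclic covers of the figure-eight knot complement, [F8h twoA]: conjugation modulo `2`
-/

set_option autoImplicit false

namespace Pool.Agent.F8.HN

open Pool.Agent.MP_305fdd_al Pool.Agent.Lib.MP_305fdd_al Pool.Agent.F2X Pool.Agent.F8
open scoped QuadraticAlgebra

private theorem twoA_four (d : Es (ZMod 2)) : (d * d) * (d * d) = d := by
  obtain ⟨x, y⟩ := d
  ext
  · simp only [QuadraticAlgebra.re_mul, QuadraticAlgebra.im_mul]
    revert x y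
    decide
  · simp only [QuadraticAlgebra.re_mul, QuadraticAlgebra.im_mul]
    revert x y
    decide

private theorem twoA_aniso (x y : Es (ZMod 2))
    (h : -(x * x) + om (ZMod 2) * (x * y) + om (ZMod 2) * (y * y) = 0) : x = 0 ∧ y = 0 := by
  obtain ⟨a, b⟩ := x
  obtain ⟨c, d⟩ := y
  have h1 := congrArg QuadraticAlgebra.re h
  have h2 := congrArg QuadraticAlgebra.im h
  simp only [th, QuadraticAlgebra.re_add, QuadraticAlgebra.im_add, QuadraticAlgebra.re_neg,
    QuadraticAlgebra.im_neg, QuadraticAlgebra.re_mul, QuadraticAlgebra.im_mul,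
    QuadraticAlgebra.re_zero, QuadraticAlgebra.im_zero] at h1 h2
  have key : a = 0 ∧ b = 0 ∧ c = 0 ∧ d = 0 := by
    revert a b c d
    decide
  obtain ⟨rfl, rfl, rfl, rfl⟩ := key
  exact ⟨rfl, rfl⟩

private theorem twoA_tri (a d : Es (ZMod 2)) (h : a * d = 1) (h' : a + d = 2 + om (ZMod 2)) :
    False := by
  obtain ⟨x, y⟩ := a
  obtain ⟨z, w⟩ := d
  have h1 := congrArg QuadraticAlgebra.re h
  have h2 := congrArg QuadraticAlgebra.im h
  have h3 := congrArg QuadraticAlgebra.re h'
  have h4 := congrArg QuadraticAlgebra.im h'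
  have e1 : (2 : Es (ZMod 2)).re = 0 := by decide
  have e2 : (2 : Es (ZMod 2)).im = 0 := by decide
  simp only [th, QuadraticAlgebra.re_add, QuadraticAlgebra.im_add,
    QuadraticAlgebra.re_mul, QuadraticAlgebra.im_mul,
    QuadraticAlgebra.re_one, QuadraticAlgebra.im_one, e1, e2] at h1 h2 h3 h4
  revert x y z w
  decide

/-- the image of `mu` -/
private def twoA_U : SL2 (Es (ZMod 2)) :=
  ⟨!![1, -1; -om (ZMod 2), 1 + om (ZMod 2)], by rw [Matrix.det_fin_two_of]; ring⟩

private theorem twoA_U_val : twoA_U.val = !![1, -1; -om (ZMod 2), 1 + om (ZMod 2)] := rfl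

private theorem twoA_mu : r2 G.mu = twoA_U := by
  apply G.SL_ext <;> decide

/-- the trace of a commutator -/
private theorem twoA_comm {K : Type} [CommRing K] (U R : SL2 K)
    (h : tr (U * R * U⁻¹ * R⁻¹) = 2) : (U.val * R.val - R.val * U.val).det = 0 := by
  set M := U * R * U⁻¹ * R⁻¹ with hM
  have h1 : U * R = M * (R * U) := by rw [hM]; group
  have h2 : U.val * R.val = M.val * (R.val * U.val) := by
    have := congrArg Subtype.val h1
    simpa only [Matrix.SpecialLinearGroup.coe_mul] using this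
  have h3 : U.val * R.val - R.val * U.val = (M.val - 1) * (R.val * U.val) := by
    rw [h2, sub_mul, one_mul]
  have h4 : (M.val - 1).det = 0 := by
    have hd := M.det_coe
    rw [Matrix.det_fin_two] at hd
    rw [tr_eq] at h
    rw [Matrix.det_fin_two]
    simp only [Matrix.sub_apply, Matrix.one_apply_eq]
    rw [Matrix.one_apply_ne (by decide), Matrix.one_apply_ne (by decide)]
    linear_combination hd - h
  rw [h3, Matrix.det_mul, h4, zero_mul]

private theorem twoA_case1 (R : SL2 (Es (ZMod 2)))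
    (h : tr (twoA_U * R * twoA_U⁻¹ * R⁻¹) = 2) : R.val * twoA_U.val = twoA_U.val * R.val := by
  have h1 := twoA_comm twoA_U R h
  rw [twoA_U_val] at h1 ⊢
  obtain ⟨R, hR⟩ := R
  simp only at h1 ⊢
  rw [Matrix.eta_fin_two R] at h1 ⊢
  generalize R 0 0 = a at *
  generalize R 0 1 = b at *
  generalize R 1 0 = c at *
  generalize R 1 1 = d at *
  rw [Matrix.mul_fin_two, Matrix.mul_fin_two] at h1 ⊢
  rw [Matrix.det_fin_two] at h1
  simp only [Matrix.sub_apply, Matrix.of_apply, Matrix.cons_val', Matrix.cons_val_zero,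
    Matrix.cons_val_one, Matrix.cons_val_fin_one] at h1
  obtain ⟨hx, hy⟩ := twoA_aniso (om (ZMod 2) * b - c) (a - d - om (ZMod 2) * b) (by
    rw [← h1]; ring)
  have e1 : c = om (ZMod 2) * b := by rw [sub_eq_zero] at hx; exact hx.symm
  have e2 : a = d + om (ZMod 2) * b := by linear_combination hy
  subst e1 e2
  apply Matrix.ext
  intro i j
  fin_cases i <;> fin_cases j <;>
    simp only [Matrix.of_apply, Matrix.cons_val', Matrix.cons_val_zero, Matrix.cons_val_one,
      Matrix.cons_val_fin_one, Fin.zero_eta, Fin.mk_one, Fin.isValue] <;> ring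

private theorem twoA_case2 (R S : Matrix (Fin 2) (Fin 2) (Es (ZMod 2)))
    (hR : R.det = 1) (hS : S.det = 1) (ht : R.trace = S.trace)
    (hU : (R * twoA_U.val).trace = (S * twoA_U.val).trace)
    (hc : S * twoA_U.val = twoA_U.val * S) : R = S := by
  rw [twoA_U_val] at hU hc
  rw [Matrix.eta_fin_two R, Matrix.eta_fin_two S] at *
  generalize R 0 0 = a' at *
  generalize R 0 1 = b' at *
  generalize R 1 0 = c' at *
  generalize R 1 1 = d' at *
  generalize S 0 0 = a at *
  generalize S 0 1 = b at *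
  generalize S 1 0 = c at *
  generalize S 1 1 = d at *
  rw [Matrix.mul_fin_two, Matrix.mul_fin_two] at hU hc
  rw [Matrix.det_fin_two_of] at hR hS
  rw [Matrix.trace_fin_two_of, Matrix.trace_fin_two_of] at ht hU
  have hc0 := congrFun (congrFun hc 0) 0
  have hc1 := congrFun (congrFun hc 0) 1
  simp only [Matrix.of_apply, Matrix.cons_val', Matrix.cons_val_zero,
    Matrix.cons_val_one, Matrix.cons_val_fin_one] at hc0 hc1
  have e1 : c = om (ZMod 2) * b := by linear_combination hc0
  have e2 : d = a - om (ZMod 2) * b := by linear_combination hc1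
  subst e1 e2
  have e3 : d' = a - om (ZMod 2) * b - (a' - a) := by linear_combination ht
  subst e3
  have e4 : c' = om (ZMod 2) * b - om (ZMod 2) * ((a' - a) + (b' - b)) := by
    linear_combination -hU
  subst e4
  obtain ⟨hx, hy⟩ := twoA_aniso (a' - a) (b' - b) (by
    linear_combination hR - hS)
  rw [sub_eq_zero] at hx hy
  subst hx hy
  simp

instance twoA_fact : Fact (∀ r : ZMod 2, r ^ 2 ≠ (-1 : ZMod 2) + (((-1 : ℤ)) : ZMod 2) * r) :=
  ⟨by decide⟩

/-- `(e₁, P e₁)` transforms `P` into the companion matrix -/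
private theorem twoA_comp {K : Type} [Field K] (P : SL2 K) (hP : P.val 1 0 ≠ 0) :
    ∃ Q : GL (Fin 2) K, P.val * Q.val = Q.val * !![0, -1; 1, tr P] := by
  refine ⟨Matrix.GeneralLinearGroup.mkOfDetNeZero !![1, P.val 0 0; 0, P.val 1 0] (by
    rw [Matrix.det_fin_two_of]; simpa using hP), ?_⟩
  show P.val * !![1, P.val 0 0; 0, P.val 1 0] = !![1, P.val 0 0; 0, P.val 1 0] * _
  have hd := P.det_coe
  rw [Matrix.det_fin_two] at hd
  rw [tr_eq, Matrix.mul_fin_two]
  ext i j
  fin_cases i <;> fin_cases j <;> simp [Matrix.mul_apply, Fin.sum_univ_two]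
  · linear_combination -hd
  · ring

theorem p_twoA (h1 : H.S_bn) (h2 : H.S_li) : S_twoA := by
  intro α ρ₀ hstd Λ _ Φ ρ htr
  set s : Λ →* SL2 (Es (ZMod 2)) := Φ.toFun (SL2 (Es (ZMod 2))) (r2.comp ρ₀) with hs
  have hrange : s.range = (r2.comp ρ₀).range := Φ.range_eq _
  obtain ⟨x, hx⟩ : ∃ x, s x = twoA_U := by
    have : twoA_U ∈ s.range := by
      rw [hrange]
      refine ⟨iA α ga, ?_⟩
      show r2 (ρ₀ (iA α ga)) = _
      rw [hstd.F]
      show r2 (G.rO uu) = _
      rw [G.rO_uu, twoA_mu]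
    exact this
  obtain ⟨X, hX⟩ : ∃ X : GL (Fin 2) (Es (ZMod 2)),
      ∀ l, X.val * (r2 (ρ l)).val = (s l).val * X.val := by
    by_cases hcase : ∀ l, (s l).val * twoA_U.val = twoA_U.val * (s l).val
    · -- all commute
      set P : SL2 (Es (ZMod 2)) := r2 (ρ x) with hP
      have hPtr : tr P = tr twoA_U := by rw [hP, htr x, ← hx]
      have hUtr : tr twoA_U = 2 + om (ZMod 2) := by
        rw [tr_eq, twoA_U_val]
        simp only [Matrix.of_apply, Matrix.cons_val', Matrix.cons_val_zero,
          Matrix.cons_val_one, Matrix.cons_val_fin_one]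
        ring
      have hP10 : ∀ P : SL2 (Es (ZMod 2)), tr P = 2 + om (ZMod 2) → P.val 1 0 ≠ 0 := by
        intro P hP h0
        have hd := P.det_coe
        rw [Matrix.det_fin_two, h0, mul_zero, sub_zero] at hd
        rw [tr_eq] at hP
        exact twoA_tri _ _ hd hP
      obtain ⟨QP, hQP⟩ := twoA_comp P (hP10 P (hPtr.trans hUtr))
      obtain ⟨QU, hQU⟩ := twoA_comp twoA_U (hP10 twoA_U hUtr)
      rw [hPtr] at hQP
      set X : GL (Fin 2) (Es (ZMod 2)) := QU * QP⁻¹ with hXdef
      have hinv : QP.val * (QP⁻¹).val = 1 := by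
        rw [← Units.val_mul, mul_inv_cancel, Units.val_one]
      have hinv' : (QP⁻¹).val * QP.val = 1 := by
        rw [← Units.val_mul, inv_mul_cancel, Units.val_one]
      have hXP : X.val * P.val = twoA_U.val * X.val := by
        rw [hXdef, Units.val_mul, ← mul_assoc, hQU]
        have : P.val = QP.val * !![0, -1; 1, tr twoA_U] * (QP⁻¹).val := by
          rw [← hQP, mul_assoc, hinv, mul_one]
        rw [this, mul_assoc QU.val, ← mul_assoc (QP⁻¹).val, ← mul_assoc (QP⁻¹).val, hinv',
          one_mul, ← mul_assoc]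
      have hXi : X.val * (X⁻¹).val = 1 := by
        rw [← Units.val_mul, mul_inv_cancel, Units.val_one]
      have hXi' : (X⁻¹).val * X.val = 1 := by
        rw [← Units.val_mul, inv_mul_cancel, Units.val_one]
      refine ⟨X, fun l => ?_⟩
      have hkey : X.val * (r2 (ρ l)).val * (X⁻¹).val = (s l).val := by
        apply twoA_case2
        · rw [Matrix.det_mul, Matrix.det_mul, mul_right_comm, ← Matrix.det_mul, hXi,
            Matrix.det_one, one_mul]
          exact (r2 (ρ l)).det_coe
        · exact (s l).det_coe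
        · rw [Matrix.trace_mul_comm, ← mul_assoc, hXi', one_mul]
          exact htr l
        · have e1 : X.val * (r2 (ρ l)).val * (X⁻¹).val * twoA_U.val =
              X.val * (r2 (ρ (l * x))).val * (X⁻¹).val := by
            have : twoA_U.val = X.val * P.val * (X⁻¹).val := by
              rw [hXP, mul_assoc, hXi, mul_one]
            rw [this, map_mul, map_mul, Matrix.SpecialLinearGroup.coe_mul]
            simp only [mul_assoc]
            rw [← mul_assoc (X⁻¹).val X.val, hXi', one_mul]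
          rw [e1, Matrix.trace_mul_comm, ← mul_assoc, hXi', one_mul]
          have e2 := htr (l * x)
          rw [map_mul s, hx] at e2
          exact e2
        · exact hcase l
      rw [← hkey, mul_assoc, hXi', mul_one]
    · push Not at hcase
      obtain ⟨l, hl⟩ := hcase
      have hirr : Irr s := by
        refine ⟨x, l, fun h => hl ?_⟩
        rw [map_mul, map_mul, map_mul, map_inv, map_inv, hx] at h
        exact twoA_case1 _ h
      exact h1 Λ (Es (ZMod 2)) (r2.comp ρ) s htr hirr
  have hdet : X.val.det ≠ 0 := by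
    intro h0
    have := X.isUnit
    rw [Matrix.isUnit_iff_isUnit_det, h0] at this
    exact not_isUnit_zero this
  set d := X.val.det with hd
  have hd4 := twoA_four d
  have he : d * d ≠ 0 := mul_ne_zero hdet hdet
  have hdet1 : ((d * d)⁻¹ • X.val).det = 1 := by
    rw [Matrix.det_smul, Fintype.card_fin, ← hd]
    calc (d * d)⁻¹ ^ 2 * d = (d * d)⁻¹ ^ 2 * ((d * d) * (d * d)) := by rw [hd4]
      _ = 1 := by field_simp
  obtain ⟨Z, hZ⟩ : ∃ Z : SL2 (Es (ZMod 2)), Z.val = (d * d)⁻¹ • X.val := ⟨⟨_, hdet1⟩, rfl⟩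
  obtain ⟨Y, hY⟩ := h2 Z
  refine ⟨Y, fun l => ?_⟩
  rw [map_mul, map_mul, map_inv, mul_inv_eq_iff_eq_mul, hY]
  apply Subtype.ext
  rw [Matrix.SpecialLinearGroup.coe_mul, Matrix.SpecialLinearGroup.coe_mul, hZ]
  show ((d * d)⁻¹ • X.val) * (r2 (ρ l)).val = (s l).val * ((d * d)⁻¹ • X.val)
  rw [Matrix.smul_mul, hX, Matrix.mul_smul]

end Pool.Agent.F8.HN
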