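import Pool.Agent.Lib.MP_305fdd_al.F8.StmH

/-!
# MP_305fdd_al, figure-eight knot group, [F8x cj]: matrices of trace `3` and determinant `1`
-/

set_option autoImplicit false

namespace Pool.Agent.F8.H

open Pool.Agent.MP_305fdd_al Pool.Agent.Lib.MP_305fdd_al Pool.Agent.F2X Pool.Agent.F8

private theorem cj_ext {a b c d a' b' c' d' : ℤ} (h1 : a = a') (h2 : b = b') (h3 : c = c')
    (h4 : d = d') : !![a, b; c, d] = !![a', b'; c', d'] := by
  rw [h1, h2, h3, h4]

/-- `[[1, n], [0, 1]]` -/
private def cj_T (n : ℤ) : GL (Fin 2) ℤ :=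
  ⟨!![1, n; 0, 1], !![1, -n; 0, 1], by
    rw [Matrix.mul_fin_two, Matrix.one_fin_two]
    exact cj_ext (by ring) (by ring) (by ring) (by ring), by
    rw [Matrix.mul_fin_two, Matrix.one_fin_two]
    exact cj_ext (by ring) (by ring) (by ring) (by ring)⟩

/-- `[[0, -1], [1, 0]]` -/
private def cj_S : GL (Fin 2) ℤ :=
  ⟨!![0, -1; 1, 0], !![0, 1; -1, 0], by
    rw [Matrix.mul_fin_two, Matrix.one_fin_two]
    exact cj_ext (by ring) (by ring) (by ring) (by ring), by
    rw [Matrix.mul_fin_two, Matrix.one_fin_two]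
    exact cj_ext (by ring) (by ring) (by ring) (by ring)⟩

/-- `diag(1, -1)` -/
private def cj_D : GL (Fin 2) ℤ :=
  ⟨!![1, 0; 0, -1], !![1, 0; 0, -1], by
    rw [Matrix.mul_fin_two, Matrix.one_fin_two]
    exact cj_ext (by ring) (by ring) (by ring) (by ring), by
    rw [Matrix.mul_fin_two, Matrix.one_fin_two]
    exact cj_ext (by ring) (by ring) (by ring) (by ring)⟩

private theorem cj_T_conj (n : ℤ) (A : GL (Fin 2) ℤ) (p q r s : ℤ) (hA : A.val = !![p, q; r, s]) :
    (cj_T n * A * (cj_T n)⁻¹).val = !![p + n * r, -(n * (p + n * r)) + q + n * s; r, s - n * r] := by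
  have h : (cj_T n * A * (cj_T n)⁻¹).val = !![1, n; 0, 1] * A.val * !![1, -n; 0, 1] := rfl
  rw [h, hA, Matrix.mul_fin_two, Matrix.mul_fin_two]
  exact cj_ext (by ring) (by ring) (by ring) (by ring)

private theorem cj_S_conj (A : GL (Fin 2) ℤ) (p q r s : ℤ) (hA : A.val = !![p, q; r, s]) :
    (cj_S * A * cj_S⁻¹).val = !![s, -r; -q, p] := by
  have h : (cj_S * A * cj_S⁻¹).val = !![0, -1; 1, 0] * A.val * !![0, 1; -1, 0] := rfl
  rw [h, hA, Matrix.mul_fin_two, Matrix.mul_fin_two]
  exact cj_ext (by ring) (by ring) (by ring) (by ring)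

private theorem cj_D_conj (A : GL (Fin 2) ℤ) (p q r s : ℤ) (hA : A.val = !![p, q; r, s]) :
    (cj_D * A * cj_D⁻¹).val = !![p, -q; -r, s] := by
  have h : (cj_D * A * cj_D⁻¹).val = !![1, 0; 0, -1] * A.val * !![1, 0; 0, -1] := rfl
  rw [h, hA, Matrix.mul_fin_two, Matrix.mul_fin_two]
  exact cj_ext (by ring) (by ring) (by ring) (by ring)

private theorem cj_tr (Y A : GL (Fin 2) ℤ)
    (h : ∃ X : GL (Fin 2) ℤ, X * (Y * A * Y⁻¹) = AM phi * X) :
    ∃ X : GL (Fin 2) ℤ, X * A = AM phi * X := by
  obtain ⟨X, hX⟩ := h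
  refine ⟨X * Y, ?_⟩
  calc X * Y * A = X * (Y * A * Y⁻¹) * Y := by group
    _ = AM phi * X * Y := by rw [hX]
    _ = _ := by group

theorem cj_AM_phi : (AM phi).val = !![3, 1; -1, 0] := by
  rw [AM_val, amat_eq]
  show !![vec (phi ga) 0, vec (phi gb) 0; vec (phi ga) 1, vec (phi gb) 1] = _
  rw [phi_ga, phi_gb]
  simp only [vec_mul, vec_inv, vec_of]
  ext i j
  fin_cases i <;> fin_cases j <;> simp

/-- the case `r = -1` -/
private theorem cj_neg_one (A : GL (Fin 2) ℤ) (p q s : ℤ) (hA : A.val = !![p, q; -1, s])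
    (ht : p + s = 3) (hd : p * s + q = 1) : ∃ X : GL (Fin 2) ℤ, X * A = AM phi * X := by
  apply cj_tr (cj_T (p - 3))
  refine ⟨1, ?_⟩
  rw [one_mul, mul_one]
  apply Units.ext
  rw [cj_T_conj (p - 3) A p q (-1) s hA, cj_AM_phi]
  have hs : s = 3 - p := by linarith
  subst hs
  exact cj_ext (by ring) (by linarith) (by ring) (by ring)

theorem p_cj : S_cj := by
  have key : ∀ (N : ℕ) (A : GL (Fin 2) ℤ) (p q r s : ℤ), A.val = !![p, q; r, s] → p + s = 3 →
      p * s - q * r = 1 → r.natAbs = N → ∃ X : GL (Fin 2) ℤ, X * A = AM phi * X := by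
    intro N
    induction N using Nat.strong_induction_on with
    | _ N ih =>
      intro A p q r s hA ht hd hN
      have hr0 : r ≠ 0 := by
        rintro rfl
        have hs : s = 3 - p := by linarith
        subst hs
        have h1 : (2 * p - 3) * (2 * p - 3) = 5 := by linarith
        have h2 : 2 * p - 3 ≤ 2 := by nlinarith
        have h3 : -2 ≤ 2 * p - 3 := by nlinarith
        have h4 : p = 1 ∨ p = 2 := by omega
        rcases h4 with h | h <;> subst h <;> norm_num at h1
      by_cases hr1 : r = -1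
      · subst hr1
        exact cj_neg_one A p q s hA ht (by linarith)
      by_cases hr2 : r = 1
      · subst hr2
        apply cj_tr cj_D
        refine cj_neg_one _ p (-q) s ?_ ht (by linarith)
        rw [cj_D_conj A p q 1 s hA]
      -- the general case
      obtain ⟨n, hn⟩ : ∃ n : ℤ, |p - s + 2 * n * r| ≤ |r| := by
        have hpos : 0 < 2 * |r| := by
          have := abs_pos.2 hr0
          linarith
        have e0 := Int.emod_nonneg (p - s + |r|) hpos.ne'
        have e1 := Int.emod_lt_of_pos (p - s + |r|) hpos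
        have e2 := Int.emod_add_mul_ediv (p - s + |r|) (2 * |r|)
        rcases abs_choice r with h | h
        · refine ⟨-((p - s + |r|) / (2 * |r|)), ?_⟩
          rw [abs_le]
          rw [h] at e0 e1 e2 ⊢
          constructor <;> linarith
        · refine ⟨(p - s + |r|) / (2 * |r|), ?_⟩
          rw [abs_le]
          rw [h] at e0 e1 e2 ⊢
          constructor <;> linarith
      apply cj_tr (cj_T n)
      have hA1 := cj_T_conj n A p q r s hA
      set p1 := p + n * r with hp1
      set q1 := -(n * p1) + q + n * s with hq1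
      set s1 := s - n * r with hs1
      have ht1 : p1 + s1 = 3 := by rw [hp1, hs1]; linarith
      have hd1 : p1 * s1 - q1 * r = 1 := by
        rw [hq1, hs1, hp1]
        linear_combination hd
      have hn1 : |p1 - s1| ≤ |r| := by
        have : p1 - s1 = p - s + 2 * n * r := by rw [hp1, hs1]; ring
        rw [this]
        exact hn
      have hdisc : (p1 - s1) ^ 2 + 4 * (q1 * r) = 5 := by
        linear_combination (p1 + s1 + 3) * ht1 - 4 * hd1
      have hsq : (p1 - s1) ^ 2 ≤ r ^ 2 := sq_le_sq.2 hn1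
      have hr3 : 2 ≤ |r| := by
        have h1 := abs_pos.2 hr0
        by_contra hlt
        have h2 : |r| = 1 := by omega
        rcases abs_eq (by norm_num : (0 : ℤ) ≤ 1) |>.1 h2 with h | h
        · exact hr2 h
        · exact hr1 h
      apply cj_tr cj_S
      have hA2 := cj_S_conj _ p1 q1 r s1 hA1
      refine ih (-q1).natAbs ?_ _ s1 (-r) (-q1) p1 hA2 (by linarith) (by linarith) rfl
      -- `|q1| < |r|`
      rw [← hN]
      have hq : |q1| < |r| := by
        have h4 : 4 * |q1| * |r| < |r| * |r| + 6 := by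
          have h5 : 4 * (q1 * r) = 5 - (p1 - s1) ^ 2 := by linarith
          have h6 : |4 * (q1 * r)| = 4 * |q1| * |r| := by
            rw [abs_mul, abs_mul]
            norm_num
            ring
          rw [← h6, h5, abs_lt]
          have h7 : r ^ 2 = |r| * |r| := by rw [abs_mul_abs_self]; ring
          constructor <;> nlinarith [sq_nonneg (p1 - s1)]
        by_contra hge
        have hge' : |r| ≤ |q1| := not_lt.1 hge
        have h8 : |r| * |r| ≤ |q1| * |r| := mul_le_mul_of_nonneg_right hge' (abs_nonneg r)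
        nlinarith
      have e1 : ((-q1).natAbs : ℤ) = |q1| := by
        rw [Int.natCast_natAbs, abs_neg]
      have e2 : (r.natAbs : ℤ) = |r| := Int.natCast_natAbs r
      omega
  intro A htr hdet
  rw [Matrix.trace_fin_two] at htr
  rw [Matrix.det_fin_two] at hdet
  exact key _ A _ _ _ _ (Matrix.eta_fin_two A.val) htr hdet rfl

end Pool.Agent.F8.H
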