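import Pool.Agent.Lib.MP_305fdd_al.F8.StmH
import Pool.Agent.Lib.MP_305fdd_al.F2X.Stm
import Pool.Agent.Lib.MP_305fdd_al.Genus

/-!
# MP_305fdd_al: the figure-eight knot group: piece `end`
-/

set_option autoImplicit false

namespace Pool.Agent.F8.H

open Pool.Agent.MP_305fdd_al Pool.Agent.Lib.MP_305fdd_al Pool.Agent.F2X Pool.Agent.F8
open scoped QuadraticAlgebra

/-- powers of `aa` act as powers of `phi` -/
private theorem end_aa_zpow (n : ℤ) (w : F) :
    aa ^ n * SemidirectProduct.inl w * (aa ^ n)⁻¹ = (SemidirectProduct.inl ((phi ^ n) w) : G8) := by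
  have hi : ∀ w : F, aa⁻¹ * SemidirectProduct.inl w * aa =
      (SemidirectProduct.inl (phi⁻¹ w) : G8) := by
    intro w
    have h := aa_conj (phi⁻¹ w)
    rw [MulAut.apply_inv_self] at h
    rw [← h]; group
  induction n using Int.induction_on generalizing w with
  | zero => simp
  | succ i ih =>
    rw [zpow_add_one, zpow_add_one, MulAut.mul_apply, ← ih, ← aa_conj]; group
  | pred i ih =>
    rw [zpow_sub_one, zpow_sub_one, MulAut.mul_apply, ← ih, ← hi]; group

section

variable {Λ : Type} [Group Λ] (nL : Λ →* Multiplicative ℤ) (l₀ : Λ)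
  (h0 : nL l₀ = Multiplicative.ofAdd 1)

include h0 in
private theorem end_zpow (n : ℤ) : nL (l₀ ^ n) = Multiplicative.ofAdd n := by
  rw [map_zpow, h0, ← ofAdd_zsmul, smul_eq_mul, mul_one]

/-- the component in the kernel -/
private def end_c (l : Λ) : nL.ker :=
  ⟨l * (l₀ ^ (Multiplicative.toAdd (nL l)))⁻¹, by
    rw [MonoidHom.mem_ker, map_mul, map_inv, end_zpow nL l₀ h0, ofAdd_toAdd, mul_inv_cancel]⟩

private theorem end_conj {N : Type} [Group N] (g : nL.ker →* N) (τ : MulAut N)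
    (hg : ∀ x : nL.ker, g (MulAut.conjNormal l₀ x) = τ (g x)) (n : ℤ) (x : nL.ker) :
    g (MulAut.conjNormal (l₀ ^ n) x) = (τ ^ n) (g x) := by
  have hi : ∀ x : nL.ker, g (MulAut.conjNormal l₀⁻¹ x) = τ⁻¹ (g x) := by
    intro x
    have h := hg (MulAut.conjNormal l₀⁻¹ x)
    rw [← MulAut.mul_apply, ← map_mul, mul_inv_cancel, map_one, MulAut.one_apply] at h
    rw [h, MulAut.inv_apply_self]
  induction n using Int.induction_on generalizing x with
  | zero => simp
  | succ i ih =>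
    rw [zpow_add_one, zpow_add_one, MulAut.mul_apply, map_mul, MulAut.mul_apply, ih, hg]
  | pred i ih =>
    rw [zpow_sub_one, zpow_sub_one, MulAut.mul_apply, map_mul, MulAut.mul_apply, ih, hi]

include h0 in
/-- the homomorphism to `G8` -/
private theorem end_hom (g : nL.ker →* F)
    (hg : ∀ x : nL.ker, g (MulAut.conjNormal l₀ x) = phi (g x)) :
    ∃ π : Λ →* G8, (∀ x : nL.ker, π x = SemidirectProduct.inl (g x)) ∧ π l₀ = aa := by
  let f : Λ → G8 := fun l =>
    SemidirectProduct.inl (g (end_c nL l₀ h0 l)) * aa ^ (Multiplicative.toAdd (nL l))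
  have hmul : ∀ l l' : Λ, f (l * l') = f l * f l' := by
    intro l l'
    have h1 : end_c nL l₀ h0 (l * l') = end_c nL l₀ h0 l *
        MulAut.conjNormal (l₀ ^ (Multiplicative.toAdd (nL l))) (end_c nL l₀ h0 l') := by
      apply Subtype.ext
      rw [Subgroup.coe_mul, MulAut.conjNormal_apply]
      show l * l' * (l₀ ^ (Multiplicative.toAdd (nL (l * l'))))⁻¹ =
        l * (l₀ ^ (Multiplicative.toAdd (nL l)))⁻¹ * (l₀ ^ (Multiplicative.toAdd (nL l)) *
          (l' * (l₀ ^ (Multiplicative.toAdd (nL l')))⁻¹) *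
          (l₀ ^ (Multiplicative.toAdd (nL l)))⁻¹)
      rw [map_mul, toAdd_mul, add_comm, zpow_add]
      group
    show SemidirectProduct.inl (g (end_c nL l₀ h0 (l * l'))) *
        aa ^ (Multiplicative.toAdd (nL (l * l'))) =
      SemidirectProduct.inl (g (end_c nL l₀ h0 l)) * aa ^ (Multiplicative.toAdd (nL l)) *
      (SemidirectProduct.inl (g (end_c nL l₀ h0 l')) * aa ^ (Multiplicative.toAdd (nL l')))
    rw [h1, map_mul, end_conj nL l₀ g phi hg, map_mul, ← end_aa_zpow, map_mul, toAdd_mul, zpow_add]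
    group
  refine ⟨MonoidHom.mk' f hmul, ?_, ?_⟩
  · intro x
    show SemidirectProduct.inl (g (end_c nL l₀ h0 x)) * aa ^ (Multiplicative.toAdd (nL x)) = _
    have hx : nL (x : Λ) = 1 := x.2
    have h1 : end_c nL l₀ h0 (x : Λ) = x := by
      apply Subtype.ext
      show (x : Λ) * (l₀ ^ (Multiplicative.toAdd (nL x)))⁻¹ = x
      rw [hx]; simp
    rw [h1, hx]; simp
  · show SemidirectProduct.inl (g (end_c nL l₀ h0 l₀)) * aa ^ (Multiplicative.toAdd (nL l₀)) = _
    have h1 : end_c nL l₀ h0 l₀ = 1 := by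
      apply Subtype.ext
      show l₀ * (l₀ ^ (Multiplicative.toAdd (nL l₀)))⁻¹ = 1
      rw [h0]; simp
    rw [h1, h0]; simp

end

/-- the figure-eight knot group is finitely generated -/
private theorem end_fg : Group.FG G8 := by
  rw [Group.fg_iff]
  refine ⟨{uu, vv, aa}, ?_, Set.toFinite _⟩
  rw [eq_top_iff]
  rintro ⟨w, n⟩ -
  have h1 : (⟨w, n⟩ : G8) = SemidirectProduct.inl w * aa ^ (Multiplicative.toAdd n) := by
    have h2 : (aa : G8) ^ (Multiplicative.toAdd n) = SemidirectProduct.inr n := by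
      unfold aa
      rw [← map_zpow]
      congr 1
      rw [← ofAdd_zsmul, smul_eq_mul, mul_one, ofAdd_toAdd]
    rw [h2, SemidirectProduct.mk_eq_inl_mul_inr]
  rw [h1]
  have hw : (SemidirectProduct.inl w : G8) ∈ Subgroup.closure {uu, vv, aa} := by
    have hle : (⊤ : Subgroup F) ≤ (Subgroup.closure {uu, vv, aa}).comap
        (SemidirectProduct.inl : F →* G8) := by
      rw [← FreeGroup.closure_range_of, Subgroup.closure_le]
      rintro _ ⟨i, rfl⟩
      fin_cases i
      · exact Subgroup.subset_closure (by left; rfl)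
      · exact Subgroup.subset_closure (by right; left; rfl)
    exact hle (Subgroup.mem_top w)
  exact mul_mem hw (zpow_mem (Subgroup.subset_closure (by right; right; rfl)) _)

theorem p_end (hmat : S_mat) (hcj : S_cj) (hsur : Pool.Agent.F2X.S_sur)
    (hout : Pool.Agent.F2X.S_out) : S_end := by
  intro Λ _ Φ nL hfg hrf hsame hnL hcmp l₀ h0 g ψ hg hgψ
  obtain ⟨ht, hd⟩ := hmat Λ Φ nL hnL hcmp l₀ h0 g ψ hg hgψ
  obtain ⟨X, hX⟩ := hcj (AM ψ) ht hd
  obtain ⟨α, rfl⟩ := hsur X
  -- replace `g` by `α ∘ g`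
  let ψ' : MulAut F := α * ψ * α⁻¹
  have hψ' : AM ψ' = AM phi := by
    show AM (α * ψ * α⁻¹) = _
    rw [map_mul, map_mul, hX, map_inv, mul_inv_cancel_right]
  let g' : nL.ker →* F := α.toMonoidHom.comp g
  have hg' : Function.Surjective g' := α.surjective.comp hg
  have hgψ' : ∀ x : nL.ker, g' (MulAut.conjNormal l₀ x) = ψ' (g' x) := by
    intro x
    show α (g (MulAut.conjNormal l₀ x)) = α (ψ (α⁻¹ (α (g x))))
    rw [hgψ, MulAut.inv_apply_self]
  obtain ⟨w, hw⟩ := hout (ψ'⁻¹ * phi) (by rw [map_mul, map_inv, hψ', inv_mul_cancel])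
  obtain ⟨x, rfl⟩ := hg' w
  have hphi : phi = ψ' * MulAut.conj (g' x) := by rw [← hw, mul_inv_cancel_left]
  have h0' : nL (l₀ * x) = Multiplicative.ofAdd 1 := by
    rw [map_mul, h0, show nL (x : Λ) = 1 from x.2, mul_one]
  have hgphi : ∀ y : nL.ker, g' (MulAut.conjNormal (l₀ * (x : Λ)) y) = phi (g' y) := by
    intro y
    rw [map_mul, MulAut.mul_apply, hgψ', hphi]
    show ψ' (g' (MulAut.conjNormal (x : Λ) y)) = ψ' (MulAut.conj (g' x) (g' y))
    congr 1
    have h1 : MulAut.conjNormal (x : Λ) y = x * y * x⁻¹ := by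
      apply Subtype.ext
      rw [MulAut.conjNormal_apply]; rfl
    rw [h1, map_mul, map_mul, map_inv, MulAut.conj_apply]
  obtain ⟨π, hπ1, hπ2⟩ := end_hom nL (l₀ * x) h0' g' hgphi
  have hsurj : Function.Surjective π := by
    rintro ⟨w, n⟩
    obtain ⟨y, hy⟩ := hg' w
    refine ⟨y * (l₀ * x) ^ (Multiplicative.toAdd n), ?_⟩
    rw [map_mul, map_zpow, hπ1, hπ2, hy]
    have h2 : (aa : G8) ^ (Multiplicative.toAdd n) = SemidirectProduct.inr n := by
      unfold aa
      rw [← map_zpow]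
      congr 1
      rw [← ofAdd_zsmul, smul_eq_mul, mul_one, ofAdd_toAdd]
    rw [h2, SemidirectProduct.mk_eq_inl_mul_inr]
  have := hfg
  have := hrf
  have := end_fg
  exact ⟨MulEquiv.ofBijective π ⟨injective_of_surj hsame π hsurj, hsurj⟩⟩

end Pool.Agent.F8.H
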