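import Pool.Agent.Lib.MP_305fdd_al.F8.StmH

set_option autoImplicit false

namespace Pool.Agent.F8.H

open Pool.Agent.MP_305fdd_al Pool.Agent.Lib.MP_305fdd_al Pool.Agent.F2X Pool.Agent.F8

private def fst_a : SL2 (ZMod 3) := ⟨!![0, 1; 2, 1], by rw [Matrix.det_fin_two]; decide⟩
private def fst_b : SL2 (ZMod 3) := ⟨!![0, 1; 2, 2], by rw [Matrix.det_fin_two]; decide⟩
private def fst_c : SL2 (ZMod 3) := ⟨!![0, 1; 2, 0], by rw [Matrix.det_fin_two]; decide⟩
private def fst_d : SL2 (ZMod 3) := ⟨!![1, 1; 2, 0], by rw [Matrix.det_fin_two]; decide⟩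

private theorem fst_ncomm : ¬ Commute (fst_a * fst_b * fst_a⁻¹ * fst_b⁻¹) (fst_c * fst_d * fst_c⁻¹ * fst_d⁻¹) := by
  intro h
  have h1 := congrArg (fun g : SL2 (ZMod 3) => g.val 0 0) h.eq
  revert h1
  unfold fst_a fst_b fst_c fst_d
  simp only [Matrix.SpecialLinearGroup.coe_mul, Matrix.SpecialLinearGroup.coe_inv, Matrix.adjugate_fin_two_of,
    Matrix.mul_fin_two, Matrix.of_apply, Matrix.cons_val', Matrix.cons_val_zero]
  decide

private theorem fst_cent {R : Type} [CommRing R] (c : SL2 R) (hc : c.val = 1 ∨ c.val = -1) (g : SL2 R) :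
    Commute c g := by
  apply Subtype.ext
  rw [Matrix.SpecialLinearGroup.coe_mul, Matrix.SpecialLinearGroup.coe_mul]
  rcases hc with h | h <;> rw [h] <;> simp

private theorem fst_map {R S : Type} [CommRing R] [CommRing S] (f : R →+* S) (c : SL2 R)
    (hc : c.val = 1 ∨ c.val = -1) : (SLm f c).val = 1 ∨ (SLm f c).val = -1 := by
  rw [Matrix.SpecialLinearGroup.map_apply_coe]
  rcases hc with h | h
  · left; rw [h, map_one]
  · right; rw [h, map_neg, map_one]

theorem p_fst (h1 : S_two) (h2 : S_three) : S_fst := by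
  intro Λ _ Φ nL hcomm ρ σ hσ ht2 ht3 Ψ hΨ
  obtain ⟨Y, hY⟩ := h1 Λ Φ ρ ht2
  have hsur := h2 Λ Φ ρ σ hσ ht3
  -- the conjugated representation
  let ρ' : Λ →* Npre := ((MulAut.conj Y).toMonoidHom.comp ρ).codRestrict Npre hY
  have hρ' : ∀ l, (ρ' l).val = Y * ρ l * Y⁻¹ := fun l => rfl
  let R : Λ →* SL2 (ZMod 3) := r3.comp (Npre.subtype.comp ρ')
  have hR : ∀ l, R l = r3 (ρ' l).val := fun l => rfl
  have hRsur : Function.Surjective R := by
    intro s
    obtain ⟨l, hl⟩ := hsur ((r3 Y)⁻¹ * s * r3 Y)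
    refine ⟨l, ?_⟩
    simp only at hl
    rw [hR, hρ', map_mul, map_mul, map_inv, hl]
    group
  let f : Λ →* N2 := Ψ.comp ρ'
  let ι : F →* N2 := i8.comp SemidirectProduct.inl
  have hι : Function.Injective ι := by
    intro x y hxy
    exact SemidirectProduct.inl_injective (SemidirectProduct.inl_injective hxy)
  have hex : ∀ x : nL.ker, ∃ w : F, f x = ι w := by
    intro x
    have e1 : ep2 (f x) = 1 := (hcomm _ (ep2.comp f)) x.2
    have e2 : nu2 (f x) = 1 := (hcomm _ (nu2.comp f)) x.2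
    exact mem_F _ e1 e2
  choose h0 hh0 using hex
  let h : nL.ker →* F := MonoidHom.mk' h0 (by
    intro x y
    apply hι
    rw [map_mul, ← hh0, ← hh0, ← hh0, ← map_mul]
    rfl)
  have hh : ∀ x : nL.ker, ι (h x) = f x := fun x => (hh0 x).symm
  refine ⟨h, ?_, ?_⟩
  · intro l x hx
    have hfx : f x = 1 := by rw [← hh, hx, map_one]
    apply hι
    rw [hh, map_one]
    have e : ((MulAut.conjNormal l x : nL.ker) : Λ) = l * x * l⁻¹ := MulAut.conjNormal_apply l x
    rw [e, map_mul, map_mul, hfx, mul_one, ← map_mul, mul_inv_cancel, map_one]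
  · intro hcyc
    obtain ⟨⟨_, z, rfl⟩, hg⟩ := hcyc.exists_generator
    have key : ∀ x : nL.ker, ∃ (k : ℤ) (c : SL2 (ZMod 3)), (c.val = 1 ∨ c.val = -1) ∧
        R x = c * R z ^ k := by
      intro x
      obtain ⟨k, hk⟩ := Subgroup.mem_zpowers_iff.1 (hg ⟨h x, x, rfl⟩)
      have hk' : h z ^ k = h x := congrArg Subtype.val hk
      refine ⟨k, R ((x : Λ) * (z : Λ) ^ (-k)), ?_, ?_⟩
      · have e1 : h (x * z ^ (-k)) = 1 := by
          rw [map_mul, map_zpow, ← hk', zpow_neg, mul_inv_cancel]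
        have e2 : f ((x : Λ) * (z : Λ) ^ (-k)) = 1 := by
          have := hh (x * z ^ (-k))
          rw [e1, map_one] at this
          exact this.symm
        exact fst_map _ _ (hΨ _ e2)
      · rw [map_mul, map_zpow, mul_assoc, ← zpow_add, neg_add_cancel, zpow_zero, mul_one]
    have hcom : ∀ x y : nL.ker, Commute (R x) (R y) := by
      intro x y
      obtain ⟨k, c, hc, ex⟩ := key x
      obtain ⟨k', c', hc', ey⟩ := key y
      rw [ex, ey]
      apply Commute.mul_left
      · exact fst_cent c hc _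
      · apply Commute.mul_right
        · exact (fst_cent c' hc' _).symm
        · exact (Commute.refl _).zpow_zpow _ _
    obtain ⟨la, ha⟩ := hRsur fst_a
    obtain ⟨lb, hb⟩ := hRsur fst_b
    obtain ⟨lc, hc⟩ := hRsur fst_c
    obtain ⟨ld, hd⟩ := hRsur fst_d
    have hm : ∀ a b : Λ, a * b * a⁻¹ * b⁻¹ ∈ nL.ker := by
      intro a b
      rw [MonoidHom.mem_ker, map_mul, map_mul, map_mul, map_inv, map_inv, mul_comm (nL a) (nL b)]
      group
    have hfin := hcom ⟨_, hm la lb⟩ ⟨_, hm lc ld⟩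
    simp only [map_mul, map_inv, ha, hb, hc, hd] at hfin
    exact fst_ncomm hfin

end Pool.Agent.F8.H
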