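import Pool.Agent.Lib.MP_305fdd_al.F8.StmH

/-!
# MP_305fdd_al: piece [F8x gn]
-/

set_option autoImplicit false

namespace Pool.Agent.F8.H

open Pool.Agent.MP_305fdd_al Pool.Agent.Lib.MP_305fdd_al Pool.Agent.F2X Pool.Agent.F8

private theorem gn_zpow {M : Type} [Group M] (c : MulAut M) (W : Subgroup M)
    (h : ∀ x, c x ∈ W ↔ x ∈ W) (n : ℤ) : ∀ x, (c ^ n) x ∈ W ↔ x ∈ W := by
  have hi : ∀ x, (c⁻¹) x ∈ W ↔ x ∈ W := by
    intro x
    rw [← h (c⁻¹ x), MulAut.apply_inv_self]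
  induction n using Int.induction_on with
  | zero => intro x; simp
  | succ i ih =>
    intro x
    rw [zpow_add_one, MulAut.mul_apply, ih, h]
  | pred i ih =>
    intro x
    rw [zpow_sub_one, MulAut.mul_apply, ih, hi]

theorem p_gn : S_gn := by
  intro Λ _ nL l₀ hl hfg
  obtain ⟨T, hT⟩ := (Group.fg_iff.1 hfg)
  obtain ⟨hT1, hT2⟩ := hT
  have hlz : ∀ n : ℤ, nL (l₀ ^ n) = Multiplicative.ofAdd n := by
    intro n
    rw [map_zpow, hl, ← ofAdd_zsmul, smul_eq_mul, mul_one]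
  have hk : ∀ t : Λ, t * l₀ ^ (-(Multiplicative.toAdd (nL t))) ∈ nL.ker := by
    intro t
    rw [MonoidHom.mem_ker, map_mul, hlz, ofAdd_neg, ofAdd_toAdd, mul_inv_cancel]
  refine ⟨(fun t => (⟨_, hk t⟩ : nL.ker)) '' T, hT2.image _, ?_⟩
  intro W hSW hW
  let K : Subgroup Λ :=
    { carrier := {y | ∃ x : nL.ker, x ∈ W ∧ ∃ n : ℤ, y = x * l₀ ^ n}
      mul_mem' := by
        rintro _ _ ⟨x, hx, n, rfl⟩ ⟨x', hx', n', rfl⟩
        refine ⟨x * MulAut.conjNormal (l₀ ^ n) x', ?_, n + n', ?_⟩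
        · apply W.mul_mem hx
          rw [map_zpow]
          exact (gn_zpow _ W hW n x').2 hx'
        · rw [Subgroup.coe_mul, MulAut.conjNormal_apply, zpow_add]
          group
      one_mem' := ⟨1, W.one_mem, 0, by simp⟩
      inv_mem' := by
        rintro _ ⟨x, hx, n, rfl⟩
        refine ⟨MulAut.conjNormal (l₀ ^ (-n)) x⁻¹, ?_, -n, ?_⟩
        · rw [map_zpow]
          exact (gn_zpow _ W hW (-n) x⁻¹).2 (W.inv_mem hx)
        · rw [MulAut.conjNormal_apply, Subgroup.coe_inv]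
          group }
  have hK : K = ⊤ := by
    rw [eq_top_iff, ← hT1, Subgroup.closure_le]
    intro t ht
    refine ⟨⟨_, hk t⟩, hSW ⟨t, ht, rfl⟩, Multiplicative.toAdd (nL t), ?_⟩
    group
  rw [eq_top_iff]
  intro y _
  have hy : (y : Λ) ∈ K := by rw [hK]; exact Subgroup.mem_top _
  obtain ⟨x, hx, n, hn⟩ := hy
  have h0 : n = 0 := by
    have h1 : nL (y : Λ) = 1 := y.2
    have h2 : nL (x : Λ) = 1 := x.2
    rw [hn, map_mul, h2, one_mul, hlz] at h1
    exact ofAdd_eq_one.1 h1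
  rw [h0, zpow_zero, mul_one] at hn
  have : y = x := Subtype.ext hn
  rw [this]; exact hx

end Pool.Agent.F8.H
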