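import Pool.Agent.Lib.MP_305fdd_al.F8.StmH

/-!
# hol: extension of an equivariant homomorphism to the holomorph
-/

set_option autoImplicit false

namespace Pool.Agent.F8.H

open Pool.Agent.MP_305fdd_al Pool.Agent.Lib.MP_305fdd_al Pool.Agent.F2X Pool.Agent.F8

theorem hol_pow {Λ N : Type} [Group Λ] [Group N] (nL : Λ →* Multiplicative ℤ) (l₀ : Λ)
    (g : nL.ker →* N) (τ : MulAut N)
    (hg : ∀ x : nL.ker, g (MulAut.conjNormal l₀ x) = τ (g x)) (n : ℤ) :
    ∀ x : nL.ker, g (MulAut.conjNormal (l₀ ^ n) x) = (τ ^ n) (g x) := by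
  have hi : ∀ x : nL.ker, g (MulAut.conjNormal l₀⁻¹ x) = τ⁻¹ (g x) := by
    intro x
    have h := hg (MulAut.conjNormal l₀⁻¹ x)
    rw [map_inv, MulAut.apply_inv_self] at h
    rw [map_inv, h, MulAut.inv_apply_self]
  induction n using Int.induction_on with
  | zero => intro x; rw [zpow_zero, zpow_zero, map_one]; rfl
  | succ i ih =>
    intro x
    rw [zpow_add_one, map_mul, MulAut.mul_apply, ih, hg, zpow_add_one, MulAut.mul_apply]
  | pred i ih =>
    intro x
    rw [zpow_sub_one, map_mul, MulAut.mul_apply, ih, hi, zpow_sub_one, MulAut.mul_apply]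

theorem p_hol : S_hol := by
  intro Λ N _ _ nL l₀ h0 g τ hg
  have hpow := hol_pow nL l₀ g τ hg
  let nn : Λ → ℤ := fun l => Multiplicative.toAdd (nL l)
  have hnn : ∀ l l', nn (l * l') = nn l + nn l' := fun l l' => by
    show Multiplicative.toAdd (nL (l * l')) = _
    rw [map_mul, toAdd_mul]
  have hl0 : ∀ n : ℤ, nL (l₀ ^ n) = Multiplicative.ofAdd n := fun n => by
    rw [map_zpow, h0, ← ofAdd_zsmul, smul_eq_mul, mul_one]
  have hker : ∀ l, l * (l₀ ^ nn l)⁻¹ ∈ nL.ker := fun l => by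
    rw [MonoidHom.mem_ker, map_mul, map_inv, hl0, ofAdd_toAdd, mul_inv_cancel]
  let e : Λ → nL.ker := fun l => ⟨l * (l₀ ^ nn l)⁻¹, hker l⟩
  have hmul : ∀ l l', e (l * l') = e l * MulAut.conjNormal (l₀ ^ nn l) (e l') := fun l l' => by
    apply Subtype.ext
    rw [Subgroup.coe_mul, MulAut.conjNormal_apply]
    show l * l' * (l₀ ^ nn (l * l'))⁻¹ =
      l * (l₀ ^ nn l)⁻¹ * (l₀ ^ nn l * (l' * (l₀ ^ nn l')⁻¹) * (l₀ ^ nn l)⁻¹)
    rw [hnn, add_comm, zpow_add]
    group
  have hone : nn 1 = 0 := by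
    show Multiplicative.toAdd (nL 1) = 0
    rw [map_one, toAdd_one]
  refine ⟨{ toFun := fun l => ⟨g (e l), τ ^ nn l⟩, map_one' := ?_, map_mul' := ?_ }, ?_, ?_⟩
  · have h1 : e 1 = 1 := by
      apply Subtype.ext
      show 1 * (l₀ ^ nn 1)⁻¹ = 1
      rw [hone, zpow_zero, inv_one, one_mul]
    apply SemidirectProduct.ext
    · show g (e 1) = 1
      rw [h1, map_one]
    · show τ ^ nn 1 = 1
      rw [hone, zpow_zero]
  · intro l l'
    apply SemidirectProduct.ext
    · show g (e (l * l')) = g (e l) * (τ ^ nn l) (g (e l'))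
      rw [hmul, map_mul, hpow]
    · show τ ^ nn (l * l') = τ ^ nn l * τ ^ nn l'
      rw [hnn, zpow_add]
  · intro x
    have hx : nn x = 0 := by
      show Multiplicative.toAdd (nL x) = 0
      rw [MonoidHom.mem_ker.mp x.2, toAdd_one]
    apply SemidirectProduct.ext
    · show g (e x) = g x
      congr 1
      apply Subtype.ext
      show (x : Λ) * (l₀ ^ nn x)⁻¹ = x
      rw [hx, zpow_zero, inv_one, mul_one]
    · show τ ^ nn x = 1
      rw [hx, zpow_zero]
  · have hx : nn l₀ = 1 := by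
      show Multiplicative.toAdd (nL l₀) = 1
      rw [h0]; rfl
    apply SemidirectProduct.ext
    · show g (e l₀) = 1
      rw [← map_one g]
      congr 1
      apply Subtype.ext
      show l₀ * (l₀ ^ nn l₀)⁻¹ = 1
      rw [hx, zpow_one, mul_inv_cancel]
    · show τ ^ nn l₀ = τ
      rw [hx, zpow_one]

end Pool.Agent.F8.H
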