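import Pool.Agent.Lib.MP_305fdd_al.F8.StmH

set_option autoImplicit false

namespace Pool.Agent.F8.H

open Pool.Agent.MP_305fdd_al Pool.Agent.Lib.MP_305fdd_al Pool.Agent.F2X Pool.Agent.F8
open scoped QuadraticAlgebra

private def li_up {R : Type} [CommRing R] (x : R) : SL2 R :=
  ⟨!![1, x; 0, 1], by simp [Matrix.det_fin_two]⟩
private def li_lo {R : Type} [CommRing R] (x : R) : SL2 R :=
  ⟨!![1, 0; x, 1], by simp [Matrix.det_fin_two]⟩

private theorem li_up_val {R : Type} [CommRing R] (x : R) :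
    (li_up x).val = !![1, x; 0, 1] := rfl
private theorem li_lo_val {R : Type} [CommRing R] (x : R) :
    (li_lo x).val = !![1, 0; x, 1] := rfl
private theorem li_map_val (g : SL2 O) (i j : Fin 2) :
    (r2 g).val i j = Qd.map (-1) (Int.castRingHom (ZMod 2)) (g.val i j) := rfl

private theorem li_lift (x : Es (ZMod 2)) :
    ∃ y : O, Qd.map (-1) (Int.castRingHom (ZMod 2)) y = x := by
  obtain ⟨a, ha⟩ := ZMod.intCast_surjective x.re
  obtain ⟨b, hb⟩ := ZMod.intCast_surjective x.im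
  refine ⟨⟨a, b⟩, ?_⟩
  rw [Qd.map_apply]
  ext
  · exact ha
  · exact hb

private theorem li_mem_up (x : Es (ZMod 2)) : li_up x ∈ r2.range := by
  obtain ⟨y, rfl⟩ := li_lift x
  refine ⟨li_up y, ?_⟩
  apply Subtype.ext
  ext1 i j
  rw [li_map_val, li_up_val, li_up_val]
  fin_cases i <;> fin_cases j <;> simp

private theorem li_mem_lo (x : Es (ZMod 2)) : li_lo x ∈ r2.range := by
  obtain ⟨y, rfl⟩ := li_lift x
  refine ⟨li_lo y, ?_⟩
  apply Subtype.ext
  ext1 i j
  rw [li_map_val, li_lo_val, li_lo_val]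
  fin_cases i <;> fin_cases j <;> simp

private theorem li_inv (c : Es (ZMod 2)) (hc : c ≠ 0) : ∃ c' : Es (ZMod 2), c * c' = 1 := by
  obtain ⟨x, y⟩ := c
  have h2 : ∀ z : ZMod 2, z = 0 ∨ z = 1 := by decide
  rcases h2 x with rfl | rfl <;> rcases h2 y with rfl | rfl
  · exact absurd rfl hc
  · exact ⟨⟨1, 1⟩, by ext <;> simp <;> decide⟩
  · exact ⟨⟨1, 0⟩, by ext <;> simp⟩
  · exact ⟨⟨0, 1⟩, by ext <;> simp <;> decide⟩

private theorem li_ne (g : SL2 (Es (ZMod 2))) (hc : g.val 1 0 ≠ 0) : g ∈ r2.range := by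
  obtain ⟨c', hc'⟩ := li_inv _ hc
  have hd : g.val 0 0 * g.val 1 1 - g.val 0 1 * g.val 1 0 = 1 := by
    rw [← Matrix.det_fin_two]; exact g.property
  have h : g = li_up ((g.val 0 0 - 1) * c') * li_lo (g.val 1 0) *
      li_up ((g.val 1 1 - 1) * c') := by
    apply Subtype.ext
    rw [Matrix.SpecialLinearGroup.coe_mul, Matrix.SpecialLinearGroup.coe_mul, li_up_val,
      li_lo_val, li_up_val, Matrix.mul_fin_two, Matrix.mul_fin_two]
    ext1 i j
    fin_cases i <;> fin_cases j <;> simp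
    · linear_combination (-(g.val 0 0 - 1)) * hc'
    · linear_combination (-(g.val 0 0 - 1) * (g.val 1 1 - 1) * c' - g.val 0 1) * hc' - c' * hd
    · linear_combination (-(g.val 1 1 - 1)) * hc'
  rw [h]
  exact mul_mem (mul_mem (li_mem_up _) (li_mem_lo _)) (li_mem_up _)

/-- reduction modulo `2` is onto -/
theorem p_li : S_li := by
  intro g
  by_cases hc : g.val 1 0 = 0
  · have hd : g.val 0 0 * g.val 1 1 - g.val 0 1 * g.val 1 0 = 1 := by
      rw [← Matrix.det_fin_two]; exact g.property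
    have h0 : g.val 0 0 ≠ 0 := by
      intro h
      rw [h, hc] at hd
      simp at hd
    have h1 : (li_lo 1 * g).val 1 0 ≠ 0 := by
      rw [Matrix.SpecialLinearGroup.coe_mul, li_lo_val, Matrix.mul_apply, Fin.sum_univ_two, hc]
      simpa using h0
    have h2 := li_ne _ h1
    have h3 := mul_mem (inv_mem (li_mem_lo 1)) h2
    rw [inv_mul_cancel_left] at h3
    exact h3
  · exact li_ne g hc

end Pool.Agent.F8.H
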