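import Pool.Agent.Lib.MP_305fdd_al.F8.StmH
import Pool.Agent.Lib.MP_305fdd_al.F2X.Stm

/-!
# MP_305fdd_al, figure-eight knot group, [F8x mat]: the matrix of the monodromy
-/

set_option autoImplicit false

namespace Pool.Agent.F8.H

open Pool.Agent.MP_305fdd_al Pool.Agent.Lib.MP_305fdd_al Pool.Agent.F2X Pool.Agent.F8

/-- the reduction of a vector modulo `m` -/
private def mat_v (m : ℕ) (x : Fin 2 → ℤ) : Fin 2 → ZMod m := fun i => (x i : ZMod m)

private theorem mat_v_add (m : ℕ) (x y : Fin 2 → ℤ) : mat_v m (x + y) = mat_v m x + mat_v m y := by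
  ext i
  simp [mat_v]

/-- the reduction of `vec` modulo `m` -/
private def mat_s (m : ℕ) : F →* Multiplicative (Fin 2 → ZMod m) where
  toFun w := Multiplicative.ofAdd (mat_v m (vec w))
  map_one' := by
    rw [vec_one]
    show Multiplicative.ofAdd (mat_v m 0) = Multiplicative.ofAdd 0
    congr 1
    ext i
    simp [mat_v]
  map_mul' x y := by
    rw [vec_mul, mat_v_add, ofAdd_add]

private theorem mat_s_apply (m : ℕ) (w : F) :
    mat_s m w = Multiplicative.ofAdd (mat_v m (vec w)) := rfl

private theorem mat_s_surj (m : ℕ) [NeZero m] : Function.Surjective (mat_s m) := by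
  intro x
  obtain ⟨w, hw⟩ := vec_surj (fun i => ((Multiplicative.toAdd x i).val : ℤ))
  refine ⟨w, ?_⟩
  rw [mat_s_apply, hw]
  apply Multiplicative.toAdd.injective
  ext i
  simp [mat_v]

/-- multiplication by an invertible matrix -/
private def mat_mul {m : ℕ} (M : GL (Fin 2) (ZMod m)) : MulAut (Multiplicative (Fin 2 → ZMod m)) where
  toFun x := Multiplicative.ofAdd (M.val.mulVec (Multiplicative.toAdd x))
  invFun x := Multiplicative.ofAdd ((M⁻¹).val.mulVec (Multiplicative.toAdd x))
  left_inv x := by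
    simp only [toAdd_ofAdd, Matrix.mulVec_mulVec, ← Units.val_mul, inv_mul_cancel, Units.val_one,
      Matrix.one_mulVec, ofAdd_toAdd]
  right_inv x := by
    simp only [toAdd_ofAdd, Matrix.mulVec_mulVec, ← Units.val_mul, mul_inv_cancel, Units.val_one,
      Matrix.one_mulVec, ofAdd_toAdd]
  map_mul' x y := by
    simp only [toAdd_mul, Matrix.mulVec_add, ofAdd_add]

private theorem mat_mul_apply {m : ℕ} (M : GL (Fin 2) (ZMod m))
    (x : Multiplicative (Fin 2 → ZMod m)) :
    mat_mul M x = Multiplicative.ofAdd (M.val.mulVec (Multiplicative.toAdd x)) := rfl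

private theorem mat_red_val (m : ℕ) (A : GL (Fin 2) ℤ) (x : Fin 2 → ℤ) :
    mat_v m (A.val.mulVec x) = (red m A).val.mulVec (mat_v m x) := by
  ext i
  simp [mat_v, red, Matrix.mulVec, dotProduct]

/-- a homomorphism to `(ℤ/m)²` is given by a matrix -/
private theorem mat_hom (m : ℕ) (g' : F →* Multiplicative (Fin 2 → ZMod m)) :
    ∃ Y : Matrix (Fin 2) (Fin 2) (ZMod m), ∀ w, Multiplicative.toAdd (g' w) =
      Y.mulVec (mat_v m (vec w)) := by
  refine ⟨Matrix.of fun i j => Multiplicative.toAdd (g' (FreeGroup.of j)) i, ?_⟩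
  set Y : Matrix (Fin 2) (Fin 2) (ZMod m) :=
    Matrix.of fun i j => Multiplicative.toAdd (g' (FreeGroup.of j)) i with hY
  let k : F →* Multiplicative (Fin 2 → ZMod m) :=
    { toFun := fun w => Multiplicative.ofAdd (Y.mulVec (mat_v m (vec w)))
      map_one' := by
        rw [vec_one]
        have : mat_v m 0 = 0 := by ext i; simp [mat_v]
        rw [this, Matrix.mulVec_zero]
        rfl
      map_mul' := fun x y => by
        rw [vec_mul, mat_v_add, Matrix.mulVec_add, ofAdd_add] }
  have hk : g' = k := by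
    ext j
    show Multiplicative.toAdd (g' (FreeGroup.of j)) _ = (Y.mulVec (mat_v m (vec (FreeGroup.of j)))) _
    rw [vec_of]
    have : mat_v m (Pi.single j 1) = Pi.single j 1 := by
      ext i
      simp [mat_v, Pi.single_apply]
    rw [this, Matrix.mulVec_single_one]
    rfl
  intro w
  rw [hk]
  rfl

theorem p_mat (htw : S_tw) (htr : Pool.Agent.F2X.S_tr) : S_mat := by
  intro Λ _ Φ nL hsur hcmp l₀ hl₀ g ψ hg hψ
  have key : ∀ n : ℕ, 0 < n → ∃ X : GL (Fin 2) (ZMod n), X * red n (AM phi) = red n (AM ψ) * X := by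
    intro m hm
    have : NeZero m := ⟨hm.ne'⟩
    obtain ⟨g', y, h1, -, h3⟩ := htw Λ Φ nL hsur hcmp l₀ hl₀ (Multiplicative (Fin 2 → ZMod m))
      ((mat_s m).comp g) (mat_mul (red m (AM ψ))) (by
        intro x
        rw [MonoidHom.comp_apply, hψ, MonoidHom.comp_apply, mat_s_apply, AM_vec, mat_red_val,
          mat_mul_apply, mat_s_apply]
        rfl)
    have h3' : ∀ w, g' (phi w) = mat_mul (red m (AM ψ)) (g' w) := by
      intro w
      rw [h3, mul_right_comm, mul_inv_cancel, one_mul]
    have hsurj : Function.Surjective g' := by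
      rw [← MonoidHom.range_eq_top, h1, MonoidHom.range_eq_top]
      exact (mat_s_surj m).comp hg
    obtain ⟨Y, hY⟩ := mat_hom m g'
    have hYs : Function.Surjective Y.mulVec := by
      intro x
      obtain ⟨w, hw⟩ := hsurj (Multiplicative.ofAdd x)
      refine ⟨mat_v m (vec w), ?_⟩
      rw [← hY, hw]
      rfl
    rw [Matrix.mulVec_surjective_iff_isUnit] at hYs
    obtain ⟨X, hX⟩ := hYs
    refine ⟨X, ?_⟩
    apply Units.ext
    rw [Units.val_mul, Units.val_mul, hX]
    apply Matrix.ext_of_mulVec_single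
    intro j
    have hj : (Pi.single j 1 : Fin 2 → ZMod m) = mat_v m (vec (FreeGroup.of j)) := by
      rw [vec_of]
      ext i
      simp [mat_v, Pi.single_apply]
    rw [hj, ← Matrix.mulVec_mulVec, ← Matrix.mulVec_mulVec, ← mat_red_val, ← AM_vec, ← hY, ← hY, h3',
      mat_mul_apply, toAdd_ofAdd]
  obtain ⟨h1, h2⟩ := htr (AM phi) (AM ψ) key
  have hphi : (AM phi).val = !![3, 1; -1, 0] := by
    rw [AM_val, amat_eq]
    show !![vec (phi ga) 0, vec (phi gb) 0; vec (phi ga) 1, vec (phi gb) 1] = _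
    rw [phi_ga, phi_gb]
    simp only [vec_mul, vec_inv, vec_of]
    ext i j
    fin_cases i <;> fin_cases j <;> simp
  rw [hphi] at h1 h2
  constructor
  · rw [← h1, Matrix.trace_fin_two]
    simp
  · rw [← h2, Matrix.det_fin_two]
    simp

end Pool.Agent.F8.H
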