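import Pool.Agent.Lib.MP_305fdd_al.F8.StmH

set_option autoImplicit false

namespace Pool.Agent.F8.H

open Polynomial LaurentPolynomial

/-- if `t` has finite order then `V` is finite -/
private theorem mod_fin (V : Type) [AddCommGroup V] (t : V ≃+ V) (S : Set V) (hS : S.Finite)
    (h2 : ∀ v : V, v + v = 0)
    (hW : ∀ W : AddSubgroup V, S ⊆ W → (∀ x, t x ∈ W ↔ x ∈ W) → W = ⊤)
    (m : ℕ) (hm : 0 < m) (ht : ∀ v, (t^[m]) v = v) : Finite V := by
  classical
  set T : Set V := ⋃ i ∈ Finset.range m, (t^[i]) '' S with hT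
  have hTf : T.Finite := Set.Finite.biUnion (Finset.finite_toSet _) (fun i _ => hS.image _)
  have hTm : ∀ i < m, ∀ s ∈ S, (t^[i]) s ∈ T := by
    intro i hi s hs
    rw [hT]
    simp only [Set.mem_iUnion]
    exact ⟨i, Finset.mem_range.mpr hi, s, hs, rfl⟩
  have h1 : ∀ x ∈ AddSubgroup.closure T, t x ∈ AddSubgroup.closure T := by
    intro x hx
    induction hx using AddSubgroup.closure_induction with
    | mem y hy =>
      rw [hT] at hy
      simp only [Set.mem_iUnion] at hy
      obtain ⟨i, hi, s, hs, rfl⟩ := hy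
      rw [Finset.mem_range] at hi
      apply AddSubgroup.subset_closure
      rw [← Function.iterate_succ_apply' t i s]
      rcases Nat.lt_or_ge (i + 1) m with h | h
      · exact hTm _ h s hs
      · have : i.succ = m := by omega
        rw [this, ht]
        exact hTm 0 hm s hs
    | zero => rw [map_zero]; exact zero_mem _
    | add x y _ _ hx hy => rw [map_add]; exact add_mem hx hy
    | neg x _ hx => rw [map_neg]; exact neg_mem hx
  have h3 : ∀ k : ℕ, ∀ x ∈ AddSubgroup.closure T, (t^[k]) x ∈ AddSubgroup.closure T := by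
    intro k
    induction k with
    | zero => intro x hx; exact hx
    | succ k ih =>
      intro x hx
      rw [Function.iterate_succ_apply']
      exact h1 _ (ih x hx)
  have h4 : AddSubgroup.closure T = ⊤ := by
    apply hW
    · intro s hs
      exact AddSubgroup.subset_closure (hTm 0 hm s hs)
    · intro x
      refine ⟨fun h => ?_, h1 x⟩
      have h5 := h3 (m - 1) _ h
      rw [← Function.iterate_succ_apply, Nat.succ_eq_add_one, Nat.sub_add_cancel hm, ht] at h5
      exact h5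
  have : AddGroup.FG V := (AddGroup.fg_iff).mpr ⟨T, h4, hTf⟩
  apply AddCommGroup.finite_of_fg_isAddTorsion
  intro v
  rw [isOfFinAddOrder_iff_nsmul_eq_zero]
  exact ⟨2, by norm_num, by rw [two_nsmul]; exact h2 v⟩

/-- powers of `X` modulo a non-zero polynomial over `𝔽₂` -/
private theorem mod_pig (r : (ZMod 2)[X]) (hr : r ≠ 0) :
    ∃ i j : ℕ, i < j ∧ r ∣ X ^ j - X ^ i := by
  classical
  have hfin : Finite (Polynomial.degreeLT (ZMod 2) r.natDegree) :=
    Finite.of_equiv _ (Polynomial.degreeLTEquiv (ZMod 2) r.natDegree).symm.toEquiv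
  have hdeg : ∀ i : ℕ, (X ^ i % r : (ZMod 2)[X]) ∈ Polynomial.degreeLT (ZMod 2) r.natDegree := by
    intro i
    rw [Polynomial.mem_degreeLT, ← Polynomial.degree_eq_natDegree hr]
    exact EuclideanDomain.mod_lt _ hr
  let f : ℕ → Polynomial.degreeLT (ZMod 2) r.natDegree := fun i => ⟨_, hdeg i⟩
  obtain ⟨i, j, hij, h⟩ := Finite.exists_ne_map_eq_of_infinite f
  have h' : (X ^ i % r : (ZMod 2)[X]) = X ^ j % r := congrArg Subtype.val h
  have key : ∀ a b : ℕ, (X ^ a % r : (ZMod 2)[X]) = X ^ b % r → r ∣ X ^ b - X ^ a := by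
    intro a b hab
    have h1 := EuclideanDomain.div_add_mod (X ^ a : (ZMod 2)[X]) r
    have h2 := EuclideanDomain.div_add_mod (X ^ b : (ZMod 2)[X]) r
    refine ⟨X ^ b / r - X ^ a / r, ?_⟩
    linear_combination h1 - h2 - hab
  rcases lt_or_gt_of_ne hij with h | h
  · exact ⟨i, j, h, key i j h'⟩
  · exact ⟨j, i, h, key j i h'.symm⟩

/-- a non-zero polynomial which is `1` modulo `q` -/
private theorem mod_ne (n : ℕ) (h : (ZMod 2)[X]) :
    (X ^ n + (X ^ 3 + X + 1) * h : (ZMod 2)[X]) ≠ 0 := by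
  intro h0
  have hd : (X ^ 3 + X + 1 : (ZMod 2)[X]) ∣ X ^ n := ⟨-h, by linear_combination h0⟩
  have hc : IsCoprime (X ^ 3 + X + 1 : (ZMod 2)[X]) X := ⟨1, -(X ^ 2 + 1), by ring⟩
  have hu : IsUnit (X ^ 3 + X + 1 : (ZMod 2)[X]) :=
    (hc.pow_right (n := n)).isUnit_of_dvd' dvd_rfl hd
  have hdeg := Polynomial.natDegree_eq_zero_of_isUnit hu
  have h3 : (X ^ 3 + X + 1 : (ZMod 2)[X]).natDegree = 3 := by compute_degree!
  omega

theorem p_mod : S_mod := by
  intro V _ t S hS h2 hW hA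
  classical
  let _ : Module (ZMod 2) V := AddCommGroup.zmodModule (n := 2)
    (by intro x; rw [two_nsmul]; exact h2 x)
  let tl : Module.End (ZMod 2) V := t.toAddMonoidHom.toZModLinearMap 2
  let tli : Module.End (ZMod 2) V := t.symm.toAddMonoidHom.toZModLinearMap 2
  let u : (Module.End (ZMod 2) V)ˣ := ⟨tl, tli,
    by ext v; exact t.apply_symm_apply v, by ext v; exact t.symm_apply_apply v⟩
  let φ : (ZMod 2)[T;T⁻¹] →ₐ[ZMod 2] Module.End (ZMod 2) V :=
    AddMonoidAlgebra.lift (ZMod 2) _ ℤ ((Units.coeHom _).comp (zpowersHom _ u))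
  have hφT : ∀ n : ℤ, φ (T n) = ((u ^ n : (Module.End (ZMod 2) V)ˣ) : Module.End (ZMod 2) V) := by
    intro n
    show AddMonoidAlgebra.lift (ZMod 2) _ ℤ ((Units.coeHom _).comp (zpowersHom _ u))
      (AddMonoidAlgebra.single n 1) = _
    rw [AddMonoidAlgebra.lift_single]
    simp
  have hφ1 : ∀ v, φ (T 1) v = t v := by
    intro v
    rw [hφT, zpow_one]
    rfl
  have hφm : ∀ v, φ (T (-1)) v = t.symm v := by
    intro v
    rw [hφT, zpow_neg_one]
    rfl
  let _ : Module (ZMod 2)[T;T⁻¹] V := Module.compHom V φ.toRingHom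
  have hsm : ∀ (r : (ZMod 2)[T;T⁻¹]) (v : V), r • v = φ r v := fun _ _ => rfl
  have hT1 : ∀ v : V, (T 1 : (ZMod 2)[T;T⁻¹]) • v = t v := fun v => by rw [hsm, hφ1]
  have hTm : ∀ v : V, (T (-1) : (ZMod 2)[T;T⁻¹]) • v = t.symm v := fun v => by rw [hsm, hφm]
  have hTn : ∀ (n : ℕ) (v : V), (T (n : ℤ) : (ZMod 2)[T;T⁻¹]) • v = (t^[n]) v := by
    intro n
    induction n with
    | zero => intro v; simp
    | succ n ih =>
      intro v
      rw [Nat.cast_succ, T_add, mul_smul, hT1, ih, Function.iterate_succ_apply]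
  have htwo : (2 : (ZMod 2)[T;T⁻¹]) = 0 := by
    have : (C (2 : ZMod 2) : (ZMod 2)[T;T⁻¹]) = 0 := by
      rw [show (2 : ZMod 2) = 0 from rfl, map_zero]
    rw [map_ofNat] at this
    exact this
  have hspan : Submodule.span (ZMod 2)[T;T⁻¹] S = ⊤ := by
    have h := hW (Submodule.span (ZMod 2)[T;T⁻¹] S).toAddSubgroup Submodule.subset_span (by
      intro x
      constructor
      · intro hx
        have := (Submodule.span (ZMod 2)[T;T⁻¹] S).smul_mem (T (-1)) hx
        rw [hTm, AddEquiv.symm_apply_apply] at this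
        exact this
      · intro hx
        have := (Submodule.span (ZMod 2)[T;T⁻¹] S).smul_mem (T 1) hx
        rw [hT1] at this
        exact this)
    rw [eq_top_iff]
    intro x _
    have hx : x ∈ (Submodule.span (ZMod 2)[T;T⁻¹] S).toAddSubgroup := by rw [h]; trivial
    exact hx
  have hfg : (⊤ : Submodule (ZMod 2)[T;T⁻¹] V).FG := by
    rw [← hspan]
    exact Submodule.fg_span hS
  set x1 : (ZMod 2)[T;T⁻¹] := T 1 with hx1
  set q : (ZMod 2)[T;T⁻¹] := x1 ^ 3 + x1 + 1 with hq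
  have hTpow : ∀ n : ℕ, (T (n : ℤ) : (ZMod 2)[T;T⁻¹]) = x1 ^ n := by
    intro n
    rw [hx1, T_pow, mul_one]
  set N : Submodule (ZMod 2)[T;T⁻¹] V := Ideal.span {q} • ⊤ with hN
  have hqA : ∀ a : V ⧸ N, q • a = 0 := by
    intro a
    obtain ⟨v, rfl⟩ := N.mkQ_surjective a
    rw [← map_smul, Submodule.mkQ_apply, Submodule.Quotient.mk_eq_zero]
    exact Submodule.smul_mem_smul (Ideal.mem_span_singleton_self q) Submodule.mem_top
  have hTT : ∀ (a : V ⧸ N), (T 1 : (ZMod 2)[T;T⁻¹]) • ((T (-1) : (ZMod 2)[T;T⁻¹]) • a) = a := by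
    intro a
    rw [← mul_smul, ← T_add, add_neg_cancel, T_zero, one_smul]
  have hTT' : ∀ (a : V ⧸ N), (T (-1) : (ZMod 2)[T;T⁻¹]) • ((T 1 : (ZMod 2)[T;T⁻¹]) • a) = a := by
    intro a
    rw [← mul_smul, ← T_add, neg_add_cancel, T_zero, one_smul]
  let τ : (V ⧸ N) ≃+ (V ⧸ N) :=
    { toFun := fun a => (T 1 : (ZMod 2)[T;T⁻¹]) • a
      invFun := fun a => (T (-1) : (ZMod 2)[T;T⁻¹]) • a
      left_inv := hTT'
      right_inv := hTT
      map_add' := fun a b => smul_add _ _ _ }
  have hτ : ∀ a, τ a = x1 • a := fun a => rfl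
  have hτn : ∀ (n : ℕ) (a : V ⧸ N), (τ^[n]) a = x1 ^ n • a := by
    intro n
    induction n with
    | zero => intro a; simp
    | succ n ih =>
      intro a
      rw [Function.iterate_succ_apply, ih, hτ, ← mul_smul, pow_succ]
  have hτ7 : ∀ a : V ⧸ N, (τ^[7]) a = a := by
    intro a
    have h7 : x1 ^ 7 = 1 + (x1 ^ 4 + x1 ^ 2 + x1 + 1) * q := by
      rw [hq]
      linear_combination -(x1 ^ 5 + x1 ^ 4 + x1 ^ 3 + x1 ^ 2 + x1 + 1) * htwo
    rw [hτn, h7, add_smul, one_smul, mul_smul, hqA, smul_zero, add_zero]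
  have hgt : ∀ v, N.mkQ (t v) = τ (N.mkQ v) := by
    intro v
    rw [hτ, ← map_smul, hx1, hT1]
  have hA2 : ∀ a : V ⧸ N, a + a = 0 := by
    intro a
    obtain ⟨v, rfl⟩ := N.mkQ_surjective a
    rw [← map_add, h2, map_zero]
  have hAfin : Finite (V ⧸ N) := by
    apply mod_fin (V ⧸ N) τ (N.mkQ '' S) (hS.image _) hA2 ?_ 7 (by norm_num) hτ7
    intro W hSW hτW
    have h := hW (W.comap N.mkQ.toAddMonoidHom)
      (by
        intro s hs
        exact hSW ⟨s, hs, rfl⟩)
      (by
        intro x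
        show N.mkQ (t x) ∈ W ↔ N.mkQ x ∈ W
        rw [hgt]
        exact hτW _)
    rw [eq_top_iff]
    intro a _
    obtain ⟨v, rfl⟩ := N.mkQ_surjective a
    have hv : v ∈ W.comap N.mkQ.toAddMonoidHom := by rw [h]; trivial
    exact hv
  have hcard : Nat.card (V ⧸ N) ≤ 4 :=
    hA (V ⧸ N) τ N.mkQ.toAddMonoidHom N.mkQ_surjective hgt
  have hτ1 : ∀ a : V ⧸ N, x1 • a = a := by
    have hord7 : orderOf (τ.toEquiv : Equiv.Perm (V ⧸ N)) ∣ 7 := by
      apply orderOf_dvd_of_pow_eq_one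
      ext a
      rw [Equiv.Perm.coe_pow, Equiv.Perm.one_apply]
      exact hτ7 a
    have hord : orderOf (τ.toEquiv : Equiv.Perm (V ⧸ N)) ∣ 24 := by
      refine (orderOf_dvd_natCard _).trans ?_
      have := Fintype.ofFinite (V ⧸ N)
      rw [Nat.card_eq_fintype_card, Fintype.card_perm, ← Nat.card_eq_fintype_card]
      have := Nat.factorial_dvd_factorial hcard
      exact this
    have h1 : orderOf (τ.toEquiv : Equiv.Perm (V ⧸ N)) ∣ 1 := by
      have := Nat.dvd_gcd hord7 hord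
      simpa using this
    have h2 := orderOf_eq_one_iff.mp (Nat.dvd_one.mp h1)
    intro a
    have h3 := congrArg (fun f : Equiv.Perm (V ⧸ N) => f a) h2
    exact h3
  have hA0 : ∀ a : V ⧸ N, a = 0 := by
    intro a
    have h := hqA a
    rw [hq, add_smul, add_smul, one_smul, pow_succ, pow_succ, pow_one, mul_smul, mul_smul, hτ1,
      hτ1, hA2, zero_add] at h
    exact h
  have hNtop : (⊤ : Submodule (ZMod 2)[T;T⁻¹] V) ≤ Ideal.span {q} • ⊤ := by
    intro v _
    have := hA0 (N.mkQ v)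
    rw [Submodule.mkQ_apply, Submodule.Quotient.mk_eq_zero] at this
    exact this
  obtain ⟨r, hr1, hr⟩ := Submodule.exists_sub_one_mem_and_smul_eq_zero_of_fg_of_le_smul
    (Ideal.span {q}) ⊤ hfg hNtop
  obtain ⟨h, hh⟩ := Ideal.mem_span_singleton.mp hr1
  obtain ⟨n, h', hh'⟩ := exists_T_pow h
  set r' : (ZMod 2)[X] := X ^ n + (X ^ 3 + X + 1) * h' with hr'
  have hr'L : toLaurent r' = r * T n := by
    rw [hr', map_add, map_mul, map_add, map_add, map_pow, map_pow, Polynomial.toLaurent_X,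
      Polynomial.toLaurent_one, hh', hTpow, ← hx1]
    have : r = 1 + q * h := by linear_combination hh
    rw [this, hq]
    ring
  obtain ⟨i, j, hij, c, hc⟩ := mod_pig r' (mod_ne n h')
  have hji : ∀ v : V, (t^[j]) v = (t^[i]) v := by
    intro v
    have h1 := congrArg toLaurent hc
    rw [map_mul, hr'L, map_sub, map_pow, map_pow, Polynomial.toLaurent_X, ← hx1] at h1
    rw [← hTn, ← hTn, hTpow, hTpow, ← sub_eq_zero, ← sub_smul, h1, mul_comm, mul_smul,
      mul_comm r, mul_smul, hr v trivial, smul_zero, smul_zero]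
  have hord : ∀ v : V, (t^[j - i]) v = v := by
    intro v
    have h1 := hji v
    have h3 : (t^[j]) v = (t^[i]) ((t^[j - i]) v) := by
      rw [← Function.iterate_add_apply]
      congr 1
      omega
    rw [h3] at h1
    exact (t.injective.iterate i) h1
  have hVfin : Finite V := mod_fin V t S hS h2 hW (j - i) (by omega) hord
  exact ⟨hVfin, hA V t (AddMonoidHom.id V) Function.surjective_id (fun v => rfl)⟩

end Pool.Agent.F8.H
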