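import Pool.Agent.Lib.MP_305fdd_al.F8.StmH

/-!
# [F8x rk] the rank of a free group with an automorphism
-/

set_option autoImplicit false

namespace Pool.Agent.F8.H

open Pool.Agent.MP_305fdd_al Pool.Agent.Lib.MP_305fdd_al Pool.Agent.F2X Pool.Agent.F8

/-- the subgroup generated by the squares -/
private def rkK (M : Type) [Group M] : Subgroup M :=
  Subgroup.normalClosure (Set.range fun x : M => x * x)

private instance rkK_normal (M : Type) [Group M] : (rkK M).Normal :=
  Subgroup.normalClosure_normal

private theorem rkK_sq {M : Type} [Group M] (q : M ⧸ rkK M) : q * q = 1 := by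
  obtain ⟨x, rfl⟩ := QuotientGroup.mk_surjective q
  rw [← QuotientGroup.mk_mul, QuotientGroup.eq_one_iff]
  exact Subgroup.subset_normalClosure ⟨x, rfl⟩

private theorem rkK_comm {M : Type} [Group M] (p q : M ⧸ rkK M) : p * q = q * p := by
  have h1 := rkK_sq p
  have h2 := rkK_sq q
  have h3 := rkK_sq (p * q)
  have e1 : p⁻¹ = p := inv_eq_of_mul_eq_one_left h1
  have e2 : q⁻¹ = q := inv_eq_of_mul_eq_one_left h2
  have e3 : (p * q)⁻¹ = p * q := inv_eq_of_mul_eq_one_left h3
  rw [mul_inv_rev, e1, e2] at e3
  exact e3.symm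

private instance rkK_commGroup (M : Type) [Group M] : CommGroup (M ⧸ rkK M) :=
  { (inferInstance : Group (M ⧸ rkK M)) with mul_comm := rkK_comm }

private theorem rkK_map {M : Type} [Group M] (t : MulAut M) :
    (rkK M).map (t : M →* M) = rkK M := by
  unfold rkK
  rw [Subgroup.map_normalClosure _ _ (by simpa using t.surjective)]
  congr 1
  ext y
  constructor
  · rintro ⟨_, ⟨x, rfl⟩, rfl⟩
    exact ⟨t x, by simp⟩
  · rintro ⟨x, rfl⟩
    exact ⟨_, ⟨t.symm x, rfl⟩, by simp⟩

/-- the automorphism induced on the quotient -/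
private noncomputable def rkT {M : Type} [Group M] (t : MulAut M) : M ⧸ rkK M ≃* M ⧸ rkK M :=
  QuotientGroup.congr _ _ t (rkK_map t)

private theorem rkT_mk {M : Type} [Group M] (t : MulAut M) (x : M) :
    rkT t (QuotientGroup.mk x) = QuotientGroup.mk (t x) := rfl

/-- the projection to the additive quotient -/
private def rkV {M : Type} [Group M] (x : M) : Additive (M ⧸ rkK M) :=
  Additive.ofMul (QuotientGroup.mk x)

private theorem rkV_mul {M : Type} [Group M] (x y : M) : rkV (x * y) = rkV x + rkV y := rfl

private theorem rkV_one {M : Type} [Group M] : rkV (1 : M) = 0 := rfl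

private theorem rkV_inv {M : Type} [Group M] (x : M) : rkV (x⁻¹) = - rkV x := rfl

private theorem rkV_surj {M : Type} [Group M] : Function.Surjective (rkV (M := M)) := by
  intro v
  obtain ⟨x, hx⟩ := QuotientGroup.mk_surjective (s := rkK M) v.toMul
  exact ⟨x, congrArg Additive.ofMul hx⟩

private theorem rk_card (hmod : S_mod) (M : Type) [Group M] (t : MulAut M) (S : Set M)
    (hS : S.Finite)
    (h1 : ∀ W : Subgroup M, S ⊆ W → (∀ x, t x ∈ W ↔ x ∈ W) → W = ⊤)
    (h2 : ∀ (A : Type) [CommGroup A] [Finite A] (τ : MulAut A) (g : M →* A),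
      Function.Surjective g → (∀ a : A, a * a = 1) → (∀ x, g (t x) = τ (g x)) → Nat.card A ≤ 4) :
    Finite (M ⧸ rkK M) ∧ Nat.card (M ⧸ rkK M) ≤ 4 := by
  have key := hmod (Additive (M ⧸ rkK M)) (MulEquiv.toAdditive (rkT t)) (rkV '' S) (hS.image _)
    (fun v => rkK_sq v.toMul)
    (by
      intro W hW hWt
      let W0 : Subgroup M :=
        { carrier := {x | rkV x ∈ W}
          mul_mem' := fun {a b} ha hb => by
            change rkV (a * b) ∈ W
            rw [rkV_mul]
            exact W.add_mem ha hb
          one_mem' := by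
            change rkV 1 ∈ W
            rw [rkV_one]
            exact W.zero_mem
          inv_mem' := fun {a} ha => by
            change rkV a⁻¹ ∈ W
            rw [rkV_inv]
            exact W.neg_mem ha }
      have hW0 : W0 = ⊤ := by
        refine h1 W0 (fun s hs => ?_) (fun x => ?_)
        · exact hW ⟨s, hs, rfl⟩
        · exact hWt (rkV x)
      rw [eq_top_iff]
      intro v _
      obtain ⟨x, rfl⟩ := rkV_surj v
      have : x ∈ W0 := by
        rw [hW0]
        exact Subgroup.mem_top x
      exact this)
    (by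
      intro A _ _ τ g hg hgt
      let g' : M →* Multiplicative A :=
        { toFun := fun x => Multiplicative.ofAdd (g (rkV x))
          map_one' := by
            rw [rkV_one, map_zero]
            rfl
          map_mul' := fun x y => by
            rw [rkV_mul, map_add]
            rfl }
      have := h2 (Multiplicative A) (AddEquiv.toMultiplicative τ) g' (by
        intro a
        obtain ⟨v, hv⟩ := hg a.toAdd
        obtain ⟨x, rfl⟩ := rkV_surj v
        exact ⟨x, congrArg Multiplicative.ofAdd hv⟩) (by
        intro a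
        obtain ⟨v, hv⟩ := hg a.toAdd
        have hvv : v + v = 0 := rkK_sq v.toMul
        have : a.toAdd + a.toAdd = 0 := by
          rw [← hv, ← map_add, hvv, map_zero]
        exact this) (by
        intro x
        exact congrArg Multiplicative.ofAdd (hgt (rkV x)))
      exact this)
  exact key

/-- three different free generators give a quotient of order eight -/
private theorem rk_three {M X : Type} [Group M] (e : M ≃* FreeGroup X) (a b c : X) (hab : a ≠ b)
    (hac : a ≠ c) (hbc : b ≠ c) [Finite (M ⧸ rkK M)] (h4 : Nat.card (M ⧸ rkK M) ≤ 4) : False := by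
  classical
  let f0 : FreeGroup X →* Multiplicative (ZMod 2 × ZMod 2 × ZMod 2) :=
    FreeGroup.lift fun x => Multiplicative.ofAdd
      (if x = a then 1 else 0, if x = b then 1 else 0, if x = c then 1 else 0)
  let f : M →* Multiplicative (ZMod 2 × ZMod 2 × ZMod 2) := f0.comp e.toMonoidHom
  have hle : rkK M ≤ f.ker := by
    refine Subgroup.normalClosure_le_normal ?_
    rintro _ ⟨x, rfl⟩
    change f (x * x) = 1
    rw [map_mul]
    generalize f x = y
    revert y
    decide
  let fq : M ⧸ rkK M →* Multiplicative (ZMod 2 × ZMod 2 × ZMod 2) := QuotientGroup.lift _ f hle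
  have hfq : Function.Surjective fq := by
    have hra : f0 (FreeGroup.of a) = Multiplicative.ofAdd (1, 0, 0) := by
      simp [f0, hab, hac]
    have hrb : f0 (FreeGroup.of b) = Multiplicative.ofAdd (0, 1, 0) := by
      simp [f0, hab.symm, hbc]
    have hrc : f0 (FreeGroup.of c) = Multiplicative.ofAdd (0, 0, 1) := by
      simp [f0, hac.symm, hbc.symm]
    intro y
    have hy : ∃ z : FreeGroup X, f0 z = y := by
      have hdec : ∀ y : Multiplicative (ZMod 2 × ZMod 2 × ZMod 2), ∃ i j k : Fin 2,
          (Multiplicative.ofAdd ((1, 0, 0) : ZMod 2 × ZMod 2 × ZMod 2)) ^ (i : ℕ) *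
          (Multiplicative.ofAdd ((0, 1, 0) : ZMod 2 × ZMod 2 × ZMod 2)) ^ (j : ℕ) *
          (Multiplicative.ofAdd ((0, 0, 1) : ZMod 2 × ZMod 2 × ZMod 2)) ^ (k : ℕ) = y := by
        decide
      obtain ⟨i, j, k, h⟩ := hdec y
      exact ⟨FreeGroup.of a ^ (i : ℕ) * FreeGroup.of b ^ (j : ℕ) * FreeGroup.of c ^ (k : ℕ), by
        rw [map_mul, map_mul, map_pow, map_pow, map_pow, hra, hrb, hrc, h]⟩
    obtain ⟨z, hz⟩ := hy
    refine ⟨QuotientGroup.mk (e.symm z), ?_⟩
    change f (e.symm z) = y
    change f0 (e (e.symm z)) = y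
    rw [MulEquiv.apply_symm_apply, hz]
  have h8 := Nat.card_le_card_of_surjective fq hfq
  have h8' : Nat.card (Multiplicative (ZMod 2 × ZMod 2 × ZMod 2)) = 8 := by
    rw [Nat.card_eq_fintype_card]
    rfl
  omega

/-- [F8x rk] the rank of a free group with an automorphism. -/
theorem p_rk (hmod : S_mod) : S_rk := by
  intro M _ _ t S hS h1 h2
  obtain ⟨hfin, h4⟩ := rk_card hmod M t S hS h1 h2
  have e : M ≃* FreeGroup (IsFreeGroup.Generators M) := IsFreeGroup.toFreeGroup M
  have hX : Finite (IsFreeGroup.Generators M) := by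
    by_contra hinf
    have : Infinite (IsFreeGroup.Generators M) := not_finite_iff_infinite.mp hinf
    let φ := Infinite.natEmbedding (IsFreeGroup.Generators M)
    exact rk_three e (φ 0) (φ 1) (φ 2) (fun h => by simpa using φ.injective h)
      (fun h => by simpa using φ.injective h) (fun h => by simpa using φ.injective h) h4
  refine ⟨Nat.card (IsFreeGroup.Generators M), ?_, ?_⟩
  · by_contra hlt
    have hft : Fintype (IsFreeGroup.Generators M) := Fintype.ofFinite _
    rw [Nat.card_eq_fintype_card, not_le, Fintype.two_lt_card_iff] at hlt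
    obtain ⟨a, b, c, hab, hac, hbc⟩ := hlt
    exact rk_three e a b c hab hac hbc h4
  · exact ⟨e.trans (FreeGroup.freeGroupCongr (Finite.equivFin _))⟩

end Pool.Agent.F8.H
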