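import Pool.Agent.Lib.MP_305fdd_al.F8.StmH

/-!
# MP_305fdd_al, figure-eight knot group, block H: [F8x three] the image modulo `√-3`.
-/

set_option autoImplicit false

namespace Pool.Agent.F8.H

open Pool.Agent.MP_305fdd_al Pool.Agent.Lib.MP_305fdd_al Pool.Agent.F2X Pool.Agent.F8
open scoped QuadraticAlgebra

private theorem three_pow_ma : ∀ x : ZMod 3,
    (ma (ZMod 3) ^ x.val).val = !![1, x; 0, 1] := by
  intro x
  rw [Matrix.SpecialLinearGroup.coe_pow]
  revert x
  unfold ma
  decide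

private theorem three_pow_mb : ∀ x : ZMod 3,
    (mb (1 : ZMod 3) ^ (-x).val).val = !![1, 0; x, 1] := by
  intro x
  rw [Matrix.SpecialLinearGroup.coe_pow]
  revert x
  unfold mb
  decide

/-- `SL₂(𝔽₃)` is generated by `a, b` -/
private theorem three_gen (S : Subgroup (SL2 (ZMod 3))) (ha : ma (ZMod 3) ∈ S)
    (hb : mb (1 : ZMod 3) ∈ S) (g : SL2 (ZMod 3)) : g ∈ S := by
  have key : ∀ g : SL2 (ZMod 3), g.val 1 0 ≠ 0 → g ∈ S := by
    intro g hc
    have hd := g.2
    rw [Matrix.det_fin_two] at hd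
    have hg : g = ma (ZMod 3) ^ ((g.val 0 0 - 1) * g.val 1 0).val *
        mb (1 : ZMod 3) ^ (-(g.val 1 0)).val *
        ma (ZMod 3) ^ ((g.val 1 1 - 1) * g.val 1 0).val := by
      apply Subtype.ext
      rw [Matrix.SpecialLinearGroup.coe_mul, Matrix.SpecialLinearGroup.coe_mul, three_pow_ma,
        three_pow_mb, three_pow_ma]
      have hm : g.val = !![g.val 0 0, g.val 0 1; g.val 1 0, g.val 1 1] := Matrix.eta_fin_two _
      rw [hm]
      simp only [Matrix.of_apply, Matrix.cons_val', Matrix.cons_val_zero, Matrix.cons_val_one,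
        Matrix.cons_val_fin_one]
      generalize g.val 0 0 = a at *
      generalize g.val 0 1 = b at *
      generalize g.val 1 0 = c at *
      generalize g.val 1 1 = d at *
      clear hm
      revert a b c d
      decide
    rw [hg]
    exact S.mul_mem (S.mul_mem (S.pow_mem ha _) (S.pow_mem hb _)) (S.pow_mem ha _)
  by_cases hc : g.val 1 0 = 0
  · have hd := g.2
    rw [Matrix.det_fin_two, hc, mul_zero, sub_zero] at hd
    have h1 : (g * mb 1) ∈ S := by
      apply key
      rw [Matrix.SpecialLinearGroup.coe_mul]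
      intro h0
      have h1 : (g.val * (mb (1 : ZMod 3)).val) 1 0 = g.val 1 0 - g.val 1 1 := by
        rw [Matrix.mul_apply, Fin.sum_univ_two]
        simp [mb, sub_eq_add_neg]
      rw [h1, hc, zero_sub, neg_eq_zero] at h0
      rw [h0, mul_zero] at hd
      exact absurd hd (by decide)
    have h2 : g = (g * mb 1) * (mb 1)⁻¹ := by group
    rw [h2]
    exact S.mul_mem h1 (S.inv_mem hb)
  · exact key g hc

/-- [F8x three] -/
theorem p_three (hbn : S_bn) : S_three := by
  intro Λ _ Φ ρ σ hσ h y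
  have hw : (1 : ZMod 3) * 1 + 1 + 1 = 0 := by decide
  let ev : Es (ZMod 3) →+* ZMod 3 := Qd.ev (-1) (RingHom.id (ZMod 3)) 1 (by decide)
  let s : Λ →* SL2 (ZMod 3) := Φ.toFun (SL2 (ZMod 3)) (rho8 (1 : ZMod 3) hw)
  have hs : s = (SLm ev).comp (Φ.toFun (SL2 (Es (ZMod 3))) (rho8 (om (ZMod 3)) (om_sq (ZMod 3)))) := by
    rw [← Φ.nat]
    show Φ.toFun _ _ = Φ.toFun _ _
    congr 1
    apply hom8_ext'
    · rw [rho8_aa, MonoidHom.comp_apply, rho8_aa]
      apply Subtype.ext
      ext i j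
      fin_cases i <;> fin_cases j <;> simp [ma]
    · rw [rho8_bb, MonoidHom.comp_apply, rho8_bb]
      apply Subtype.ext
      ext i j
      fin_cases i <;> fin_cases j <;> simp [mb, ev, Qd.ev_apply, th]
  have hev : ∀ z : O, ev (Qd.map (-1) (Int.castRingHom (ZMod 3)) (σ z)) =
      Qd.ev (-1) (Int.castRingHom (ZMod 3)) 1 (by decide) z := by
    intro z
    rcases hσ with rfl | rfl
    · simp [ev, Qd.ev_apply, Qd.map_apply]
    · simp only [ev, Qd.ev_apply, Qd.map_apply]
      simp only [QuadraticAlgebra.re_star, QuadraticAlgebra.im_star, RingHom.id_apply, map_add,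
        map_mul, map_neg, eq_intCast, mul_one, Int.cast_neg, Int.cast_one]
      have h3 : (3 : ZMod 3) = 0 := by decide
      linear_combination (-(z.im : ZMod 3)) * h3
  have htr : ∀ l, tr (r3 (ρ l)) = tr (s l) := by
    intro l
    have h1 := congrArg ev (h l)
    rw [hev] at h1
    rw [hs, MonoidHom.comp_apply, tr_map, ← h1]
    exact tr_map _ _
  have hrange : ∀ g, ∃ l, s l = g := by
    intro g
    have h1 : g ∈ (rho8 (1 : ZMod 3) hw).range :=
      three_gen _ (MonoidHom.mem_range.mpr ⟨aa, rho8_aa _ _⟩)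
        (MonoidHom.mem_range.mpr ⟨bb, rho8_bb _ _⟩) g
    rw [← Φ.range_eq] at h1
    exact h1
  have hirr : Irr s := by
    obtain ⟨l₁, h1⟩ := hrange (ma (ZMod 3))
    obtain ⟨l₂, h2⟩ := hrange (mb (1 : ZMod 3))
    refine ⟨l₁, l₂, ?_⟩
    rw [map_mul, map_mul, map_mul, map_inv, map_inv, h1, h2, tr_eq]
    simp only [ma, mb, Matrix.SpecialLinearGroup.coe_mul, Matrix.SpecialLinearGroup.coe_inv,
      Matrix.adjugate_fin_two_of]
    decide
  obtain ⟨X, hX⟩ := hbn Λ (ZMod 3) (r3.comp ρ) s htr hirr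
  have hdet : (X.val * y.val * X⁻¹.val).det = 1 := by
    rw [Matrix.det_mul, Matrix.det_mul, y.2, mul_one, ← Matrix.det_mul, ← Units.val_mul,
      mul_inv_cancel]
    simp
  obtain ⟨l, hl⟩ := hrange ⟨X.val * y.val * X⁻¹.val, hdet⟩
  refine ⟨l, ?_⟩
  apply Subtype.ext
  have h1 := hX l
  rw [hl] at h1
  have h2 : X.val * (r3 (ρ l)).val = X.val * y.val := by
    have h3 : X⁻¹.val * X.val = 1 := by rw [← Units.val_mul, inv_mul_cancel]; rfl
    calc X.val * (r3 (ρ l)).val = X.val * y.val * X⁻¹.val * X.val := h1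
      _ = X.val * y.val := by rw [mul_assoc, h3, mul_one]
  have h3 : X⁻¹.val * X.val = 1 := by rw [← Units.val_mul, inv_mul_cancel]; rfl
  calc (r3 (ρ l)).val = X⁻¹.val * (X.val * (r3 (ρ l)).val) := by rw [← mul_assoc, h3, one_mul]
    _ = X⁻¹.val * (X.val * y.val) := by rw [h2]
    _ = y.val := by rw [← mul_assoc, h3, one_mul]

end Pool.Agent.F8.H
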