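import Pool.Agent.Lib.MP_305fdd_al.F8.StmA

/-!
# MP_305fdd_al, figure-eight knot group, piece [F8 A1]: existence of `σ`
-/

set_option autoImplicit false

namespace Pool.Agent.F8

open Pool.Agent.MP_305fdd_al Pool.Agent.Lib.MP_305fdd_al Pool.Agent.F2X
open scoped QuadraticAlgebra

private lemma A1_ext (p : ℕ) [Fact p.Prime] (x y : Qd 3 ℤ_[p])
    (h : ∀ k, Qd.map 3 (PadicInt.toZModPow k) x = Qd.map 3 (PadicInt.toZModPow k) y) : x = y := by
  apply QuadraticAlgebra.ext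
  · rw [← PadicInt.ext_of_toZModPow]
    intro k
    exact congrArg QuadraticAlgebra.re (h k)
  · rw [← PadicInt.ext_of_toZModPow]
    intro k
    exact congrArg QuadraticAlgebra.im (h k)

theorem pf_A1 (hL1 : S_L1) (hpwl : S_pwl) (hexu : S_exu) (hmp : S_mp) (hwm : S_wm)
    (hnc1 : S_nc1) (hnz : S_nz) (hnc : S_nc) (_hlz : S_lz) (_hlq : S_lq) : S_A1 := by
  intro Λ _ Φ n hn p _
  obtain ⟨Θ, hΘ⟩ := hL1 Λ Φ p
  have hΘ' : ∀ k l, Q2.map (Qd.map 3 (PadicInt.toZModPow k)) (Θ l) =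
      Φ.toFun _ (T1 (ZMod (p ^ k))) l := fun k l => DFunLike.congr_fun (hΘ k) l
  -- the matrix part
  have hm : ∀ l, (Θ l).m = 1 := by
    intro l
    apply Subtype.ext
    ext1 i j
    apply A1_ext p
    intro k
    have h1 : SLm (Qd.map 3 (PadicInt.toZModPow k)) (Θ l).m = 1 := by
      have h2 : SLm (Qd.map 3 (PadicInt.toZModPow k)) (Θ l).m =
          (Q2.mH.comp (Φ.toFun _ (T1 (ZMod (p ^ k))))) l := by
        rw [MonoidHom.comp_apply, ← hΘ' k l]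
        rfl
      rw [h2, ← Φ.nat, T1, mH_Th1, NatBij.one]
      rfl
    have h3 := congrArg (fun M : SL2 (Qd 3 (ZMod (p ^ k))) => M.val i j) h1
    have h4 : (SLm (Qd.map 3 (PadicInt.toZModPow k)) (1 : SL2 (Qd 3 ℤ_[p]))).val i j =
        (1 : SL2 (Qd 3 (ZMod (p ^ k)))).val i j := by rw [map_one]
    exact h3.trans h4.symm
  -- the scalar part
  obtain ⟨σ, hσ⟩ := hpwl Λ n hn (Qd 3 ℤ_[p])ˣ (Q2.tH.comp Θ)
  obtain ⟨l₀, hl₀⟩ := hn.1 (Multiplicative.ofAdd 1)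
  have hσl : (Θ l₀).t = σ := by
    have h1 := DFunLike.congr_fun hσ l₀
    rw [MonoidHom.comp_apply, MonoidHom.comp_apply, hl₀, pw_ofAdd, zpow_one] at h1
    exact h1
  refine ⟨σ, ?_, ?_⟩
  · intro K _ _ j
    refine ⟨(Q2.map j).comp Θ, ?_, ?_, ?_⟩
    · ext1 l
      have h2 := DFunLike.congr_fun hσ l
      simp only [MonoidHom.comp_apply, Q2.tH_apply, zpowersHom_apply] at h2
      show Units.map j.toMonoidHom (Θ l).t = zpowersHom _ (Units.map j.toMonoidHom σ) (n l)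
      rw [h2, zpowersHom_apply, map_zpow]
    · ext1 l
      show SLm j (Θ l).m = 1
      rw [hm, map_one]
    · obtain ⟨l, hl, -⟩ := (hmp G8 Λ Φ _ _ (T1 (ZMod (p ^ 1))) (T1 (ZMod (p ^ 1)))).1 aa
      obtain ⟨l', hl', -⟩ := (hmp G8 Λ Φ _ _ (T1 (ZMod (p ^ 1))) (T1 (ZMod (p ^ 1)))).1 vv
      have h5 : Qd.map 3 (PadicInt.toZModPow 1) (Q2.W (Θ l) (Θ l') 0) = th 3 (ZMod (p ^ 1)) := by
        rw [← hwm, hΘ', hΘ', hl, hl', T1, hnc1]
        rfl
      have h6 : (Q2.W (Θ l) (Θ l') 0).norm ≠ 0 := by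
        intro h0
        have h7 := ((hnc _ _ (PadicInt.toZModPow (p := p) 1)).1 3 (Q2.W (Θ l) (Θ l') 0)).1
        rw [h5, h0, map_zero, QuadraticAlgebra.norm_def] at h7
        have hnt : Nontrivial (ZMod (p ^ 1)) := by
          rw [pow_one]
          infer_instance
        simp [th] at h7
      refine ⟨l, l', ?_⟩
      intro h8
      apply (hnz p K).1 3 j _ h6
      have h9 := congrFun h8 0
      rw [MonoidHom.comp_apply, MonoidHom.comp_apply, hwm, Pi.zero_apply] at h9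
      exact h9
  · intro k m _ e hEx hk
    have h1 : Units.map (Qd.map 3 (PadicInt.toZModPow k)).toMonoidHom σ =
        (Q2.tH.comp (Φ.toFun _ (T1 (ZMod (p ^ k))))) l₀ := by
      rw [MonoidHom.comp_apply, ← hΘ' k l₀, ← hσl]
      rfl
    rw [h1, ← Φ.nat, T1, tH_Th1, hexu Λ Φ n m e hEx _ _ hk, MonoidHom.comp_apply, hl₀, pw_ofAdd,
      zpow_one]

end Pool.Agent.F8
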