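import Pool.Agent.Lib.MP_305fdd_al.F8.StmA

/-!
# MP_305fdd_al, figure-eight knot group, piece [F8 A2]: `σ` has norm one and is not rational
-/

set_option autoImplicit false

namespace Pool.Agent.F8

open Pool.Agent.MP_305fdd_al Pool.Agent.Lib.MP_305fdd_al Pool.Agent.F2X
open scoped QuadraticAlgebra

private lemma A2_thn (R : Type) [CommRing R] (e : ℤ) : (thu 3 R ^ e).val.norm = 1 := by
  have h1 : Units.map (QuadraticAlgebra.norm : Qd 3 R →* R) (thu 3 R) = 1 := by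
    apply Units.ext
    show QuadraticAlgebra.norm (th 3 R) = 1
    rw [QuadraticAlgebra.norm_def]
    simp [th]
  have h2 : Units.map (QuadraticAlgebra.norm : Qd 3 R →* R) (thu 3 R ^ e) = 1 := by
    rw [map_zpow, h1, one_zpow]
  exact congrArg Units.val h2

private lemma A2_key (hex : S_ex) (Λ : Type) [Group Λ] (Φ : NatBij G8 Λ)
    (n : Λ →* Multiplicative ℤ) (hn : IsAb n) (p : ℕ) [Fact p.Prime] (σ : (Qd 3 ℤ_[p])ˣ)
    (hσ : Sig Φ n p σ) (k : ℕ) : ∃ (m : ℕ) (e : ℤ), IsCoprime e (m : ℤ) ∧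
      thu 3 (ZMod (p ^ k)) ^ m = 1 ∧
      Units.map (Qd.map 3 (PadicInt.toZModPow k)).toMonoidHom σ = thu 3 (ZMod (p ^ k)) ^ e := by
  have hm : Nat.card (Qd 3 (ZMod (p ^ k)))ˣ ≠ 0 := Nat.card_pos.ne'
  have : NeZero (Nat.card (Qd 3 (ZMod (p ^ k)))ˣ) := ⟨hm⟩
  obtain ⟨e, he1, he2⟩ := hex Λ Φ n hn (Nat.card (Qd 3 (ZMod (p ^ k)))ˣ)
  have h1 : thu 3 (ZMod (p ^ k)) ^ Nat.card (Qd 3 (ZMod (p ^ k)))ˣ = 1 := pow_card_eq_one'
  exact ⟨_, e, he2, h1, hσ.red k _ e he1 h1⟩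

theorem pf_A2 (hex : S_ex) (hnc : S_nc) : S_A2 := by
  intro Λ _ Φ n hn p _ σ hσ
  have hnorm : σ.val.norm = 1 := by
    rw [← PadicInt.ext_of_toZModPow]
    intro k
    obtain ⟨m, e, -, -, h⟩ := A2_key hex Λ Φ n hn p σ hσ k
    rw [map_one, ← ((hnc _ _ (PadicInt.toZModPow k)).1 3 σ.val).1]
    have h2 : (Qd.map 3 (PadicInt.toZModPow k) σ.val).norm = (thu 3 (ZMod (p ^ k)) ^ e).val.norm := by
      rw [← h]; rfl
    rw [h2, A2_thn]
  refine ⟨hnorm, ?_⟩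
  intro him
  have hre : σ.val.re * σ.val.re = 1 := by
    rw [QuadraticAlgebra.norm_def, him] at hnorm
    simpa using hnorm
  have hsq : σ ^ 2 = 1 := by
    apply Units.ext
    rw [pow_two, Units.val_mul, Units.val_one]
    apply QuadraticAlgebra.ext
    · rw [QuadraticAlgebra.re_mul, him, hre]
      simp
    · rw [QuadraticAlgebra.im_mul, him]
      simp
  obtain ⟨m, e, ⟨a, b, hab⟩, hm, h⟩ := A2_key hex Λ Φ n hn p σ hσ 1
  have h3 : (thu 3 (ZMod (p ^ 1)) ^ e) ^ 2 = 1 := by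
    rw [← h, ← map_pow, hsq, map_one]
  have h4 : thu 3 (ZMod (p ^ 1)) ^ 2 = 1 := by
    have h5 : ((thu 3 (ZMod (p ^ 1))) ^ (2 : ℤ)) = ((thu 3 (ZMod (p ^ 1)) ^ e) ^ 2) ^ a *
        (thu 3 (ZMod (p ^ 1)) ^ m) ^ (2 * b) := by
      rw [← zpow_natCast _ m, ← zpow_natCast _ 2, ← zpow_mul, ← zpow_mul, ← zpow_mul, ← zpow_add]
      congr 1
      push_cast
      linear_combination (-2) * hab
    rw [h3, hm, one_zpow, one_zpow, one_mul] at h5
    exact_mod_cast h5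
  have h6 : th 3 (ZMod (p ^ 1)) * th 3 (ZMod (p ^ 1)) = 1 := by
    have := congrArg Units.val h4
    rw [pow_two, Units.val_mul, Units.val_one, thu_val] at this
    exact this
  have h7 := congrArg QuadraticAlgebra.re h6
  have h8 := congrArg QuadraticAlgebra.im h6
  simp [th] at h7 h8
  have hnt : Nontrivial (ZMod (p ^ 1)) := by
    rw [pow_one]
    infer_instance
  apply zero_ne_one (α := ZMod (p ^ 1))
  linear_combination (-1) * h8 - h7

end Pool.Agent.F8
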