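import Pool.Agent.Lib.MP_305fdd_al.F8.StmA

/-!
# Figure-eight knot group, piece A3 (two values and their sum)
-/

set_option autoImplicit false

namespace Pool.Agent.F8

theorem pf_A3 : S_A3 := by
  intro K _ _ _ R _ f q hq1 hq2
  obtain ⟨s, hs⟩ := IsAlgClosed.exists_eq_mul_self ((q : K) ^ 2 - 4)
  have h2 : (2 : K) ≠ 0 := two_ne_zero
  have hs0 : s ≠ 0 := by
    rintro rfl
    have h : ((q : K) - 2) * ((q : K) + 2) = 0 := by linear_combination hs
    rcases mul_eq_zero.mp h with h | h
    · apply hq1
      have h' : ((q : ℤ) : K) = ((2 : ℤ) : K) := by push_cast; linear_combination h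
      exact Int.cast_injective h'
    · apply hq2
      have h' : ((q : ℤ) : K) = ((-2 : ℤ) : K) := by push_cast; linear_combination h
      exact Int.cast_injective h'
  have ht1 : ((q : K) + s) / 2 * (((q : K) + s) / 2) = (q : K) * (((q : K) + s) / 2) - 1 := by
    field_simp
    linear_combination -hs
  have ht2 : ((q : K) - s) / 2 * (((q : K) - s) / 2) = (q : K) * (((q : K) - s) / 2) - 1 := by
    field_simp
    linear_combination -hs
  refine ⟨Qd.ev q f _ ht1, Qd.ev q f _ ht2, ?_, ?_, ?_, ?_, ?_, ?_⟩
  · intro x hx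
    rw [Qd.ev_apply, Qd.ev_apply] at hx
    have h : f x.im * s = 0 := by linear_combination hx
    exact (mul_eq_zero.mp h).resolve_right hs0
  · intro x
    rw [Qd.ev_apply, Qd.ev_apply, QuadraticAlgebra.trace_def, map_add, map_mul, map_mul, map_ofNat,
      map_intCast]
    ring
  · intro x
    rw [Qd.ev_apply, Qd.ev_apply, QuadraticAlgebra.norm_def]
    simp only [map_sub, map_add, map_mul, map_neg, map_one, map_intCast]
    linear_combination ((f x.im * f x.im) / 4) * hs
  · intro x
    rw [Qd.ev_apply, Qd.ev_apply, QuadraticAlgebra.re_star, QuadraticAlgebra.im_star]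
    simp only [map_add, map_mul, map_neg, map_intCast]
    ring
  · intro r
    rw [Qd.ev_apply, QuadraticAlgebra.algebraMap_re, QuadraticAlgebra.algebraMap_im, map_zero]
    ring
  · intro r
    rw [Qd.ev_apply, QuadraticAlgebra.algebraMap_re, QuadraticAlgebra.algebraMap_im, map_zero]
    ring

end Pool.Agent.F8
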