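import Pool.Agent.Lib.MP_305fdd_al.F8.StmA

/-!
# MP_305fdd_al, figure-eight knot group, piece [F8 A5]: congruences for the trace
-/

set_option autoImplicit false

namespace Pool.Agent.F8

open Pool.Agent.MP_305fdd_al Pool.Agent.Lib.MP_305fdd_al Pool.Agent.F2X
open scoped QuadraticAlgebra

private lemma A5_thu (q : ℤ) {R S : Type} [CommRing R] [CommRing S] (f : R →+* S) :
    Units.map (Qd.map q f).toMonoidHom (thu q R) = thu q S := by
  apply Units.ext
  exact Qd.map_th q f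

private lemma A5_trace (hnc : S_nc) (R : Type) [CommRing R] (e : ℤ) :
    (thu 3 R ^ e).val.trace = (((thu 3 ℤ ^ e).val.trace : ℤ) : R) := by
  rw [← A5_thu 3 (Int.castRingHom R), ← map_zpow]
  exact ((hnc ℤ R (Int.castRingHom R)).1 3 (thu 3 ℤ ^ e).val).2

theorem pf_A5 (hnc : S_nc) : S_A5 := by
  intro Λ _ Φ n σ hσ a₀ ha M m _ _ e hEx hM
  rw [A5_trace hnc]
  set T : ℤ := (thu 3 ℤ ^ e).val.trace with hT
  rw [ZMod.intCast_eq_intCast_iff_dvd_sub, Int.natCast_dvd, Nat.dvd_iff_prime_pow_dvd_dvd]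
  intro p k hp hpk
  haveI : Fact p.Prime := ⟨hp⟩
  rw [← Int.natCast_dvd, ← ZMod.intCast_eq_intCast_iff_dvd_sub]
  have h1 : thu 3 (ZMod (p ^ k)) ^ m = 1 := by
    rw [← A5_thu 3 (ZMod.castHom hpk (ZMod (p ^ k))), ← map_pow, hM, map_one]
  have h2 := (hσ p).red k m e hEx h1
  have h3 : (Qd.map 3 (PadicInt.toZModPow k) (σ p).val).trace =
      (thu 3 (ZMod (p ^ k)) ^ e).val.trace := by
    rw [← h2]; rfl
  rw [((hnc _ _ (PadicInt.toZModPow k)).1 3 (σ p).val).2, ← ha p, map_intCast,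
    A5_trace hnc] at h3
  exact h3

end Pool.Agent.F8
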