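import Pool.Agent.Lib.MP_305fdd_al.F8.StmA

/-!
# [F8 A6] the exponents are `±1`
-/

set_option autoImplicit false

namespace Pool.Agent.F8

open Pool.Agent.MP_305fdd_al Pool.Agent.Lib.MP_305fdd_al Pool.Agent.F2X

/-- one modulus: `LL k = a₀` -/
private theorem A6_one (hf1 : S_f1) (hf2 : S_f2) (hf3 : S_f3) (a₀ : ℤ) (e : ℕ → ℤ)
    (hcop : ∀ m : ℕ, 0 < m → IsCoprime (e m) (m : ℤ))
    (htr : ∀ M m : ℕ, 0 < M → 0 < m → thu 3 (ZMod M) ^ m = 1 →
      (a₀ : ZMod M) = (thu 3 (ZMod M) ^ (e m)).val.trace)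
    (i : ℕ) (hi : |a₀| < ff i) :
    ∃ k : ℕ, 0 < k ∧ IsCoprime (k : ℤ) (2 * ((i + 2 : ℕ) : ℤ)) ∧
      ((2 * ((i + 2 : ℕ) : ℤ)) ∣ e (2 * (i + 2)) - k ∨ (2 * ((i + 2 : ℕ) : ℤ)) ∣ e (2 * (i + 2)) + k) ∧
      LL k = a₀ := by
  obtain ⟨-, -, -, -, hmono, hge, hLmono, hLpos, hLf⟩ := hf1
  have hM : ((ff (i + 2)).toNat : ℤ) = ff (i + 2) := by
    apply Int.toNat_of_nonneg
    have := hge (i + 2)
    have h0 : (0 : ℤ) ≤ ((i + 2 : ℕ) : ℤ) := Int.natCast_nonneg _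
    omega
  have hMpos : 0 < (ff (i + 2)).toNat := by
    have := hge (i + 2)
    push_cast at this
    omega
  have h1 : thu 3 (ZMod (ff (i + 2)).toNat) ^ (2 * (i + 2)) = 1 := hf2 (i + 2) _ (by omega) hM
  have hc := hcop (2 * (i + 2)) (by omega)
  have hc' : IsCoprime (e (2 * (i + 2))) (2 * ((i + 2 : ℕ) : ℤ)) := by
    push_cast at hc ⊢
    exact hc
  obtain ⟨k, hk0, hkj, hkc, hkd, hkt⟩ := hf3 (i + 2) _ (e (2 * (i + 2))) (by omega) hM hc'
  refine ⟨k, hk0, hkc, hkd, ?_⟩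
  have h2 := htr _ (2 * (i + 2)) hMpos (by omega) h1
  rw [hkt, ZMod.intCast_eq_intCast_iff_dvd_sub, hM] at h2
  have hst : StrictMono fun n : ℕ => LL (n : ℤ) := by
    refine strictMono_nat_of_lt_succ fun n => ?_
    have := hLmono n
    push_cast
    exact this
  have hle : LL (k : ℤ) ≤ LL ((i : ℤ) + 1) := by
    have hki : k ≤ i + 1 := by omega
    have := hst.monotone hki
    push_cast at this
    exact this
  have hpos := hLpos k
  rw [hLf i] at hle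
  have hi1 := hmono i
  have hi2 := hmono (i + 1)
  rw [abs_lt] at hi
  have hz : LL (k : ℤ) - a₀ = 0 := by
    refine Int.eq_zero_of_abs_lt_dvd h2 ?_
    rw [abs_lt]
    constructor
    · have : ff (i + 1) < ff (i + 2) := hi2
      omega
    · omega
  omega

/-- [F8 A6] the exponents are `±1`. -/
theorem pf_A6 (hf1 : S_f1) (hf2 : S_f2) (hf3 : S_f3) : S_A6 := by
  intro a₀ e hcop hcomp htr
  have hone := A6_one hf1 hf2 hf3 a₀ e hcop htr
  obtain ⟨-, -, -, -, hmono, hge, hLmono, hLpos, hLf⟩ := hf1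
  have hst : StrictMono fun n : ℕ => LL (n : ℤ) := by
    refine strictMono_nat_of_lt_succ fun n => ?_
    have := hLmono n
    push_cast
    exact this
  let i₀ : ℕ := a₀.natAbs + 1
  have hbig : ∀ i : ℕ, i₀ ≤ i → |a₀| < ff i := by
    intro i hi
    have h1 := hge i
    have h2 : |a₀| = (a₀.natAbs : ℤ) := (Int.natCast_natAbs a₀).symm
    have h3 : a₀.natAbs + 1 ≤ i := hi
    omega
  obtain ⟨k₀, hk0, -, -, hLk⟩ := hone i₀ (hbig i₀ le_rfl)
  have hall : ∀ j : ℕ, i₀ + 2 ≤ j → IsCoprime (k₀ : ℤ) (2 * (j : ℤ)) ∧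
      ((2 * (j : ℤ)) ∣ e (2 * j) - k₀ ∨ (2 * (j : ℤ)) ∣ e (2 * j) + k₀) := by
    intro j hj
    obtain ⟨i, rfl⟩ : ∃ i, j = i + 2 := ⟨j - 2, by omega⟩
    obtain ⟨k, -, hkc, hkd, hL⟩ := hone i (hbig i (by omega))
    have hkk : k = k₀ := hst.injective (by
      rw [hL, hLk])
    subst hkk
    exact ⟨hkc, hkd⟩
  have hk1 : k₀ = 1 := by
    have h1 := (hall (k₀ * (i₀ + 2)) (Nat.le_mul_of_pos_left _ hk0)).1
    have h2 : (k₀ : ℤ) ∣ 2 * ((k₀ * (i₀ + 2) : ℕ) : ℤ) := by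
      refine Dvd.dvd.mul_left ?_ 2
      exact_mod_cast Dvd.intro _ rfl
    have h3 := h1.isUnit_of_dvd' dvd_rfl h2
    rw [Int.isUnit_iff] at h3
    omega
  subst hk1
  have hpm : ∀ m : ℕ, 0 < m → (m : ℤ) ∣ e m - 1 ∨ (m : ℤ) ∣ e m + 1 := by
    intro m hm
    have h1 := (hall (m * (i₀ + 2)) (Nat.le_mul_of_pos_left _ hm)).2
    have h2 := hcomp m (2 * (m * (i₀ + 2))) hm (by positivity)
      (Dvd.dvd.mul_left (Dvd.intro _ rfl) 2)
    have h3 : (m : ℤ) ∣ 2 * ((m * (i₀ + 2) : ℕ) : ℤ) := by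
      refine Dvd.dvd.mul_left ?_ 2
      exact_mod_cast Dvd.intro _ rfl
    rcases h1 with h1 | h1
    · left
      have := dvd_add h2 (h3.trans h1)
      have he : e m - e (2 * (m * (i₀ + 2))) + (e (2 * (m * (i₀ + 2))) - ((1 : ℕ) : ℤ)) = e m - 1 := by
        push_cast
        ring
      rwa [he] at this
    · right
      have := dvd_add h2 (h3.trans h1)
      have he : e m - e (2 * (m * (i₀ + 2))) + (e (2 * (m * (i₀ + 2))) + ((1 : ℕ) : ℤ)) = e m + 1 := by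
        push_cast
        ring
      rwa [he] at this
  by_contra hcon
  rw [not_or] at hcon
  obtain ⟨hc1, hc2⟩ := hcon
  push Not at hc1 hc2
  obtain ⟨m, hm, hm1⟩ := hc1
  obtain ⟨m', hm', hm1'⟩ := hc2
  have hmm : 0 < m * m' := Nat.mul_pos hm hm'
  rcases hpm (m * m') hmm with h | h
  · apply hm1
    have h2 := hcomp m (m * m') hm hmm (Dvd.intro _ rfl)
    have h3 : (m : ℤ) ∣ ((m * m' : ℕ) : ℤ) := by
      exact_mod_cast Dvd.intro _ rfl
    have := dvd_add h2 (h3.trans h)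
    have he : e m - e (m * m') + (e (m * m') - 1) = e m - 1 := by ring
    rwa [he] at this
  · apply hm1'
    have h2 := hcomp m' (m * m') hm' hmm (Dvd.intro_left _ rfl)
    have h3 : (m' : ℤ) ∣ ((m * m' : ℕ) : ℤ) := by
      exact_mod_cast Dvd.intro_left _ rfl
    have := dvd_add h2 (h3.trans h)
    have he : e m' - e (m * m') + (e (m * m') + 1) = e m' + 1 := by ring
    rwa [he] at this

end Pool.Agent.F8
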