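import Pool.Agent.Lib.MP_305fdd_al.F8.StmB

/-!
# MP_305fdd_al, figure-eight knot group, piece [F8 B]: the main result of part B
-/

set_option autoImplicit false

namespace Pool.Agent.F8

open Pool.Agent.MP_305fdd_al Pool.Agent.Lib.MP_305fdd_al Pool.Agent.F2X
open scoped QuadraticAlgebra

theorem pf_B (hBc : S_Bc) (hwm : S_wm) : S_B := by
  intro K _ Θ τ h1 hI hN
  let f : K →+* AlgebraicClosure K := algebraMap K (AlgebraicClosure K)
  have hf : Function.Injective f := f.injective
  have hch : ∀ g, ch ((Q2.map f).comp Θ) g = f (ch Θ g) := by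
    intro g
    exact tr_map f (Θ g).m
  have h1' : Q2.tH.comp ((Q2.map f).comp Θ) = (pw (Units.map f.toMonoidHom τ)).comp n8 := by
    ext1 g
    have h2 := DFunLike.congr_fun h1 g
    simp only [MonoidHom.comp_apply, Q2.tH_apply, zpowersHom_apply] at h2
    show Units.map f.toMonoidHom (Θ g).t = zpowersHom _ (Units.map f.toMonoidHom τ) (n8 g)
    rw [h2, zpowersHom_apply, map_zpow]
  have hI' : Irr (Q2.mH.comp ((Q2.map f).comp Θ)) := by
    obtain ⟨g, h, hgh⟩ := hI
    refine ⟨g, h, ?_⟩
    intro h3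
    apply hgh
    apply hf
    rw [map_ofNat, ← h3]
    exact (hch (g * h * g⁻¹ * h⁻¹)).symm
  have hN' : NC ((Q2.map f).comp Θ) := by
    obtain ⟨g, h, hgh⟩ := hN
    refine ⟨g, h, ?_⟩
    intro h3
    apply hgh
    funext i
    apply hf
    rw [← hwm K (AlgebraicClosure K) f (Θ g) (Θ h) i]
    have h4 := congrFun h3 i
    rw [Pi.zero_apply, map_zero]
    exact h4
  obtain ⟨r1, r2⟩ := hBc (AlgebraicClosure K) ((Q2.map f).comp Θ) (Units.map f.toMonoidHom τ)
    h1' hI' hN'
  rw [hch, hch] at r2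
  rw [hch] at r1
  have hτ : (Units.map f.toMonoidHom τ).val = f τ.val := rfl
  rw [hτ] at r1
  have e2 : f 2 = 2 := map_ofNat f 2
  have e5 : f 5 = 5 := map_ofNat f 5
  constructor
  · apply hf
    rw [map_zero, ← r1]
    simp only [map_add, map_sub, map_mul, map_one, e2]
  · apply hf
    rw [map_zero, ← r2]
    simp only [map_add, map_sub, map_mul, e2, e5]

end Pool.Agent.F8
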