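import Pool.Agent.Lib.MP_305fdd_al.F8.StmB

/-!
# MP_305fdd_al, figure-eight knot group: piece B1 (helper83)
-/

set_option autoImplicit false

namespace Pool.Agent.F8

open Pool.Agent.MP_305fdd_al Pool.Agent.Lib.MP_305fdd_al Pool.Agent.F2X
open scoped QuadraticAlgebra

/-- a subgroup of `G8` containing `u, v, a` is everything -/
theorem B1_top (H : Subgroup G8) (hu : uu ∈ H) (hv : vv ∈ H) (ha : aa ∈ H) (g : G8) : g ∈ H := by
  let f : G8 →* H := lift8 (⟨uu, hu⟩ : H) ⟨vv, hv⟩ ⟨aa, ha⟩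
    (Subtype.ext aa_uu) (Subtype.ext aa_vv)
  have h : H.subtype.comp f = MonoidHom.id G8 := by
    apply hom8_ext
    · show H.subtype (f uu) = uu
      rw [show f uu = (⟨uu, hu⟩ : H) from lift8_uu _ _]; rfl
    · show H.subtype (f vv) = vv
      rw [show f vv = (⟨vv, hv⟩ : H) from lift8_vv _ _]; rfl
    · show H.subtype (f aa) = aa
      rw [show f aa = (⟨aa, ha⟩ : H) from lift8_aa _ _]; rfl
  have h2 : ((f g : H) : G8) = g := DFunLike.congr_fun h g
  rw [← h2]
  exact (f g).2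

/-- translation part of a product if the first matrix is trivial -/
theorem B1_mul_v {K : Type} [CommRing K] (x y : Q2 K) (hx : x.m = 1) (i : Fin 2) :
    (x * y).v i = x.v i + x.t.val * y.v i := by
  rw [Q2.mul_v, hx]
  simp

/-- translation part of the inverse if the matrix is trivial -/
theorem B1_inv_v {K : Type} [CommRing K] (x : Q2 K) (hx : x.m = 1) (i : Fin 2) :
    (x⁻¹).v i = -((x.t⁻¹).val * x.v i) := by
  rw [Q2.inv_v, hx]
  simp

/-- the subgroup of elements with trivial matrix and translation proportional to `x.t - 1` -/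
def B1_H {K : Type} [CommRing K] (p : K) (α : Fin 2 → K) : Subgroup (Q2 K) where
  carrier := {x | x.m = 1 ∧ ∀ i, (p - 1) * x.v i = (x.t.val - 1) * α i}
  one_mem' := ⟨rfl, by intro i; simp⟩
  mul_mem' := by
    rintro x y ⟨hx, hx'⟩ ⟨hy, hy'⟩
    refine ⟨by rw [Q2.mul_m, hx, hy, one_mul], ?_⟩
    intro i
    rw [B1_mul_v x y hx, Q2.mul_t, Units.val_mul]
    linear_combination hx' i + x.t.val * hy' i
  inv_mem' := by
    rintro x ⟨hx, hx'⟩
    refine ⟨by rw [Q2.inv_m, hx, inv_one], ?_⟩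
    intro i
    rw [B1_inv_v x hx, Q2.inv_t]
    have h : (x.t⁻¹).val * x.t.val = 1 := by rw [← Units.val_mul, inv_mul_cancel, Units.val_one]
    linear_combination (-(x.t⁻¹).val) * hx' i - α i * h

/-- the obstruction for elements with trivial matrix part -/
theorem B1_W {K : Type} [CommRing K] (x y : Q2 K) (hx : x.m = 1) (hy : y.m = 1) (i : Fin 2) :
    Q2.W x y i = (x.t.val - 1) * (x.t.val - 1) * y.v i - (y.t.val - 1) * (x.t.val - 1) * x.v i := by
  have h : ∀ z : Q2 K, z.m = 1 → Q2.X z = !![z.t.val - 1, 0; 0, z.t.val - 1] := by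
    intro z hz
    unfold Q2.X
    rw [hz]
    ext i j
    fin_cases i <;> fin_cases j <;> simp
  unfold Q2.W
  rw [h x hx, h y hy, Matrix.det_fin_two_of, Matrix.adjugate_fin_two_of, mulVec2, mulVec2]
  fin_cases i
  · simp
    ring
  · simp
    ring

theorem pf_B1 : S_B1 := by
  intro K _ τ
  rintro ⟨Θ, ht, hm, g, h, hgh⟩
  by_contra hτ
  apply hgh
  have hT : ∀ g : G8, (Θ g).t = pw τ (n8 g) := fun g => DFunLike.congr_fun ht g
  have hM : ∀ g : G8, (Θ g).m = 1 := fun g => DFunLike.congr_fun hm g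
  have tu : (Θ uu).t = 1 := by rw [hT, n8_uu, map_one]
  have tv : (Θ vv).t = 1 := by rw [hT, n8_vv, map_one]
  have ta : (Θ aa).t = τ := by rw [hT, n8_aa, pw_ofAdd, zpow_one]
  have r1 : Θ aa * Θ vv = Θ uu * Θ aa := by
    rw [← map_mul, ← map_mul]
    exact congrArg Θ (mul_inv_eq_iff_eq_mul.1 aa_vv)
  have r2 : Θ aa * Θ uu = Θ uu * ((Θ vv)⁻¹ * (Θ uu * (Θ uu * Θ aa))) := by
    rw [← map_inv, ← map_mul, ← map_mul, ← map_mul, ← map_mul, ← map_mul]
    have h1 := mul_inv_eq_iff_eq_mul.1 aa_uu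
    exact congrArg Θ (by rw [h1]; group)
  have e1 : ∀ i, (Θ aa).v i + τ.val * (Θ vv).v i = (Θ uu).v i + (Θ aa).v i := by
    intro i
    have := congrFun (congrArg Q2.v r1) i
    rw [B1_mul_v _ _ (hM _), B1_mul_v _ _ (hM _), ta, tu, Units.val_one, one_mul] at this
    exact this
  have e2 : ∀ i, (Θ aa).v i + τ.val * (Θ uu).v i =
      3 * (Θ uu).v i - (Θ vv).v i + (Θ aa).v i := by
    intro i
    have := congrFun (congrArg Q2.v r2) i
    rw [B1_mul_v _ _ (hM _), B1_mul_v _ _ (hM _), B1_mul_v _ _ (by rw [Q2.inv_m, hM, inv_one]),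
      B1_mul_v _ _ (hM _), B1_mul_v _ _ (hM _), B1_inv_v _ (hM _), Q2.inv_t, ta, tu, tv, inv_one,
      Units.val_one] at this
    linear_combination this
  have hq : τ.val * τ.val - 3 * τ.val + 1 ≠ 0 := by
    intro h0
    apply hτ
    linear_combination h0
  have v0 : ∀ i, (Θ vv).v i = 0 := by
    intro i
    have h0 : (τ.val * τ.val - 3 * τ.val + 1) * (Θ vv).v i = 0 := by
      linear_combination (τ.val - 3) * e1 i + e2 i
    rcases mul_eq_zero.1 h0 with h1 | h1
    · exact absurd h1 hq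
    · exact h1
  have u0 : ∀ i, (Θ uu).v i = 0 := by
    intro i
    have := e1 i
    rw [v0 i] at this
    linear_combination -this
  let H : Subgroup G8 := (B1_H τ.val (Θ aa).v).comap Θ
  have huH : uu ∈ H := ⟨hM _, by intro i; rw [u0, tu, Units.val_one]; ring⟩
  have hvH : vv ∈ H := ⟨hM _, by intro i; rw [v0, tv, Units.val_one]; ring⟩
  have haH : aa ∈ H := ⟨hM _, by intro i; rw [ta]⟩
  have key : ∀ (g : G8) (i : Fin 2), (τ.val - 1) * (Θ g).v i = ((Θ g).t.val - 1) * (Θ aa).v i :=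
    fun g => (B1_top H huH hvH haH g).2
  ext i
  rw [B1_W _ _ (hM _) (hM _), Pi.zero_apply]
  by_cases h1 : τ = 1
  · have h2 : ∀ g : G8, (Θ g).t = 1 := by
      intro g
      rw [hT, h1, zpowersHom_apply, one_zpow]
    rw [h2, h2, Units.val_one]
    ring
  · have h2 : τ.val - 1 ≠ 0 := by
      intro h3
      apply h1
      apply Units.ext
      rw [Units.val_one]
      linear_combination h3
    have h4 : (τ.val - 1) * (((Θ g).t.val - 1) * ((Θ g).t.val - 1) * (Θ h).v i -
        ((Θ h).t.val - 1) * ((Θ g).t.val - 1) * (Θ g).v i) = 0 := by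
      linear_combination (((Θ g).t.val - 1) * ((Θ g).t.val - 1)) * key h i -
        (((Θ h).t.val - 1) * ((Θ g).t.val - 1)) * key g i
    rcases mul_eq_zero.1 h4 with h5 | h5
    · exact absurd h5 h2
    · exact h5

end Pool.Agent.F8
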