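import Pool.Agent.Lib.MP_305fdd_al.F8.StmD

set_option autoImplicit false

namespace Pool.Agent.F8

open Pool.Agent.MP_305fdd_al Pool.Agent.Lib.MP_305fdd_al Pool.Agent.F2X
open scoped QuadraticAlgebra

private theorem D_root (K : Type) [Field K] [IsAlgClosed K] [CharZero K] :
    ∃ w : K, w * w = ((-1 : ℤ) : K) * w - 1 := by
  obtain ⟨s, hs⟩ := IsAlgClosed.exists_eq_mul_self (-3 : K)
  refine ⟨(s - 1) / 2, ?_⟩
  push_cast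
  field_simp
  linear_combination -hs

private theorem D_disc {R : Type} [CommRing R] (z : Es R) :
    z.trace * z.trace - 4 * z.norm = -3 * (z.im * z.im) := by
  rw [QuadraticAlgebra.norm_def, QuadraticAlgebra.trace]
  push_cast
  simp
  ring

private theorem D_red {Λ : Type} [Group Λ] {Φ : NatBij G8 Λ} {n : Λ →* Multiplicative ℤ} {p : ℕ}
    [Fact p.Prime] {Θ : Λ →* Q2 (E4 ℤ_[p])} {r : Λ →* SL2 (Es ℤ_[p])} (hD : Dat Φ n p Θ r)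
    (k : ℕ) (g : Λ) (x : O) (hx : tr (r g) = Qd.map (-1) (Int.castRingHom ℤ_[p]) x) :
    Qd.map (-1) (Int.castRingHom (ZMod (p ^ k))) x = tr (Φ.toFun _ (r8 (ZMod (p ^ k))) g) := by
  rw [← hD.red k]
  show _ = tr (SLm (Qd.map (-1) (PadicInt.toZModPow k)) (r g))
  rw [tr_map, hx]
  rw [Qd.map_apply, Qd.map_apply, Qd.map_apply]
  simp

theorem pf_D (hD1 : S_D1) (hD2 : S_D2) (hD4 : S_D4) (hD5 : S_D5) (hD6 : S_D6) (hsq : S_sq)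
    (hq1 : S_q1) : S_D := by
  intro Λ _ _ Φ n hn hE
  obtain ⟨w, hw⟩ := D_root (AlgebraicClosure ℚ)
  have hG : Good2 n (AlgebraicClosure ℚ) 2 := by
    obtain ⟨Θ, r, hD⟩ := hD1 Λ Φ n hn hE 2
    obtain ⟨j₁, j₂, B₁, B₂, hJ, hB1, hB2, hc1, hc2, hneB⟩ := hD2 Λ Φ n 2 Θ r hD
    refine ((hq1 (Fl 2) Λ n 2 hn).2 ⟨![B₁, B₂], ?_, ?_⟩).2
    · intro i
      fin_cases i
      · exact hB1
      · exact hB2
    · intro i j hij
      obtain ⟨g, hg⟩ := hneB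
      refine ⟨g, ?_⟩
      fin_cases i <;> fin_cases j
      · exact absurd rfl hij
      · exact hg
      · exact hg.symm
      · exact absurd rfl hij
  obtain ⟨Ψ, hΨ, hne⟩ := hG
  have hne' := hne 0 1 (by decide)
  have h1 := hΨ 0
  have h2 := hΨ 1
  generalize Ψ 0 = Ψ₁ at *
  generalize Ψ 1 = Ψ₂ at *
  have hval : ∀ l : Λ, ∃ T : O, ch Ψ₁ l = ev0 w hw T ∧ ch Ψ₂ l = ev0 w hw (star T) := by
    intro l
    obtain ⟨S, P, hS, hP, hp⟩ := hD4 Λ Φ n hn hE Ψ₁ Ψ₂ h1 h2 hne' l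
    have hm : ∃ m : ℤ, S * S - 4 * P = -3 * (m * m) := by
      apply hsq
      intro p _
      obtain ⟨Θ, r, hD⟩ := hD1 Λ Φ n hn hE p
      obtain ⟨hp1, hp2⟩ := hp p Θ r hD
      refine ⟨(tr (r l)).im, ?_⟩
      rw [← D_disc, ← hp1, ← hp2]
      push_cast
      ring
    obtain ⟨m, hm⟩ := hm
    exact hD5 (AlgebraicClosure ℚ) w hw _ _ S P m hS hP hm
  choose T hT using hval
  have hfin : ∀ (Ψ₁ Ψ₂ : Λ →* Q2 (AlgebraicClosure ℚ)) (T : Λ → O), P2 n _ Ψ₁ → P2 n _ Ψ₂ →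
      (∃ g, ch Ψ₁ g ≠ ch Ψ₂ g) →
      (∀ g, ch Ψ₁ g = ev0 w hw (T g) ∧ ch Ψ₂ g = ev0 w hw (star (T g))) →
      (∃ (Θ : Λ →* Q2 (E4 ℤ_[2])) (r : Λ →* SL2 (Es ℤ_[2])), Dat Φ n 2 Θ r ∧
        ∀ g, tr (r g) = Qd.map (-1) (Int.castRingHom ℤ_[2]) (T g)) →
      Out Φ T (Q2.mH.comp Ψ₁) w hw := by
    intro Ψ₁ Ψ₂ T h1 h2 hne hT h22
    refine ⟨fun g => (hT g).1, h1.2.1, ?_⟩
    intro p _
    by_cases hp : p = 2
    · subst hp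
      obtain ⟨Θ, r, hD, hr⟩ := h22
      exact ⟨false, fun _ => rfl, fun k g => D_red hD k g _ (hr g)⟩
    · obtain ⟨Θ, r, hD⟩ := hD1 Λ Φ n hn hE p
      rcases hD6 Λ Φ n hn hE Ψ₁ Ψ₂ h1 h2 hne w hw T hT p Θ r hD with h | h
      · exact ⟨false, fun _ => rfl, fun k g => D_red hD k g _ (h g)⟩
      · exact ⟨true, fun h => absurd h hp, fun k g => D_red hD k g _ (h g)⟩
  obtain ⟨Θ, r, hD⟩ := hD1 Λ Φ n hn hE 2
  rcases hD6 Λ Φ n hn hE Ψ₁ Ψ₂ h1 h2 hne' w hw T hT 2 Θ r hD with h | h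
  · exact ⟨T, _, w, hw, hfin Ψ₁ Ψ₂ T h1 h2 hne' hT ⟨Θ, r, hD, h⟩⟩
  · refine ⟨fun g => star (T g), _, w, hw, hfin Ψ₂ Ψ₁ (fun g => star (T g)) h2 h1 ?_ ?_
      ⟨Θ, r, hD, h⟩⟩
    · obtain ⟨g, hg⟩ := hne'
      exact ⟨g, hg.symm⟩
    · intro g
      rw [star_star]
      exact ⟨(hT g).2, (hT g).1⟩

end Pool.Agent.F8
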