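import Pool.Agent.Lib.MP_305fdd_al.F8.StmD

/-!
# MP_305fdd_al, figure-eight knot group, piece [F8 D1]: existence of the `p`-adic data
-/

set_option autoImplicit false

namespace Pool.Agent.F8

open Pool.Agent.MP_305fdd_al Pool.Agent.Lib.MP_305fdd_al Pool.Agent.F2X
open scoped QuadraticAlgebra

noncomputable section

private theorem D1_E4m_apply {R S : Type} [CommRing R] [CommRing S] (f : R →+* S) (z : E4 R) :
    E4m f z = ⟨⟨f z.re.re, f z.re.im⟩, ⟨f z.im.re, f z.im.im⟩⟩ := rfl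

/-- elements of `E4 ℤ_p` are determined by their reductions -/
private theorem D1_ext (p : ℕ) [Fact p.Prime] (x y : E4 ℤ_[p])
    (h : ∀ k : ℕ, E4m (PadicInt.toZModPow k) x = E4m (PadicInt.toZModPow k) y) : x = y := by
  have h1 : ∀ k : ℕ, PadicInt.toZModPow k x.re.re = PadicInt.toZModPow k y.re.re := fun k => by
    have := h k
    rw [D1_E4m_apply, D1_E4m_apply] at this
    exact congrArg (fun z : E4 (ZMod (p ^ k)) => z.re.re) this
  have h2 : ∀ k : ℕ, PadicInt.toZModPow k x.re.im = PadicInt.toZModPow k y.re.im := fun k => by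
    have := h k
    rw [D1_E4m_apply, D1_E4m_apply] at this
    exact congrArg (fun z : E4 (ZMod (p ^ k)) => z.re.im) this
  have h3 : ∀ k : ℕ, PadicInt.toZModPow k x.im.re = PadicInt.toZModPow k y.im.re := fun k => by
    have := h k
    rw [D1_E4m_apply, D1_E4m_apply] at this
    exact congrArg (fun z : E4 (ZMod (p ^ k)) => z.im.re) this
  have h4 : ∀ k : ℕ, PadicInt.toZModPow k x.im.im = PadicInt.toZModPow k y.im.im := fun k => by
    have := h k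
    rw [D1_E4m_apply, D1_E4m_apply] at this
    exact congrArg (fun z : E4 (ZMod (p ^ k)) => z.im.im) this
  apply QuadraticAlgebra.ext
  · apply QuadraticAlgebra.ext
    · exact PadicInt.ext_of_toZModPow.1 h1
    · exact PadicInt.ext_of_toZModPow.1 h2
  · apply QuadraticAlgebra.ext
    · exact PadicInt.ext_of_toZModPow.1 h3
    · exact PadicInt.ext_of_toZModPow.1 h4

/-- the generator and base change -/
private theorem D1_thu {R S : Type} [CommRing R] [CommRing S] (f : R →+* S) :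
    Units.map (E4m f).toMonoidHom (thu 4 (Es R)) = thu 4 (Es S) := by
  apply Units.ext
  exact Qd.map_th 4 (Qd.map (-1) f)

/-- the scalar part -/
private theorem D1_scal (hexu : S_exu) (hmt : S_mt) (Λ : Type) [Group Λ] (Φ : NatBij G8 Λ)
    (n : Λ →* Multiplicative ℤ) (hE : ∀ (m : ℕ) [NeZero m], Ex Φ n m 1) (p : ℕ) [Fact p.Prime]
    (Θ : Λ →* Q2 (E4 ℤ_[p]))
    (hΘ : ∀ k : ℕ,
      (Q2.map (E4m (PadicInt.toZModPow k))).comp Θ = Φ.toFun _ (T2 (ZMod (p ^ k)))) :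
    Q2.tH.comp Θ = (pw (thu 4 (Es ℤ_[p]))).comp n := by
  apply MonoidHom.ext
  intro g
  apply Units.ext
  apply D1_ext
  intro k
  have h1 : Q2.tH.comp (Φ.toFun _ (T2 (ZMod (p ^ k)))) =
      Φ.toFun _ (Q2.tH.comp (T2 (ZMod (p ^ k)))) := (hmt G8 Λ Φ _ (T2 (ZMod (p ^ k)))).1
  have h2 : Q2.tH.comp (T2 (ZMod (p ^ k))) = (pw (thu 4 (Es (ZMod (p ^ k))))).comp n8 :=
    tH_Th0 _ _ _ _
  have hne : NeZero (Nat.card (E4 (ZMod (p ^ k)))ˣ) := ⟨Nat.card_pos.ne'⟩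
  have h3 := hexu Λ Φ n (Nat.card (E4 (ZMod (p ^ k)))ˣ) 1 (hE _) (E4 (ZMod (p ^ k)))ˣ
    (thu 4 (Es (ZMod (p ^ k)))) pow_card_eq_one'
  rw [h2, h3, zpow_one, ← hΘ k] at h1
  have h4 : Units.map (E4m (PadicInt.toZModPow k)).toMonoidHom (Θ g).t =
      (pw (thu 4 (Es (ZMod (p ^ k))))) (n g) := DFunLike.congr_fun h1 g
  have h5 : Units.map (E4m (PadicInt.toZModPow k)).toMonoidHom
      (pw (thu 4 (Es ℤ_[p])) (n g)) = (pw (thu 4 (Es (ZMod (p ^ k))))) (n g) := by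
    rw [zpowersHom_apply, zpowersHom_apply, map_zpow, D1_thu]
  have h6 := h4.trans h5.symm
  exact congrArg Units.val h6

/-- values of the matched homomorphism -/
private theorem D1_lift {Λ : Type} [Group Λ] (Φ : NatBij G8 Λ) {Q : Type} [Group Q] [Finite Q]
    (θ : G8 →* Q) (g : G8) : ∃ l, Φ.toFun Q θ l = θ g := by
  have h : θ g ∈ (Φ.toFun Q θ).range := by rw [Φ.range_eq]; exact ⟨g, rfl⟩
  exact h

private theorem D1_norm_om (R : Type) [CommRing R] : (om R).norm = 1 := by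
  simp [QuadraticAlgebra.norm_def, th]

private theorem D1_norm36 (R : Type) [CommRing R] :
    (-(w4 R * w4 R * (1 + (thu 4 (Es R)).val))).norm.norm = 36 := by
  have h1 : (w4 R).norm = om R * om R := by
    simp [QuadraticAlgebra.norm_def, w4]
  have h2 : (1 + (thu 4 (Es R)).val).norm = (6 : ℕ) := by
    rw [thu_val]
    simp [QuadraticAlgebra.norm_def, th]
    norm_num
  have h3 : (w4 R * w4 R * (1 + (thu 4 (Es R)).val)).norm =
      om R * om R * (om R * om R) * ((6 : ℕ) : Es R) := by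
    rw [map_mul, map_mul, h1, h2]
  rw [QuadraticAlgebra.norm_neg, h3]
  simp only [map_mul, D1_norm_om, QuadraticAlgebra.norm_natCast]
  norm_num

/-- irreducibility -/
private theorem D1_irr (hir0 : S_ir0) (hnz : S_nz) (hnc : S_nc) (Λ : Type) [Group Λ]
    (Φ : NatBij G8 Λ) (p : ℕ) [Fact p.Prime] (r : Λ →* SL2 (Es ℤ_[p]))
    (hr : ∀ k : ℕ, (SLm (Qd.map (-1) (PadicInt.toZModPow k))).comp r =
      Φ.toFun _ (r8 (ZMod (p ^ k)))) :
    ∃ c c' : Λ, ∀ (K : Type) [Field K] [CharZero K] (f : Es ℤ_[p] →+* K),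
      f (tr (r (c * c' * c⁻¹ * c'⁻¹))) ≠ 2 := by
  obtain ⟨l, hl⟩ := D1_lift Φ (r8 (ZMod (p ^ 1))) aa
  obtain ⟨l', hl'⟩ := D1_lift Φ (r8 (ZMod (p ^ 1))) bb
  refine ⟨l, l', ?_⟩
  intro K _ _ f hf
  have hnt : Nontrivial (ZMod (p ^ 1)) := by
    rw [pow_one]
    exact inferInstance
  have h1 : Qd.map (-1) (PadicInt.toZModPow 1) (tr (r (l * l' * l⁻¹ * l'⁻¹)) - 2) =
      om (ZMod (p ^ 1)) * om (ZMod (p ^ 1)) := by
    rw [map_sub, ← tr_map]
    have h2 : SLm (Qd.map (-1) (PadicInt.toZModPow 1)) (r (l * l' * l⁻¹ * l'⁻¹)) =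
        r8 (ZMod (p ^ 1)) (aa * bb * aa⁻¹ * bb⁻¹) := by
      have h3 := DFunLike.congr_fun (hr 1) (l * l' * l⁻¹ * l'⁻¹)
      rw [MonoidHom.comp_apply] at h3
      rw [h3]
      simp only [map_mul, map_inv, hl, hl']
    rw [h2]
    have h4 := (hir0 (Es (ZMod (p ^ 1))) (om _) (om_eq _)).1
    unfold r8
    rw [h4, map_ofNat]
    ring
  have h5 := ((hnc ℤ_[p] (ZMod (p ^ 1)) (PadicInt.toZModPow 1)).1 (-1)
    (tr (r (l * l' * l⁻¹ * l'⁻¹)) - 2)).1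
  rw [h1, map_mul, D1_norm_om, mul_one] at h5
  have h6 : (tr (r (l * l' * l⁻¹ * l'⁻¹)) - 2).norm ≠ 0 := by
    intro h0
    rw [h0, map_zero] at h5
    exact one_ne_zero h5
  have h7 := (hnz p K).1 (-1) f _ h6
  apply h7
  rw [map_sub, hf, map_ofNat, sub_self]

/-- not a coboundary -/
private theorem D1_NC (hwm : S_wm) (hnc0 : S_nc0) (hnz : S_nz) (hnc : S_nc) (Λ : Type) [Group Λ]
    (Φ : NatBij G8 Λ) (p : ℕ) [Fact p.Prime] (Θ : Λ →* Q2 (E4 ℤ_[p]))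
    (hΘ : ∀ k : ℕ,
      (Q2.map (E4m (PadicInt.toZModPow k))).comp Θ = Φ.toFun _ (T2 (ZMod (p ^ k)))) :
    ∀ (K : Type) [Field K] [CharZero K] (j : E4 ℤ_[p] →+* K), NC ((Q2.map j).comp Θ) := by
  intro K _ _ j
  obtain ⟨l, hl⟩ := D1_lift Φ (T2 (ZMod (p ^ 6))) vv
  obtain ⟨l', hl'⟩ := D1_lift Φ (T2 (ZMod (p ^ 6))) aa
  refine ⟨l, l', ?_⟩
  have h1 : E4m (PadicInt.toZModPow 6) (Q2.W (Θ l) (Θ l') 1) =
      -(w4 (ZMod (p ^ 6)) * w4 (ZMod (p ^ 6)) * (1 + (thu 4 (Es (ZMod (p ^ 6)))).val)) := by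
    rw [← hwm]
    have h2 := DFunLike.congr_fun (hΘ 6) l
    have h3 := DFunLike.congr_fun (hΘ 6) l'
    rw [MonoidHom.comp_apply] at h2 h3
    rw [h2, h3, hl, hl']
    exact hnc0 (E4 (ZMod (p ^ 6))) (w4 _) (w4_eq _) (thu 4 (Es _)) (thu_eq4 _)
  have h5 := (hnc ℤ_[p] (ZMod (p ^ 6)) (PadicInt.toZModPow 6)).2 (Q2.W (Θ l) (Θ l') 1)
  rw [h1, D1_norm36] at h5
  have h6 : (Q2.W (Θ l) (Θ l') 1).norm.norm ≠ 0 := by
    intro h0
    rw [h0, map_zero] at h5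
    have h7 : ((36 : ℕ) : ZMod (p ^ 6)) = 0 := by
      rw [← h5]; norm_num
    rw [ZMod.natCast_eq_zero_iff] at h7
    have h8 := Nat.le_of_dvd (by norm_num) h7
    have h9 : 2 ^ 6 ≤ p ^ 6 := Nat.pow_le_pow_left (Fact.out (p := p.Prime)).two_le 6
    omega
  have h7 := (hnz p K).2 j _ h6
  intro h0
  apply h7
  rw [← hwm]
  exact congrFun h0 1

theorem pf_D1 (hL2 : S_L2) (hexu : S_exu) (hmt : S_mt) (hwm : S_wm) (hnc0 : S_nc0)
    (hir0 : S_ir0) (hnz : S_nz) (hnc : S_nc) (_hlz : S_lz) (_hlq : S_lq) : S_D1 := by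
  intro Λ _ Φ n _ hE p _
  obtain ⟨Θ, r, hmat, hΘ, hr⟩ := hL2 Λ Φ p
  refine ⟨Θ, r, hmat, ?_, hr, ?_⟩
  · intro K _ _ j
    refine ⟨⟨Units.map j.toMonoidHom (thu 4 (Es ℤ_[p])), map_unit_eq0 j (thu_eq4 (Es ℤ_[p])), ?_⟩,
      ?_, D1_NC hwm hnc0 hnz hnc Λ Φ p Θ hΘ K j⟩
    · have hs := D1_scal hexu hmt Λ Φ n hE p Θ hΘ
      apply MonoidHom.ext
      intro g
      have h1 : (Θ g).t = (pw (thu 4 (Es ℤ_[p]))) (n g) := DFunLike.congr_fun hs g
      show Units.map j.toMonoidHom (Θ g).t = (pw _) (n g)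
      rw [h1, zpowersHom_apply, zpowersHom_apply, map_zpow]
    · obtain ⟨c, c', h⟩ := D1_irr hir0 hnz hnc Λ Φ p r hr
      refine ⟨c, c', ?_⟩
      have h1 : (Θ (c * c' * c⁻¹ * c'⁻¹)).m =
          SLm (algebraMap (Es ℤ_[p]) (E4 ℤ_[p])) (r (c * c' * c⁻¹ * c'⁻¹)) :=
        DFunLike.congr_fun hmat _
      show tr (SLm j (Θ (c * c' * c⁻¹ * c'⁻¹)).m) ≠ 2
      rw [h1, tr_map, tr_map]
      exact h K (j.comp (algebraMap (Es ℤ_[p]) (E4 ℤ_[p])))
  · obtain ⟨g, hg⟩ := D1_lift Φ (r8 (ZMod (p ^ 1))) (aa * bb⁻¹)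
    refine ⟨g, ?_⟩
    intro h0
    have hnt : Nontrivial (ZMod (p ^ 1)) := by
      rw [pow_one]
      exact inferInstance
    have h1 : Qd.map (-1) (PadicInt.toZModPow 1) (tr (r g)) = 2 + om (ZMod (p ^ 1)) := by
      rw [← tr_map]
      have h3 := DFunLike.congr_fun (hr 1) g
      rw [MonoidHom.comp_apply] at h3
      rw [h3, hg]
      exact (hir0 (Es (ZMod (p ^ 1))) (om _) (om_eq _)).2.1
    have h2 := congrArg QuadraticAlgebra.im h1
    rw [Qd.map_apply] at h2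
    simp only [h0, map_zero] at h2
    have h4 : (2 + om (ZMod (p ^ 1))).im = 1 := by
      simp [th]
    rw [h4] at h2
    exact zero_ne_one h2

end

end Pool.Agent.F8
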