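import Pool.Agent.Lib.MP_305fdd_al.F8.StmD

/-!
# MP_305fdd_al, figure-eight knot group: [F8 D2], the two `p`-adic representations
-/

set_option autoImplicit false

namespace Pool.Agent.F8

open Pool.Agent.MP_305fdd_al Pool.Agent.Lib.MP_305fdd_al Pool.Agent.F2X
open scoped QuadraticAlgebra

private theorem D2_iz_inj (p : ℕ) [Fact p.Prime] (x : ℤ_[p]) (h : iz p x = 0) : x = 0 := by
  have h1 : algebraMap ℚ_[p] (Fl p) (x : ℚ_[p]) = 0 := h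
  rw [map_eq_zero] at h1
  exact PadicInt.ext h1

private theorem D2_root (p : ℕ) [Fact p.Prime] :
    ∃ t : Fl p, t * t = ((4 : ℤ) : Fl p) * t - 1 := by
  obtain ⟨z, hz⟩ := IsAlgClosed.exists_eq_mul_self (3 : Fl p)
  refine ⟨2 + z, ?_⟩
  push_cast
  linear_combination -hz

private theorem D2_ch {Λ : Type} [Group Λ] {p : ℕ} [Fact p.Prime]
    (Θ : Λ →* Q2 (E4 ℤ_[p])) (r : Λ →* SL2 (Es ℤ_[p]))
    (hmat : Q2.mH.comp Θ = (SLm (algebraMap (Es ℤ_[p]) (E4 ℤ_[p]))).comp r)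
    (j : Es ℤ_[p] →+* Fl p) (t : Fl p) (ht : t * t = ((4 : ℤ) : Fl p) * t - 1) (g : Λ) :
    ch ((Q2.map (Qd.ev 4 j t ht)).comp Θ) g = j (tr (r g)) := by
  have h1 : (Θ g).m = SLm (algebraMap (Es ℤ_[p]) (E4 ℤ_[p])) (r g) := DFunLike.congr_fun hmat g
  have h2 : ch ((Q2.map (Qd.ev 4 j t ht)).comp Θ) g = tr (SLm (Qd.ev 4 j t ht) (Θ g).m) := rfl
  rw [h2, h1, tr_map, tr_map, Qd.ev_apply]
  simp

/-- [F8 D2] the two `p`-adic representations. -/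
theorem pf_D2 (hA3 : S_A3) (_hP2m : S_P2m) : S_D2 := by
  intro Λ _ Φ n p _ Θ r hD
  obtain ⟨j₁, j₂, h1, h2, h3, h4, h5, h6⟩ :=
    hA3 (Fl p) ℤ_[p] (iz p) (-1) (by norm_num) (by norm_num)
  obtain ⟨t, ht⟩ := D2_root p
  have c1 := D2_ch Θ r hD.mat j₁ t ht
  have c2 := D2_ch Θ r hD.mat j₂ t ht
  refine ⟨j₁, j₂, (Q2.map (Qd.ev 4 j₁ t ht)).comp Θ, (Q2.map (Qd.ev 4 j₂ t ht)).comp Θ,
    ⟨fun x hx => h1 x (by rw [hx, sub_self]), h2, h3, h4, h5, h6⟩,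
    hD.good (Fl p) (Qd.ev 4 j₁ t ht), hD.good (Fl p) (Qd.ev 4 j₂ t ht), c1, c2, ?_⟩
  obtain ⟨g, hg⟩ := hD.ne
  refine ⟨g, fun h => hg ?_⟩
  rw [c1, c2] at h
  exact D2_iz_inj p _ (h1 _ (by rw [h, sub_self]))

end Pool.Agent.F8
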