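import Pool.Agent.Lib.MP_305fdd_al.F8.StmD

set_option autoImplicit false

namespace Pool.Agent.F8

open Pool.Agent.MP_305fdd_al Pool.Agent.Lib.MP_305fdd_al Pool.Agent.F2X

theorem pf_D3 : S_D3 := by
  intro Λ _ n K _ hG A₁ A₂ B₁ B₂ hA1 hA2 hB1 hB2 hA hB
  have key : ∀ B : Λ →* Q2 K, P2 n K B → (∀ g, ch B g = ch A₁ g) ∨ (∀ g, ch B g = ch A₂ g) := by
    intro B hB
    by_contra hcon
    push Not at hcon
    obtain ⟨⟨g1, h1⟩, ⟨g2, h2⟩⟩ := hcon
    obtain ⟨g0, h0⟩ := hA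
    apply hG
    refine ⟨![A₁, A₂, B], ?_, ?_⟩
    · intro i
      fin_cases i
      · exact hA1
      · exact hA2
      · exact hB
    · intro i j hij
      fin_cases i <;> fin_cases j
      · exact absurd rfl hij
      · exact ⟨g0, h0⟩
      · exact ⟨g1, fun h => h1 h.symm⟩
      · exact ⟨g0, fun h => h0 h.symm⟩
      · exact absurd rfl hij
      · exact ⟨g2, fun h => h2 h.symm⟩
      · exact ⟨g1, h1⟩
      · exact ⟨g2, h2⟩
      · exact absurd rfl hij
  obtain ⟨g, hg⟩ := hB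
  rcases key B₁ hB1 with h1 | h1 <;> rcases key B₂ hB2 with h2 | h2
  · exact absurd ((h1 g).trans (h2 g).symm) hg
  · exact Or.inl fun g => ⟨h1 g, h2 g⟩
  · exact Or.inr fun g => ⟨h1 g, h2 g⟩
  · exact absurd ((h1 g).trans (h2 g).symm) hg

end Pool.Agent.F8
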