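import Pool.Agent.Lib.MP_305fdd_al.F8.StmD

/-!
# MP_305fdd_al: piece [F8 D4], sum and product of the two characters are integers
-/

set_option autoImplicit false

namespace Pool.Agent.F8

open Pool.Agent.MP_305fdd_al Pool.Agent.Lib.MP_305fdd_al Pool.Agent.F2X

/-- the embedding of the algebraic closure of `ℚ` -/
private theorem D4_emb (K : Type) [Field K] [CharZero K] [IsAlgClosed K] :
    Nonempty (AlgebraicClosure ℚ →+* K) := by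
  let _ : Algebra ℚ (AlgebraicClosure ℚ) := AlgebraicClosure.instAlgebra ℚ
  have : Algebra.IsAlgebraic ℚ (AlgebraicClosure ℚ) := AlgebraicClosure.isAlgebraic ℚ
  exact ⟨((IsAlgClosed.lift : AlgebraicClosure ℚ →ₐ[ℚ] K) : AlgebraicClosure ℚ →+* K)⟩

/-- the pair of characters over `AlgebraicClosure ℚ` is mapped to any pair over a field `K` -/
private theorem D4_pair (hu2 : S_u2) (hD3 : S_D3) (hP2m : S_P2m) (Λ : Type) [Group Λ] [Group.FG Λ]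
    (Φ : NatBij G8 Λ) (n : Λ →* Multiplicative ℤ) (hn : Function.Surjective n)
    (hEx : ∀ (m : ℕ) [NeZero m], Ex Φ n m 1) (Ψ₁ Ψ₂ : Λ →* Q2 (AlgebraicClosure ℚ))
    (h₁ : P2 n _ Ψ₁) (h₂ : P2 n _ Ψ₂) (hne : ∃ g, ch Ψ₁ g ≠ ch Ψ₂ g) (K : Type) [Field K]
    [CharZero K] (f : AlgebraicClosure ℚ →+* K) (A₁ A₂ : Λ →* Q2 K) (a₁ : P2 n K A₁)
    (a₂ : P2 n K A₂) (ha : ∃ g, ch A₁ g ≠ ch A₂ g) (l : Λ) :
    f (ch Ψ₁ l + ch Ψ₂ l) = ch A₁ l + ch A₂ l ∧ f (ch Ψ₁ l * ch Ψ₂ l) = ch A₁ l * ch A₂ l := by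
  obtain ⟨b₁, c₁⟩ := hP2m Λ n _ K f Ψ₁ h₁
  obtain ⟨b₂, c₂⟩ := hP2m Λ n _ K f Ψ₂ h₂
  have hb : ∃ g, ch ((Q2.map f).comp Ψ₁) g ≠ ch ((Q2.map f).comp Ψ₂) g := by
    obtain ⟨g, hg⟩ := hne
    refine ⟨g, ?_⟩
    rw [c₁, c₂]
    exact fun h => hg (f.injective h)
  rw [map_add, map_mul, ← c₁ l, ← c₂ l]
  rcases hD3 Λ n K (hu2 Λ Φ n hn hEx K) A₁ A₂ _ _ a₁ a₂ b₁ b₂ ha hb with h | h
  · rw [(h l).1, (h l).2]
    exact ⟨rfl, rfl⟩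
  · rw [(h l).1, (h l).2]
    exact ⟨add_comm _ _, mul_comm _ _⟩

theorem pf_D4 (hu2 : S_u2) (hD3 : S_D3) (hD2 : S_D2) (hP2m : S_P2m) (hgal : S_gal)
    (hint : S_int) (hD1 : S_D1) : S_D4 := by
  intro Λ _ _ Φ n hn hEx Ψ₁ Ψ₂ h₁ h₂ hne l
  -- rationality
  obtain ⟨q, hq⟩ := hgal (ch Ψ₁ l + ch Ψ₂ l) (fun g =>
    (D4_pair hu2 hD3 hP2m Λ Φ n hn hEx Ψ₁ Ψ₂ h₁ h₂ hne _ (g : AlgebraicClosure ℚ →+* _)
      Ψ₁ Ψ₂ h₁ h₂ hne l).1)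
  obtain ⟨q', hq'⟩ := hgal (ch Ψ₁ l * ch Ψ₂ l) (fun g =>
    (D4_pair hu2 hD3 hP2m Λ Φ n hn hEx Ψ₁ Ψ₂ h₁ h₂ hne _ (g : AlgebraicClosure ℚ →+* _)
      Ψ₁ Ψ₂ h₁ h₂ hne l).2)
  -- comparison with the `p`-adic characters
  have key : ∀ (p : ℕ) [Fact p.Prime] (Θ : Λ →* Q2 (E4 ℤ_[p])) (r : Λ →* SL2 (Es ℤ_[p])),
      Dat Φ n p Θ r → (q : ℚ_[p]) = ((tr (r l)).trace : ℤ_[p]) ∧
        (q' : ℚ_[p]) = ((tr (r l)).norm : ℤ_[p]) := by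
    intro p _ Θ r hd
    obtain ⟨j₁, j₂, A₁, A₂, hJ, a₁, a₂, e₁, e₂, ha⟩ := hD2 Λ Φ n p Θ r hd
    obtain ⟨ι⟩ := D4_emb (Fl p)
    obtain ⟨hs, hp⟩ := D4_pair hu2 hD3 hP2m Λ Φ n hn hEx Ψ₁ Ψ₂ h₁ h₂ hne (Fl p) ι A₁ A₂ a₁ a₂ ha l
    rw [hq, e₁, e₂, hJ.sum, eq_ratCast, map_ratCast] at hs
    rw [hq', e₁, e₂, hJ.prod, eq_ratCast, map_ratCast] at hp
    constructor
    · apply (algebraMap ℚ_[p] (Fl p)).injective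
      rw [map_ratCast]
      exact hs
    · apply (algebraMap ℚ_[p] (Fl p)).injective
      rw [map_ratCast]
      exact hp
  obtain ⟨S, hS⟩ := hint q (fun p _ => by
    obtain ⟨Θ, r, hd⟩ := hD1 Λ Φ n hn hEx p
    exact ⟨_, (key p Θ r hd).1⟩)
  obtain ⟨P, hP⟩ := hint q' (fun p _ => by
    obtain ⟨Θ, r, hd⟩ := hD1 Λ Φ n hn hEx p
    exact ⟨_, (key p Θ r hd).2⟩)
  refine ⟨S, P, ?_, ?_, ?_⟩
  · rw [hq, hS, eq_ratCast, Rat.cast_intCast]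
  · rw [hq', hP, eq_ratCast, Rat.cast_intCast]
  · intro p _ Θ r hd
    obtain ⟨k1, k2⟩ := key p Θ r hd
    rw [hS, Rat.cast_intCast] at k1
    rw [hP, Rat.cast_intCast] at k2
    constructor
    · apply Subtype.ext
      rw [PadicInt.coe_intCast]
      exact k1
    · apply Subtype.ext
      rw [PadicInt.coe_intCast]
      exact k2

end Pool.Agent.F8
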