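import Pool.Agent.Lib.MP_305fdd_al.F8.StmD

set_option autoImplicit false

namespace Pool.Agent.F8

open Pool.Agent.MP_305fdd_al Pool.Agent.Lib.MP_305fdd_al Pool.Agent.F2X
open scoped QuadraticAlgebra

private theorem D6_iz_inj (p : ℕ) [Fact p.Prime] : Function.Injective (iz p) := by
  intro x y h
  have h1 : (algebraMap ℚ_[p] (Fl p)) (PadicInt.Coe.ringHom x) =
      (algebraMap ℚ_[p] (Fl p)) (PadicInt.Coe.ringHom y) := h
  have h2 := (algebraMap ℚ_[p] (Fl p)).injective h1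
  exact Subtype.ext h2

private theorem D6_eq_alg {R : Type} [CommRing R] (z : Es R) (h : z.im = 0) :
    z = algebraMap R (Es R) z.re := by
  ext
  · simp
  · simp [h]

private theorem D6_zero {p : ℕ} [Fact p.Prime] {j₁ j₂ : Es ℤ_[p] →+* Fl p}
    (hJ : JJ (iz p) j₁ j₂) (x y : Es ℤ_[p]) (h1 : j₁ x = j₁ y) (h2 : j₂ x = j₂ y) : x = y := by
  have h3 : j₁ (x - y) = 0 := by rw [map_sub, h1, sub_self]
  have h4 : j₂ (x - y) = 0 := by rw [map_sub, h2, sub_self]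
  have h5 : (x - y).im = 0 := by
    apply D6_iz_inj p
    rw [map_zero]
    exact hJ.inj _ (by rw [h3, h4])
  have h6 := D6_eq_alg (x - y) h5
  have h7 : (x - y).re = 0 := by
    apply D6_iz_inj p
    rw [map_zero, ← hJ.al1, ← h6, h3]
  rw [h7, map_zero] at h6
  exact sub_eq_zero.1 h6

private theorem D6_dec {R : Type} [CommRing R] (z : Es R) :
    z = algebraMap R (Es R) z.re + algebraMap R (Es R) z.im * om R := by
  ext <;> simp [th]

private theorem D6_star (R : Type) [CommRing R] (f : ℤ →+* R) (x : O) :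
    Qd.map (-1) f (star x) = star (Qd.map (-1) f x) := by
  rw [Qd.map_apply, Qd.map_apply]
  ext <;> simp

private theorem D6_val {p : ℕ} [Fact p.Prime] {K : Type} [Field K] (ι : K →+* Fl p) (w : K)
    (hw : w * w = ((-1 : ℤ) : K) * w - 1) (j : Es ℤ_[p] →+* Fl p)
    (hj : ∀ r, j (algebraMap _ _ r) = iz p r) (h : ι w = j (om _)) (x : O) :
    ι (ev0 w hw x) = j (Qd.map (-1) (Int.castRingHom ℤ_[p]) x) := by
  unfold ev0
  rw [Qd.ev_apply, D6_dec (Qd.map (-1) (Int.castRingHom ℤ_[p]) x), map_add, map_add, map_mul,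
    map_mul, hj, hj, h, Qd.map_apply]
  simp

private theorem D6_om {p : ℕ} [Fact p.Prime] {j₁ j₂ : Es ℤ_[p] →+* Fl p}
    (hJ : JJ (iz p) j₁ j₂) (z : Fl p) (hz : z * z = ((-1 : ℤ) : Fl p) * z - 1) :
    z = j₁ (om _) ∨ z = j₂ (om _) := by
  have h1 := hJ.sum (om _)
  have h2 := hJ.prod (om _)
  have h3 : (om ℤ_[p]).trace = -1 := by simp [th, QuadraticAlgebra.trace]
  have h4 : (om ℤ_[p]).norm = 1 := by simp [th, QuadraticAlgebra.norm_def]
  rw [h3, map_neg, map_one] at h1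
  rw [h4, map_one] at h2
  have h5 : (z - j₁ (om _)) * (z - j₂ (om _)) = 0 := by
    push_cast at hz
    linear_combination hz - z * h1 + h2
  rcases mul_eq_zero.1 h5 with h | h
  · left; exact sub_eq_zero.1 h
  · right; exact sub_eq_zero.1 h

private theorem D6_lift (K L : Type) [Field K] [Field L] [Algebra K L] [IsAlgClosed L] :
    Nonempty (AlgebraicClosure K →+* L) :=
  ⟨(IsAlgClosed.lift : AlgebraicClosure K →ₐ[K] L).toRingHom⟩

theorem pf_D6 (hD3 : S_D3) (hu2 : S_u2) (hD2 : S_D2) (hP2m : S_P2m) : S_D6 := by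
  intro Λ _ _ Φ n hn hE Ψ₁ Ψ₂ hP1 hP2 hne w hw T hT p _ Θ r hD
  obtain ⟨ι⟩ := D6_lift ℚ (Fl p)
  obtain ⟨j₁, j₂, B₁, B₂, hJ, hB1, hB2, hc1, hc2, hneB⟩ := hD2 Λ Φ n p Θ r hD
  have hA1 := hP2m Λ n _ _ ι Ψ₁ hP1
  have hA2 := hP2m Λ n _ _ ι Ψ₂ hP2
  have hneA : ∃ g, ch ((Q2.map ι).comp Ψ₁) g ≠ ch ((Q2.map ι).comp Ψ₂) g := by
    obtain ⟨g, hg⟩ := hne
    refine ⟨g, ?_⟩
    rw [hA1.2, hA2.2]
    exact fun h => hg (ι.injective h)
  have h3 := hD3 Λ n (Fl p) (hu2 Λ Φ n hn hE (Fl p)) _ _ _ _ hA1.1 hA2.1 hB1 hB2 hneA hneB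
  have hst : ∀ x, j₂ (star x) = j₁ x := by
    intro x
    rw [← hJ.st, star_star]
  have hom : ι w = j₁ (om _) ∨ ι w = j₂ (om _) := by
    apply D6_om hJ
    have := congrArg ι hw
    rw [map_mul, map_sub, map_mul, map_one, map_intCast] at this
    exact this
  rcases h3 with h3 | h3 <;> rcases hom with ho | ho
  · left
    intro g
    have hv := D6_val ι w hw j₁ hJ.al1 ho
    apply D6_zero hJ
    · rw [← hv, ← (hT g).1, ← hA1.2, ← (h3 g).1, hc1]
    · rw [← hJ.st (Qd.map _ _ _), ← D6_star, ← hv, ← (hT g).2, ← hA2.2, ← (h3 g).2, hc2]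
  · right
    intro g
    have hv := D6_val ι w hw j₂ hJ.al2 ho
    apply D6_zero hJ
    · rw [D6_star, hJ.st, ← hv, ← (hT g).1, ← hA1.2, ← (h3 g).1, hc1]
    · rw [← hv, ← (hT g).2, ← hA2.2, ← (h3 g).2, hc2]
  · right
    intro g
    have hv := D6_val ι w hw j₁ hJ.al1 ho
    apply D6_zero hJ
    · rw [← hv, ← (hT g).2, ← hA2.2, ← (h3 g).1, hc1]
    · rw [D6_star, hst, ← hv, ← (hT g).1, ← hA1.2, ← (h3 g).2, hc2]
  · left
    intro g
    have hv := D6_val ι w hw j₂ hJ.al2 ho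
    apply D6_zero hJ
    · rw [← hst (Qd.map _ _ _), ← D6_star, ← hv, ← (hT g).2, ← hA2.2, ← (h3 g).1, hc1]
    · rw [← hv, ← (hT g).1, ← hA1.2, ← (h3 g).2, hc2]

end Pool.Agent.F8
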