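import Pool.Agent.Lib.MP_305fdd_al.F8.StmB

/-!
# MP_305fdd_al, figure-eight knot group: at most two characters with `P2`
-/

set_option autoImplicit false

namespace Pool.Agent.F8

open Pool.Agent.MP_305fdd_al Pool.Agent.Lib.MP_305fdd_al Pool.Agent.F2X
open scoped QuadraticAlgebra

/-- the values of the character at the meridians -/
theorem G2_vals (hB : S_B) {K : Type} [Field K] (h2 : (2 : K) ≠ 0) {Θ : G8 →* Q2 K}
    (h : P2 n8 K Θ) : ch Θ aa = 2 ∧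
    (ch Θ (aa * bb⁻¹) - 2) * (ch Θ (aa * bb⁻¹) - 2) + (ch Θ (aa * bb⁻¹) - 2) + 1 = 0 := by
  obtain ⟨⟨τ, hτ, hsc⟩, hirr, hnc⟩ := h
  obtain ⟨h1, h3⟩ := hB K Θ τ hsc hirr hnc
  have hx : ch Θ aa = 2 := by
    have h4 : (2 * (2 - ch Θ aa)) * τ.val = 0 := by
      linear_combination h1 - hτ
    rcases mul_eq_zero.1 h4 with h5 | h5
    · rcases mul_eq_zero.1 h5 with h6 | h6
      · exact absurd h6 h2
      · exact (sub_eq_zero.1 h6).symm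
    · exact absurd h5 τ.ne_zero
  refine ⟨hx, ?_⟩
  rw [hx] at h3
  linear_combination h3

theorem pf_G2 (hB : S_B) (htab : S_tab) (htg : S_tg) : S_G2 := by
  intro K _ h2 Θ hΘ
  have hv := fun i => G2_vals hB h2 (hΘ i)
  have key : ∃ i j, i ≠ j ∧ ch (Θ i) (aa * bb⁻¹) = ch (Θ j) (aa * bb⁻¹) := by
    by_cases h01 : ch (Θ 0) (aa * bb⁻¹) = ch (Θ 1) (aa * bb⁻¹)
    · exact ⟨0, 1, by decide, h01⟩
    by_cases h02 : ch (Θ 0) (aa * bb⁻¹) = ch (Θ 2) (aa * bb⁻¹)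
    · exact ⟨0, 2, by decide, h02⟩
    refine ⟨1, 2, by decide, ?_⟩
    have e1 : (ch (Θ 0) (aa * bb⁻¹) - ch (Θ 1) (aa * bb⁻¹)) *
        (ch (Θ 0) (aa * bb⁻¹) + ch (Θ 1) (aa * bb⁻¹) - 3) = 0 := by
      linear_combination (hv 0).2 - (hv 1).2
    have e2 : (ch (Θ 0) (aa * bb⁻¹) - ch (Θ 2) (aa * bb⁻¹)) *
        (ch (Θ 0) (aa * bb⁻¹) + ch (Θ 2) (aa * bb⁻¹) - 3) = 0 := by
      linear_combination (hv 0).2 - (hv 2).2
    have f1 := (mul_eq_zero.1 e1).resolve_left (sub_ne_zero.2 h01)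
    have f2 := (mul_eq_zero.1 e2).resolve_left (sub_ne_zero.2 h02)
    linear_combination f1 - f2
  obtain ⟨i, j, hij, he⟩ := key
  refine ⟨i, j, hij, ?_⟩
  have ha : tr ((Q2.mH.comp (Θ i)) aa) = tr ((Q2.mH.comp (Θ j)) aa) := by
    show ch (Θ i) aa = ch (Θ j) aa
    rw [(hv i).1, (hv j).1]
  intro g
  exact htg K (Q2.mH.comp (Θ i)) (Q2.mH.comp (Θ j)) ha
    (by rw [← htab.2 K (Q2.mH.comp (Θ i)), ← htab.2 K (Q2.mH.comp (Θ j))]; exact ha) he g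

end Pool.Agent.F8
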