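import Pool.Agent.Lib.MP_305fdd_al.F8.StmC

set_option autoImplicit false

namespace Pool.Agent.F8

open Pool.Agent.MP_305fdd_al Pool.Agent.Lib.MP_305fdd_al Pool.Agent.F2X
open scoped QuadraticAlgebra

theorem pf_L1 (hlz : S_lz) (hlq : S_lq) (hlh : S_lh) (hmT : S_mT) : S_L1 := by
  intro Λ _ Φ p _
  have hl := hlq 3 ℤ_[p] _ _ _ (hlz p)
  obtain ⟨Θ, hΘ⟩ := hlh (Qd 3 ℤ_[p]) (fun k => Qd 3 (ZMod (p ^ k))) _ _ hl Λ
    (fun k => Φ.toFun _ (T1 (ZMod (p ^ k)))) (by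
      intro k
      show (Q2.map (Qd.map 3 (tz p k))).comp (Φ.toFun _ (T1 (ZMod (p ^ (k + 1))))) =
        Φ.toFun _ (T1 (ZMod (p ^ k)))
      rw [← Φ.nat, (hmT _ _ (tz p k)).1])
  exact ⟨Θ, hΘ⟩

end Pool.Agent.F8
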