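import Pool.Agent.Lib.MP_305fdd_al.F8.StmA

set_option autoImplicit false

namespace Pool.Agent.F8

open Pool.Agent.MP_305fdd_al Pool.Agent.Lib.MP_305fdd_al Pool.Agent.F2X
open scoped QuadraticAlgebra

/-- `P1` and homomorphisms of fields -/
theorem pf_P1m (hwm : S_wm) : S_P1m := by
  intro Λ _ n K K' _ _ f τ h
  obtain ⟨Θ, ht, hm, g, h, hW⟩ := h
  refine ⟨(Q2.map f).comp Θ, ?_, ?_, g, h, ?_⟩
  · ext1 l
    have h1 : (Θ l).t = pw τ (n l) := DFunLike.congr_fun ht l
    show Units.map f.toMonoidHom (Θ l).t = pw (Units.map f.toMonoidHom τ) (n l)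
    rw [h1]
    simp only [zpowersHom_apply, map_zpow]
  · ext1 l
    have h1 : (Θ l).m = 1 := DFunLike.congr_fun hm l
    show SLm f (Θ l).m = 1
    rw [h1, map_one]
  · intro h0
    apply hW
    funext i
    have h1 := hwm K K' f (Θ g) (Θ h) i
    have h2 : Q2.W (Q2.map f (Θ g)) (Q2.map f (Θ h)) = 0 := h0
    rw [h2, Pi.zero_apply] at h1
    rw [Pi.zero_apply]
    exact (map_eq_zero f).1 h1.symm

end Pool.Agent.F8
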