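import Pool.Agent.Lib.MP_305fdd_al.F8.StmA

/-!
# MP_305fdd_al: the figure-eight knot group: piece `P2m`
-/

set_option autoImplicit false

namespace Pool.Agent.F8

open Pool.Agent.MP_305fdd_al Pool.Agent.Lib.MP_305fdd_al Pool.Agent.F2X
open scoped QuadraticAlgebra

private theorem P2m_ch {Λ K K' : Type} [Group Λ] [Field K] [Field K'] (f : K →+* K')
    (Θ : Λ →* Q2 K) (g : Λ) : ch ((Q2.map f).comp Θ) g = f (ch Θ g) := by
  show tr (SLm f (Θ g).m) = f (tr (Θ g).m)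
  exact tr_map f _

theorem pf_P2m (hwm : S_wm) : S_P2m := by
  intro Λ _ n K K' _ _ f Θ h
  refine ⟨⟨?_, ?_, ?_⟩, P2m_ch f Θ⟩
  · obtain ⟨τ, hτ, ht⟩ := h.1
    refine ⟨Units.map f.toMonoidHom τ, map_unit_eq0 f hτ, ?_⟩
    ext1 g
    have h1 : (Θ g).t = pw τ (n g) := DFunLike.congr_fun ht g
    show Units.map f.toMonoidHom (Θ g).t = pw (Units.map f.toMonoidHom τ) (n g)
    rw [h1, zpowersHom_apply, zpowersHom_apply, map_zpow]
  · obtain ⟨g, k, hgk⟩ := h.2.1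
    refine ⟨g, k, fun h2 => hgk ?_⟩
    apply f.injective
    rw [map_ofNat, ← h2]
    exact (P2m_ch f Θ (g * k * g⁻¹ * k⁻¹)).symm
  · obtain ⟨g, k, hgk⟩ := h.2.2
    refine ⟨g, k, fun h2 => hgk ?_⟩
    funext i
    apply f.injective
    have h3 := hwm K K' f (Θ g) (Θ k) i
    have h4 := congrFun h2 i
    rw [Pi.zero_apply, map_zero]
    exact h3.symm.trans h4

end Pool.Agent.F8
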