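import Pool.Agent.Lib.MP_305fdd_al.F8.StmC

/-!
# MP_305fdd_al, [F8 ab8]: the abelianisation of the figure-eight knot group
-/

set_option autoImplicit false

namespace Pool.Agent.F8

open Pool.Agent.MP_305fdd_al Pool.Agent.Lib.MP_305fdd_al Pool.Agent.F2X

theorem pf_ab8 : S_ab8 := by
  refine ⟨fun n => ⟨SemidirectProduct.inr n, rfl⟩, ?_⟩
  intro A _ f g hg
  have h1 : f vv = f uu := by
    have h := congrArg f aa_vv
    rw [map_mul, map_mul, map_inv, mul_right_comm, mul_inv_cancel, one_mul] at h
    exact h
  have h2 : f uu = 1 := by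
    have h := congrArg f aa_uu
    simp only [map_mul, map_inv] at h
    rw [mul_right_comm, mul_inv_cancel, one_mul, h1, mul_inv_cancel, one_mul] at h
    exact (mul_eq_left.1 h.symm)
  have h3 : f vv = 1 := h1.trans h2
  have h4 : f.comp (SemidirectProduct.inl : F →* G8) = 1 := hom_ext h2 h3
  rw [MonoidHom.mem_ker] at hg ⊢
  have h5 : g = SemidirectProduct.inl g.left * SemidirectProduct.inr g.right :=
    (SemidirectProduct.inl_left_mul_inr_right g).symm
  have h6 : g.right = 1 := hg
  rw [h5, h6, map_one, mul_one]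
  exact DFunLike.congr_fun h4 g.left

end Pool.Agent.F8
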