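import Pool.Agent.Lib.MP_305fdd_al.F8.StmC
import Pool.Agent.Lib.MP_305fdd_al.Solv.Abel

set_option autoImplicit false

namespace Pool.Agent.F8

open Pool.Agent.MP_305fdd_al Pool.Agent.Lib.MP_305fdd_al Pool.Agent.Lib.MP_305fdd_al.Solv

private theorem abL_of_same {B : Type} [CommGroup B] [Group.FG B]
    (h : SameFiniteQuotients B (Multiplicative ℤ)) : Nonempty (B ≃* Multiplicative ℤ) := by
  obtain ⟨r, T, _, _, ⟨e⟩⟩ := exists_free_prod B
  have e0 : Multiplicative ℤ ≃* Multiplicative (Fin 1 → ℤ) :=
    { toFun := fun x => Multiplicative.ofAdd ![Multiplicative.toAdd x]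
      invFun := fun v => Multiplicative.ofAdd (Multiplicative.toAdd v 0)
      left_inv := by intro x; rfl
      right_inv := by
        intro v
        apply Multiplicative.toAdd.injective
        funext i
        fin_cases i
        rfl
      map_mul' := by
        intro x y
        apply Multiplicative.toAdd.injective
        funext i
        fin_cases i
        rfl }
  have key : ∀ n : ℕ, 0 < n → n ^ r * ix T n = n ^ 1 := by
    intro n hn
    rw [← ix_free r n hn, ← ix_prod, ← ix_congr e, ix_eq h hn, ix_congr e0, ix_free 1 n hn]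
  have hT1 : ∀ n : ℕ, (∀ t : T, t ^ n = 1) → ix T n = Nat.card T := by
    intro n hn
    have : (powMonoidHom n : T →* T).range = ⊥ := by
      rw [eq_bot_iff]
      rintro _ ⟨t, rfl⟩
      rw [Subgroup.mem_bot, powMonoidHom_apply, hn]
    unfold ix
    rw [this, Subgroup.index_bot]
  set t := Nat.card T with ht
  have htpos : 0 < t := Nat.card_pos
  have h1 := key t htpos
  rw [hT1 t (fun x => pow_card_eq_one')] at h1
  have h2 := key (2 * t) (by omega)
  rw [hT1 (2 * t) (fun x => by rw [mul_comm, pow_mul, pow_card_eq_one', one_pow]), mul_pow, mul_assoc,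
    h1, mul_pow] at h2
  have h3 : 2 ^ r = 2 ^ 1 := Nat.eq_of_mul_eq_mul_right (by positivity) h2
  have hr : r = 1 := Nat.pow_right_injective (le_refl 2) h3
  subst hr
  have h4 : t = 1 := by
    have : t ^ 1 * t = t ^ 1 * 1 := by rw [h1, mul_one]
    exact Nat.eq_of_mul_eq_mul_left (by positivity) this
  have hsub : Subsingleton T := (Nat.card_eq_one_iff_unique.mp h4).1
  let _ : Unique T := ⟨⟨1⟩, fun x => Subsingleton.elim _ _⟩
  exact ⟨e.trans (MulEquiv.prodUnique.trans e0.symm)⟩

private theorem abL_e8 (hab8 : S_ab8) : Nonempty (Abelianization G8 ≃* Multiplicative ℤ) := by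
  obtain ⟨hs, hk⟩ := hab8
  refine ⟨MulEquiv.ofBijective (Abelianization.lift n8) ⟨?_, ?_⟩⟩
  · rw [injective_iff_map_eq_one]
    intro x hx
    obtain ⟨g, rfl⟩ := of_surj x
    rw [Abelianization.lift_apply_of] at hx
    exact hk _ (Abelianization.of) hx
  · intro y
    obtain ⟨g, rfl⟩ := hs y
    exact ⟨Abelianization.of g, Abelianization.lift_apply_of n8 g⟩

theorem pf_abL (hab8 : S_ab8) : S_abL := by
  intro Λ _ _ h
  obtain ⟨e8⟩ := abL_e8 hab8
  have h1 := same_ab h
  have hfg : Group.FG (Abelianization Λ) := Group.fg_of_surjective of_surj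
  obtain ⟨e⟩ : Nonempty (Abelianization Λ ≃* Multiplicative ℤ) := by
    apply abL_of_same
    intro Q _ _
    rw [h1 Q]
    constructor
    · rintro ⟨φ, hφ⟩
      exact ⟨φ.comp e8.symm.toMonoidHom, hφ.comp e8.symm.surjective⟩
    · rintro ⟨φ, hφ⟩
      exact ⟨φ.comp e8.toMonoidHom, hφ.comp e8.surjective⟩
  refine ⟨e.toMonoidHom.comp Abelianization.of, e.surjective.comp of_surj, ?_⟩
  intro A _ f x hx
  have hx1 : Abelianization.of x = 1 := by
    apply e.injective
    rw [map_one]
    exact hx
  rw [MonoidHom.mem_ker, ← Abelianization.lift_apply_of f x, hx1, map_one]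

end Pool.Agent.F8
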