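import Pool.Agent.Lib.MP_305fdd_al.F8.StmB

/-!
# MP_305fdd_al, figure-eight knot group: piece `coc`, the cocycle equations
-/

set_option autoImplicit false

namespace Pool.Agent.F8

/-- [F8 coc] -/
theorem pf_coc : S_coc := by
  intro R _ Θ τ hΘ hv
  have hb : Θ bb = Θ uu * Θ aa := by unfold bb; rw [map_mul]
  have r1 : aa * vv = uu * aa := mul_inv_eq_iff_eq_mul.1 aa_vv
  have r2 : aa * uu = uu * vv⁻¹ * uu * uu * aa := mul_inv_eq_iff_eq_mul.1 aa_uu
  have e1 : Θ aa * Θ vv = Θ uu * Θ aa := by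
    rw [← map_mul, ← map_mul, r1]
  have e2 : Θ aa * Θ uu = Θ uu * (Θ vv)⁻¹ * Θ uu * Θ uu * Θ aa := by
    rw [← map_inv, ← map_mul, ← map_mul, ← map_mul, ← map_mul, ← map_mul, r2]
  have ta : (Θ aa).t = τ := by
    have := DFunLike.congr_fun hΘ aa
    simpa [Q2.tH_apply, n8_aa, pw_ofAdd] using this
  have tu : (Θ uu).t = 1 := by
    have := DFunLike.congr_fun hΘ uu
    simpa [Q2.tH_apply, n8_uu] using this
  have tv : (Θ vv).t = 1 := by
    have := DFunLike.congr_fun hΘ vv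
    simpa [Q2.tH_apply, n8_vv] using this
  generalize Θ aa = a at *
  generalize Θ uu = u at *
  generalize Θ vv = v at *
  rw [hb]
  have m1 : a.m * v.m = u.m * a.m := congrArg Q2.m e1
  have m2 : a.m * u.m = u.m * (v.m)⁻¹ * u.m * u.m * a.m := congrArg Q2.m e2
  have v1 := congrArg Q2.v e1
  have v2 := congrArg Q2.v e2
  simp only [Q2.mul_v, Q2.mul_m, Q2.mul_t, Q2.inv_v, Q2.inv_t, Q2.inv_m, ta, tu, tv, hv,
    inv_one, one_mul, mul_one, Units.val_one, one_smul, Matrix.mulVec_zero, smul_zero, neg_zero,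
    add_zero] at v1 v2
  have hU : u.v = (1 - u.m.val).mulVec a.v := by
    rw [Matrix.sub_mulVec, Matrix.one_mulVec, eq_sub_iff_add_eq]
    exact v1.symm
  refine ⟨hU, ?_⟩
  have hum : u.m * a.m * (a.m)⁻¹ = u.m := by group
  have hvm : (a.m)⁻¹ * (u.m * a.m) = v.m := by rw [← m1]; group
  have h3 : a.m * u.m * (a.m)⁻¹ = u.m * (v.m)⁻¹ * u.m * u.m := by rw [m2]; group
  have hM : Mt τ.val a.m (u * a).m = (1 + (u.m * (v.m)⁻¹).val + (u.m * (v.m)⁻¹ * u.m).val -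
      τ.val • a.m.val) * (1 - u.m.val) - (1 - (u.m * (v.m)⁻¹ * u.m * u.m).val) := by
    unfold Mt
    rw [Q2.mul_m, hum, hvm, h3]
  rw [hM, Matrix.sub_mulVec, ← Matrix.mulVec_mulVec, ← hU, Matrix.sub_mulVec, Matrix.add_mulVec,
    Matrix.add_mulVec, Matrix.sub_mulVec, Matrix.smul_mulVec, Matrix.one_mulVec, Matrix.one_mulVec]
  rw [sub_eq_zero, sub_eq_iff_eq_add, sub_add_eq_add_sub, eq_sub_iff_add_eq]
  rw [add_comm (a.v) (τ.val • _)] at v2
  rw [add_comm a.v]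
  exact v2.symm

end Pool.Agent.F8
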