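import Pool.Agent.Lib.MP_305fdd_al.F8.StmB

set_option autoImplicit false

namespace Pool.Agent.F8

open Pool.Agent.MP_305fdd_al Pool.Agent.Lib.MP_305fdd_al Pool.Agent.F2X
open scoped QuadraticAlgebra

/-- the determinant of `Mt` -/
theorem pf_dM : S_dM := by
  intro K _ s r z t A B hsr hA hB hρ
  have hs : s ≠ 0 := left_ne_zero_of_mul_eq_one hsr
  have hr : r = s⁻¹ := eq_inv_of_mul_eq_one_right hsr
  have hAi : (A⁻¹).val = !![r, -1; 0, s] := by
    rw [Matrix.SpecialLinearGroup.coe_inv, hA, Matrix.adjugate_fin_two_of]; simp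
  have hu : (B * A⁻¹).val = !![1, -s; -(z * r), z + 1] := by
    rw [Matrix.SpecialLinearGroup.coe_mul, hB, hAi, Matrix.mul_fin_two]
    ext i j
    fin_cases i <;> fin_cases j <;> simp
    · exact hsr
    · linear_combination hsr
  have hv : (A⁻¹ * B).val = !![1 + z, -r; -(z * s), 1] := by
    rw [Matrix.SpecialLinearGroup.coe_mul, hB, hAi, Matrix.mul_fin_two]
    ext i j
    fin_cases i <;> fin_cases j <;> simp
    · linear_combination hsr
    · ring
    · exact hsr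
  have hvi : ((A⁻¹ * B)⁻¹).val = !![1, r; z * s, 1 + z] := by
    rw [Matrix.SpecialLinearGroup.coe_inv, hv, Matrix.adjugate_fin_two_of]; simp
  unfold Mt
  rw [Matrix.SpecialLinearGroup.coe_mul (B * A⁻¹ * (A⁻¹ * B)⁻¹) (B * A⁻¹),
    Matrix.SpecialLinearGroup.coe_mul (A * (B * A⁻¹)) A⁻¹,
    Matrix.SpecialLinearGroup.coe_mul A (B * A⁻¹),
    Matrix.SpecialLinearGroup.coe_mul (B * A⁻¹) (A⁻¹ * B)⁻¹, hvi, hu, hAi, hA]
  rw [Matrix.det_fin_two]
  simp only [Matrix.mul_fin_two, Matrix.one_fin_two, Matrix.smul_of, Matrix.sub_apply,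
    Matrix.add_apply, Matrix.mul_apply, Fin.sum_univ_two, Matrix.of_apply, Matrix.cons_val',
    Matrix.cons_val_zero, Matrix.cons_val_one, Matrix.smul_apply, Matrix.smul_cons,
    Matrix.smul_empty, smul_eq_mul, Matrix.cons_val_fin_one]
  subst hr
  rw [← sub_eq_zero]
  have h : ∀ x y : K, x = y * (z * z - ((s + s⁻¹) * (s + s⁻¹) - 5) * z +
      (5 - (s + s⁻¹) * (s + s⁻¹))) → x = 0 := by
    intro x y hxy
    rw [hxy, hρ, mul_zero]
  apply h _ (z ^ 2 * (s ^ 2 + (s⁻¹) ^ 2) - 3 * z ^ 2 + z ^ 2 * t * (s + s⁻¹) - 3 * z - z ^ 3)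
  field_simp
  ring

end Pool.Agent.F8
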