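import Pool.Agent.Lib.MP_305fdd_al.F8.StmC

/-! The piece `des`: descent to a finitely generated ring. -/

set_option autoImplicit false

namespace Pool.Agent.F8

open Pool.Agent.MP_305fdd_al Pool.Agent.Lib.MP_305fdd_al Pool.Agent.F2X
open scoped QuadraticAlgebra

/-- the entries of an affine transformation -/
private def des_E {K : Type} [Field K] (q : Q2 K) : Set K :=
  ({q.t.val} ∪ {(q.t⁻¹).val}) ∪ (Set.range (fun p : Fin 2 × Fin 2 => q.m.val p.1 p.2) ∪
    Set.range q.v)

private theorem des_E_fin {K : Type} [Field K] (q : Q2 K) : (des_E q).Finite := by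
  unfold des_E
  exact ((Set.finite_singleton _).union (Set.finite_singleton _)).union
    ((Set.finite_range _).union (Set.finite_range _))

private theorem des_mem {K : Type} [Field K] (R : Subring K) (q : Q2 K)
    (hq : ∀ e ∈ des_E q, e ∈ R) : q ∈ (Q2.map R.subtype).range := by
  have h1 : q.t.val ∈ R := hq _ (by unfold des_E; left; left; rfl)
  have h2 : (q.t⁻¹).val ∈ R := hq _ (by unfold des_E; left; right; rfl)
  have h3 : ∀ i j, q.m.val i j ∈ R := fun i j =>
    hq _ (by unfold des_E; right; left; exact ⟨(i, j), rfl⟩)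
  have h4 : ∀ i, q.v i ∈ R := fun i => hq _ (by unfold des_E; right; right; exact ⟨i, rfl⟩)
  refine ⟨⟨⟨⟨q.t.val, h1⟩, ⟨(q.t⁻¹).val, h2⟩, ?_, ?_⟩, ⟨fun i j => ⟨q.m.val i j, h3 i j⟩, ?_⟩,
    fun i => ⟨q.v i, h4 i⟩⟩, ?_⟩
  · exact Subtype.ext q.t.val_inv
  · exact Subtype.ext q.t.inv_val
  · rw [Matrix.det_fin_two]
    apply Subtype.ext
    have := q.m.2
    rw [Matrix.det_fin_two] at this
    simpa using this
  · apply Q2.ext
    · exact Units.ext rfl
    · exact Subtype.ext rfl
    · rfl

private theorem des_inj {K : Type} [Field K] (R : Subring K) :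
    Function.Injective (Q2.map R.subtype) := by
  intro x y h
  apply Q2.ext
  · apply Units.ext
    apply Subtype.ext
    exact congrArg (fun q : Q2 K => q.t.val) h
  · apply Subtype.ext
    ext i j
    exact congrArg (fun q : Q2 K => q.m.val i j) h
  · ext i
    exact congrArg (fun q : Q2 K => q.v i) h

private theorem des_ft {K : Type} [Field K] (T : Set K) (hT : T.Finite) :
    Algebra.FiniteType ℤ (Algebra.adjoin ℤ T).toSubring := by
  have h : Algebra.FiniteType ℤ (Algebra.adjoin ℤ T) := by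
    apply Algebra.FiniteType.adjoin_of_finite hT
  let f : (Algebra.adjoin ℤ T) →+* (Algebra.adjoin ℤ T).toSubring :=
    { toFun := fun z => ⟨z.1, z.2⟩
      map_one' := rfl
      map_mul' := fun _ _ => rfl
      map_zero' := rfl
      map_add' := fun _ _ => rfl }
  exact h.of_surjective f.toIntAlgHom (fun z => ⟨⟨z.1, z.2⟩, rfl⟩)

theorem pf_des : S_des := by
  classical
  intro K _ Λ _ _ n m Θ x
  obtain ⟨S, hS⟩ := (Group.FG.out : (⊤ : Subgroup Λ).FG)
  let T : Set K := (⋃ i : Fin n, ⋃ g ∈ (S : Set Λ), des_E (Θ i g)) ∪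
    (Set.range x ∪ Set.range (fun j => (x j)⁻¹))
  have hT : T.Finite := by
    refine Set.Finite.union ?_ ((Set.finite_range _).union (Set.finite_range _))
    refine Set.finite_iUnion fun i => ?_
    exact S.finite_toSet.biUnion fun g _ => des_E_fin _
  set R : Subring K := (Algebra.adjoin ℤ T).toSubring with hR
  have hTR : ∀ e ∈ T, e ∈ R := fun e he => Algebra.subset_adjoin he
  have hrange : ∀ i, ∀ l : Λ, Θ i l ∈ (Q2.map R.subtype).range := by
    intro i
    have h1 : Subgroup.closure (S : Set Λ) ≤ ((Q2.map R.subtype).range).comap (Θ i) := by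
      rw [Subgroup.closure_le]
      intro g hg
      show Θ i g ∈ (Q2.map R.subtype).range
      apply des_mem
      intro e he
      apply hTR
      left
      exact Set.mem_iUnion.2 ⟨i, Set.mem_iUnion₂.2 ⟨g, hg, he⟩⟩
    rw [hS] at h1
    intro l
    exact h1 (Subgroup.mem_top l)
  refine ⟨R, fun i => (MonoidHom.ofInjective (des_inj R)).symm.toMonoidHom.comp
    ((Θ i).codRestrict _ (hrange i)), des_ft T hT, ?_, ?_⟩
  · intro i
    ext1 l
    have := (MonoidHom.ofInjective (des_inj R)).apply_symm_apply ⟨Θ i l, hrange i l⟩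
    exact congrArg Subtype.val this
  · intro j
    exact ⟨hTR _ (Or.inr (Or.inl ⟨j, rfl⟩)), hTR _ (Or.inr (Or.inr ⟨j, rfl⟩))⟩

end Pool.Agent.F8
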