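import Pool.Agent.Lib.MP_305fdd_al.F8.StmC

/-!
# MP_305fdd_al, figure-eight knot group: [F8 ex] existence of the exponents
-/

set_option autoImplicit false

namespace Pool.Agent.F8

open Pool.Agent.MP_305fdd_al Pool.Agent.Lib.MP_305fdd_al Pool.Agent.F2X
open scoped QuadraticAlgebra

theorem pf_ex (hab8 : S_ab8) (hpwl : S_pwl) : S_ex := by
  intro Λ _ Φ n hn m _
  obtain ⟨a, ha⟩ := hpwl Λ n hn _ (Φ.toFun (Multiplicative (ZMod m)) ((redZ m).comp n8))
  obtain ⟨e, he⟩ : ∃ e : ℤ, (e : ZMod m) = Multiplicative.toAdd a := ZMod.intCast_surjective _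
  have hE : Ex Φ n m e := by
    unfold Ex
    rw [ha]
    apply MonoidHom.ext
    intro l
    apply Multiplicative.toAdd.injective
    show Multiplicative.toAdd (zpowersHom (Multiplicative (ZMod m)) a (n l)) =
      Multiplicative.toAdd (redZ m ((n l) ^ e))
    rw [zpowersHom_apply, map_zpow (redZ m) (n l) e, toAdd_zpow, toAdd_zpow, zsmul_eq_mul, zsmul_eq_mul, he,
      mul_comm]
    rfl
  refine ⟨e, hE, ?_⟩
  obtain ⟨g, hg⟩ := hab8.1 (Multiplicative.ofAdd 1)
  have h1 : (Multiplicative.ofAdd (1 : ZMod m)) ∈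
      (Φ.toFun (Multiplicative (ZMod m)) ((redZ m).comp n8)).range := by
    rw [Φ.range_eq]
    refine ⟨g, ?_⟩
    show redZ m (n8 g) = _
    rw [hg, redZ_ofAdd, Int.cast_one]
  obtain ⟨l, hl⟩ := h1
  unfold Ex at hE
  rw [hE] at hl
  have h2 : (redZ m) ((n l) ^ e) = Multiplicative.ofAdd (1 : ZMod m) := hl
  rw [map_zpow] at h2
  have h3 := congrArg Multiplicative.toAdd h2
  rw [toAdd_zpow, zsmul_eq_mul, toAdd_ofAdd] at h3
  have h4 : (e : ZMod m) * ((Multiplicative.toAdd (n l) : ℤ) : ZMod m) = 1 := h3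
  have h5 : (m : ℤ) ∣ e * Multiplicative.toAdd (n l) - 1 := by
    rw [← ZMod.intCast_zmod_eq_zero_iff_dvd]
    push_cast
    rw [h4, sub_self]
  obtain ⟨c, hc⟩ := h5
  exact ⟨Multiplicative.toAdd (n l), -c, by linear_combination hc⟩

end Pool.Agent.F8
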