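import Pool.Agent.Lib.MP_305fdd_al.F8.StmA

set_option autoImplicit false

namespace Pool.Agent.F8

open Pool.Agent.MP_305fdd_al Pool.Agent.Lib.MP_305fdd_al Pool.Agent.F2X
open scoped QuadraticAlgebra

theorem f1_pow (j : ℕ) : (thu 3 ℤ ^ (j + 1)).val = ⟨-ff j, ff (j + 1)⟩ := by
  induction j with
  | zero => simp [thu, th, ff]
  | succ j ih =>
    rw [pow_succ, Units.val_mul, ih, thu_val]
    have h : ff (j + 1 + 1) = 3 * ff (j + 1) - ff j := rfl
    rw [h]
    ext
    · simp [th]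
    · simp [th]; ring

theorem f1_norm (j : ℕ) : ff (j + 1) * ff (j + 1) - 3 * ff (j + 1) * ff j + ff j * ff j = 1 := by
  induction j with
  | zero => simp [ff]
  | succ j ih =>
    have h : ff (j + 1 + 1) = 3 * ff (j + 1) - ff j := rfl
    rw [h]
    linear_combination ih

theorem f1_LL (j : ℕ) : LL ((j : ℤ) + 1) = 3 * ff (j + 1) - 2 * ff j := by
  have h := f1_pow j
  unfold LL
  have h2 : thu 3 ℤ ^ ((j : ℤ) + 1) = thu 3 ℤ ^ (j + 1) := by
    rw [← Nat.cast_succ, zpow_natCast]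
  rw [h2, h]
  simp [QuadraticAlgebra.trace]
  ring

theorem f1_lt (j : ℕ) : 0 ≤ ff j ∧ ff j < ff (j + 1) := by
  induction j with
  | zero => simp [ff]
  | succ j ih =>
    have h : ff (j + 1 + 1) = 3 * ff (j + 1) - ff j := rfl
    rw [h]
    constructor <;> linarith [ih.1, ih.2]

theorem f1_norm1 (e : ℤ) : QuadraticAlgebra.norm (thu 3 ℤ ^ e).val = 1 := by
  have h1 : Units.map (QuadraticAlgebra.norm (R := ℤ) (a := -1) (b := ((3 : ℤ) : ℤ)))
      (thu 3 ℤ) = 1 := by
    ext
    simp [thu, th, QuadraticAlgebra.norm_def]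
  have h2 : Units.map (QuadraticAlgebra.norm (R := ℤ) (a := -1) (b := ((3 : ℤ) : ℤ)))
      (thu 3 ℤ ^ e) = 1 := by
    rw [map_zpow, h1, one_zpow]
  exact congrArg Units.val h2

theorem f1_inv (u : (Qd 3 ℤ)ˣ) (hu : QuadraticAlgebra.norm u.val = 1) :
    (u⁻¹).val = star u.val := by
  have h := QuadraticAlgebra.algebraMap_norm_eq_mul_star u.val
  rw [hu, map_one] at h
  calc (u⁻¹).val = (u⁻¹).val * (u.val * star u.val) := by rw [← h, mul_one]
    _ = star u.val := by rw [← mul_assoc, Units.inv_mul, one_mul]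

theorem pf_f1 : S_f1 := by
  refine ⟨f1_pow, f1_norm, f1_LL, ?_, fun j => (f1_lt j).2, ?_, ?_, ?_, ?_⟩
  · intro e
    unfold LL
    rw [zpow_neg, f1_inv _ (f1_norm1 e), QuadraticAlgebra.trace_def, QuadraticAlgebra.trace_def,
      QuadraticAlgebra.re_star, QuadraticAlgebra.im_star]
    simp
    ring
  · intro j
    induction j with
    | zero => simp [ff]
    | succ j ih =>
      have := (f1_lt j).2
      push_cast
      linarith
  · intro j
    have h0 := f1_LL j
    rcases Nat.eq_zero_or_pos j with rfl | hj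
    · norm_num at h0 ⊢
      rw [h0]
      simp [LL, ff, QuadraticAlgebra.trace]
    · obtain ⟨i, rfl⟩ : ∃ i, j = i + 1 := ⟨j - 1, by omega⟩
      have h1 := f1_LL i
      have h2 := f1_LL (i + 1)
      have h3 : ff (i + 1 + 1) = 3 * ff (i + 1) - ff i := rfl
      push_cast at h1 h2 ⊢
      rw [h1, h2, h3]
      linarith [(f1_lt i).1, (f1_lt i).2]
  · intro j
    rcases Nat.eq_zero_or_pos j with rfl | hj
    · simp [LL, QuadraticAlgebra.trace]
    · obtain ⟨i, rfl⟩ : ∃ i, j = i + 1 := ⟨j - 1, by omega⟩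
      have h1 := f1_LL i
      push_cast at h1 ⊢
      rw [h1]
      linarith [(f1_lt i).1, (f1_lt i).2]
  · intro j
    rw [f1_LL]
    have h : ff (j + 2) = 3 * ff (j + 1) - ff j := rfl
    rw [h]; ring

end Pool.Agent.F8
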