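import Pool.Agent.Lib.MP_305fdd_al.F8.StmA

/-!
# MP_305fdd_al: piece [F8 f2], the period modulo `ff j`
-/

set_option autoImplicit false

namespace Pool.Agent.F8

open Pool.Agent.MP_305fdd_al Pool.Agent.Lib.MP_305fdd_al Pool.Agent.F2X

theorem pf_f2 (hf1 : S_f1) : S_f2 := by
  intro j M hj hM
  obtain ⟨h1, h2, -⟩ := hf1
  obtain ⟨i, rfl⟩ := Nat.exists_eq_add_of_le' hj
  have h0 : ((ff (i + 1) : ℤ) : ZMod M) = 0 := by
    rw [← hM]; simp
  have hu : (thu 3 (ZMod M)).val = Qd.map 3 (Int.castRingHom (ZMod M)) (thu 3 ℤ).val :=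
    (Qd.map_th 3 (Int.castRingHom (ZMod M))).symm
  have h3 : (thu 3 (ZMod M) ^ (i + 1)).val = ⟨-((ff i : ℤ) : ZMod M), 0⟩ := by
    rw [Units.val_pow_eq_pow_val, hu, ← map_pow, ← Units.val_pow_eq_pow_val, h1, Qd.map_apply]
    ext
    · simp
    · simpa using h0
  have h4 : ((ff i : ℤ) : ZMod M) * ((ff i : ℤ) : ZMod M) = 1 := by
    have := congrArg (fun z : ℤ => (z : ZMod M)) (h2 i)
    simp only [Int.cast_add, Int.cast_sub, Int.cast_mul, h0] at this
    simpa using this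
  apply Units.ext
  rw [two_mul, pow_add, Units.val_mul, h3, Units.val_one]
  ext
  · simp [h4]
    rfl
  · simp
    rfl

end Pool.Agent.F8
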