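import Pool.Agent.Lib.MP_305fdd_al.F8.StmA

/-!
# MP_305fdd_al, figure-eight knot group: piece f3
-/

set_option autoImplicit false

namespace Pool.Agent.F8

open Pool.Agent.MP_305fdd_al Pool.Agent.Lib.MP_305fdd_al Pool.Agent.F2X
open scoped QuadraticAlgebra

private theorem f3_thu (M : ℕ) :
    thu 3 (ZMod M) = Units.map (Qd.map 3 (Int.castRingHom (ZMod M))).toMonoidHom (thu 3 ℤ) := by
  apply Units.ext
  show th 3 (ZMod M) = Qd.map 3 (Int.castRingHom (ZMod M)) (th 3 ℤ)
  rw [Qd.map_th]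

private theorem f3_trace (M : ℕ) (e : ℤ) :
    (thu 3 (ZMod M) ^ e).val.trace = (LL e : ZMod M) := by
  rw [f3_thu, ← map_zpow]
  show (Qd.map 3 (Int.castRingHom (ZMod M)) (thu 3 ℤ ^ e).val).trace = _
  rw [Qd.map_apply]
  unfold LL
  rw [QuadraticAlgebra.trace_def, QuadraticAlgebra.trace_def]
  simp

private theorem f3_per {G : Type} [Group G] (x : G) (n : ℕ) (h : x ^ n = 1) (e k : ℤ)
    (hd : (n : ℤ) ∣ e - k) : x ^ e = x ^ k := by
  obtain ⟨c, hc⟩ := hd
  have : e = k + (n : ℤ) * c := by linarith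
  rw [this, zpow_add, zpow_mul, zpow_natCast, h, one_zpow, mul_one]

theorem pf_f3 (hf1 : S_f1) (hf2 : S_f2) : S_f3 := by
  intro j M e hj hM hcop
  have hper : thu 3 (ZMod M) ^ (2 * j) = 1 := hf2 j M (by omega) hM
  have hLL := hf1.2.2.2.1
  have hpos : (0 : ℤ) < 2 * j := by omega
  have hr0 := Int.emod_nonneg e (ne_of_gt hpos)
  have hr1 := Int.emod_lt_of_pos e hpos
  have hdiv : (2 * j : ℤ) ∣ e - e % (2 * j) := Int.dvd_self_sub_emod
  -- the choice of the representative
  have main : ∃ k : ℕ, (k : ℤ) ≤ j ∧ ((2 * j : ℤ) ∣ e - k ∨ (2 * j : ℤ) ∣ e + k) := by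
    rcases le_or_gt (e % (2 * j)) j with h | h
    · refine ⟨(e % (2 * j)).toNat, ?_, Or.inl ?_⟩
      · rw [Int.toNat_of_nonneg hr0]; exact h
      · rw [Int.toNat_of_nonneg hr0]; exact hdiv
    · refine ⟨(2 * j - e % (2 * j)).toNat, ?_, Or.inr ?_⟩
      · rw [Int.toNat_of_nonneg (by linarith)]; linarith
      · rw [Int.toNat_of_nonneg (by linarith)]
        have : e + (2 * j - e % (2 * j)) = (e - e % (2 * j)) + 2 * j := by ring
        rw [this]
        exact dvd_add hdiv dvd_rfl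
  obtain ⟨k, hk, hd⟩ := main
  have hkc : IsCoprime (k : ℤ) (2 * j : ℤ) := by
    rcases hd with ⟨c, hc⟩ | ⟨c, hc⟩
    · have : (k : ℤ) = e + (2 * j) * (-c) := by linarith
      rw [this]
      exact IsCoprime.add_mul_left_left_iff.mpr hcop
    · have : (k : ℤ) = -e + (2 * j) * c := by linarith
      rw [this]
      exact IsCoprime.add_mul_left_left_iff.mpr hcop.neg_left
  have hnu : ∀ d : ℤ, d ∣ k → d ∣ 2 * j → 2 ≤ d → False := by
    intro d h1 h2 h3
    have := hkc.isUnit_of_dvd' h1 h2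
    rw [Int.isUnit_iff] at this
    omega
  have hk0 : 0 < k := by
    rcases Nat.eq_zero_or_pos k with h | h
    · exfalso
      refine hnu (2 * j) ?_ dvd_rfl (by omega)
      rw [h]; exact dvd_zero _
    · exact h
  have hkj : k < j := by
    have h1 : k ≤ j := by exact_mod_cast hk
    rcases Nat.lt_or_ge k j with h | h
    · exact h
    · exfalso
      have h2 : k = j := le_antisymm h1 h
      exact hnu j (by rw [h2]) (dvd_mul_left _ _) (by exact_mod_cast hj)
  refine ⟨k, hk0, hkj, hkc, hd, ?_⟩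
  rcases hd with h | h
  · rw [f3_per _ (2 * j) hper e k (by push_cast; exact h), f3_trace]
  · rw [f3_per _ (2 * j) hper e (-(k : ℤ)) (by push_cast; rw [sub_neg_eq_add]; exact h),
      f3_trace, hLL]

end Pool.Agent.F8
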