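import Pool.Agent.Lib.MP_305fdd_al.F8.StmA

/-!
# MP_305fdd_al, figure-eight knot group, piece [F8 gal]: Galois descent
-/

set_option autoImplicit false

namespace Pool.Agent.F8

/-- the algebraic closure of the rational numbers is algebraic, for the rational algebra structure
of a division ring -/
theorem gal_alg : Algebra.IsAlgebraic ℚ (AlgebraicClosure ℚ) := by
  have h : @Algebra.IsAlgebraic ℚ (AlgebraicClosure ℚ) _ _ (AlgebraicClosure.instAlgebra ℚ) :=
    AlgebraicClosure.isAlgebraic ℚ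
  have e : (AlgebraicClosure.instAlgebra ℚ : Algebra ℚ (AlgebraicClosure ℚ)) =
      DivisionRing.toRatAlgebra := Subsingleton.elim _ _
  rwa [e] at h

theorem pf_gal : S_gal := by
  intro x hx
  have h1 := gal_alg
  have hA : IsAlgClosure ℚ (AlgebraicClosure ℚ) := ⟨inferInstance, h1⟩
  have hN : Normal ℚ (AlgebraicClosure ℚ) := IsAlgClosure.normal ℚ (AlgebraicClosure ℚ)
  have hG : IsGalois ℚ (AlgebraicClosure ℚ) := ⟨⟩
  obtain ⟨q, hq⟩ := (InfiniteGalois.mem_range_algebraMap_iff_fixed x).2 hx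
  exact ⟨q, hq.symm⟩

end Pool.Agent.F8
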