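import Pool.Agent.Lib.MP_305fdd_al.F8.StmA

/-!
# MP_305fdd_al, figure-eight knot group, part A: piece [F8 int]

A rational number which is integral at all primes is an integer.
-/

set_option autoImplicit false

namespace Pool.Agent.F8

private theorem int_den (p : ℕ) [Fact p.Prime] (q : ℚ) (h : ‖(q : ℚ_[p])‖ ≤ 1) : ¬ p ∣ q.den := by
  have h1 := PadicInt.isUnit_iff.1 (PadicInt.isUnit_den q h)
  have h2 : ¬ ‖((q.den : ℤ) : ℤ_[p])‖ < 1 := by
    rw [not_lt]
    exact le_of_eq (by rw [← h1]; push_cast; rfl)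
  rw [PadicInt.norm_int_lt_one_iff_dvd] at h2
  intro h3
  exact h2 (by exact_mod_cast h3)

theorem pf_int : S_int := by
  intro q hq
  by_cases h1 : q.den = 1
  · exact ⟨q.num, ((Rat.den_eq_one_iff q).1 h1).symm⟩
  · exfalso
    obtain ⟨p, hp, hpd⟩ := Nat.exists_prime_and_dvd h1
    have : Fact p.Prime := ⟨hp⟩
    obtain ⟨y, hy⟩ := hq p
    have hn : ‖(q : ℚ_[p])‖ ≤ 1 := by
      rw [hy]; exact y.norm_le_one
    exact int_den p q hn hpd

end Pool.Agent.F8
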