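import Pool.Agent.Lib.MP_305fdd_al.F8.StmB

/-!
# MP_305fdd_al, figure-eight knot group: piece ir (helper83)
-/

set_option autoImplicit false

namespace Pool.Agent.F8

open Pool.Agent.MP_305fdd_al Pool.Agent.Lib.MP_305fdd_al Pool.Agent.F2X
open scoped QuadraticAlgebra

/-- a subgroup of `G8` containing `u, v, a` is everything -/
theorem ir_top (H : Subgroup G8) (hu : uu ∈ H) (hv : vv ∈ H) (ha : aa ∈ H) (g : G8) : g ∈ H := by
  let f : G8 →* H := lift8 (⟨uu, hu⟩ : H) ⟨vv, hv⟩ ⟨aa, ha⟩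
    (Subtype.ext aa_uu) (Subtype.ext aa_vv)
  have h : H.subtype.comp f = MonoidHom.id G8 := by
    apply hom8_ext
    · show H.subtype (f uu) = uu
      rw [show f uu = (⟨uu, hu⟩ : H) from lift8_uu _ _]; rfl
    · show H.subtype (f vv) = vv
      rw [show f vv = (⟨vv, hv⟩ : H) from lift8_vv _ _]; rfl
    · show H.subtype (f aa) = aa
      rw [show f aa = (⟨aa, ha⟩ : H) from lift8_aa _ _]; rfl
  have h2 : ((f g : H) : G8) = g := DFunLike.congr_fun h g
  rw [← h2]
  exact (f g).2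

/-- a matrix of determinant one which fixes a nonzero vector has trace two -/
theorem ir_tr {K : Type} [Field K] (M : SL2 K) (e : Fin 2 → K) (he : e ≠ 0)
    (h : M.val.mulVec e = e) : tr M = 2 := by
  have h0 : (M.val - 1).det = 0 := by
    apply Matrix.exists_mulVec_eq_zero_iff.1
    exact ⟨e, he, by rw [Matrix.sub_mulVec, h, Matrix.one_mulVec, sub_self]⟩
  have h1 : M.val.det = 1 := M.2
  rw [Matrix.det_fin_two] at h0 h1
  rw [tr_eq]
  simp only [Matrix.sub_apply, Matrix.one_apply_eq, Matrix.one_apply_ne (show (0 : Fin 2) ≠ 1 by decide),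
    Matrix.one_apply_ne (show (1 : Fin 2) ≠ 0 by decide)] at h0
  linear_combination h1 - h0

/-- the stabiliser of the line spanned by `e` -/
def ir_stab {K : Type} [Field K] (e : Fin 2 → K) (he : e ≠ 0) : Subgroup (SL2 K) where
  carrier := {g | ∃ c : K, g.val.mulVec e = c • e}
  one_mem' := ⟨1, by simp⟩
  mul_mem' := by
    rintro x y ⟨c, hc⟩ ⟨d, hd⟩
    refine ⟨c * d, ?_⟩
    rw [Matrix.SpecialLinearGroup.coe_mul, ← Matrix.mulVec_mulVec, hd, Matrix.mulVec_smul, hc,
      smul_smul, mul_comm]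
  inv_mem' := by
    rintro x ⟨c, hc⟩
    have h1 : (x⁻¹).val.mulVec (x.val.mulVec e) = e := by
      rw [Matrix.mulVec_mulVec, ← Matrix.SpecialLinearGroup.coe_mul, inv_mul_cancel,
        Matrix.SpecialLinearGroup.coe_one, Matrix.one_mulVec]
    have hc0 : c ≠ 0 := by
      rintro rfl
      rw [hc, zero_smul, Matrix.mulVec_zero] at h1
      exact he h1.symm
    refine ⟨c⁻¹, ?_⟩
    rw [hc, Matrix.mulVec_smul] at h1
    have h2 : c⁻¹ • (c • (x⁻¹).val.mulVec e) = c⁻¹ • e := congrArg _ h1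
    rw [smul_smul, inv_mul_cancel₀ hc0, one_smul] at h2
    exact h2

theorem pf_ir : S_ir := by
  intro K _ ρ hρ
  rintro ⟨e, α, β, he, ha, hb⟩
  let H : Subgroup G8 := (ir_stab e he).comap ρ
  have haH : aa ∈ H := ⟨α, ha⟩
  have hbH : bb ∈ H := ⟨β, hb⟩
  have huH : uu ∈ H := by rw [uu_eq]; exact H.mul_mem hbH (H.inv_mem haH)
  have hvH : vv ∈ H := by rw [vv_eq]; exact H.mul_mem (H.inv_mem haH) hbH
  have key : ∀ g : G8, ∃ c c' : K, (ρ g).val.mulVec e = c • e ∧ (ρ g⁻¹).val.mulVec e = c' • e ∧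
      c * c' = 1 := by
    intro g
    obtain ⟨c, hc⟩ : ∃ c : K, (ρ g).val.mulVec e = c • e := ir_top H huH hvH haH g
    obtain ⟨c', hc'⟩ : ∃ c : K, (ρ g⁻¹).val.mulVec e = c • e := ir_top H huH hvH haH g⁻¹
    refine ⟨c, c', hc, hc', ?_⟩
    have h1 : (ρ g).val.mulVec ((ρ g⁻¹).val.mulVec e) = e := by
      rw [Matrix.mulVec_mulVec, ← Matrix.SpecialLinearGroup.coe_mul, ← map_mul, mul_inv_cancel,
        map_one, Matrix.SpecialLinearGroup.coe_one, Matrix.one_mulVec]
    rw [hc', Matrix.mulVec_smul, hc, smul_smul] at h1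
    obtain ⟨i, hi⟩ : ∃ i, e i ≠ 0 := by
      by_contra hcon
      push Not at hcon
      exact he (funext hcon)
    have h2 := congrFun h1 i
    rw [Pi.smul_apply, smul_eq_mul] at h2
    have h3 : (c' * c - 1) * e i = 0 := by linear_combination h2
    rcases mul_eq_zero.1 h3 with h4 | h4
    · linear_combination h4
    · exact absurd h4 hi
  obtain ⟨g, h, hgh⟩ := hρ
  apply hgh
  apply ir_tr _ e he
  obtain ⟨c, c', hc, hc', hcc⟩ := key g
  obtain ⟨d, d', hd, hd', hdd⟩ := key h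
  rw [map_mul, map_mul, map_mul, Matrix.SpecialLinearGroup.coe_mul, Matrix.SpecialLinearGroup.coe_mul,
    Matrix.SpecialLinearGroup.coe_mul, ← Matrix.mulVec_mulVec, hd', Matrix.mulVec_smul,
    ← Matrix.mulVec_mulVec, hc', Matrix.mulVec_smul, ← Matrix.mulVec_mulVec, hd,
    Matrix.mulVec_smul, hc, smul_smul, smul_smul, smul_smul]
  rw [show d' * c' * d * c = (c * c') * (d * d') by ring, hcc, hdd, one_mul, one_smul]

end Pool.Agent.F8
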