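import Pool.Agent.Lib.MP_305fdd_al.F8.StmB

/-!
# MP_305fdd_al, [F8 ir0]: traces of `rho8`
-/

set_option autoImplicit false

namespace Pool.Agent.F8

theorem pf_ir0 : S_ir0 := by
  intro R _ w hw
  refine ⟨?_, ?_, ?_⟩
  · simp only [map_mul, map_inv, rho8_aa, rho8_bb, tr, ma, mb,
      Matrix.SpecialLinearGroup.coe_mul, Matrix.SpecialLinearGroup.coe_inv,
      Matrix.adjugate_fin_two_of, Matrix.mul_fin_two, Matrix.trace_fin_two_of]
    ring
  · simp only [map_mul, map_inv, rho8_aa, rho8_bb, tr, ma, mb,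
      Matrix.SpecialLinearGroup.coe_mul, Matrix.SpecialLinearGroup.coe_inv,
      Matrix.adjugate_fin_two_of, Matrix.mul_fin_two, Matrix.trace_fin_two_of]
    ring
  · simp only [rho8_aa, tr, ma, Matrix.trace_fin_two_of]
    ring

end Pool.Agent.F8
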