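import Pool.Agent.Lib.MP_305fdd_al.F8.StmC

/-!
# MP_305fdd_al, figure-eight knot group: the piece m1
-/

set_option autoImplicit false

namespace Pool.Agent.F8

open Pool.Agent.MP_305fdd_al Pool.Agent.Lib.MP_305fdd_al Pool.Agent.F2X

theorem pf_m1 (hmt : S_mt) (hab8 : S_ab8) (hpwl : S_pwl) : S_m1 := by
  intro Λ _ Φ n hn k _ _ N hG
  obtain ⟨τ, hτ, hP⟩ := hG
  choose Θ hΘ1 hΘ2 hΘ3 using hP
  have hs : ∀ i, ∃ s : kˣ, Q2.tH.comp (Φ.invFun _ (Θ i)) = (pw s).comp n8 :=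
    fun i => hpwl G8 n8 hab8 kˣ _
  choose s hs using hs
  refine ⟨s, ?_, ?_⟩
  · intro i j hij
    apply hτ
    have e : ∀ i, (pw (τ i)).comp n = Φ.toFun _ ((pw (s i)).comp n8) := by
      intro i
      rw [← hs i, ← (hmt G8 Λ Φ k (Φ.invFun _ (Θ i))).1, Φ.right_inv, hΘ1 i]
    have h : (pw (τ i)).comp n = (pw (τ j)).comp n := by rw [e i, e j, hij]
    obtain ⟨l, hl⟩ := hn (Multiplicative.ofAdd 1)
    have h2 := DFunLike.congr_fun h l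
    rw [MonoidHom.comp_apply, MonoidHom.comp_apply, hl, pw_ofAdd, pw_ofAdd, zpow_one,
      zpow_one] at h2
    exact h2
  · intro i
    refine ⟨Φ.invFun _ (Θ i), hs i, ?_, ?_⟩
    · apply Φ.injective
      rw [← (hmt G8 Λ Φ k (Φ.invFun _ (Θ i))).2.1, Φ.right_inv, hΘ2 i, Φ.one]
    · rw [← (hmt G8 Λ Φ k (Φ.invFun _ (Θ i))).2.2.1, Φ.right_inv]
      exact hΘ3 i

end Pool.Agent.F8
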