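import Pool.Agent.Lib.MP_305fdd_al.F8.StmC

/-!
# MP_305fdd_al, figure-eight knot group: [F8 m2] matching of `Good2`
-/

set_option autoImplicit false

namespace Pool.Agent.F8

open Pool.Agent.MP_305fdd_al Pool.Agent.Lib.MP_305fdd_al Pool.Agent.F2X
open scoped QuadraticAlgebra

theorem pf_m2 (hmt : S_mt) (hmp : S_mp) (hexu : S_exu) : S_m2 := by
  intro Λ _ Φ n hE k _ _ N ⟨Θ, hP, hne⟩
  refine ⟨fun i => Φ.invFun _ (Θ i), fun i => ?_, fun i j hij => ?_⟩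
  · obtain ⟨⟨τ, hτ, htau⟩, hirr, hnc⟩ := hP i
    have hr : Φ.toFun _ (Φ.invFun _ (Θ i)) = Θ i := Φ.right_inv _ _
    obtain ⟨h1, h2, h3, h4⟩ := hmt G8 Λ Φ k (Φ.invFun _ (Θ i))
    rw [hr] at h1 h2 h3 h4
    refine ⟨⟨τ, hτ, ?_⟩, h4.1 hirr, h3.1 hnc⟩
    apply Φ.injective
    rw [← h1, htau]
    have h5 : τ ^ Nat.card kˣ = 1 := pow_card_eq_one'
    have h6 : NeZero (Nat.card kˣ) := ⟨Nat.card_pos.ne'⟩
    have h7 := hexu Λ Φ n (Nat.card kˣ) 1 (hE _) kˣ τ h5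
    rw [zpow_one] at h7
    exact h7.symm
  · obtain ⟨g, hg⟩ := hne i j hij
    obtain ⟨h5, h6⟩ := hmp G8 Λ Φ (Q2 k) (Q2 k) (Φ.invFun _ (Θ i)) (Φ.invFun _ (Θ j))
    rw [Φ.right_inv, Φ.right_inv] at h6
    obtain ⟨g', hg1, hg2⟩ := h6 g
    refine ⟨g', ?_⟩
    unfold ch at hg ⊢
    rw [← hg1, ← hg2]
    exact hg

end Pool.Agent.F8
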