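import Pool.Agent.Lib.MP_305fdd_al.F8.StmC

/-!
# MP_305fdd_al, figure-eight knot group: piece [F8 mT]
-/

set_option autoImplicit false

namespace Pool.Agent.F8

open Pool.Agent.MP_305fdd_al Pool.Agent.Lib.MP_305fdd_al Pool.Agent.F2X
open scoped QuadraticAlgebra

private theorem mT_Th1_congr {R : Type} [CommRing R] {t t' : Rˣ} (h : t = t')
    (ht : t.val * t.val = 3 * t.val - 1) (ht' : t'.val * t'.val = 3 * t'.val - 1) :
    Th1 t ht = Th1 t' ht' := by
  subst h; rfl

private theorem mT_Th0_congr {R : Type} [CommRing R] {w w' : R} (hw : w = w')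
    (h1 : w * w + w + 1 = 0) (h1' : w' * w' + w' + 1 = 0) {t t' : Rˣ} (h : t = t')
    (ht : t.val * t.val = 4 * t.val - 1) (ht' : t'.val * t'.val = 4 * t'.val - 1) :
    Th0 w h1 t ht = Th0 w' h1' t' ht' := by
  subst hw; subst h; rfl

private theorem mT_rho8_congr {R : Type} [CommRing R] {w w' : R} (hw : w = w')
    (h1 : w * w + w + 1 = 0) (h1' : w' * w' + w' + 1 = 0) :
    rho8 w h1 = rho8 w' h1' := by
  subst hw; rfl

private theorem mT_thu (q : ℤ) {R S : Type} [CommRing R] [CommRing S] (f : R →+* S) :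
    Units.map (Qd.map q f).toMonoidHom (thu q R) = thu q S := by
  apply Units.ext
  exact Qd.map_th q f

theorem pf_mT : S_mT := by
  intro R S _ _ f
  refine ⟨?_, ?_, ?_, ?_⟩
  · unfold T1
    rw [map_Th1]
    exact mT_Th1_congr (mT_thu 3 f) _ _
  · unfold T2
    rw [map_Th0]
    refine mT_Th0_congr ?_ _ _ (mT_thu 4 (Qd.map (-1) f)) _ _
    show (⟨Qd.map (-1) f (om R), Qd.map (-1) f 0⟩ : E4 S) = ⟨om S, 0⟩
    rw [map_zero]
    have h : Qd.map (-1) f (om R) = om S := Qd.map_th (-1) f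
    rw [h]
  · unfold r8
    rw [map_rho8]
    exact mT_rho8_congr (Qd.map_th (-1) f) _ _
  · unfold T2 r8
    rw [mH_Th0, map_rho8]
    refine mT_rho8_congr ?_ _ _
    rfl

end Pool.Agent.F8
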