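import Pool.Agent.Lib.MP_305fdd_al.F8.StmA

/-! The piece `nc`: norms and reduction. -/

set_option autoImplicit false

namespace Pool.Agent.F8

open Pool.Agent.MP_305fdd_al Pool.Agent.Lib.MP_305fdd_al Pool.Agent.F2X
open scoped QuadraticAlgebra

private theorem nc_norm {R S : Type} [CommRing R] [CommRing S] (f : R →+* S) (q : ℤ) (x : Qd q R) :
    (Qd.map q f x).norm = f x.norm := by
  rw [QuadraticAlgebra.norm_def, QuadraticAlgebra.norm_def, Qd.map_apply]
  simp

private theorem nc_trace {R S : Type} [CommRing R] [CommRing S] (f : R →+* S) (q : ℤ)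
    (x : Qd q R) : (Qd.map q f x).trace = f x.trace := by
  rw [QuadraticAlgebra.trace_def, QuadraticAlgebra.trace_def, Qd.map_apply]
  simp [map_ofNat]

theorem pf_nc : S_nc := by
  intro R S _ _ f
  refine ⟨fun q x => ⟨nc_norm f q x, nc_trace f q x⟩, fun x => ?_⟩
  unfold E4m
  rw [nc_norm, nc_norm]

end Pool.Agent.F8
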