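import Pool.Agent.Lib.MP_305fdd_al.F8.StmB

/-!
# MP_305fdd_al, figure-eight knot group, piece [F8 nc0]
-/

set_option autoImplicit false

namespace Pool.Agent.F8

open Pool.Agent.MP_305fdd_al Pool.Agent.Lib.MP_305fdd_al Pool.Agent.F2X
open scoped QuadraticAlgebra

theorem pf_nc0 : S_nc0 := by
  intro R _ w hw t ht
  rw [Th0_aa, Th0_vv]
  have hX : (Q2.X (⟨1, (ma R)⁻¹ * mb w, 0⟩ : Q2 R)).det = -w := by
    simp only [Q2.X, matV]
    rw [Matrix.det_fin_two]
    simp
  simp only [Q2.W, hX, Matrix.mulVec_zero, sub_zero]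
  simp
  ring

end Pool.Agent.F8
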