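import Pool.Agent.Lib.MP_305fdd_al.F8.StmB

/-!
# MP_305fdd_al, figure-eight knot group: normal form of an irreducible pair
-/

set_option autoImplicit false

namespace Pool.Agent.F8

private theorem nf_par {K : Type} [Field K] (e v : Fin 2 → K) (he : e ≠ 0)
    (h : e 0 * v 1 - e 1 * v 0 = 0) : ∃ c : K, v 0 = c * e 0 ∧ v 1 = c * e 1 := by
  by_cases h0 : e 0 = 0
  · have h1 : e 1 ≠ 0 := by
      intro h1
      apply he
      ext i
      fin_cases i
      · exact h0
      · exact h1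
    refine ⟨v 1 / e 1, ?_, ?_⟩
    · rw [h0, zero_mul, zero_sub, neg_eq_zero] at h
      rw [h0, mul_zero]
      exact (mul_eq_zero.1 h).resolve_left h1
    · field_simp
  · refine ⟨v 0 / e 0, ?_, ?_⟩
    · field_simp
    · field_simp
      linear_combination h

private theorem nf_ev {K : Type} [Field K] (M : Matrix (Fin 2) (Fin 2) K) (e : Fin 2 → K) (α : K)
    (h0 : M 0 0 * e 0 + M 0 1 * e 1 = α * e 0) (h1 : M 1 0 * e 0 + M 1 1 * e 1 = α * e 1) :
    M.mulVec e = α • e := by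
  ext i
  fin_cases i
  · simpa [Matrix.mulVec, dotProduct, Fin.sum_univ_two] using h0
  · simpa [Matrix.mulVec, dotProduct, Fin.sum_univ_two] using h1

private theorem nf_ex {K : Type} [Field K] (M : Matrix (Fin 2) (Fin 2) K) (hM : M.det = 1) (s : K)
    (hs : s * s - (M 0 0 + M 1 1) * s + 1 = 0) : ∃ e : Fin 2 → K, e ≠ 0 ∧
      M 0 0 * e 0 + M 0 1 * e 1 = s * e 0 ∧ M 1 0 * e 0 + M 1 1 * e 1 = s * e 1 := by
  have h : (M - s • (1 : Matrix (Fin 2) (Fin 2) K)).det = 0 := by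
    rw [Matrix.det_fin_two] at hM ⊢
    simp
    linear_combination hs + hM
  obtain ⟨e, he, h1⟩ := Matrix.exists_mulVec_eq_zero_iff.2 h
  refine ⟨e, he, ?_, ?_⟩
  · have := congrFun h1 0
    simp [Matrix.mulVec, dotProduct, Fin.sum_univ_two] at this
    linear_combination this
  · have := congrFun h1 1
    simp [Matrix.mulVec, dotProduct, Fin.sum_univ_two] at this
    linear_combination this

theorem pf_nf : S_nf := by
  intro K _ _ A B htr hne
  have hA : A.val.det = 1 := A.2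
  have hB : B.val.det = 1 := B.2
  rw [tr_eq, tr_eq] at htr
  obtain ⟨s, hs⟩ : ∃ s : K, s * s - (A.val 0 0 + A.val 1 1) * s + 1 = 0 := by
    obtain ⟨s, hs⟩ := IsAlgClosed.exists_root
      (Polynomial.C (1 : K) * Polynomial.X ^ 2 +
        Polynomial.C (-(A.val 0 0 + A.val 1 1)) * Polynomial.X + Polynomial.C 1)
      (by rw [Polynomial.degree_quadratic one_ne_zero]; decide)
    refine ⟨s, ?_⟩
    rw [Polynomial.IsRoot.def] at hs
    simp only [Polynomial.eval_add, Polynomial.eval_mul, Polynomial.eval_C, Polynomial.eval_pow,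
      Polynomial.eval_X] at hs
    linear_combination hs
  obtain ⟨r, hr⟩ : ∃ r : K, A.val 0 0 + A.val 1 1 = s + r :=
    ⟨A.val 0 0 + A.val 1 1 - s, by ring⟩
  have hsr : s * r = 1 := by
    rw [hr] at hs
    linear_combination -hs
  have hrB : B.val 0 0 + B.val 1 1 = s + r := by rw [← htr, hr]
  have hs' : r * r - (B.val 0 0 + B.val 1 1) * r + 1 = 0 := by
    rw [hrB]
    linear_combination -hsr
  obtain ⟨e, he, hA0, hA1⟩ := nf_ex A.val hA s hs
  obtain ⟨f, hf, hB0, hB1⟩ := nf_ex B.val hB r hs'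
  have hd : e 0 * f 1 - e 1 * f 0 ≠ 0 := by
    intro h
    obtain ⟨c, hc0, hc1⟩ := nf_par e f he h
    have hc : c ≠ 0 := by
      rintro rfl
      apply hf
      ext i
      fin_cases i
      · simpa using hc0
      · simpa using hc1
    refine hne ⟨e, s, r, he, nf_ev _ _ _ hA0 hA1, nf_ev _ _ _ ?_ ?_⟩
    · apply mul_left_cancel₀ hc
      rw [hc0, hc1] at hB0
      linear_combination hB0
    · apply mul_left_cancel₀ hc
      rw [hc0, hc1] at hB1
      linear_combination hB1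
  obtain ⟨a, ha⟩ : ∃ a : K, a = f 1 * (A.val 0 0 * f 0 + A.val 0 1 * f 1) -
      f 0 * (A.val 1 0 * f 0 + A.val 1 1 * f 1) := ⟨_, rfl⟩
  have ha0 : a ≠ 0 := by
    rintro rfl
    obtain ⟨c, hc0, hc1⟩ := nf_par f ![A.val 0 0 * f 0 + A.val 0 1 * f 1,
      A.val 1 0 * f 0 + A.val 1 1 * f 1] hf (by simp; linear_combination ha)
    exact hne ⟨f, c, r, hf, nf_ev _ _ _ (by simpa using hc0) (by simpa using hc1),
      nf_ev _ _ _ hB0 hB1⟩
  obtain ⟨b, hb⟩ : ∃ b : K, b = e 1 * (B.val 0 0 * e 0 + B.val 0 1 * e 1) -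
      e 0 * (B.val 1 0 * e 0 + B.val 1 1 * e 1) := ⟨_, rfl⟩
  have hb0 : b ≠ 0 := by
    rintro rfl
    obtain ⟨c, hc0, hc1⟩ := nf_par e ![B.val 0 0 * e 0 + B.val 0 1 * e 1,
      B.val 1 0 * e 0 + B.val 1 1 * e 1] he (by simp; linear_combination hb)
    exact hne ⟨e, s, c, he, nf_ev _ _ _ hA0 hA1,
      nf_ev _ _ _ (by simpa using hc0) (by simpa using hc1)⟩
  obtain ⟨y, hy⟩ := IsAlgClosed.exists_pow_nat_eq a⁻¹ (n := 2) (by norm_num)
  have hy0 : y ≠ 0 := by
    rintro rfl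
    rw [zero_pow two_ne_zero] at hy
    exact inv_ne_zero ha0 hy.symm
  have hya : y ^ 2 * a = 1 := by rw [hy, inv_mul_cancel₀ ha0]
  obtain ⟨x, hx⟩ : ∃ x : K, x * y * (e 0 * f 1 - e 1 * f 0) = 1 :=
    ⟨(y * (e 0 * f 1 - e 1 * f 0))⁻¹, by
      rw [mul_assoc, inv_mul_cancel₀ (mul_ne_zero hy0 hd)]⟩
  have hx0 : x ≠ 0 := by
    rintro rfl
    rw [zero_mul, zero_mul] at hx
    exact zero_ne_one hx
  let P : SL2 K := ⟨!![y * f 1, -(y * f 0); -(x * e 1), x * e 0], by
    rw [Matrix.det_fin_two_of]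
    linear_combination hx⟩
  have hP : P.val = !![y * f 1, -(y * f 0); -(x * e 1), x * e 0] := rfl
  refine ⟨P, s, r, x ^ 2 * b, hsr, mul_ne_zero (pow_ne_zero 2 hx0) hb0, ?_, ?_⟩
  · rw [Matrix.SpecialLinearGroup.coe_mul, Matrix.SpecialLinearGroup.coe_mul,
      Matrix.SpecialLinearGroup.coe_inv, hP, Matrix.adjugate_fin_two_of,
      Matrix.eta_fin_two A.val, Matrix.mul_fin_two, Matrix.mul_fin_two]
    ext i j
    fin_cases i <;> fin_cases j <;> simp
    · linear_combination (y * f 1 * x) * hA0 - (y * f 0 * x) * hA1 + s * hx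
    · linear_combination hya - y ^ 2 * ha
    · linear_combination (-(x ^ 2 * e 1)) * hA0 + (x ^ 2 * e 0) * hA1
    · linear_combination -(y * f 1 * x) * hA0 + (y * f 0 * x) * hA1 - s * hx +
        (A.val 0 0 + A.val 1 1) * hx + hr
  · rw [Matrix.SpecialLinearGroup.coe_mul, Matrix.SpecialLinearGroup.coe_mul,
      Matrix.SpecialLinearGroup.coe_inv, hP, Matrix.adjugate_fin_two_of,
      Matrix.eta_fin_two B.val, Matrix.mul_fin_two, Matrix.mul_fin_two]
    ext i j
    fin_cases i <;> fin_cases j <;> simp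
    · linear_combination (x * e 1 * y) * hB0 - (x * e 0 * y) * hB1 - r * hx +
        (B.val 0 0 + B.val 1 1) * hx + hrB
    · linear_combination (y ^ 2 * f 1) * hB0 - (y ^ 2 * f 0) * hB1
    · linear_combination (x ^ 2) * hb
    · linear_combination (-(x * e 1 * y)) * hB0 + (x * e 0 * y) * hB1 + r * hx

end Pool.Agent.F8
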