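import Pool.Agent.Lib.MP_305fdd_al.F8.StmC

/-!
# [F8 pwl]: homomorphisms to commutative groups are powers of the abelianisation
-/

set_option autoImplicit false

namespace Pool.Agent.F8

open Pool.Agent.MP_305fdd_al Pool.Agent.Lib.MP_305fdd_al Pool.Agent.F2X
open scoped QuadraticAlgebra

/-- Every homomorphism from `Λ` to a commutative group factors through `n`. -/
theorem pf_pwl : S_pwl := by
  intro Λ _ n hn A _ f
  obtain ⟨hs, hk⟩ := hn
  obtain ⟨l, hl⟩ := hs (Multiplicative.ofAdd 1)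
  refine ⟨f l, ?_⟩
  ext x
  have h1 : x * (l ^ (Multiplicative.toAdd (n x)))⁻¹ ∈ n.ker := by
    rw [MonoidHom.mem_ker, map_mul, map_inv, map_zpow, hl]
    apply Multiplicative.toAdd.injective
    simp
  have h2 := hk A f h1
  rw [MonoidHom.mem_ker, map_mul, map_inv, map_zpow, mul_inv_eq_one] at h2
  rw [h2]
  show _ = pw (f l) (n x)
  rw [← ofAdd_toAdd (n x), pw_ofAdd, toAdd_ofAdd]

end Pool.Agent.F8
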