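import Pool.Agent.Lib.MP_305fdd_al.F8.StmC

set_option autoImplicit false

namespace Pool.Agent.F8

open Pool.Agent.MP_305fdd_al Pool.Agent.Lib.MP_305fdd_al Pool.Agent.F2X

theorem pf_q1 (hspf : S_spf) (hspq : S_spq) (hs1 : S_s1) (hs2 : S_s2) : S_q1 := by
  intro K _ _ Λ _ _ n N hn
  have h2 : (2 : K) ≠ 0 := two_ne_zero
  refine ⟨fun hG => ?_, fun hG => ?_⟩
  · obtain ⟨m, Θ, x, h⟩ := hs1 K Λ n N h2 hn hG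
    obtain ⟨k, hk, hf, hs⟩ := hspf K Λ N m Θ x
    exact ⟨⟨k, hk, hf, h k hs⟩, (h (AlgebraicClosure ℚ) (hspq K Λ N m Θ x)).2⟩
  · obtain ⟨m, Θ, x, h⟩ := hs2 K Λ n N h2 hn hG
    obtain ⟨k, hk, hf, hs⟩ := hspf K Λ N m Θ x
    exact ⟨⟨k, hk, hf, h k hs⟩, (h (AlgebraicClosure ℚ) (hspq K Λ N m Θ x)).2⟩

end Pool.Agent.F8
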