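import Pool.Agent.Lib.MP_305fdd_al.F8.StmB

/-!
# MP_305fdd_al, figure-eight knot group: piece `ril`, Riley's polynomial
-/

set_option autoImplicit false

namespace Pool.Agent.F8

/-- [F8 ril] -/
theorem pf_ril : S_ril := by
  intro R _ s r z A B hs hA hB hrel
  have hAi : (A⁻¹).val = !![r, -1; 0, s] := by
    rw [Matrix.SpecialLinearGroup.coe_inv, hA, Matrix.adjugate_fin_two_of]; simp
  have hBi : (B⁻¹).val = !![r, 0; z, s] := by
    rw [Matrix.SpecialLinearGroup.coe_inv, hB, Matrix.adjugate_fin_two_of]; simp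
  have h : A * (B * A⁻¹ * B⁻¹ * A) = (B * A⁻¹ * B⁻¹ * A) * B := by
    calc A * (B * A⁻¹ * B⁻¹ * A) = (A * B * A⁻¹) * (B⁻¹ * A) := by group
      _ = (B * A⁻¹ * B⁻¹ * A * B * A⁻¹ * B) * (B⁻¹ * A) := by rw [hrel]
      _ = _ := by group
  have h' := congrArg (fun M : SL2 R => M.val 0 1) h
  simp only [Matrix.SpecialLinearGroup.coe_mul, hA, hB, hAi, hBi, Matrix.mul_fin_two,
    Matrix.of_apply, Matrix.cons_val', Matrix.cons_val_zero, Matrix.cons_val_one,
    Matrix.cons_val_fin_one] at h'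
  linear_combination h' - (-r ^ 2 + 3 * s * r - s ^ 2 + 5 * z + 5) * hs

end Pool.Agent.F8
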