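import Pool.Agent.Lib.MP_305fdd_al.F8.StmC

set_option autoImplicit false

namespace Pool.Agent.F8

open Pool.Agent.MP_305fdd_al Pool.Agent.Lib.MP_305fdd_al Pool.Agent.F2X
open scoped QuadraticAlgebra

private theorem s1_umap_inj {R S : Type} [CommRing R] [CommRing S] (f : R →+* S)
    (hf : Function.Injective f) : Function.Injective (Units.map f.toMonoidHom) := by
  intro a b h
  apply Units.ext
  apply hf
  exact congrArg Units.val h

private theorem s1_SLm_inj {R S : Type} [CommRing R] [CommRing S] (f : R →+* S)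
    (hf : Function.Injective f) : Function.Injective (SLm f) := by
  intro a b h
  apply Subtype.ext
  ext i j
  apply hf
  exact congrArg (fun M : SL2 S => M.val i j) h

theorem pf_s1 (hwm : S_wm) : S_s1 := by
  classical
  intro K _ Λ _ n N h2 hn hG
  obtain ⟨τ, hτ, hP⟩ := hG
  choose Θ ht hm hNC using hP
  have hNC' : ∀ i, ∃ (g h : Λ) (c : Fin 2), Q2.W (Θ i g) (Θ i h) c ≠ 0 := by
    intro i
    obtain ⟨g, h, hgh⟩ := hNC i
    obtain ⟨c, hc⟩ := Function.ne_iff.1 hgh
    exact ⟨g, h, c, hc⟩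
  choose g h c hW using hNC'
  let x' : (Fin N ⊕ (Fin N × Fin N) ⊕ Unit) → K := fun a => match a with
    | Sum.inl i => Q2.W (Θ i (g i)) (Θ i (h i)) (c i)
    | Sum.inr (Sum.inl ij) => (τ ij.1).val - (τ ij.2).val
    | Sum.inr (Sum.inr _) => 2
  let e := Fintype.equivFin (Fin N ⊕ (Fin N × Fin N) ⊕ Unit)
  refine ⟨_, Θ, x' ∘ e.symm, ?_⟩
  intro k _ hS
  obtain ⟨R, π, Θ', hΘ', hxR, hxπ⟩ := hS
  have hxR' : ∀ a, x' a ∈ R := by
    intro a
    have := hxR (e a)
    simpa using this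
  have hxπ' : ∀ a (ha : x' a ∈ R), x' a ≠ 0 → π ⟨x' a, ha⟩ ≠ 0 := by
    intro a ha h0
    have h1 : (x' ∘ e.symm) (e a) = x' a := by simp
    have h3 := hxπ (e a) (h1 ▸ ha) (by rw [h1]; exact h0)
    have h4 : (⟨(x' ∘ e.symm) (e a), h1 ▸ ha⟩ : R) = ⟨x' a, ha⟩ := Subtype.ext h1
    rwa [h4] at h3
  have hri : Function.Injective R.subtype := Subtype.val_injective
  obtain ⟨l₀, hl₀⟩ := hn (Multiplicative.ofAdd 1)
  have hΘv : ∀ i l, Q2.map R.subtype (Θ' i l) = Θ i l := fun i l =>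
    DFunLike.congr_fun (hΘ' i) l
  have htl : ∀ i l, (Θ i l).t = pw (τ i) (n l) := fun i l =>
    DFunLike.congr_fun (ht i) l
  have hml : ∀ i l, (Θ i l).m = 1 := fun i l => DFunLike.congr_fun (hm i) l
  let t : Fin N → Rˣ := fun i => (Θ' i l₀).t
  have htt : ∀ i, Units.map R.subtype.toMonoidHom (t i) = τ i := by
    intro i
    have h1 : (Q2.map R.subtype (Θ' i l₀)).t = (Θ i l₀).t := by rw [hΘv]
    rw [Q2.map_t, htl, hl₀, pw_ofAdd, zpow_one] at h1
    exact h1
  have hB : ∀ i l, (Θ' i l).t = pw (t i) (n l) := by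
    intro i l
    apply s1_umap_inj R.subtype hri
    have h1 : (Q2.map R.subtype (Θ' i l)).t = (Θ i l).t := by rw [hΘv]
    rw [Q2.map_t, htl] at h1
    rw [h1]
    show pw (τ i) (n l) = Units.map R.subtype.toMonoidHom (zpowersHom _ (t i) (n l))
    rw [zpowersHom_apply, zpowersHom_apply, map_zpow, htt]
  have hC : ∀ i l, (Θ' i l).m = 1 := by
    intro i l
    apply s1_SLm_inj R.subtype hri
    have h1 : (Q2.map R.subtype (Θ' i l)).m = (Θ i l).m := by rw [hΘv]
    rw [Q2.map_m, hml] at h1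
    rw [h1, map_one]
  refine ⟨?_, fun i => Units.map π.toMonoidHom (t i), ?_, ?_⟩
  · have h1 := hxπ' (Sum.inr (Sum.inr ())) (hxR' (Sum.inr (Sum.inr ()))) h2
    have h3 : (⟨x' (Sum.inr (Sum.inr ())), hxR' (Sum.inr (Sum.inr ()))⟩ : R) = 2 := Subtype.ext rfl
    rw [h3, map_ofNat] at h1
    exact h1
  · intro i j hij
    by_contra hne
    have h1 := hxπ' (Sum.inr (Sum.inl (i, j))) (hxR' (Sum.inr (Sum.inl (i, j)))) (by
      show (τ i).val - (τ j).val ≠ 0
      intro h0
      exact hne (hτ (Units.ext (sub_eq_zero.1 h0))))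
    apply h1
    have h3 : (⟨x' (Sum.inr (Sum.inl (i, j))), hxR' (Sum.inr (Sum.inl (i, j)))⟩ : R) = (t i).val - (t j).val := by
      apply Subtype.ext
      show (τ i).val - (τ j).val = (((t i).val : R) : K) - (((t j).val : R) : K)
      rw [← htt i, ← htt j]
      rfl
    rw [h3, map_sub, sub_eq_zero]
    exact congrArg Units.val hij
  · intro i
    refine ⟨(Q2.map π).comp (Θ' i), ?_, ?_, g i, h i, ?_⟩
    · ext l
      show (Units.map π.toMonoidHom (Θ' i l).t).val =
        (zpowersHom _ (Units.map π.toMonoidHom (t i)) (n l)).val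
      rw [hB, zpowersHom_apply, zpowersHom_apply, map_zpow]
    · apply MonoidHom.ext
      intro l
      show SLm π (Θ' i l).m = 1
      rw [hC, map_one]
    · intro h0
      have h1 : Q2.W (Q2.map π (Θ' i (g i))) (Q2.map π (Θ' i (h i))) (c i) = 0 :=
        congrFun h0 (c i)
      rw [hwm] at h1
      have h3 : R.subtype (Q2.W (Θ' i (g i)) (Θ' i (h i)) (c i)) =
          Q2.W (Θ i (g i)) (Θ i (h i)) (c i) := by
        rw [← hwm, hΘv, hΘv]
      have h4 : (⟨x' (Sum.inl i), hxR' (Sum.inl i)⟩ : R) = Q2.W (Θ' i (g i)) (Θ' i (h i)) (c i) :=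
        Subtype.ext h3.symm
      have h5 := hxπ' (Sum.inl i) (hxR' (Sum.inl i)) (hW i)
      rw [h4] at h5
      exact h5 h1

end Pool.Agent.F8
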