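import Pool.Agent.Lib.MP_305fdd_al.F8.StmC

/-!
# s2: specialisation of `Good2`
-/

set_option autoImplicit false

namespace Pool.Agent.F8

open Pool.Agent.MP_305fdd_al Pool.Agent.Lib.MP_305fdd_al Pool.Agent.F2X

theorem s2_ch {R S Λ : Type} [CommRing R] [CommRing S] [Group Λ] (f : R →+* S) (Θ : Λ →* Q2 R)
    (g : Λ) : ch ((Q2.map f).comp Θ) g = f (ch Θ g) := tr_map f (Θ g).m

theorem s2_pw {Λ : Type} [Group Λ] {A B : Type} [Group A] [Group B] (f : A →* B) (a : A)
    (n : Λ →* Multiplicative ℤ) (g : Λ) : f ((pw a).comp n g) = (pw (f a)).comp n g := by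
  show f (zpowersHom A a (n g)) = zpowersHom B (f a) (n g)
  rw [zpowersHom_apply, zpowersHom_apply, map_zpow]

theorem s2_pw1 {Λ : Type} [Group Λ] {A : Type} [Group A] (a : A)
    (n : Λ →* Multiplicative ℤ) (l : Λ) (hl : n l = Multiplicative.ofAdd 1) :
    (pw a).comp n l = a := by
  show zpowersHom A a (n l) = a
  rw [hl, zpowersHom_apply, toAdd_ofAdd, zpow_one]

/-- the scalar part of the specialisation -/
theorem s2_scalar {K k Λ : Type} [Field K] [Field k] [Group Λ] (n : Λ →* Multiplicative ℤ)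
    (hn : Function.Surjective n) (Θ : Λ →* Q2 K) (R : Subring K) (π : R →+* k)
    (Θ' : Λ →* Q2 R) (h : (Q2.map R.subtype).comp Θ' = Θ) (τ : Kˣ)
    (hτ : τ.val * τ.val = 4 * τ.val - 1) (ht : Q2.tH.comp Θ = (pw τ).comp n) :
    ∃ σ : kˣ, σ.val * σ.val = 4 * σ.val - 1 ∧
      Q2.tH.comp ((Q2.map π).comp Θ') = (pw σ).comp n := by
  obtain ⟨l, hl⟩ := hn (Multiplicative.ofAdd 1)
  have hΘ : ∀ g, Units.map R.subtype.toMonoidHom (Θ' g).t = (Θ g).t := by
    intro g
    rw [← h]; rfl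
  have hinj : Function.Injective (Units.map R.subtype.toMonoidHom) :=
    Units.map_injective Subtype.val_injective
  have htl : ∀ g, (Θ g).t = (pw τ).comp n g := fun g => DFunLike.congr_fun ht g
  have hl1 : Units.map R.subtype.toMonoidHom (Θ' l).t = τ := by
    rw [hΘ, htl, s2_pw1 τ n l hl]
  have hall : ∀ g, (Θ' g).t = (pw (Θ' l).t).comp n g := by
    intro g
    apply hinj
    rw [hΘ, htl, s2_pw, hl1]
  have heq : (Θ' l).t.val * (Θ' l).t.val = 4 * (Θ' l).t.val - 1 := by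
    apply Subtype.val_injective
    have h1 : (((Θ' l).t.val : R) : K) = τ.val := congrArg Units.val hl1
    push_cast
    rw [h1]
    exact hτ
  refine ⟨Units.map π.toMonoidHom (Θ' l).t, map_unit_eq0 π heq, ?_⟩
  ext1 g
  show Units.map π.toMonoidHom (Θ' g).t = _
  rw [hall, s2_pw]

theorem pf_s2 (hwm : S_wm) : S_s2 := by
  intro K _ Λ _ n N h2 hn hG
  obtain ⟨Θ, hP, hd⟩ := hG
  choose hτ hI hN using hP
  choose τ hτ1 hτ2 using hτ
  choose a b hab using hI
  choose c d hcd using hN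
  have hcd' : ∀ i, ∃ s, Q2.W (Θ i (c i)) (Θ i (d i)) s ≠ 0 := fun i => by
    by_contra hc
    push Not at hc
    exact hcd i (funext hc)
  choose s hs using hcd'
  have hd' : ∀ p : Fin N × Fin N, ∃ g, p.1 ≠ p.2 → ch (Θ p.1) g ≠ ch (Θ p.2) g := fun p => by
    by_cases hp : p.1 = p.2
    · exact ⟨1, fun h => absurd hp h⟩
    · obtain ⟨g, hg⟩ := hd p.1 p.2 hp
      exact ⟨g, fun _ => hg⟩
  choose g hg using hd'
  let y : Option (Fin N ⊕ Fin N ⊕ (Fin N × Fin N)) → K := fun o => match o with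
    | none => 2
    | some (.inl i) => ch (Θ i) (a i * b i * (a i)⁻¹ * (b i)⁻¹) - 2
    | some (.inr (.inl i)) => Q2.W (Θ i (c i)) (Θ i (d i)) (s i)
    | some (.inr (.inr p)) => ch (Θ p.1) (g p) - ch (Θ p.2) (g p)
  let e := Fintype.equivFin (Option (Fin N ⊕ Fin N ⊕ (Fin N × Fin N)))
  refine ⟨_, Θ, fun j => y (e.symm j), ?_⟩
  intro k _ hS
  obtain ⟨R, π, Θ', hΘ', hx, hπ⟩ := hS
  have key : ∀ (r : R) o, (r : K) = y o → (r : K) ≠ 0 → π r ≠ 0 := by
    intro r o hr h0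
    have hyo : y (e.symm (e o)) = y o := by rw [Equiv.symm_apply_apply]
    have hmem : y (e.symm (e o)) ∈ R := hx (e o)
    have h1 := hπ (e o) hmem (by show y (e.symm (e o)) ≠ 0; rw [hyo, ← hr]; exact h0)
    have h3 : (⟨y (e.symm (e o)), hmem⟩ : R) = r := Subtype.ext (hyo.trans hr.symm)
    rwa [h3] at h1
  have hch : ∀ i l, ((ch (Θ' i) l : R) : K) = ch (Θ i) l := by
    intro i l
    rw [← hΘ' i, s2_ch]; rfl
  constructor
  · have h1 := key 2 none rfl h2
    rwa [map_ofNat] at h1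
  · refine ⟨fun i => (Q2.map π).comp (Θ' i), ?_, ?_⟩
    · intro i
      refine ⟨s2_scalar n hn (Θ i) R π (Θ' i) (hΘ' i) (τ i) (hτ1 i) (hτ2 i), ?_, ?_⟩
      · refine ⟨a i, b i, fun hc => ?_⟩
        have hc' : ch ((Q2.map π).comp (Θ' i)) (a i * b i * (a i)⁻¹ * (b i)⁻¹) = 2 := hc
        rw [s2_ch] at hc'
        refine key (ch (Θ' i) (a i * b i * (a i)⁻¹ * (b i)⁻¹) - 2) (some (.inl i)) ?_ ?_ ?_
        · show _ = ch (Θ i) (a i * b i * (a i)⁻¹ * (b i)⁻¹) - 2
          rw [← hch]; rfl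
        · intro h0
          apply hab i
          show ch (Θ i) (a i * b i * (a i)⁻¹ * (b i)⁻¹) = 2
          rw [← hch]
          have h3 : (((ch (Θ' i) (a i * b i * (a i)⁻¹ * (b i)⁻¹) : R) : K)) - 2 = 0 := h0
          exact sub_eq_zero.1 h3
        · rw [map_sub, hc', map_ofNat, sub_self]
      · refine ⟨c i, d i, fun hc => ?_⟩
        have hc' := congrFun hc (s i)
        have hc2 : Q2.W (Q2.map π (Θ' i (c i))) (Q2.map π (Θ' i (d i))) (s i) = 0 := hc'
        rw [hwm] at hc2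
        have hK : ((Q2.W (Θ' i (c i)) (Θ' i (d i)) (s i) : R) : K) =
            Q2.W (Θ i (c i)) (Θ i (d i)) (s i) := by
          have := hwm R K R.subtype (Θ' i (c i)) (Θ' i (d i)) (s i)
          rw [← hΘ' i]
          exact this.symm
        refine key (Q2.W (Θ' i (c i)) (Θ' i (d i)) (s i)) (some (.inr (.inl i))) ?_ ?_ hc2
        · rw [hK]
        · rw [hK]; exact hs i
    · intro i j hij
      refine ⟨g (i, j), fun hc => ?_⟩
      rw [s2_ch, s2_ch] at hc
      refine key (ch (Θ' i) (g (i, j)) - ch (Θ' j) (g (i, j))) (some (.inr (.inr (i, j)))) ?_ ?_ ?_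
      · show _ = ch (Θ i) (g (i, j)) - ch (Θ j) (g (i, j))
        rw [← hch, ← hch]; rfl
      · intro h0
        apply hg (i, j) hij
        show ch (Θ i) (g (i, j)) = ch (Θ j) (g (i, j))
        rw [← hch, ← hch]
        have h3 : ((ch (Θ' i) (g (i, j)) : R) : K) - ((ch (Θ' j) (g (i, j)) : R) : K) = 0 := h0
        exact sub_eq_zero.1 h3
      · rw [map_sub, hc, sub_self]

end Pool.Agent.F8
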