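import Pool.Agent.Lib.MP_305fdd_al.F8.StmC
import Pool.Agent.Lib.MP_305fdd_al.Rep.Krull

/-!
# MP_305fdd_al, figure-eight knot group: piece [F8 spf], specialisation to a finite field
-/

set_option autoImplicit false

namespace Pool.Agent.F8

open Pool.Agent.MP_305fdd_al Pool.Agent.Lib.MP_305fdd_al Pool.Agent.F2X

private theorem spf_finite (R : Type) [CommRing R] [Algebra.FiniteType ℤ R] (𝔪 : Ideal R)
    (h𝔪 : 𝔪.IsMaximal) : Finite (R ⧸ 𝔪) := by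
  let F : Field (R ⧸ 𝔪) := Ideal.Quotient.field 𝔪
  have h1 : @Algebra.FiniteType ℤ (R ⧸ 𝔪) _ _
      (@Ring.toIntAlgebra (R ⧸ 𝔪) F.toDivisionRing.toRing) := by
    have h2 : Algebra.FiniteType ℤ (R ⧸ 𝔪) :=
      Algebra.FiniteType.of_surjective (Ideal.Quotient.mkₐ ℤ 𝔪) (Ideal.Quotient.mkₐ_surjective ℤ 𝔪)
    convert h2
    · rfl
    · exact Subsingleton.elim _ _
  exact @Pool.Agent.Lib.MP_305fdd_al.Rep.finite_of_finiteType (R ⧸ 𝔪) F h1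

theorem pf_spf (hdes : S_des) : S_spf := by
  intro K _ Λ _ _ n m Θ x
  obtain ⟨R, Θ', hft, hΘ, hx⟩ := hdes K Λ n m Θ x
  obtain ⟨𝔪, h𝔪⟩ := Ideal.exists_maximal R
  have hfin : Finite (R ⧸ 𝔪) := @spf_finite R _ hft 𝔪 h𝔪
  refine ⟨R ⧸ 𝔪, Ideal.Quotient.field 𝔪, hfin, R, Ideal.Quotient.mk 𝔪, Θ', hΘ, fun j => (hx j).1, ?_⟩
  intro j h hne h0
  have hmul : (⟨x j, h⟩ : R) * ⟨(x j)⁻¹, (hx j).2⟩ = 1 := by
    apply Subtype.ext
    exact mul_inv_cancel₀ hne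
  have hmem : (⟨x j, h⟩ : R) ∈ 𝔪 := Ideal.Quotient.eq_zero_iff_mem.1 h0
  apply h𝔪.ne_top
  rw [Ideal.eq_top_iff_one, ← hmul]
  exact 𝔪.mul_mem_right _ hmem

end Pool.Agent.F8
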