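import Pool.Agent.Lib.MP_305fdd_al.F8.StmC

/-!
# MP_305fdd_al: piece [F8 spq], specialisation to the algebraic closure of `ℚ`
-/

set_option autoImplicit false

namespace Pool.Agent.F8

open Pool.Agent.MP_305fdd_al Pool.Agent.Lib.MP_305fdd_al Pool.Agent.F2X

/-- a nonzero finitely generated `ℚ`-algebra has a homomorphism to the algebraic closure of `ℚ` -/
private theorem spq_alg (B : Type) [CommRing B] [Nontrivial B] [Algebra ℚ B]
    (hB : Algebra.FiniteType ℚ B) : Nonempty (B →+* AlgebraicClosure ℚ) := by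
  obtain ⟨I, hI⟩ := Ideal.exists_maximal B
  let _ : Field (B ⧸ I) := Ideal.Quotient.field I
  have hq : Algebra.FiniteType ℚ (B ⧸ I) :=
    Algebra.FiniteType.of_surjective (Ideal.Quotient.mkₐ ℚ I) (Ideal.Quotient.mkₐ_surjective ℚ I)
  have hfin : Module.Finite ℚ (B ⧸ I) := finite_of_finite_type_of_isJacobsonRing ℚ (B ⧸ I)
  have halg : Algebra.IsAlgebraic ℚ (B ⧸ I) := Algebra.IsAlgebraic.of_finite ℚ (B ⧸ I)
  let l : (B ⧸ I) →ₐ[ℚ] AlgebraicClosure ℚ := IsAlgClosed.lift
  exact ⟨l.toRingHom.comp (Ideal.Quotient.mk I)⟩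

/-- a subring of a field of characteristic zero which is finitely generated over `ℤ` has a
homomorphism to the algebraic closure of `ℚ` -/
private theorem spq_hom (K : Type) [Field K] [CharZero K] (R : Subring K)
    (hft : Algebra.FiniteType ℤ R) : Nonempty (R →+* AlgebraicClosure ℚ) := by
  classical
  obtain ⟨s, hs⟩ := hft.out
  let B : Subalgebra ℚ K := Algebra.adjoin ℚ (((s.image (Subtype.val : R → K)) : Finset K) : Set K)
  have hB : Algebra.FiniteType ℚ B :=
    (Subalgebra.fg_iff_finiteType B).1 (Subalgebra.fg_adjoin_finset _)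
  have hRB : ∀ y : R, (y : K) ∈ B := by
    intro y
    have hy : y ∈ Algebra.adjoin ℤ (s : Set R) := by rw [hs]; exact Algebra.mem_top
    induction hy using Algebra.adjoin_induction with
    | mem z hz =>
      apply Algebra.subset_adjoin
      rw [Finset.coe_image]
      exact ⟨z, hz, rfl⟩
    | algebraMap r =>
      have : ((algebraMap ℤ R r : R) : K) = (r : K) := by simp
      rw [this]
      exact intCast_mem B r
    | add u v _ _ hu hv => exact B.add_mem hu hv
    | mul u v _ _ hu hv => exact B.mul_mem hu hv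
  let j : R →+* B := R.subtype.codRestrict B.toSubring hRB
  obtain ⟨l⟩ := spq_alg B hB
  exact ⟨l.comp j⟩

theorem pf_spq (hdes : S_des) : S_spq := by
  intro K _ _ Λ _ _ n m Θ x
  obtain ⟨R, Θ', hft, hΘ, hx⟩ := hdes K Λ n m Θ x
  obtain ⟨π⟩ := spq_hom K R hft
  refine ⟨R, π, Θ', hΘ, fun j => (hx j).1, ?_⟩
  intro j h hne h0
  have h1 : (⟨x j, h⟩ : R) * ⟨(x j)⁻¹, (hx j).2⟩ = 1 := by
    apply Subtype.ext
    exact mul_inv_cancel₀ hne
  have h2 := congrArg π h1
  rw [map_mul, h0, zero_mul, map_one] at h2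
  exact zero_ne_one h2

end Pool.Agent.F8
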