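import Pool.Agent.Lib.MP_305fdd_al.F8.StmB

set_option autoImplicit false

namespace Pool.Agent.F8

open Pool.Agent.MP_305fdd_al Pool.Agent.Lib.MP_305fdd_al Pool.Agent.F2X
open scoped QuadraticAlgebra

/-- the meridians are conjugate -/
theorem pf_tab : S_tab := by
  have h1 : aa * (bb * aa⁻¹ * bb⁻¹ * aa) = (bb * aa⁻¹ * bb⁻¹ * aa) * bb := by
    have h := ab_rel
    calc aa * (bb * aa⁻¹ * bb⁻¹ * aa) = (aa * bb * aa⁻¹) * bb⁻¹ * aa := by group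
      _ = (bb * aa⁻¹ * bb⁻¹ * aa * bb * aa⁻¹ * bb) * bb⁻¹ * aa := by rw [h]
      _ = _ := by group
  refine ⟨⟨_, rfl, h1⟩, ?_⟩
  intro R _ ρ
  have h2 : ρ bb = (ρ (bb * aa⁻¹ * bb⁻¹ * aa))⁻¹ * ρ aa * ρ (bb * aa⁻¹ * bb⁻¹ * aa) := by
    rw [mul_assoc, ← map_mul, h1, map_mul ρ (bb * aa⁻¹ * bb⁻¹ * aa) bb, inv_mul_cancel_left]
  rw [h2]
  unfold tr
  rw [Matrix.SpecialLinearGroup.coe_mul, Matrix.trace_mul_comm,
    ← Matrix.SpecialLinearGroup.coe_mul, mul_inv_cancel_left]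

end Pool.Agent.F8
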