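import Pool.Agent.Lib.MP_305fdd_al.F8.StmC

/-!
# MP_305fdd_al, figure-eight knot group: the piece u1
-/

set_option autoImplicit false

namespace Pool.Agent.F8

open Pool.Agent.MP_305fdd_al Pool.Agent.Lib.MP_305fdd_al Pool.Agent.F2X

private theorem u1_roots {k : Type} [Field k] (x y z : k) (hx : x * x = 3 * x - 1)
    (hy : y * y = 3 * y - 1) (hz : z * z = 3 * z - 1) (hxy : x ≠ y) (hxz : x ≠ z) (hyz : y ≠ z) :
    False := by
  have h1 : (x - y) * (x + y - 3) = 0 := by linear_combination hx - hy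
  have h2 : (x - z) * (x + z - 3) = 0 := by linear_combination hx - hz
  have h3 : x + y - 3 = 0 := (mul_eq_zero.mp h1).resolve_left (sub_ne_zero.mpr hxy)
  have h4 : x + z - 3 = 0 := (mul_eq_zero.mp h2).resolve_left (sub_ne_zero.mpr hxz)
  exact hyz (by linear_combination h3 - h4)

theorem pf_u1 (hq1 : S_q1) (hm1 : S_m1) (hB1 : S_B1) : S_u1 := by
  intro Λ _ _ Φ n hn K _ _ hG
  obtain ⟨k, hk, hf, -, hk3⟩ := ((hq1 K Λ n 3 hn).1 hG).1
  obtain ⟨τ, hτ, hP⟩ := hm1 Λ Φ n hn k 3 hk3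
  have h : ∀ i, (τ i).val * (τ i).val = 3 * (τ i).val - 1 := fun i => hB1 k (τ i) (hP i)
  have hne : ∀ i j, i ≠ j → (τ i).val ≠ (τ j).val := by
    intro i j hij he
    exact hij (hτ (Units.ext he))
  exact u1_roots _ _ _ (h 0) (h 1) (h 2) (hne 0 1 (by decide)) (hne 0 2 (by decide))
    (hne 1 2 (by decide))

end Pool.Agent.F8
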