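import Pool.Agent.Lib.MP_305fdd_al.F8.StmC

/-!
# [F8 u2] at most two characters with `P2` in characteristic zero
-/

set_option autoImplicit false

namespace Pool.Agent.F8

/-- [F8 u2] at most two characters with `P2` in characteristic zero. -/
theorem pf_u2 (hq1 : S_q1) (hm2 : S_m2) (hG2 : S_G2) : S_u2 := by
  intro Λ _ _ Φ n hn hex K _ _ hgood
  obtain ⟨k, _, _, h2, hk⟩ := ((hq1 K Λ n 3 hn).2 hgood).1
  obtain ⟨Θ, hP, hne⟩ := hm2 Λ Φ n hex k 3 hk
  obtain ⟨i, j, hij, h⟩ := hG2 k h2 Θ hP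
  obtain ⟨g, hg⟩ := hne i j hij
  exact hg (h g)

end Pool.Agent.F8
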