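import Pool.Agent.Lib.MP_305fdd_al.F8.StmB

/-!
# MP_305fdd_al, figure-eight knot group: [F8 van] vanishing translation part
-/

set_option autoImplicit false

namespace Pool.Agent.F8

open Pool.Agent.MP_305fdd_al Pool.Agent.Lib.MP_305fdd_al Pool.Agent.F2X
open scoped QuadraticAlgebra

/-- The affine maps without translation part. -/
private def van_S (R : Type) [CommRing R] : Subgroup (Q2 R) where
  carrier := {x | x.v = 0}
  one_mem' := rfl
  mul_mem' := by
    intro x y hx hy
    rw [Set.mem_ofPred_eq] at hx hy ⊢
    rw [Q2.mul_v, hx, hy, Matrix.mulVec_zero, smul_zero, add_zero]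
  inv_mem' := by
    intro x hx
    rw [Set.mem_ofPred_eq] at hx ⊢
    rw [Q2.inv_v, hx, Matrix.mulVec_zero, smul_zero, neg_zero]

private theorem van_top (H : Subgroup G8) (hu : uu ∈ H) (hv : vv ∈ H) (ha : aa ∈ H) (g : G8) :
    g ∈ H := by
  rw [← SemidirectProduct.inl_left_mul_inr_right g]
  apply H.mul_mem
  · have h : ∀ w : F, (SemidirectProduct.inl w : G8) ∈ H := by
      intro w
      induction w using FreeGroup.induction_on with
      | C1 => rw [map_one]; exact H.one_mem
      | of i =>
        fin_cases i
        · exact hu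
        · exact hv
      | inv_of i hi => rw [map_inv]; exact H.inv_mem hi
      | mul x y hx hy => rw [map_mul]; exact H.mul_mem hx hy
    exact h g.left
  · have h : (SemidirectProduct.inr g.right : G8) = aa ^ (Multiplicative.toAdd g.right) := by
      unfold aa
      rw [← map_zpow, ← ofAdd_zsmul]
      simp
    rw [h]
    exact H.zpow_mem ha _

theorem pf_van : S_van := by
  intro R _ Θ hu hv ha
  have h : ∀ g, (Θ g).v = 0 := fun g => van_top ((van_S R).comap Θ) hu hv ha g
  refine ⟨h, ?_⟩
  rintro ⟨g, k, hgk⟩
  apply hgk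
  unfold Q2.W
  rw [h g, h k, Matrix.mulVec_zero, Matrix.mulVec_zero, smul_zero, sub_zero]

end Pool.Agent.F8
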