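import Pool.Agent.Lib.MP_305fdd_al.F8.StmA

/-!
# MP_305fdd_al, figure-eight knot group: [F8 A] main result of part A
-/

set_option autoImplicit false

namespace Pool.Agent.F8

open Pool.Agent.MP_305fdd_al Pool.Agent.Lib.MP_305fdd_al Pool.Agent.F2X
open scoped QuadraticAlgebra

private theorem A_congr {Λ : Type} [Group Λ] (n : Λ →* Multiplicative ℤ) (m : ℕ) {e e' : ℤ}
    (h : (m : ℤ) ∣ e - e') :
    (redZ m).comp ((zpowGroupHom e).comp n) = (redZ m).comp ((zpowGroupHom e').comp n) := by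
  have h1 : (e : ZMod m) = (e' : ZMod m) := by
    rw [← sub_eq_zero, ← Int.cast_sub, ZMod.intCast_zmod_eq_zero_iff_dvd]
    exact h
  apply MonoidHom.ext
  intro l
  apply Multiplicative.toAdd.injective
  show Multiplicative.toAdd (redZ m ((n l) ^ e)) = Multiplicative.toAdd (redZ m ((n l) ^ e'))
  rw [map_zpow (redZ m) (n l) e, map_zpow (redZ m) (n l) e', toAdd_zpow, toAdd_zpow, zsmul_eq_mul,
    zsmul_eq_mul, h1]

theorem pf_A (habL : S_abL) (hex : S_ex) (hexd : S_exd) (hA1 : S_A1) (hA2 : S_A2) (hA4 : S_A4)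
    (hA5 : S_A5) (hA6 : S_A6) : S_A := by
  intro Λ _ _ hs Φ
  obtain ⟨n₀, hn₀⟩ := habL Λ hs
  have he : ∀ m : ℕ, ∃ e : ℤ, ∀ _ : NeZero m, Ex Φ n₀ m e ∧ IsCoprime e (m : ℤ) := by
    intro m
    by_cases hm : m = 0
    · exact ⟨1, fun h => absurd hm h.out⟩
    · have : NeZero m := ⟨hm⟩
      obtain ⟨e, h1, h2⟩ := hex Λ Φ n₀ hn₀ m
      exact ⟨e, fun _ => ⟨h1, h2⟩⟩
  choose e he using he
  have hσ : ∀ (p : ℕ) [Fact p.Prime], ∃ σ : (Qd 3 ℤ_[p])ˣ, Sig Φ n₀ p σ :=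
    fun p _ => hA1 Λ Φ n₀ hn₀ p
  choose σ hσ using hσ
  obtain ⟨a₀, ha₀⟩ := hA4 Λ Φ n₀ hn₀ (fun p _ => σ p) (fun p _ => hσ p)
    (fun p _ => (hA2 Λ Φ n₀ hn₀ p (σ p) (hσ p)).2)
  have hnz : ∀ m : ℕ, 0 < m → NeZero m := fun m hm => ⟨hm.ne'⟩
  rcases hA6 a₀ e (fun m hm => (he m (hnz m hm)).2)
    (fun m m' hm hm' hd => by
      have := hnz m hm
      have := hnz m' hm'
      exact hexd Λ Φ n₀ hn₀.1 m m' (e m) (e m') hd (he m inferInstance).1 (he m' inferInstance).1)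
    (fun M m hM hm ht => by
      have := hnz m hm
      have := hnz M hM
      exact hA5 Λ Φ n₀ (fun p _ => σ p) (fun p _ => hσ p) a₀ ha₀ M m (e m)
        (he m inferInstance).1 ht) with h | h
  · refine ⟨n₀, hn₀, ?_⟩
    intro m hm
    have h1 := (he m hm).1
    have h2 := h m (Nat.pos_of_ne_zero hm.out)
    unfold Ex at h1 ⊢
    rw [h1]
    exact A_congr n₀ m h2
  · refine ⟨(zpowGroupHom (-1)).comp n₀, ⟨?_, ?_⟩, ?_⟩
    · intro x
      obtain ⟨l, hl⟩ := hn₀.1 (x ^ (-1 : ℤ))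
      refine ⟨l, ?_⟩
      show (n₀ l) ^ (-1 : ℤ) = x
      rw [hl, zpow_neg_one, zpow_neg_one, inv_inv]
    · intro A _ f x hx
      apply hn₀.2 A f
      rw [MonoidHom.mem_ker] at hx ⊢
      have h1 : (n₀ x) ^ (-1 : ℤ) = 1 := hx
      rwa [zpow_neg_one, inv_eq_one] at h1
    · intro m hm
      have h1 := (he m hm).1
      have h2 := h m (Nat.pos_of_ne_zero hm.out)
      unfold Ex at h1 ⊢
      rw [h1]
      have h3 : (zpowGroupHom (1 : ℤ)).comp ((zpowGroupHom (-1 : ℤ)).comp n₀) =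
          (zpowGroupHom (-1 : ℤ)).comp n₀ := by
        apply MonoidHom.ext
        intro l
        show ((n₀ l) ^ (-1 : ℤ)) ^ (1 : ℤ) = (n₀ l) ^ (-1 : ℤ)
        rw [zpow_one]
      rw [h3]
      exact A_congr n₀ m (by rw [sub_neg_eq_add]; exact h2)

end Pool.Agent.F8
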