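import Pool.Agent.Lib.MP_305fdd_al.F8.StmB

/-!
# MP_305fdd_al, figure-eight knot group, piece [F8 Bc]: part B over an algebraically closed field
-/

set_option autoImplicit false

namespace Pool.Agent.F8

open Pool.Agent.MP_305fdd_al Pool.Agent.Lib.MP_305fdd_al Pool.Agent.F2X
open scoped QuadraticAlgebra

private lemma Bc_tr {R : Type} [CommRing R] (P X : SL2 R) : tr (P * X * P⁻¹) = tr X := by
  unfold tr
  rw [Matrix.SpecialLinearGroup.coe_mul, Matrix.trace_mul_comm,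
    ← Matrix.SpecialLinearGroup.coe_mul, inv_mul_cancel_left]

private lemma Bc_inj {R : Type} [CommRing R] (P : SL2 R) (v : Fin 2 → R)
    (h : P.val.mulVec v = 0) : v = 0 := by
  have h1 : (P⁻¹ * P).val.mulVec v = 0 := by
    rw [Matrix.SpecialLinearGroup.coe_mul, ← Matrix.mulVec_mulVec, h, Matrix.mulVec_zero]
  rw [inv_mul_cancel, Matrix.SpecialLinearGroup.coe_one, Matrix.one_mulVec] at h1
  exact h1

/-- conjugation of an affine representation -/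
private def Bc_cj {R : Type} [CommRing R] (q : Q2 R) (Θ : G8 →* Q2 R) : G8 →* Q2 R :=
  (MulAut.conj q).toMonoidHom.comp Θ

private lemma Bc_cj_apply {R : Type} [CommRing R] (q : Q2 R) (Θ : G8 →* Q2 R) (g : G8) :
    Bc_cj q Θ g = q * Θ g * q⁻¹ := rfl

private lemma Bc_cj_t {R : Type} [CommRing R] (q : Q2 R) (Θ : G8 →* Q2 R) :
    Q2.tH.comp (Bc_cj q Θ) = Q2.tH.comp Θ := by
  ext1 g
  show (q * Θ g * q⁻¹).t = (Θ g).t
  simp

private lemma Bc_cj_m {R : Type} [CommRing R] (q : Q2 R) (Θ : G8 →* Q2 R) (g : G8) :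
    (Bc_cj q Θ g).m = q.m * (Θ g).m * q.m⁻¹ := rfl

private lemma Bc_cj_NC {K : Type} [Field K] (hwc : S_wc) (q : Q2 K) (Θ : G8 →* Q2 K)
    (h : NC Θ) : NC (Bc_cj q Θ) := by
  obtain ⟨g, k, hgk⟩ := h
  refine ⟨g, k, ?_⟩
  rw [Bc_cj_apply, Bc_cj_apply, hwc]
  intro h0
  apply hgk
  apply Bc_inj q.m
  exact (smul_eq_zero.mp h0).resolve_left (Units.ne_zero q.t)

theorem pf_Bc (hwc : S_wc) (hvan : S_van) (hir : S_ir) (htab : S_tab) (hnf : S_nf)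
    (hril : S_ril) (hdM : S_dM) (hcoc : S_coc) : S_Bc := by
  intro K _ _ Θ τ h1 hI hN
  obtain ⟨P, s, r, z, hsr, hz, hA, hB⟩ := hnf K ((Q2.mH.comp Θ) aa) ((Q2.mH.comp Θ) bb)
    (htab.2 K (Q2.mH.comp Θ)) (hir K (Q2.mH.comp Θ) hI)
  -- first conjugation
  set Θ1 := Bc_cj ⟨1, P, 0⟩ Θ with hΘ1
  have hm1 : ∀ g, (Θ1 g).m = P * (Θ g).m * P⁻¹ := fun g => Bc_cj_m _ _ g
  -- the matrix of `v`
  set V : SL2 K := (Θ1 vv).m with hV
  have hVAB : V = (Θ1 aa).m⁻¹ * (Θ1 bb).m := by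
    rw [hV, vv_eq, map_mul, map_inv]
    rfl
  have hA1 : (Θ1 aa).m.val = !![s, 1; 0, r] := by rw [hm1]; exact hA
  have hB1 : (Θ1 bb).m.val = !![s, 0; -z, r] := by rw [hm1]; exact hB
  have hVd : (V.val - 1).det = -z := by
    rw [hVAB, Matrix.SpecialLinearGroup.coe_mul, Matrix.SpecialLinearGroup.coe_inv, hA1, hB1,
      Matrix.adjugate_fin_two_of, Matrix.mul_fin_two, Matrix.det_fin_two]
    simp
    linear_combination (z + s * r - 1) * hsr - z * hsr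
  have hVu : IsUnit (V.val - 1).det := by
    rw [hVd]; exact (neg_ne_zero.mpr hz).isUnit
  -- second conjugation
  set v0 : Fin 2 → K := (V.val - 1)⁻¹.mulVec (Θ1 vv).v with hv0
  have hv0' : (V.val - 1).mulVec v0 = (Θ1 vv).v := by
    rw [hv0, Matrix.mulVec_mulVec, Matrix.mul_nonsing_inv _ hVu, Matrix.one_mulVec]
  set Θ2 := Bc_cj ⟨1, 1, v0⟩ Θ1 with hΘ2
  have hm2 : ∀ g, (Θ2 g).m = (Θ1 g).m := by
    intro g
    rw [hΘ2, Bc_cj_m]
    simp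
  have ht2 : Q2.tH.comp Θ2 = (pw τ).comp n8 := by
    rw [hΘ2, Bc_cj_t, hΘ1, Bc_cj_t, h1]
  have hN2 : NC Θ2 := Bc_cj_NC hwc _ _ (Bc_cj_NC hwc _ _ hN)
  have htv : (Θ1 vv).t = 1 := by
    have h2 : Q2.tH.comp Θ1 = (pw τ).comp n8 := by rw [hΘ1, Bc_cj_t, h1]
    have h3 := DFunLike.congr_fun h2 vv
    rw [MonoidHom.comp_apply, MonoidHom.comp_apply, n8_vv, map_one] at h3
    exact h3
  have hv2 : (Θ2 vv).v = 0 := by
    rw [hΘ2, Bc_cj_apply]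
    simp only [Q2.mul_v, Q2.mul_t, Q2.mul_m, Q2.inv_v, Q2.inv_t, Q2.inv_m, htv, mul_one, one_mul,
      Units.val_one, one_smul, inv_one, Matrix.SpecialLinearGroup.coe_one, Matrix.one_mulVec,
      Matrix.mulVec_neg]
    rw [← hv0', Matrix.sub_mulVec, Matrix.one_mulVec, ← hV]
    abel
  -- Riley's polynomial
  have hA2 : (Θ2 aa).m.val = !![s, 1; 0, r] := by rw [hm2]; exact hA1
  have hB2 : (Θ2 bb).m.val = !![s, 0; -z, r] := by rw [hm2]; exact hB1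
  have hrel : (Θ2 aa).m * (Θ2 bb).m * (Θ2 aa).m⁻¹ = (Θ2 bb).m * (Θ2 aa).m⁻¹ * (Θ2 bb).m⁻¹ *
      (Θ2 aa).m * (Θ2 bb).m * (Θ2 aa).m⁻¹ * (Θ2 bb).m := by
    have h4 := congrArg (fun g => (Q2.mH.comp Θ2) g) ab_rel
    simp only [map_mul, map_inv] at h4
    exact h4
  have hR := hril K s r z (Θ2 aa).m (Θ2 bb).m hsr hA2 hB2 hrel
  -- the traces
  have hchx : ∀ g, ch Θ g = tr (Θ2 g).m := by
    intro g
    rw [hm2, hm1, Bc_tr]
    rfl
  have hx : ch Θ aa = s + r := by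
    rw [hchx, tr_eq, hA2]
    simp
  have hy : ch Θ (aa * bb⁻¹) - 2 = z := by
    rw [hchx, tr_eq]
    have h5 : (Θ2 (aa * bb⁻¹)).m = (Θ2 aa).m * (Θ2 bb).m⁻¹ := by
      rw [map_mul, map_inv]; rfl
    rw [h5, Matrix.SpecialLinearGroup.coe_mul, Matrix.SpecialLinearGroup.coe_inv, hA2, hB2,
      Matrix.adjugate_fin_two_of, Matrix.mul_fin_two]
    simp
    linear_combination 2 * hsr
  rw [hx, hy]
  refine ⟨?_, hR⟩
  by_contra hne
  have hdet : (Mt τ.val (Θ2 aa).m (Θ2 bb).m).det ≠ 0 := by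
    rw [hdM K s r z τ.val (Θ2 aa).m (Θ2 bb).m hsr hA2 hB2 hR]
    exact mul_ne_zero (neg_ne_zero.mpr hz) hne
  obtain ⟨c1, c2⟩ := hcoc K Θ2 τ ht2 hv2
  have ha0 : (Θ2 aa).v = 0 := Matrix.eq_zero_of_mulVec_eq_zero hdet c2
  have hu0 : (Θ2 uu).v = 0 := by rw [c1, ha0, Matrix.mulVec_zero]
  exact (hvan K Θ2 hu0 hv2 ha0).2 hN2

end Pool.Agent.F8
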