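import Pool.Agent.Lib.MP_305fdd_al.F8.StmC

set_option autoImplicit false

namespace Pool.Agent.F8

open Pool.Agent.MP_305fdd_al Pool.Agent.Lib.MP_305fdd_al Pool.Agent.F2X
open scoped QuadraticAlgebra

/-- the section `m ↦ (1, m, 0)` -/
def L2_sec (R : Type) [CommRing R] : SL2 R →* Q2 R where
  toFun m := ⟨1, m, 0⟩
  map_one' := rfl
  map_mul' x y := by
    apply Q2.ext
    · simp
    · simp
    · simp

theorem L2_mH_sec (R : Type) [CommRing R] : Q2.mH.comp (L2_sec R) = MonoidHom.id _ := rfl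

theorem L2_map_sec {R S : Type} [CommRing R] [CommRing S] (f : R →+* S) :
    (Q2.map f).comp (L2_sec R) = (L2_sec S).comp (SLm f) := by
  ext1 m
  apply Q2.ext
  · show Units.map f.toMonoidHom 1 = 1
    simp
  · rfl
  · ext i
    show f 0 = 0
    simp

theorem L2_mH_map {R S : Type} [CommRing R] [CommRing S] (f : R →+* S) :
    Q2.mH.comp (Q2.map f) = (SLm f).comp Q2.mH := rfl

theorem L2_am {R S : Type} [CommRing R] [CommRing S] (f : R →+* S) :
    (SLm (E4m f)).comp (SLm (algebraMap (Es R) (E4 R))) =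
      (SLm (algebraMap (Es S) (E4 S))).comp (SLm (Qd.map (-1) f)) := by
  ext1 m
  apply Subtype.ext
  ext i j
  · show (Qd.map 4 (Qd.map (-1) f) (algebraMap (Es R) (E4 R) (m.val i j))).re.re =
      (algebraMap (Es S) (E4 S) (Qd.map (-1) f (m.val i j))).re.re
    simp [Qd.map_apply, QuadraticAlgebra.algebraMap_eq]
  · show (Qd.map 4 (Qd.map (-1) f) (algebraMap (Es R) (E4 R) (m.val i j))).re.im =
      (algebraMap (Es S) (E4 S) (Qd.map (-1) f (m.val i j))).re.im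
    simp [Qd.map_apply, QuadraticAlgebra.algebraMap_eq]
  · show (Qd.map 4 (Qd.map (-1) f) (algebraMap (Es R) (E4 R) (m.val i j))).im.re =
      (algebraMap (Es S) (E4 S) (Qd.map (-1) f (m.val i j))).im.re
    simp [Qd.map_apply, QuadraticAlgebra.algebraMap_eq]
  · show (Qd.map 4 (Qd.map (-1) f) (algebraMap (Es R) (E4 R) (m.val i j))).im.im =
      (algebraMap (Es S) (E4 S) (Qd.map (-1) f (m.val i j))).im.im
    simp [Qd.map_apply, QuadraticAlgebra.algebraMap_eq]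

theorem pf_L2 (hlz : S_lz) (hlq : S_lq) (hlh : S_lh) (hmT : S_mT) : S_L2 := by
  intro Λ _ Φ p _
  have hl1 : IsLim (Es ℤ_[p]) (fun k => Es (ZMod (p ^ k)))
      (fun k => Qd.map (-1) (PadicInt.toZModPow k)) (fun k => Qd.map (-1) (tz p k)) :=
    hlq (-1) ℤ_[p] _ _ _ (hlz p)
  have hl4 : IsLim (E4 ℤ_[p]) (fun k => E4 (ZMod (p ^ k)))
      (fun k => E4m (PadicInt.toZModPow k)) (fun k => E4m (tz p k)) :=
    hlq 4 (Es ℤ_[p]) _ _ _ hl1
  obtain ⟨Θ, hΘ⟩ := hlh (E4 ℤ_[p]) (fun k => E4 (ZMod (p ^ k))) _ _ hl4 Λ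
    (fun k => Φ.toFun _ (T2 (ZMod (p ^ k)))) (by
      intro k
      show (Q2.map (E4m (tz p k))).comp (Φ.toFun _ (T2 (ZMod (p ^ (k + 1))))) =
        Φ.toFun _ (T2 (ZMod (p ^ k)))
      rw [← Φ.nat, (hmT _ _ (tz p k)).2.1])
  obtain ⟨Θ', hΘ'⟩ := hlh (Es ℤ_[p]) (fun k => Es (ZMod (p ^ k))) _ _ hl1 Λ
    (fun k => Φ.toFun _ ((L2_sec _).comp (r8 (ZMod (p ^ k))))) (by
      intro k
      show (Q2.map (Qd.map (-1) (tz p k))).comp
        (Φ.toFun _ ((L2_sec _).comp (r8 (ZMod (p ^ (k + 1)))))) =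
        Φ.toFun _ ((L2_sec _).comp (r8 (ZMod (p ^ k))))
      rw [← Φ.nat, ← MonoidHom.comp_assoc, L2_map_sec, MonoidHom.comp_assoc,
        (hmT _ _ (tz p k)).2.2.1])
  have hr : ∀ k : ℕ, (SLm (Qd.map (-1) (PadicInt.toZModPow k))).comp (Q2.mH.comp Θ') =
      Φ.toFun _ (r8 (ZMod (p ^ k))) := by
    intro k
    have h1 := congrArg (fun f => Q2.mH.comp f) (hΘ' k)
    rw [← MonoidHom.comp_assoc, L2_mH_map, MonoidHom.comp_assoc] at h1
    rw [h1, ← Φ.nat, ← MonoidHom.comp_assoc, L2_mH_sec, MonoidHom.id_comp]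
  refine ⟨Θ, Q2.mH.comp Θ', ?_, hΘ, hr⟩
  have key : ∀ k : ℕ, (SLm (E4m (PadicInt.toZModPow k))).comp (Q2.mH.comp Θ) =
      (SLm (E4m (PadicInt.toZModPow k))).comp
        ((SLm (algebraMap (Es ℤ_[p]) (E4 ℤ_[p]))).comp (Q2.mH.comp Θ')) := by
    intro k
    have h1 : (SLm (E4m (PadicInt.toZModPow k))).comp (Q2.mH.comp Θ) =
        Q2.mH.comp ((Q2.map (E4m (PadicInt.toZModPow k))).comp Θ) := rfl
    rw [h1, hΘ k, ← MonoidHom.comp_assoc, L2_am, MonoidHom.comp_assoc, hr k, ← Φ.nat, ← Φ.nat,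
      (hmT (ZMod (p ^ k)) (ZMod (p ^ k)) (RingHom.id _)).2.2.2]
  ext1 l
  apply Subtype.ext
  apply Matrix.ext
  intro i j
  obtain ⟨y, _, hy⟩ := hl4.2 (fun k => E4m (PadicInt.toZModPow k) ((Θ l).m.val i j)) (by
    intro k
    exact DFunLike.congr_fun (hl4.1 k) _)
  have e1 := hy ((Θ l).m.val i j) fun k => rfl
  have e2 := hy (((SLm (algebraMap (Es ℤ_[p]) (E4 ℤ_[p]))) (Θ' l).m).val i j) (by
    intro k
    have := DFunLike.congr_fun (key k) l
    exact (congrArg (fun m : SL2 (E4 (ZMod (p ^ k))) => m.val i j) this).symm)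
  exact e1.trans e2.symm

end Pool.Agent.F8
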