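import Pool.Agent.Lib.MP_305fdd_al.F8.StmB
import Pool.Agent.Lib.MP_305fdd_al.PSL.PChar

/-!
# MP_305fdd_al, figure-eight knot group: proof of `S_tg`
-/

set_option autoImplicit false

namespace Pool.Agent.F8

open Pool.Agent.MP_305fdd_al Pool.Agent.Lib.MP_305fdd_al Pool.Agent.F2X
open scoped QuadraticAlgebra

private theorem tg_pchar {K : Type} [Field K] (ρ : G8 →* SL2 K) :
    Pool.Agent.PSL2Z.PChar (1 : G8 →* ℤˣ) (fun g => tr (ρ g)) where
  one := by
    show tr (ρ 1) = 2
    rw [map_one, tr_eq]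
    simp
    norm_num
  comm g h := by
    show tr (ρ (g * h)) = tr (ρ (h * g))
    rw [map_mul, map_mul]
    unfold tr
    rw [Matrix.SpecialLinearGroup.coe_mul, Matrix.SpecialLinearGroup.coe_mul]
    exact Matrix.trace_mul_comm _ _
  rel g h := by
    show tr (ρ (g * h)) + ((((1 : G8 →* ℤˣ) h : ℤˣ) : ℤ) : K) * tr (ρ (g * h⁻¹)) =
      tr (ρ g) * tr (ρ h)
    have h3 := Pool.Agent.PSL2Z.trace_adjugate (ρ g).val (ρ h).val
    rw [map_mul, map_mul, map_inv, MonoidHom.one_apply, Units.val_one, Int.cast_one, one_mul]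
    unfold tr
    rw [Matrix.SpecialLinearGroup.coe_mul, Matrix.SpecialLinearGroup.coe_mul,
      Matrix.SpecialLinearGroup.coe_inv]
    exact h3

private theorem tg_gen : Subgroup.closure ({aa, bb⁻¹} : Set G8) = ⊤ := by
  rw [eq_top_iff]
  intro g _
  have ha : aa ∈ Subgroup.closure ({aa, bb⁻¹} : Set G8) := Subgroup.subset_closure (by simp)
  have hb : bb ∈ Subgroup.closure ({aa, bb⁻¹} : Set G8) := by
    have h : bb⁻¹ ∈ Subgroup.closure ({aa, bb⁻¹} : Set G8) := Subgroup.subset_closure (by simp)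
    exact (Subgroup.inv_mem_iff _).1 h
  have hu : uu ∈ Subgroup.closure ({aa, bb⁻¹} : Set G8) := by
    rw [uu_eq]; exact mul_mem hb (inv_mem ha)
  have hv : vv ∈ Subgroup.closure ({aa, bb⁻¹} : Set G8) := by
    rw [vv_eq]; exact mul_mem (inv_mem ha) hb
  have hw : ∀ w : F, (SemidirectProduct.inl w : G8) ∈
      Subgroup.closure ({aa, bb⁻¹} : Set G8) := by
    intro w
    have h : w ∈ Subgroup.comap (SemidirectProduct.inl : F →* G8)
        (Subgroup.closure ({aa, bb⁻¹} : Set G8)) := by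
      have h2 : Subgroup.closure (Set.range (FreeGroup.of : Fin 2 → F)) ≤
          Subgroup.comap (SemidirectProduct.inl : F →* G8)
            (Subgroup.closure ({aa, bb⁻¹} : Set G8)) := by
        rw [Subgroup.closure_le]
        rintro _ ⟨i, rfl⟩
        fin_cases i
        · exact hu
        · exact hv
      rw [FreeGroup.closure_range_of] at h2
      exact h2 (Subgroup.mem_top w)
    exact h
  have hn : ∀ n : Multiplicative ℤ, (SemidirectProduct.inr n : G8) ∈
      Subgroup.closure ({aa, bb⁻¹} : Set G8) := by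
    intro n
    have h : (SemidirectProduct.inr n : G8) = aa ^ (Multiplicative.toAdd n) := by
      unfold aa
      rw [← map_zpow]
      congr 1
      rw [← ofAdd_zsmul]
      simp
    rw [h]
    exact zpow_mem ha _
  rw [← SemidirectProduct.inl_left_mul_inr_right g]
  exact mul_mem (hw _) (hn _)

/-- characters of `G8` are determined by their values on `a, b, a b⁻¹` -/
theorem pf_tg : S_tg := by
  intro K _ ρ ρ' h1 h2 h3 g
  have hy : tr (ρ bb⁻¹) = tr (ρ' bb⁻¹) := by
    have e1 := (tg_pchar ρ).inv bb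
    have e2 := (tg_pchar ρ').inv bb
    rw [MonoidHom.one_apply, Units.val_one, Int.cast_one, one_mul] at e1 e2
    calc tr (ρ bb⁻¹) = tr (ρ bb) := e1
      _ = tr (ρ' bb) := h2
      _ = tr (ρ' bb⁻¹) := e2.symm
  exact congrFun (Pool.Agent.PSL2Z.PChar.unique tg_gen (tg_pchar ρ) (tg_pchar ρ') h1 hy h3) g

end Pool.Agent.F8
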