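import Pool.Agent.Lib.MP_305fdd_al.F8.StmHN

set_option autoImplicit false

namespace Pool.Agent.F8.HN

open Pool.Agent.MP_305fdd_al Pool.Agent.Lib.MP_305fdd_al Pool.Agent.F2X Pool.Agent.F8

theorem p_twA (hcmp : S_cmpA) (hhol : H.S_hol) : S_twA := by
  intro α Λ _ Φ nL hs hc l₀ hl₀ N _ _ g τ hg
  obtain ⟨θ, hθ1, hθ2⟩ := hhol Λ N nL l₀ hl₀ g τ hg
  have : Finite (N ⋊[MonoidHom.id (MulAut N)] MulAut N) :=
    Finite.of_equiv _ SemidirectProduct.equivProd.symm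
  have hΦ : Φ.toFun _ (Φ.invFun _ θ) = θ := Φ.right_inv _ θ
  generalize Φ.invFun _ θ = θ' at hΦ
  have key1 : ∀ γ : GA α, ∃ l, nL l = nA α γ ∧ θ l = θ' γ := by
    intro γ
    obtain ⟨l, h1, h2⟩ := (hcmp α Λ Φ nL hs hc _ θ' (θ' γ) (nA α γ)).1 ⟨γ, rfl, rfl⟩
    rw [hΦ] at h2
    exact ⟨l, h1, h2⟩
  have key2 : ∀ l : Λ, ∃ γ, nA α γ = nL l ∧ θ' γ = θ l := by
    intro l
    exact (hcmp α Λ Φ nL hs hc _ θ' (θ l) (nL l)).2 ⟨l, rfl, by rw [hΦ]⟩
  have hx : ∀ w : F, ∃ x : nL.ker, θ' (iA α w) = SemidirectProduct.inl (g x) := by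
    intro w
    obtain ⟨l, h1, h2⟩ := key1 (iA α w)
    rw [nA_iA] at h1
    exact ⟨⟨l, h1⟩, by rw [← h2, ← hθ1]⟩
  choose x hx using hx
  have hinj : Function.Injective
      (SemidirectProduct.inl : N →* N ⋊[MonoidHom.id (MulAut N)] MulAut N) :=
    SemidirectProduct.inl_injective
  let g' : F →* N :=
    { toFun := fun w => g (x w)
      map_one' := by
        apply hinj
        rw [← hx 1, map_one, map_one, map_one]
      map_mul' := by
        intro a b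
        apply hinj
        rw [← hx (a * b), map_mul, map_mul, hx a, hx b, map_mul] }
  have hg' : ∀ w : F, θ' (iA α w) = SemidirectProduct.inl (g' w) := hx
  obtain ⟨l, hl1, hl2⟩ := key1 (tA α)
  rw [nA_tA] at hl1
  have hker : l * l₀⁻¹ ∈ nL.ker := by
    rw [MonoidHom.mem_ker, map_mul, map_inv, hl1, hl₀, mul_inv_cancel]
  have haa : θ' (tA α) =
      SemidirectProduct.inl (g ⟨l * l₀⁻¹, hker⟩) * SemidirectProduct.inr τ := by
    rw [← hl2, ← hθ1, ← hθ2, ← map_mul]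
    simp
  refine ⟨g', g ⟨l * l₀⁻¹, hker⟩, ?_, ⟨_, rfl⟩, ?_⟩
  · apply le_antisymm
    · rintro _ ⟨w, rfl⟩
      exact ⟨x w, rfl⟩
    · rintro _ ⟨z, rfl⟩
      obtain ⟨γ, h1, h2⟩ := key2 z
      have hz : nL z = 1 := z.2
      rw [hz] at h1
      obtain ⟨w, rfl⟩ := GA_ker α γ h1
      refine ⟨w, hinj ?_⟩
      rw [← hg', ← hθ1, ← h2]
  · intro w
    apply hinj
    rw [← hg', ← tA_conj, map_mul, map_mul, map_inv, haa, hg' w]
    rw [mul_inv_rev, ← map_inv, ← map_inv]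
    have e : (SemidirectProduct.inr τ : N ⋊[MonoidHom.id (MulAut N)] MulAut N) *
        SemidirectProduct.inl (g' w) * SemidirectProduct.inr τ⁻¹ =
        SemidirectProduct.inl (τ (g' w)) := by
      rw [← SemidirectProduct.inl_aut]
      rfl
    rw [map_mul, map_mul, ← e]
    simp only [mul_assoc]

end Pool.Agent.F8.HN
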